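import Pool.Agent.Helper96.Bern

/-!
Harris' inequality and Janson's inequality in the finite product Bernoulli space.
-/

open Finset

set_option linter.unusedSectionVars false

namespace Pool.Agent.Helper96

variable {E : Type*} [Fintype E] [DecidableEq E]

/-- An increasing event. -/
def IncrEv (A : (E → Bool) → Prop) : Prop := ∀ ω ω' : E → Bool, ω ≤ ω' → A ω → A ω'

/-- A decreasing event. -/
def DecrEv (A : (E → Bool) → Prop) : Prop := ∀ ω ω' : E → Bool, ω ≤ ω' → A ω' → A ω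

theorem IncrEv.not {A : (E → Bool) → Prop} (h : IncrEv A) : DecrEv (fun ω => ¬ A ω) :=
  fun ω ω' hω hA hA' => hA (h ω ω' hω hA')

theorem DecrEv.not {A : (E → Bool) → Prop} (h : DecrEv A) : IncrEv (fun ω => ¬ A ω) :=
  fun ω ω' hω hA hA' => hA (h ω ω' hω hA')

theorem wt_lattice (p : ℝ) (a b : E → Bool) :
    wt p a * wt p b = wt p (a ⊓ b) * wt p (a ⊔ b) := by
  simp only [wt, ← Finset.prod_mul_distrib]
  apply Finset.prod_congr rfl
  intro e _
  simp only [Pi.inf_apply, Pi.sup_apply]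
  rcases Bool.eq_false_or_eq_true (a e) with ha | ha <;>
    rcases Bool.eq_false_or_eq_true (b e) with hb | hb <;> simp [ha, hb, mul_comm]

/-- Harris' inequality for increasing functions. -/
theorem harris {p : ℝ} (h0 : 0 ≤ p) (h1 : p ≤ 1) {f g : (E → Bool) → ℝ}
    (hf0 : ∀ ω, 0 ≤ f ω) (hg0 : ∀ ω, 0 ≤ g ω) (hf : Monotone f) (hg : Monotone g) :
    ex p f * ex p g ≤ ex p (fun ω => f ω * g ω) := by
  have := fkg (μ := wt (E := E) p) (f := f) (g := g) (fun ω => wt_nonneg h0 h1 ω) hf0 hg0 hf hg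
    (fun a b => (wt_lattice p a b).le)
  rwa [sum_wt, one_mul] at this

theorem pr_mul_le_of_incr {p : ℝ} (h0 : 0 ≤ p) (h1 : p ≤ 1) {A B : (E → Bool) → Prop}
    (hA : IncrEv A) (hB : IncrEv B) : pr p A * pr p B ≤ pr p (fun ω => A ω ∧ B ω) := by
  classical
  have key : ∀ {A : (E → Bool) → Prop}, IncrEv A →
      Monotone (fun ω => if A ω then (1:ℝ) else 0) := by
    intro A hA ω ω' hω
    by_cases h : A ω
    · simp [h, hA ω ω' hω h]
    · simp only [h, if_false]
      split_ifs <;> norm_num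
  have h := harris h0 h1 (f := fun ω => if A ω then (1:ℝ) else 0)
    (g := fun ω => if B ω then (1:ℝ) else 0) (fun ω => by positivity) (fun ω => by positivity)
    (key hA) (key hB)
  refine h.trans (le_of_eq ?_)
  unfold pr
  congr 1
  ext ω
  by_cases hA : A ω <;> by_cases hB : B ω <;> simp [hA, hB]

theorem pr_and_add_and_not {p : ℝ} (A B : (E → Bool) → Prop) :
    pr p (fun ω => A ω ∧ B ω) + pr p (fun ω => A ω ∧ ¬ B ω) = pr p A := by
  classical
  unfold pr
  rw [← ex_add]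
  congr 1
  ext ω
  by_cases hA : A ω <;> by_cases hB : B ω <;> simp [hA, hB]

theorem pr_congr {p : ℝ} {A B : (E → Bool) → Prop} (h : ∀ ω, A ω ↔ B ω) : pr p A = pr p B := by
  congr 1
  ext ω
  exact h ω

theorem pr_le_mul_of_incr_decr {p : ℝ} (h0 : 0 ≤ p) (h1 : p ≤ 1) {A B : (E → Bool) → Prop}
    (hA : IncrEv A) (hB : DecrEv B) : pr p (fun ω => A ω ∧ B ω) ≤ pr p A * pr p B := by
  have h := pr_mul_le_of_incr h0 h1 hA hB.not
  rw [pr_not] at h
  have h2 := pr_and_add_and_not (p := p) A B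
  nlinarith

theorem pr_mul_le_of_decr {p : ℝ} (h0 : 0 ≤ p) (h1 : p ≤ 1) {A B : (E → Bool) → Prop}
    (hA : DecrEv A) (hB : DecrEv B) : pr p A * pr p B ≤ pr p (fun ω => A ω ∧ B ω) := by
  have h := pr_le_mul_of_incr_decr h0 h1 hA.not hB
  rw [pr_not] at h
  have h2 := pr_and_add_and_not (p := p) B A
  have h3 : pr p (fun ω => ¬ A ω ∧ B ω) = pr p (fun ω => B ω ∧ ¬ A ω) :=
    pr_congr fun ω => and_comm
  have h4 : pr p (fun ω => A ω ∧ B ω) = pr p (fun ω => B ω ∧ A ω) :=
    pr_congr fun ω => and_comm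
  rw [h4]
  rw [h3] at h
  nlinarith

theorem prod_pr_le_of_decr {ι : Type*} {p : ℝ} (h0 : 0 ≤ p) (h1 : p ≤ 1) (I : Finset ι)
    {A : ι → (E → Bool) → Prop} (hA : ∀ i ∈ I, DecrEv (A i)) :
    ∏ i ∈ I, pr p (A i) ≤ pr p (fun ω => ∀ i ∈ I, A i ω) := by
  classical
  induction I using Finset.induction_on with
  | empty => simp [pr_true]
  | insert a s ha ih =>
    rw [Finset.prod_insert ha]
    have hs : ∀ i ∈ s, DecrEv (A i) := fun i hi => hA i (Finset.mem_insert_of_mem hi)
    have h2 : DecrEv (fun ω => ∀ i ∈ s, A i ω) :=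
      fun ω ω' hω h i hi => hs i hi ω ω' hω (h i hi)
    have h3 := pr_mul_le_of_decr h0 h1 (hA a (Finset.mem_insert_self _ _)) h2
    refine (mul_le_mul_of_nonneg_left (ih hs) (pr_nonneg h0 h1 _)).trans (h3.trans ?_)
    refine pr_mono h0 h1 fun ω hω => ?_
    intro i hi
    rcases Finset.mem_insert.1 hi with rfl | hi
    · exact hω.1
    · exact hω.2 i hi

theorem DepOn.forall_mem {ι : Type*} [DecidableEq ι] {I : Finset ι}
    {A : ι → (E → Bool) → Prop} {U : ι → Finset E} (h : ∀ i ∈ I, DepOn (A i) (U i)) :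
    DepOn (fun ω => ∀ i ∈ I, A i ω) (I.biUnion U) := by
  intro ω ω' hω
  apply propext
  refine forall₂_congr fun i hi => ?_
  have := h i hi ω ω' fun e he => hω e (Finset.mem_biUnion.2 ⟨i, hi, he⟩)
  rw [this]

theorem pr_and_of_disjoint (p : ℝ) {U U' : Finset E} (hd : Disjoint U U')
    {A B : (E → Bool) → Prop} (hA : DepOn A U) (hB : DepOn B U') :
    pr p (fun ω => A ω ∧ B ω) = pr p A * pr p B := by
  classical
  unfold pr
  rw [← ex_mul_of_disjoint p hd (f := fun ω => if A ω then (1:ℝ) else 0)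
    (g := fun ω => if B ω then (1:ℝ) else 0)]
  · congr 1
    ext ω
    by_cases hA : A ω <;> by_cases hB : B ω <;> simp [hA, hB]
  · intro ω ω' hω
    have := hA ω ω' hω
    simp only [this]
  · intro ω ω' hω
    have := hB ω ω' hω
    simp only [this]

/-- The event that all coordinates in `T` are `true`. -/
def AllOn (T : Finset E) (ω : E → Bool) : Prop := ∀ e ∈ T, ω e = true

theorem AllOn.incr (T : Finset E) : IncrEv (AllOn T) := by
  intro ω ω' hω h e he
  have h1 := hω e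
  rw [h e he] at h1
  exact Bool.eq_true_of_true_le h1

theorem AllOn.depOn (T : Finset E) : DepOn (AllOn T) T := by
  intro ω ω' hω
  apply propext
  exact forall₂_congr fun e he => by rw [hω e he]

theorem allOn_union (T T' : Finset E) (ω : E → Bool) :
    AllOn (T ∪ T') ω ↔ AllOn T ω ∧ AllOn T' ω := by
  simp only [AllOn, Finset.mem_union]
  constructor
  · exact fun h => ⟨fun e he => h e (Or.inl he), fun e he => h e (Or.inr he)⟩
  · rintro ⟨h1, h2⟩ e (he | he)
    · exact h1 e he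
    · exact h2 e he

/-- **Janson's inequality**. -/
theorem janson {ι : Type*} [DecidableEq ι] {p : ℝ} (h0 : 0 ≤ p) (h1 : p ≤ 1) (I : Finset ι)
    (T : ι → Finset E) :
    pr p (fun ω => ∀ i ∈ I, ¬ AllOn (T i) ω) ≤
      Real.exp (-(∑ i ∈ I, p ^ (T i).card) +
        (1 / 2) * ∑ i ∈ I, ∑ j ∈ I with (j ≠ i ∧ ¬ Disjoint (T i) (T j)),
          p ^ (T i ∪ T j).card) := by
  induction I using Finset.induction_on with
  | empty => simp [pr_true]
  | insert a s ha ih =>
    set D : ℝ := p ^ (T a).card -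
      ∑ j ∈ s with (j ≠ a ∧ ¬ Disjoint (T a) (T j)), p ^ (T a ∪ T j).card with hD
    -- the one-step estimate
    have step : pr p (fun ω => ∀ i ∈ insert a s, ¬ AllOn (T i) ω) ≤
        pr p (fun ω => ∀ i ∈ s, ¬ AllOn (T i) ω) * (1 - D) := by
      set s1 := s.filter (fun j => j ≠ a ∧ ¬ Disjoint (T a) (T j)) with hs1
      set s2 := s.filter (fun j => Disjoint (T a) (T j)) with hs2
      have hBC : ∀ ω, (∀ i ∈ s, ¬ AllOn (T i) ω) ↔
          ((∀ i ∈ s1, ¬ AllOn (T i) ω) ∧ (∀ i ∈ s2, ¬ AllOn (T i) ω)) := by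
        intro ω
        constructor
        · intro h
          exact ⟨fun i hi => h i (Finset.mem_filter.1 hi).1,
            fun i hi => h i (Finset.mem_filter.1 hi).1⟩
        · rintro ⟨hb, hc⟩ i hi
          by_cases hdis : Disjoint (T a) (T i)
          · exact hc i (Finset.mem_filter.2 ⟨hi, hdis⟩)
          · exact hb i (Finset.mem_filter.2 ⟨hi, fun h => ha (h ▸ hi), hdis⟩)
      have hCdecr : DecrEv (fun ω => ∀ i ∈ s2, ¬ AllOn (T i) ω) :=
        fun ω ω' hω h i hi => (AllOn.incr (T i)).not ω ω' hω (h i hi)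
      -- P(A_a ∧ C) = P(A_a) P(C)
      have e1 : pr p (fun ω => AllOn (T a) ω ∧ ∀ i ∈ s2, ¬ AllOn (T i) ω) =
          p ^ (T a).card * pr p (fun ω => ∀ i ∈ s2, ¬ AllOn (T i) ω) := by
        rw [pr_and_of_disjoint p (U := T a) (U' := s2.biUnion T)]
        · congr 1
          exact pr_all_true p (T a)
        · rw [Finset.disjoint_biUnion_right]
          intro i hi
          exact (Finset.mem_filter.1 hi).2
        · exact AllOn.depOn _
        · refine DepOn.forall_mem fun i _ => ?_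
          intro ω ω' hω
          show (¬ AllOn (T i) ω) = (¬ AllOn (T i) ω')
          rw [AllOn.depOn (T i) ω ω' hω]
      -- union bound
      have e2 : pr p (fun ω => AllOn (T a) ω ∧ ∀ i ∈ s2, ¬ AllOn (T i) ω) ≤
          pr p (fun ω => AllOn (T a) ω ∧ ∀ i ∈ s, ¬ AllOn (T i) ω) +
          ∑ j ∈ s1, pr p (fun ω => (AllOn (T a) ω ∧ AllOn (T j) ω) ∧
            ∀ i ∈ s2, ¬ AllOn (T i) ω) := by
        refine le_trans ?_ (add_le_add le_rfl (pr_exists_le h0 h1 s1 _))
        refine le_trans ?_ (pr_or_le h0 h1 _ _)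
        refine pr_mono h0 h1 fun ω hω => ?_
        by_cases hs : ∀ i ∈ s1, ¬ AllOn (T i) ω
        · left
          exact ⟨hω.1, (hBC ω).2 ⟨hs, hω.2⟩⟩
        · right
          push Not at hs
          obtain ⟨j, hj, hAj⟩ := hs
          exact ⟨j, hj, ⟨hω.1, hAj⟩, hω.2⟩
      have e3 : ∀ j ∈ s1, pr p (fun ω => (AllOn (T a) ω ∧ AllOn (T j) ω) ∧
            ∀ i ∈ s2, ¬ AllOn (T i) ω) ≤
          p ^ (T a ∪ T j).card * pr p (fun ω => ∀ i ∈ s2, ¬ AllOn (T i) ω) := by
        intro j _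
        have h := pr_le_mul_of_incr_decr h0 h1 (AllOn.incr (T a ∪ T j)) hCdecr
        have h' : pr p (AllOn (T a ∪ T j)) = p ^ (T a ∪ T j).card := pr_all_true p _
        rw [h'] at h
        refine le_trans (le_of_eq ?_) h
        exact pr_congr fun ω => by rw [allOn_union]
      have e4 := Finset.sum_le_sum e3
      rw [← Finset.sum_mul] at e4
      -- combine
      have hPC : pr p (fun ω => ∀ i ∈ s, ¬ AllOn (T i) ω) ≤
          pr p (fun ω => ∀ i ∈ s2, ¬ AllOn (T i) ω) :=
        pr_mono h0 h1 fun ω hω => ((hBC ω).1 hω).2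
      have e5 : D * pr p (fun ω => ∀ i ∈ s, ¬ AllOn (T i) ω) ≤
          pr p (fun ω => AllOn (T a) ω ∧ ∀ i ∈ s, ¬ AllOn (T i) ω) := by
        have e6 : D * pr p (fun ω => ∀ i ∈ s2, ¬ AllOn (T i) ω) ≤
            pr p (fun ω => AllOn (T a) ω ∧ ∀ i ∈ s, ¬ AllOn (T i) ω) := by
          rw [hD, sub_mul, ← e1]
          linarith
        rcases le_or_gt 0 D with hD0 | hD0
        · exact (mul_le_mul_of_nonneg_left hPC hD0).trans e6
        · have := pr_nonneg h0 h1 (fun ω => ∀ i ∈ s, ¬ AllOn (T i) ω)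
          have h7 := pr_nonneg h0 h1 (fun ω => AllOn (T a) ω ∧ ∀ i ∈ s, ¬ AllOn (T i) ω)
          nlinarith
      have e7 := pr_and_add_and_not (p := p) (fun ω => ∀ i ∈ s, ¬ AllOn (T i) ω)
        (fun ω => AllOn (T a) ω)
      have e8 : pr p (fun ω => ∀ i ∈ insert a s, ¬ AllOn (T i) ω) =
          pr p (fun ω => (∀ i ∈ s, ¬ AllOn (T i) ω) ∧ ¬ AllOn (T a) ω) := by
        refine pr_congr fun ω => ?_
        rw [Finset.forall_mem_insert]
        exact and_comm
      have e9 : pr p (fun ω => (∀ i ∈ s, ¬ AllOn (T i) ω) ∧ AllOn (T a) ω) =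
          pr p (fun ω => AllOn (T a) ω ∧ ∀ i ∈ s, ¬ AllOn (T i) ω) :=
        pr_congr fun ω => and_comm
      rw [e8]
      rw [e9] at e7
      linarith
    have step2 : pr p (fun ω => ∀ i ∈ insert a s, ¬ AllOn (T i) ω) ≤
        pr p (fun ω => ∀ i ∈ s, ¬ AllOn (T i) ω) * Real.exp (-D) := by
      refine step.trans ?_
      refine mul_le_mul_of_nonneg_left ?_ (pr_nonneg h0 h1 _)
      have := Real.add_one_le_exp (-D)
      linarith
    refine step2.trans ((mul_le_mul_of_nonneg_right ih (Real.exp_pos _).le).trans ?_)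
    rw [← Real.exp_add]
    apply Real.exp_le_exp.2
    -- bookkeeping
    have b1 : ∑ i ∈ insert a s, p ^ (T i).card = p ^ (T a).card + ∑ i ∈ s, p ^ (T i).card :=
      Finset.sum_insert ha
    have b2 : ∑ i ∈ insert a s, ∑ j ∈ insert a s with (j ≠ i ∧ ¬ Disjoint (T i) (T j)),
          p ^ (T i ∪ T j).card =
        2 * (∑ j ∈ s with (j ≠ a ∧ ¬ Disjoint (T a) (T j)), p ^ (T a ∪ T j).card) +
        ∑ i ∈ s, ∑ j ∈ s with (j ≠ i ∧ ¬ Disjoint (T i) (T j)), p ^ (T i ∪ T j).card := by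
      rw [Finset.sum_insert ha]
      have c1 : ∑ j ∈ insert a s with (j ≠ a ∧ ¬ Disjoint (T a) (T j)), p ^ (T a ∪ T j).card =
          ∑ j ∈ s with (j ≠ a ∧ ¬ Disjoint (T a) (T j)), p ^ (T a ∪ T j).card := by
        rw [Finset.filter_insert]
        simp
      have c2 : ∀ i ∈ s, ∑ j ∈ insert a s with (j ≠ i ∧ ¬ Disjoint (T i) (T j)),
          p ^ (T i ∪ T j).card =
          (if ¬ Disjoint (T a) (T i) then p ^ (T a ∪ T i).card else 0) +
          ∑ j ∈ s with (j ≠ i ∧ ¬ Disjoint (T i) (T j)), p ^ (T i ∪ T j).card := by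
        intro i hi
        rw [Finset.filter_insert]
        have hai : a ≠ i := fun h => ha (h ▸ hi)
        by_cases hdis : Disjoint (T a) (T i)
        · simp [hai, hdis, disjoint_comm]
        · have hdis' : ¬ Disjoint (T i) (T a) := fun h => hdis h.symm
          rw [if_pos ⟨hai, hdis'⟩, Finset.sum_insert, if_pos hdis, Finset.union_comm]
          simp [ha]
      rw [c1, Finset.sum_congr rfl c2, Finset.sum_add_distrib]
      have c3 : ∑ i ∈ s, (if ¬ Disjoint (T a) (T i) then p ^ (T a ∪ T i).card else 0) =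
          ∑ j ∈ s with (j ≠ a ∧ ¬ Disjoint (T a) (T j)), p ^ (T a ∪ T j).card := by
        rw [Finset.sum_filter]
        refine Finset.sum_congr rfl fun i hi => ?_
        have hai : i ≠ a := fun h => ha (h ▸ hi)
        simp [hai]
      rw [c3]
      ring
    rw [b1, b2, hD]
    linarith

end Pool.Agent.Helper96
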