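import Pool.Agent.Helper96.Janson

/-!
Chernoff bounds for the number of occurring events among events depending on disjoint blocks.
-/

open Finset

set_option linter.unusedSectionVars false

namespace Pool.Agent.Helper96

variable {E : Type*} [Fintype E] [DecidableEq E]

open Classical in
/-- The number of the events `A i`, `i ∈ I`, which hold at `ω`. -/
noncomputable def cnt {ι : Type*} (I : Finset ι) (A : ι → (E → Bool) → Prop) (ω : E → Bool) : ℕ :=
  (I.filter (fun i => A i ω)).card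

theorem card_le_cnt {ι : Type*} {I S : Finset ι} {A : ι → (E → Bool) → Prop} {ω : E → Bool}
    (h : ∀ i ∈ S, i ∈ I ∧ A i ω) : S.card ≤ cnt I A ω := by
  classical
  unfold cnt
  refine Finset.card_le_card fun i hi => ?_
  simp only [Finset.mem_filter]
  exact h i hi

theorem card_eq_cnt {ι : Type*} {I S : Finset ι} {A : ι → (E → Bool) → Prop} {ω : E → Bool}
    (h : ∀ i, i ∈ S ↔ i ∈ I ∧ A i ω) : S.card = cnt I A ω := by
  classical
  unfold cnt
  congr 1
  ext i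
  simp only [Finset.mem_filter]
  exact h i

theorem cnt_cast {ι : Type*} (I : Finset ι) (A : ι → (E → Bool) → Prop) (ω : E → Bool) :
    open Classical in (cnt I A ω : ℝ) = ∑ i ∈ I, (if A i ω then (1:ℝ) else 0) := by
  classical
  simp [cnt]

theorem exp_mul_cnt {ι : Type*} (I : Finset ι) (A : ι → (E → Bool) → Prop) (θ : ℝ)
    (ω : E → Bool) :
    open Classical in Real.exp (θ * cnt I A ω) = ∏ i ∈ I, (if A i ω then Real.exp θ else 1) := by
  classical
  rw [cnt_cast, Finset.mul_sum, Real.exp_sum]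
  refine Finset.prod_congr rfl fun i _ => ?_
  split_ifs <;> simp

theorem ex_ite (p : ℝ) (A : (E → Bool) → Prop) (a : ℝ) :
    open Classical in ex p (fun ω => if A ω then a else 1) = 1 + pr p A * (a - 1) := by
  classical
  have : ∀ ω : E → Bool, (if A ω then a else 1) = 1 + (a - 1) * (if A ω then 1 else 0) := by
    intro ω; split_ifs <;> ring
  simp_rw [this]
  rw [ex_add, ex_one, ex_smul]
  unfold pr
  ring

theorem ex_exp_cnt {ι : Type*} [DecidableEq ι] (p : ℝ) (I : Finset ι)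
    {A : ι → (E → Bool) → Prop} {U : ι → Finset E}
    (hd : ∀ i ∈ I, ∀ j ∈ I, i ≠ j → Disjoint (U i) (U j))
    (h : ∀ i ∈ I, DepOn (A i) (U i)) (θ : ℝ) :
    ex p (fun ω => Real.exp (θ * cnt I A ω)) = ∏ i ∈ I, (1 + pr p (A i) * (Real.exp θ - 1)) := by
  classical
  simp_rw [exp_mul_cnt]
  rw [ex_prod_of_disjoint p I hd (f := fun i ω => if A i ω then Real.exp θ else 1)]
  · exact Finset.prod_congr rfl fun i _ => ex_ite p (A i) _
  · intro i hi ω ω' hω
    have := h i hi ω ω' hω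
    simp only [this]

theorem ex_exp_cnt_le {ι : Type*} [DecidableEq ι] {p : ℝ} (h0 : 0 ≤ p) (h1 : p ≤ 1)
    (I : Finset ι) {A : ι → (E → Bool) → Prop} {U : ι → Finset E}
    (hd : ∀ i ∈ I, ∀ j ∈ I, i ≠ j → Disjoint (U i) (U j))
    (h : ∀ i ∈ I, DepOn (A i) (U i)) (θ q : ℝ)
    (hq : ∀ i ∈ I, pr p (A i) * (Real.exp θ - 1) ≤ q * (Real.exp θ - 1)) :
    ex p (fun ω => Real.exp (θ * cnt I A ω)) ≤ Real.exp (I.card * q * (Real.exp θ - 1)) := by
  classical
  rw [ex_exp_cnt p I hd h θ]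
  have hpos : ∀ i ∈ I, 0 ≤ 1 + pr p (A i) * (Real.exp θ - 1) := by
    intro i _
    have h2 := pr_nonneg h0 h1 (A i)
    have h3 := pr_le_one h0 h1 (A i)
    have h4 := Real.exp_pos θ
    nlinarith
  have hle : ∀ i ∈ I, 1 + pr p (A i) * (Real.exp θ - 1) ≤
      Real.exp (q * (Real.exp θ - 1)) := by
    intro i hi
    have := Real.add_one_le_exp (q * (Real.exp θ - 1))
    have := hq i hi
    linarith
  refine (Finset.prod_le_prod hpos hle).trans (le_of_eq ?_)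
  rw [Finset.prod_const, ← Real.exp_nat_mul]
  congr 1
  ring

/-- Chernoff upper tail. -/
theorem chernoff_upper {ι : Type*} [DecidableEq ι] {p : ℝ} (h0 : 0 ≤ p) (h1 : p ≤ 1)
    (I : Finset ι) {A : ι → (E → Bool) → Prop} {U : ι → Finset E}
    (hd : ∀ i ∈ I, ∀ j ∈ I, i ≠ j → Disjoint (U i) (U j))
    (h : ∀ i ∈ I, DepOn (A i) (U i)) {θ : ℝ} (hθ : 0 ≤ θ) (q m : ℝ)
    (hq : ∀ i ∈ I, pr p (A i) ≤ q) :
    pr p (fun ω => m ≤ cnt I A ω) ≤ Real.exp (I.card * q * (Real.exp θ - 1) - θ * m) := by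
  have h2 := ex_exp_cnt_le h0 h1 I hd h θ q (fun i hi => by
    have := hq i hi
    have h3 : 0 ≤ Real.exp θ - 1 := by
      have := Real.one_le_exp hθ
      linarith
    nlinarith)
  have h3 : pr p (fun ω => m ≤ cnt I A ω) ≤
      ex p (fun ω => Real.exp (-(θ * m)) * Real.exp (θ * cnt I A ω)) := by
    refine pr_le_ex h0 h1 (fun ω => by positivity) fun ω hω => ?_
    rw [← Real.exp_add]
    apply Real.one_le_exp
    nlinarith
  rw [ex_smul] at h3
  refine h3.trans ?_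
  rw [sub_eq_neg_add, Real.exp_add]
  exact mul_le_mul_of_nonneg_left h2 (Real.exp_pos _).le

/-- Chernoff lower tail. -/
theorem chernoff_lower {ι : Type*} [DecidableEq ι] {p : ℝ} (h0 : 0 ≤ p) (h1 : p ≤ 1)
    (I : Finset ι) {A : ι → (E → Bool) → Prop} {U : ι → Finset E}
    (hd : ∀ i ∈ I, ∀ j ∈ I, i ≠ j → Disjoint (U i) (U j))
    (h : ∀ i ∈ I, DepOn (A i) (U i)) {θ : ℝ} (hθ : 0 ≤ θ) (q m : ℝ)
    (hq : ∀ i ∈ I, q ≤ pr p (A i)) :
    pr p (fun ω => cnt I A ω ≤ m) ≤ Real.exp (θ * m - I.card * q * (1 - Real.exp (-θ))) := by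
  have h2 := ex_exp_cnt_le h0 h1 I hd h (-θ) q (fun i hi => by
    have := hq i hi
    have h3 : Real.exp (-θ) ≤ 1 := Real.exp_le_one_iff.2 (by linarith)
    nlinarith)
  have h3 : pr p (fun ω => (cnt I A ω : ℝ) ≤ m) ≤
      ex p (fun ω => Real.exp (θ * m) * Real.exp (-θ * cnt I A ω)) := by
    refine pr_le_ex h0 h1 (fun ω => by positivity) fun ω hω => ?_
    rw [← Real.exp_add]
    apply Real.one_le_exp
    nlinarith
  rw [ex_smul] at h3
  refine h3.trans ?_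
  have : θ * m - I.card * q * (1 - Real.exp (-θ)) =
      θ * m + I.card * q * (Real.exp (-θ) - 1) := by ring
  rw [this, Real.exp_add]
  exact mul_le_mul_of_nonneg_left h2 (Real.exp_pos _).le

/-- Upper tail, in the form `P(X ≥ m) ≤ exp(-m/2)` when `m ≥ 4 |I| q`. -/
theorem chernoff_upper' {ι : Type*} [DecidableEq ι] {p : ℝ} (h0 : 0 ≤ p) (h1 : p ≤ 1)
    (I : Finset ι) {A : ι → (E → Bool) → Prop} {U : ι → Finset E}
    (hd : ∀ i ∈ I, ∀ j ∈ I, i ≠ j → Disjoint (U i) (U j))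
    (h : ∀ i ∈ I, DepOn (A i) (U i)) (q m : ℝ)
    (hq : ∀ i ∈ I, pr p (A i) ≤ q) (hm : 4 * (I.card * q) ≤ m) :
    pr p (fun ω => m ≤ cnt I A ω) ≤ Real.exp (-(m / 2)) := by
  refine (chernoff_upper h0 h1 I hd h (θ := 1) zero_le_one q m hq).trans ?_
  apply Real.exp_le_exp.2
  have h3 : Real.exp 1 ≤ 3 := by have := Real.exp_one_lt_d9; linarith
  rcases I.eq_empty_or_nonempty with rfl | ⟨i, hi⟩
  · simp only [Finset.card_empty, Nat.cast_zero, zero_mul, mul_zero] at hm ⊢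
    linarith
  · have hq0 : 0 ≤ q := (pr_nonneg h0 h1 (A i)).trans (hq i hi)
    have hIq : 0 ≤ (I.card : ℝ) * q := by positivity
    nlinarith

/-- Lower tail, in the form `P(X ≤ |I| q / 2) ≤ exp(-|I| q / 8)`. -/
theorem chernoff_lower' {ι : Type*} [DecidableEq ι] {p : ℝ} (h0 : 0 ≤ p) (h1 : p ≤ 1)
    (I : Finset ι) {A : ι → (E → Bool) → Prop} {U : ι → Finset E}
    (hd : ∀ i ∈ I, ∀ j ∈ I, i ≠ j → Disjoint (U i) (U j))
    (h : ∀ i ∈ I, DepOn (A i) (U i)) (q m : ℝ) (hq0 : 0 ≤ q)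
    (hq : ∀ i ∈ I, q ≤ pr p (A i)) (hm : m ≤ I.card * q / 2) :
    pr p (fun ω => cnt I A ω ≤ m) ≤ Real.exp (-(I.card * q / 8)) := by
  refine (chernoff_lower h0 h1 I hd h (θ := 1/2) (by norm_num) q m hq).trans ?_
  apply Real.exp_le_exp.2
  have h3 : Real.exp (-(1/2)) ≤ 1 - 3/8 := by
    have h5 : (1:ℝ) + 1/2 + (1/2)^2/2 ≤ Real.exp (1/2) :=
      Real.quadratic_le_exp_of_nonneg (by norm_num)
    have h6 : Real.exp (-(1/2 : ℝ)) = (Real.exp (1/2))⁻¹ := Real.exp_neg _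
    rw [h6]
    have h7 : (Real.exp (1/2 : ℝ))⁻¹ ≤ ((1:ℝ) + 1/2 + (1/2)^2/2)⁻¹ :=
      inv_anti₀ (by norm_num) h5
    refine h7.trans ?_
    norm_num
  have hIq : 0 ≤ (I.card : ℝ) * q := by positivity
  nlinarith

end Pool.Agent.Helper96
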