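import Pool.Agent.Helper96.Bridge

/-!
Asymptotic tools.
-/

open Finset MeasureTheory Filter Topology

set_option linter.unusedSectionVars false

namespace Pool.Agent.Helper96

theorem ev_log_le (a b K : ℝ) (hb : 0 < b) (hK : 0 < K) :
    ∀ᶠ n : ℕ in atTop, K * (Real.log n) ^ a ≤ (n : ℝ) ^ b := by
  have h1 := (isLittleO_log_rpow_rpow_atTop a hb).def (c := 1 / K) (by positivity)
  have h2 := tendsto_natCast_atTop_atTop (R := ℝ) |>.eventually h1
  filter_upwards [h2, eventually_ge_atTop 1] with n hn hn1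
  have hn1' : (1:ℝ) ≤ n := by exact_mod_cast hn1
  rw [Real.norm_of_nonneg (Real.rpow_nonneg (Real.log_nonneg hn1') _),
    Real.norm_of_nonneg (by positivity)] at hn
  rw [one_div, inv_mul_eq_div, le_div_iff₀ hK] at hn
  linarith

theorem ev_const_le (b K : ℝ) (hb : 0 < b) : ∀ᶠ n : ℕ in atTop, K ≤ (n : ℝ) ^ b := by
  have h1 := (tendsto_rpow_atTop hb).comp (tendsto_natCast_atTop_atTop (R := ℝ))
  exact h1.eventually_ge_atTop K

theorem ev_log_ge (K : ℝ) : ∀ᶠ n : ℕ in atTop, K ≤ Real.log n := by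
  have h1 := Real.tendsto_log_atTop.comp (tendsto_natCast_atTop_atTop (R := ℝ))
  exact h1.eventually_ge_atTop K

/-- Reduction of the whp statement to a bound on the failure probability. -/
theorem tendsto_one_of_pr_le (p : ℕ → unitInterval) (A : (n : ℕ) → Set (SimpleGraph (Fin n)))
    (K : ℝ)
    (h : ∀ᶠ n : ℕ in atTop, pr (p n : ℝ) (fun ω => ¬ gr ω ∈ A n) ≤ K / n) :
    Tendsto (fun n : ℕ => (SimpleGraph.binomialRandom (Fin n) (p n)) (A n)) atTop (𝓝 1) := by
  have h1 : Tendsto (fun n : ℕ => ENNReal.ofReal (1 - K / n)) atTop (𝓝 1) := by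
    have h2 : Tendsto (fun n : ℕ => 1 - K / (n:ℝ)) atTop (𝓝 (1 - 0)) :=
      tendsto_const_nhds.sub (tendsto_const_div_atTop_nhds_zero_nat K)
    rw [sub_zero] at h2
    have h3 := ENNReal.tendsto_ofReal h2
    rwa [ENNReal.ofReal_one] at h3
  refine tendsto_of_tendsto_of_tendsto_of_le_of_le' h1 tendsto_const_nhds ?_ ?_
  · filter_upwards [h] with n hn
    rw [binomialRandom_apply_eq]
    apply ENNReal.ofReal_le_ofReal
    rw [pr_not] at hn
    linarith
  · exact Eventually.of_forall fun n => by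
      rw [binomialRandom_apply_eq]
      rw [← ENNReal.ofReal_one]
      exact ENNReal.ofReal_le_ofReal (pr_le_one (p n).2.1 (p n).2.2 _)

end Pool.Agent.Helper96
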