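import Pool.Agent.Helper96.Uncov

/-!
Bad sets, triangles, in the range where most triangles are not maximal.
-/

open Finset

set_option linter.unusedSectionVars false

namespace Pool.Agent.Helper96

variable {V : Type*} [Fintype V] [DecidableEq V]

/-- The triples of `C` which are not covered by a vertex of `R`. -/
def hfam (C R : Finset V) (ω : Sym2 V → Bool) : Finset (Finset V) :=
  (C.powersetCard 3).filter (fun T => ∀ v ∈ R, ¬ T ⊆ nb ω v C)

theorem hfam_congr {C R : Finset V} {ω ω' : Sym2 V → Bool} (h : ∀ v ∈ R, nb ω v C = nb ω' v C) :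
    hfam C R ω = hfam C R ω' := by
  unfold hfam
  apply Finset.filter_congr
  intro T _
  refine forall₂_congr fun v hv => ?_
  rw [h v hv]

theorem card_hfam_ge (C R : Finset V) (ω : Sym2 V → Bool) :
    (C.card.choose 3 : ℝ) - ∑ v ∈ R, ((nb ω v C).card.choose 3 : ℝ) ≤ (hfam C R ω).card := by
  classical
  have h1 : C.powersetCard 3 ⊆ hfam C R ω ∪ R.biUnion (fun v => (nb ω v C).powersetCard 3) := by
    intro T hT
    by_cases h : T ∈ hfam C R ω
    · exact Finset.mem_union_left _ h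
    · refine Finset.mem_union_right _ ?_
      rw [hfam, Finset.mem_filter] at h
      push Not at h
      obtain ⟨v, hv, hTv⟩ := h hT
      rw [Finset.mem_powersetCard] at hT
      exact Finset.mem_biUnion.2 ⟨v, hv, Finset.mem_powersetCard.2 ⟨hTv, hT.2⟩⟩
  have h2 := Finset.card_le_card h1
  rw [Finset.card_powersetCard] at h2
  have h3 := h2.trans ((Finset.card_union_le _ _).trans (Nat.add_le_add_left
    Finset.card_biUnion_le _))
  simp only [Finset.card_powersetCard] at h3
  have h4 : (C.card.choose 3 : ℝ) ≤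
      (hfam C R ω).card + ∑ v ∈ R, ((nb ω v C).card.choose 3 : ℝ) := by exact_mod_cast h3
  linarith

/-- For a fixed set `R`, the probability that too few triples survive. -/
theorem pr_hfam_survive {p : ℝ} (h0 : 0 ≤ p) (h1 : p ≤ 1) {D : ℝ} (hD : 0 < D) (C R : Finset V)
    {h₀ X M u δ : ℝ} (hh0 : 0 < h₀)
    (hX : Fintype.card V * p ^ 3 ≤ X) (hM1 : 1 ≤ M) (hMX : X ≤ M)
    (hu : u = Real.exp (-(2 + X)) * h₀) (hδ : δ = D ^ 3 / (6 * u)) (hδM : δ * M ≤ 1 / 8) :
    pr p (fun ω => ((survive D C (hfam C R ω) (Cᶜ \ R) ω).card : ℝ) ≤ u ∧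
      h₀ ≤ ((hfam C R ω).card : ℝ)) ≤ Real.exp (-(1 / (4 * δ * M))) := by
  classical
  refine pr_cond_le h0 h1 ((Cᶜ \ R).biUnion (fun v => star v C)) (Real.exp_pos _).le ?_ ?_
  · intro ω η
    rw [hfam_congr (ω' := ω)]
    intro w hw
    refine DepOn.ow_left DepOn.nb ?_ ω η
    rw [Finset.disjoint_biUnion_left]
    intro v hv
    rw [Finset.mem_sdiff, Finset.mem_compl] at hv
    exact star_disjoint hv.1 (fun h => hv.2 (h ▸ hw))
  · intro ω hω
    have e1 : ∀ η, survive D C (hfam C R (ow ((Cᶜ \ R).biUnion (fun v => star v C)) ω η)) (Cᶜ \ R)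
        (ow ((Cᶜ \ R).biUnion (fun v => star v C)) ω η) =
        survive D C (hfam C R ω) (Cᶜ \ R) η := by
      intro η
      have e2 : hfam C R (ow ((Cᶜ \ R).biUnion (fun v => star v C)) ω η) = hfam C R ω := by
        apply hfam_congr
        intro w hw
        refine DepOn.ow_left DepOn.nb ?_ ω η
        rw [Finset.disjoint_biUnion_left]
        intro v hv
        rw [Finset.mem_sdiff, Finset.mem_compl] at hv
        exact star_disjoint hv.1 (fun h => hv.2 (h ▸ hw))
      rw [e2]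
      refine survive_congr fun v hv => ?_
      refine DepOn.ow_right (DepOn.mono DepOn.nb ?_) ω η
      exact Finset.subset_biUnion_of_mem (fun v => star v C) hv
    simp_rw [e1]
    refine pr_survive h0 h1 hD (Finset.filter_subset _ _) (Cᶜ \ R) ?_ hh0 hω ?_ hM1 hMX hu hδ hδM
    · intro v hv
      rw [Finset.mem_sdiff, Finset.mem_compl] at hv
      exact hv.1
    · refine le_trans ?_ hX
      have : ((Cᶜ \ R).card : ℝ) ≤ Fintype.card V := by exact_mod_cast Finset.card_le_univ _
      gcongr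

theorem pr_le_of_three {E : Type*} [Fintype E] [DecidableEq E] {p : ℝ} (h0 : 0 ≤ p)
    (h1 : p ≤ 1) {A E1 E2 E3 : (E → Bool) → Prop} {b1 b2 b3 : ℝ}
    (h : ∀ ω, A ω → E1 ω ∨ E2 ω ∨ E3 ω) (e1 : pr p E1 ≤ b1) (e2 : pr p E2 ≤ b2)
    (e3 : pr p E3 ≤ b3) : pr p A ≤ b1 + b2 + b3 := by
  have h2 := pr_mono h0 h1 h
  have h3 := pr_or_le h0 h1 E1 (fun ω => E2 ω ∨ E3 ω)
  have h4 := pr_or_le h0 h1 E2 E3
  linarith

/-- The event that for some small set `R` too few triples survive. -/
def FewSurvive (C : Finset V) (r₀ : ℕ) (D h₀ u : ℝ) (ω : Sym2 V → Bool) : Prop :=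
  ∃ R ∈ (univ : Finset (Finset V)).filter (fun R => R.card ≤ r₀),
    (((survive D C (hfam C R ω) (Cᶜ \ R) ω).card : ℝ) ≤ u ∧ h₀ ≤ ((hfam C R ω).card : ℝ))

/-- Bound for the probability of a bad set, triangles, general version. -/
theorem pr_badSet_three' [Nonempty V] {p : ℝ} (h0 : 0 ≤ p) (h1 : p ≤ 1) {s lam r₀ : ℕ}
    {D B θ h₀ X M u δ : ℝ} (hD : 8 * (2 * s * p) ≤ D) (hD0 : 0 < D) (hθ : 0 < θ)
    (hn : Fintype.card V * Real.exp (-(2 * s * p)) ≤ 1)
    (hp : 3 * (2 * s) * p ^ 2 ≤ 1) (hr₀ : B / D ≤ r₀)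
    (hh : h₀ ≤ ((2 * s).choose 3 : ℝ) -
      (((s:ℝ) + lam) ^ 2 * (2 * s + (B / θ) ^ 2 * lam) + θ ^ 2 * B) / 6)
    (hh0 : 0 < h₀) (hX : Fintype.card V * p ^ 3 ≤ X) (hM1 : 1 ≤ M) (hMX : X ≤ M)
    (hu : u = Real.exp (-(2 + X)) * h₀) (hδ : δ = D ^ 3 / (6 * u)) (hδM : δ * M ≤ 1 / 8)
    {C : Finset V} (hC : C.card = 2 * s) :
    pr p (BadSet 3 s lam C) ≤ Real.exp (1 - B) +
      (r₀ + 1) * (Fintype.card V : ℝ) ^ r₀ * Real.exp (-(1 / (4 * δ * M))) +
      Real.exp (-(u * p ^ 3 / 2)) := by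
  classical
  have hCr : (C.card : ℝ) = 2 * s := by rw [hC]; push_cast; ring
  have e1 := pr_richWt h0 h1 C D B (by rw [hCr]; exact hD) (by rw [hCr]; exact hn)
  have e3 := pr_unc_triples h0 h1 C u (by rw [hCr]; exact hp)
  have hn1 : (1:ℝ) ≤ Fintype.card V := by exact_mod_cast Fintype.card_pos
  have e2 : pr p (FewSurvive C r₀ D h₀ u) ≤
      (r₀ + 1) * (Fintype.card V : ℝ) ^ r₀ * Real.exp (-(1 / (4 * δ * M))) := by
    refine (pr_exists_le_card h0 h1 _ _ _ fun R _ =>
      pr_hfam_survive h0 h1 hD0 C R hh0 hX hM1 hMX hu hδ hδM).trans ?_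
    refine mul_le_mul_of_nonneg_right ?_ (Real.exp_pos _).le
    have hcard : ((univ : Finset (Finset V)).filter (fun R => R.card ≤ r₀)).card ≤
        (r₀ + 1) * Fintype.card V ^ r₀ := by
      have hsub : (univ : Finset (Finset V)).filter (fun R => R.card ≤ r₀) ⊆
          (Finset.range (r₀ + 1)).biUnion (fun j => (univ : Finset V).powersetCard j) := by
        intro R hR
        rw [Finset.mem_filter] at hR
        rw [Finset.mem_biUnion]
        exact ⟨R.card, Finset.mem_range.2 (by omega), Finset.mem_powersetCard.2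
          ⟨Finset.subset_univ _, rfl⟩⟩
      refine (Finset.card_le_card hsub).trans ?_
      refine (Finset.card_biUnion_le_card_mul _ _ (Fintype.card V ^ r₀) fun j hj => ?_).trans ?_
      · rw [Finset.card_powersetCard, Finset.card_univ]
        refine (Nat.choose_le_pow _ _).trans ?_
        rw [Finset.mem_range] at hj
        exact Nat.pow_le_pow_right Fintype.card_pos (by omega)
      · rw [Finset.card_range]
    have hcard' : ((((univ : Finset (Finset V)).filter (fun R => R.card ≤ r₀)).card : ℕ) : ℝ) ≤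
        (((r₀ + 1) * Fintype.card V ^ r₀ : ℕ) : ℝ) := Nat.cast_le.2 hcard
    refine hcard'.trans (le_of_eq ?_)
    push_cast
    ring
  refine pr_le_of_three h0 h1 (fun ω hω => ?_) e1 e2 e3
  obtain ⟨hcod, hbal, hcl⟩ := hω
  by_cases hrich : B ≤ richWt D C ω
  · exact Or.inl hrich
  push Not at hrich
  set R := Cᶜ.filter (fun v => D ≤ ((nb ω v C).card : ℝ)) with hR
  have hRsum : ∑ v ∈ R, ((nb ω v C).card : ℝ) = richWt D C ω := by
    rw [hR]
    unfold richWt
    apply Finset.sum_congr _ (fun _ _ => rfl)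
    ext v
    simp only [Finset.mem_filter]
  -- the number of rich vertices
  have hRcard : R.card ≤ r₀ := by
    have h2 : (R.card : ℝ) * D ≤ richWt D C ω := by
      rw [← hRsum]
      calc (R.card : ℝ) * D = ∑ _v ∈ R, D := by simp
        _ ≤ ∑ v ∈ R, ((nb ω v C).card : ℝ) :=
          Finset.sum_le_sum fun v hv => (Finset.mem_filter.1 hv).2
    have h3 : (R.card : ℝ) ≤ B / D := by
      rw [le_div_iff₀ hD0]
      linarith
    exact_mod_cast h3.trans hr₀
  -- many triples not covered by rich vertices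
  have hhf : h₀ ≤ ((hfam C R ω).card : ℝ) := by
    refine hh.trans ?_
    have h2 := card_hfam_ge C R ω
    rw [hC] at h2
    refine le_trans (sub_le_sub_left ?_ _) h2
    have h3 := sum_cube_le R (fun v => nb ω v C) C (fun v _ => nb_subset _ _ _) lam
      ((s:ℝ) + lam) B θ hθ
      (fun v _ => by exact_mod_cast hbal v)
      (fun u _ v _ huv => (Finset.card_le_card (Finset.inter_subset_inter
        (nb_mono (Finset.subset_univ _)) (nb_mono (Finset.subset_univ _)))).trans
        (hcod u v huv)) (by rw [hRsum]; exact hrich.le)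
    rw [hC] at h3
    push_cast at h3
    have h4 : ∀ v ∈ R, ((nb ω v C).card.choose 3 : ℝ) ≤ ((nb ω v C).card : ℝ) ^ 3 / 6 := by
      intro v _
      have := Nat.choose_le_pow_div (α := ℝ) 3 (nb ω v C).card
      have e5 : ((3:ℕ).factorial : ℝ) = 6 := by norm_num [Nat.factorial]
      rwa [e5] at this
    refine (Finset.sum_le_sum h4).trans ?_
    rw [← Finset.sum_div]
    exact div_le_div_of_nonneg_right h3 (by norm_num)
  by_cases hsv : ((survive D C (hfam C R ω) (Cᶜ \ R) ω).card : ℝ) ≤ u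
  · exact Or.inr (Or.inl ⟨R, Finset.mem_filter.2 ⟨Finset.mem_univ _, hRcard⟩, hsv, hhf⟩)
  · push Not at hsv
    refine Or.inr (Or.inr ⟨hcl, hsv.le.trans ?_⟩)
    have hsub : survive D C (hfam C R ω) (Cᶜ \ R) ω ⊆ unc 3 ω C := by
      intro T hT
      obtain ⟨hT1, hT2⟩ := mem_survive.1 hT
      rw [hfam, Finset.mem_filter, Finset.mem_powersetCard] at hT1
      refine mem_unc.2 ⟨hT1.1.1, hT1.1.2, fun v hv => ?_⟩
      by_cases hvR : v ∈ R
      · exact hT1.2 v hvR
      · refine hT2 v (Finset.mem_sdiff.2 ⟨Finset.mem_compl.2 hv, hvR⟩) ?_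
        by_contra h
        push Not at h
        exact hvR (Finset.mem_filter.2 ⟨Finset.mem_compl.2 hv, h⟩)
    exact_mod_cast Finset.card_le_card hsub

end Pool.Agent.Helper96
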