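import Mathlib

/-!
Finite product Bernoulli space, elementary tools: expectation, resampling (tower property),
independence of disjoint blocks, union bound, Markov.
-/

open Finset

set_option linter.unusedSectionVars false

namespace Pool.Agent.Helper96

variable {E : Type*} [Fintype E] [DecidableEq E]

noncomputable section

/-- The product Bernoulli(p) weight. -/
def wt (p : ℝ) (ω : E → Bool) : ℝ := ∏ e, (if ω e then p else 1 - p)

/-- Expectation with respect to the product Bernoulli(p) measure. -/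
def ex (p : ℝ) (f : (E → Bool) → ℝ) : ℝ := ∑ ω, wt p ω * f ω

open Classical in
/-- Probability of an event. -/
def pr (p : ℝ) (A : (E → Bool) → Prop) : ℝ := ex p (fun ω => if A ω then 1 else 0)

/-- Overwrite `ω` by `η` on `U`. -/
def ow (U : Finset E) (ω η : E → Bool) : E → Bool := fun e => if e ∈ U then η e else ω e

/-- `f` depends only on the coordinates in `U`. -/
def DepOn {β : Type*} (f : (E → Bool) → β) (U : Finset E) : Prop :=
  ∀ ω ω' : E → Bool, (∀ e ∈ U, ω e = ω' e) → f ω = f ω'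

theorem wt_nonneg {p : ℝ} (h0 : 0 ≤ p) (h1 : p ≤ 1) (ω : E → Bool) : 0 ≤ wt p ω :=
  Finset.prod_nonneg fun e _ => by split_ifs <;> linarith

theorem sum_prod_bool (g : E → Bool → ℝ) :
    ∑ ω : E → Bool, ∏ e, g e (ω e) = ∏ e, (g e true + g e false) := by
  have h := Finset.prod_univ_sum (fun _ : E => (univ : Finset Bool)) g
  simp only [Fintype.piFinset_univ, Fintype.sum_bool] at h
  exact h.symm

theorem ex_prod (p : ℝ) (U : Finset E) (g : E → Bool → ℝ) :
    ex p (fun ω => ∏ e ∈ U, g e (ω e)) = ∏ e ∈ U, (p * g e true + (1 - p) * g e false) := by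
  have h : ∀ ω : E → Bool, wt p ω * ∏ e ∈ U, g e (ω e) =
      ∏ e, ((fun (e : E) (b : Bool) => (if b then p else 1 - p) * (if e ∈ U then g e b else 1))
        e (ω e)) := by
    intro ω
    simp only [wt, Finset.prod_mul_distrib]
    congr 1
    rw [Finset.prod_ite_mem]
    simp
  unfold ex
  rw [Finset.sum_congr rfl (fun ω _ => h ω)]
  rw [sum_prod_bool (fun (e : E) (b : Bool) =>
    (if b then p else 1 - p) * (if e ∈ U then g e b else 1))]
  rw [← Finset.prod_subset (Finset.subset_univ U)]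
  · apply Finset.prod_congr rfl
    intro e he
    simp [he]
  · intro e _ he
    simp [he]

@[simp] theorem ex_one (p : ℝ) : ex p (fun _ : E → Bool => (1 : ℝ)) = 1 := by
  have := ex_prod (E := E) p ∅ (fun _ _ => 1)
  simpa using this

theorem sum_wt (p : ℝ) : ∑ ω : E → Bool, wt p ω = 1 := by
  have := ex_one (E := E) p
  simpa [ex] using this

theorem ex_const (p c : ℝ) : ex p (fun _ : E → Bool => c) = c := by
  unfold ex
  rw [← Finset.sum_mul, sum_wt, one_mul]

theorem ex_add (p : ℝ) (f g : (E → Bool) → ℝ) :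
    ex p (fun ω => f ω + g ω) = ex p f + ex p g := by
  simp [ex, mul_add, Finset.sum_add_distrib]

theorem ex_sub (p : ℝ) (f g : (E → Bool) → ℝ) :
    ex p (fun ω => f ω - g ω) = ex p f - ex p g := by
  simp [ex, mul_sub, Finset.sum_sub_distrib]

theorem ex_smul (p c : ℝ) (f : (E → Bool) → ℝ) : ex p (fun ω => c * f ω) = c * ex p f := by
  simp only [ex, Finset.mul_sum]
  exact Finset.sum_congr rfl fun ω _ => by ring

theorem ex_sum {ι : Type*} (p : ℝ) (I : Finset ι) (f : ι → (E → Bool) → ℝ) :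
    ex p (fun ω => ∑ i ∈ I, f i ω) = ∑ i ∈ I, ex p (f i) := by
  simp only [ex, Finset.mul_sum]
  exact Finset.sum_comm

theorem ex_mono {p : ℝ} (h0 : 0 ≤ p) (h1 : p ≤ 1) {f g : (E → Bool) → ℝ}
    (h : ∀ ω, f ω ≤ g ω) : ex p f ≤ ex p g :=
  Finset.sum_le_sum fun ω _ => mul_le_mul_of_nonneg_left (h ω) (wt_nonneg h0 h1 ω)

theorem ex_nonneg {p : ℝ} (h0 : 0 ≤ p) (h1 : p ≤ 1) {f : (E → Bool) → ℝ}
    (h : ∀ ω, 0 ≤ f ω) : 0 ≤ ex p f :=
  Finset.sum_nonneg fun ω _ => mul_nonneg (wt_nonneg h0 h1 ω) (h ω)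

theorem ow_ow (U : Finset E) (ω η : E → Bool) : ow U (ow U ω η) (ow U η ω) = ω := by
  ext e; simp only [ow]; split_ifs <;> rfl

theorem wt_mul_wt (p : ℝ) (U : Finset E) (ω η : E → Bool) :
    wt p ω * wt p η = wt p (ow U ω η) * wt p (ow U η ω) := by
  simp only [wt, ← Finset.prod_mul_distrib]
  apply Finset.prod_congr rfl
  intro e _
  simp only [ow]
  split_ifs <;> ring

/-- The tower property: resampling the coordinates in `U` does not change the expectation. -/
theorem tower (p : ℝ) (U : Finset E) (f : (E → Bool) → ℝ) :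
    ex p (fun ω => ex p (fun η => f (ow U ω η))) = ex p f := by
  have h1 : ex p (fun ω => ex p (fun η => f (ow U ω η))) =
      ∑ x : (E → Bool) × (E → Bool), wt p x.1 * wt p x.2 * f (ow U x.1 x.2) := by
    rw [Fintype.sum_prod_type]
    simp only [ex, Finset.mul_sum]
    refine Finset.sum_congr rfl fun ω _ => Finset.sum_congr rfl fun η _ => by ring
  have h2 : ex p f = ∑ x : (E → Bool) × (E → Bool), wt p x.1 * wt p x.2 * f x.1 := by
    rw [Fintype.sum_prod_type]
    simp only [ex]
    refine Finset.sum_congr rfl fun ω _ => ?_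
    rw [← Finset.sum_mul, ← Finset.mul_sum, sum_wt, mul_one]
  rw [h1, h2]
  let s : (E → Bool) × (E → Bool) ≃ (E → Bool) × (E → Bool) :=
    { toFun := fun x => (ow U x.1 x.2, ow U x.2 x.1)
      invFun := fun x => (ow U x.1 x.2, ow U x.2 x.1)
      left_inv := fun x => by simp only [ow_ow]
      right_inv := fun x => by simp only [ow_ow] }
  rw [← Equiv.sum_comp s (fun x => wt p x.1 * wt p x.2 * f x.1)]
  refine Finset.sum_congr rfl fun x _ => ?_
  show _ = wt p (ow U x.1 x.2) * wt p (ow U x.2 x.1) * f (ow U x.1 x.2)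
  rw [← wt_mul_wt]

theorem DepOn.mono {β : Type*} {f : (E → Bool) → β} {U U' : Finset E} (h : DepOn f U)
    (hU : U ⊆ U') : DepOn f U' := fun ω ω' hω => h ω ω' fun e he => hω e (hU he)

theorem DepOn.ow_right {β : Type*} {f : (E → Bool) → β} {U : Finset E} (h : DepOn f U)
    (ω η : E → Bool) : f (ow U ω η) = f η :=
  h _ _ fun e he => by simp [ow, he]

theorem DepOn.ow_left {β : Type*} {f : (E → Bool) → β} {U U' : Finset E} (h : DepOn f U')
    (hd : Disjoint U U') (ω η : E → Bool) : f (ow U ω η) = f ω :=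
  h _ _ fun e he => by
    have : e ∉ U := fun h' => (Finset.disjoint_left.1 hd h') he
    simp [ow, this]

/-- Independence of functions of disjoint blocks. -/
theorem ex_mul_of_disjoint (p : ℝ) {U U' : Finset E} (hd : Disjoint U U')
    {f g : (E → Bool) → ℝ} (hf : DepOn f U) (hg : DepOn g U') :
    ex p (fun ω => f ω * g ω) = ex p f * ex p g := by
  rw [← tower p U (fun ω => f ω * g ω)]
  have : ∀ ω η : E → Bool, f (ow U ω η) * g (ow U ω η) = g ω * f η := by
    intro ω η
    rw [hf.ow_right, hg.ow_left hd, mul_comm]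
  simp_rw [this, ex_smul]
  have h2 : ex p (fun ω => g ω * ex p f) = ex p (fun ω => ex p f * g ω) := by
    congr 1; ext ω; ring
  rw [h2, ex_smul]

theorem DepOn.prod {ι : Type*} [DecidableEq ι] {I : Finset ι} {f : ι → (E → Bool) → ℝ}
    {U : ι → Finset E} (h : ∀ i ∈ I, DepOn (f i) (U i)) :
    DepOn (fun ω => ∏ i ∈ I, f i ω) (I.biUnion U) := by
  intro ω ω' hω
  refine Finset.prod_congr rfl fun i hi => h i hi ω ω' fun e he => hω e ?_
  exact Finset.mem_biUnion.2 ⟨i, hi, he⟩

/-- Independence for finite families of functions of disjoint blocks. -/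
theorem ex_prod_of_disjoint {ι : Type*} [DecidableEq ι] (p : ℝ) (I : Finset ι)
    {f : ι → (E → Bool) → ℝ} {U : ι → Finset E}
    (hd : ∀ i ∈ I, ∀ j ∈ I, i ≠ j → Disjoint (U i) (U j))
    (h : ∀ i ∈ I, DepOn (f i) (U i)) :
    ex p (fun ω => ∏ i ∈ I, f i ω) = ∏ i ∈ I, ex p (f i) := by
  induction I using Finset.induction_on with
  | empty => simp
  | insert a s ha ih =>
    simp_rw [Finset.prod_insert ha]
    rw [ex_mul_of_disjoint p (U := U a) (U' := s.biUnion U), ih]
    · exact fun i hi j hj => hd i (Finset.mem_insert_of_mem hi) j (Finset.mem_insert_of_mem hj)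
    · exact fun i hi => h i (Finset.mem_insert_of_mem hi)
    · rw [Finset.disjoint_biUnion_right]
      intro i hi
      exact hd a (Finset.mem_insert_self _ _) i (Finset.mem_insert_of_mem hi)
        (fun h => ha (h ▸ hi))
    · exact h a (Finset.mem_insert_self _ _)
    · exact DepOn.prod fun i hi => h i (Finset.mem_insert_of_mem hi)

/-! ### Probabilities of events -/

theorem pr_nonneg {p : ℝ} (h0 : 0 ≤ p) (h1 : p ≤ 1) (A : (E → Bool) → Prop) : 0 ≤ pr p A := by
  classical
  exact ex_nonneg h0 h1 fun ω => by split_ifs <;> norm_num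

theorem pr_mono {p : ℝ} (h0 : 0 ≤ p) (h1 : p ≤ 1) {A B : (E → Bool) → Prop}
    (h : ∀ ω, A ω → B ω) : pr p A ≤ pr p B := by
  classical
  refine ex_mono h0 h1 fun ω => ?_
  by_cases hA : A ω
  · simp [hA, h ω hA]
  · simp only [hA, if_false]; split_ifs <;> norm_num

theorem pr_true (p : ℝ) : pr p (fun _ : E → Bool => True) = 1 := by
  simp [pr]

theorem pr_false (p : ℝ) : pr p (fun _ : E → Bool => False) = 0 := by
  simp [pr, ex]

theorem pr_le_one {p : ℝ} (h0 : 0 ≤ p) (h1 : p ≤ 1) (A : (E → Bool) → Prop) : pr p A ≤ 1 := by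
  rw [← pr_true (E := E) p]
  exact pr_mono h0 h1 fun _ _ => trivial

theorem pr_not (p : ℝ) (A : (E → Bool) → Prop) : pr p (fun ω => ¬ A ω) = 1 - pr p A := by
  classical
  unfold pr
  rw [← ex_one (E := E) p, ← ex_sub]
  congr 1
  ext ω
  by_cases h : A ω <;> simp [h]

theorem pr_or_le {p : ℝ} (h0 : 0 ≤ p) (h1 : p ≤ 1) (A B : (E → Bool) → Prop) :
    pr p (fun ω => A ω ∨ B ω) ≤ pr p A + pr p B := by
  classical
  unfold pr
  rw [← ex_add]
  refine ex_mono h0 h1 fun ω => ?_
  by_cases hA : A ω <;> by_cases hB : B ω <;> simp [hA, hB]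

/-- The union bound. -/
theorem pr_exists_le {ι : Type*} {p : ℝ} (h0 : 0 ≤ p) (h1 : p ≤ 1) (I : Finset ι)
    (A : ι → (E → Bool) → Prop) :
    pr p (fun ω => ∃ i ∈ I, A i ω) ≤ ∑ i ∈ I, pr p (A i) := by
  classical
  induction I using Finset.induction_on with
  | empty => simp [pr, ex]
  | insert a s ha ih =>
    rw [Finset.sum_insert ha]
    refine le_trans ?_ ((pr_or_le h0 h1 (A a) (fun ω => ∃ i ∈ s, A i ω)).trans
      (add_le_add le_rfl ih))
    refine pr_mono h0 h1 fun ω hω => ?_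
    simpa using hω

theorem pr_exists_le_card {ι : Type*} {p : ℝ} (h0 : 0 ≤ p) (h1 : p ≤ 1) (I : Finset ι)
    (A : ι → (E → Bool) → Prop) (b : ℝ) (hb : ∀ i ∈ I, pr p (A i) ≤ b) :
    pr p (fun ω => ∃ i ∈ I, A i ω) ≤ I.card * b := by
  refine (pr_exists_le h0 h1 I A).trans ?_
  refine (Finset.sum_le_sum hb).trans ?_
  simp

/-- Markov's inequality. -/
theorem pr_le_ex {p : ℝ} (h0 : 0 ≤ p) (h1 : p ≤ 1) {f : (E → Bool) → ℝ}
    {A : (E → Bool) → Prop} (hf : ∀ ω, 0 ≤ f ω) (hA : ∀ ω, A ω → 1 ≤ f ω) :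
    pr p A ≤ ex p f := by
  classical
  refine ex_mono h0 h1 fun ω => ?_
  split_ifs with h
  · exact hA ω h
  · exact hf ω

/-- Conditioning: if for every `ω` satisfying `B` (an event which does not depend on `U`) the
probability of `A` after resampling `U` is at most `b`, then `P(A ∧ B) ≤ b`. -/
theorem pr_cond_le {p : ℝ} (h0 : 0 ≤ p) (h1 : p ≤ 1) (U : Finset E)
    {A B : (E → Bool) → Prop} {b : ℝ} (hb : 0 ≤ b)
    (hB : ∀ ω η, B (ow U ω η) ↔ B ω)
    (h : ∀ ω, B ω → pr p (fun η => A (ow U ω η)) ≤ b) :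
    pr p (fun ω => A ω ∧ B ω) ≤ b := by
  classical
  unfold pr
  rw [← tower p U]
  refine (ex_mono h0 h1 (g := fun _ => b) fun ω => ?_).trans (ex_const p b).le
  by_cases hω : B ω
  · refine le_trans ?_ (h ω hω)
    refine ex_mono h0 h1 fun η => ?_
    by_cases hA : A (ow U ω η)
    · simp [hA, hB, hω]
    · simp [hA]
  · simp [hB, hω, ex, hb]

theorem pr_forall_of_disjoint {ι : Type*} [DecidableEq ι] (p : ℝ) (I : Finset ι)
    {A : ι → (E → Bool) → Prop} {U : ι → Finset E}
    (hd : ∀ i ∈ I, ∀ j ∈ I, i ≠ j → Disjoint (U i) (U j))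
    (h : ∀ i ∈ I, DepOn (A i) (U i)) :
    pr p (fun ω => ∀ i ∈ I, A i ω) = ∏ i ∈ I, pr p (A i) := by
  classical
  unfold pr
  rw [← ex_prod_of_disjoint p I hd (f := fun i ω => if A i ω then 1 else 0)]
  · congr 1
    ext ω
    by_cases hA : ∀ i ∈ I, A i ω
    · rw [if_pos hA, Finset.prod_congr rfl (g := fun _ => (1:ℝ)) (fun i hi => by simp [hA i hi])]
      simp
    · rw [if_neg hA]
      push Not at hA
      obtain ⟨i, hi, hAi⟩ := hA
      rw [Finset.prod_eq_zero hi]
      simp [hAi]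
  · intro i hi ω ω' hω
    have := h i hi ω ω' hω
    simp only [this]

/-- The probability that all coordinates in `U` are `true`. -/
theorem pr_all_true (p : ℝ) (U : Finset E) :
    pr p (fun ω : E → Bool => ∀ e ∈ U, ω e = true) = p ^ U.card := by
  classical
  have h := ex_prod p U (fun _ b => if b then (1:ℝ) else 0)
  simp only [if_true, Bool.false_eq_true, if_false, mul_one, mul_zero, add_zero,
    Finset.prod_const] at h
  rw [← h]
  unfold pr
  congr 1
  ext ω
  by_cases hA : ∀ e ∈ U, ω e = true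
  · rw [if_pos hA, Finset.prod_congr rfl (g := fun _ => (1:ℝ)) (fun i hi => by simp [hA i hi])]
    simp
  · rw [if_neg hA]
    push Not at hA
    obtain ⟨i, hi, hAi⟩ := hA
    rw [Finset.prod_eq_zero hi]
    simp [hAi]

theorem pr_all_false (p : ℝ) (U : Finset E) :
    pr p (fun ω : E → Bool => ∀ e ∈ U, ω e = false) = (1 - p) ^ U.card := by
  classical
  have h := ex_prod p U (fun _ b => if b then (0:ℝ) else 1)
  simp only [if_true, Bool.false_eq_true, if_false, mul_one, mul_zero, zero_add,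
    Finset.prod_const] at h
  rw [← h]
  unfold pr
  congr 1
  ext ω
  by_cases hA : ∀ e ∈ U, ω e = false
  · rw [if_pos hA, Finset.prod_congr rfl (g := fun _ => (1:ℝ)) (fun i hi => by simp [hA i hi])]
    simp
  · rw [if_neg hA]
    push Not at hA
    obtain ⟨i, hi, hAi⟩ := hA
    rw [Finset.prod_eq_zero hi]
    simpa using hAi

end

end Pool.Agent.Helper96
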