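import Pool.Agent.Helper96.CliqueBasic

/-!
The binomial random graph of Mathlib versus the finite product Bernoulli space.
-/

open Finset MeasureTheory

set_option linter.unusedSectionVars false

namespace Pool.Agent.Helper96

variable {V : Type*} [Fintype V] [DecidableEq V]

theorem gr_eq_iff (ω : Sym2 V → Bool) (G : SimpleGraph V) [DecidablePred (· ∈ G.edgeSet)] :
    gr ω = G ↔ ∀ e ∈ cl (univ : Finset V), ω e = decide (e ∈ G.edgeSet) := by
  constructor
  · rintro rfl e
    induction e using Sym2.inductionOn with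
    | hf x y =>
      intro he
      have hxy := (mk_mem_cl.1 he).2.2
      have : (s(x, y) ∈ (gr ω).edgeSet) ↔ ω s(x, y) = true := by
        rw [SimpleGraph.mem_edgeSet, gr_adj]
        exact ⟨fun h => h.2, fun h => ⟨hxy, h⟩⟩
      by_cases h : ω s(x, y) = true
      · simp [this, h]
      · simp [this, h]
  · intro h
    ext x y
    rw [gr_adj]
    constructor
    · rintro ⟨hxy, hω⟩
      have := h s(x, y) (mk_mem_cl.2 ⟨mem_univ _, mem_univ _, hxy⟩)
      rw [hω] at this
      simpa using this.symm
    · intro hG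
      have hxy := hG.ne
      have := h s(x, y) (mk_mem_cl.2 ⟨mem_univ _, mem_univ _, hxy⟩)
      exact ⟨hxy, by rw [this]; simpa using hG⟩

theorem pr_gr_eq (p : ℝ) (G : SimpleGraph V) :
    pr p (fun ω => gr ω = G) =
      p ^ G.edgeSet.ncard * (1 - p) ^ ((Nat.card V).choose 2 - G.edgeSet.ncard) := by
  classical
  have h1 : pr p (fun ω => gr ω = G) =
      ex p (fun ω => ∏ e ∈ cl (univ : Finset V),
        (if ω e = decide (e ∈ G.edgeSet) then (1:ℝ) else 0)) := by
    unfold pr
    congr 1
    ext ω
    by_cases h : gr ω = G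
    · rw [if_pos h]
      rw [gr_eq_iff] at h
      rw [Finset.prod_congr rfl (g := fun _ => (1:ℝ)) (fun e he => by rw [if_pos (h e he)])]
      simp
    · rw [if_neg h]
      rw [gr_eq_iff] at h
      push Not at h
      obtain ⟨e, he, hne⟩ := h
      rw [Finset.prod_eq_zero he]
      rw [if_neg hne]
  rw [h1, ex_prod p (cl (univ : Finset V))
    (fun e b => if b = decide (e ∈ G.edgeSet) then (1:ℝ) else 0)]
  have h2 : ∀ e ∈ cl (univ : Finset V),
      (p * (if true = decide (e ∈ G.edgeSet) then (1:ℝ) else 0) +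
        (1 - p) * (if false = decide (e ∈ G.edgeSet) then (1:ℝ) else 0)) =
      (if e ∈ G.edgeSet then p else 1 - p) := by
    intro e _
    by_cases h : e ∈ G.edgeSet <;> simp [h]
  rw [Finset.prod_congr rfl h2, Finset.prod_ite, Finset.prod_const, Finset.prod_const]
  have h3 : ((cl (univ : Finset V)).filter (fun e => e ∈ G.edgeSet)).card = G.edgeSet.ncard := by
    rw [← Set.ncard_coe_finset]
    congr 1
    ext e
    simp only [Finset.coe_filter, Set.mem_ofPred_eq, and_iff_right_iff_imp]
    intro he
    rw [mem_cl]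
    exact ⟨fun x _ => mem_univ x, G.not_isDiag_of_mem_edgeSet he⟩
  have h4 := Finset.card_filter_add_card_filter_not (s := cl (univ : Finset V))
    (fun e => e ∈ G.edgeSet)
  rw [h3, card_cl, Finset.card_univ, ← Nat.card_eq_fintype_card] at h4
  rw [h3]
  congr 2
  omega

theorem binomialRandom_apply_eq (p : unitInterval) (A : Set (SimpleGraph V)) :
    (SimpleGraph.binomialRandom V p) A = ENNReal.ofReal (pr (p : ℝ) (fun ω => gr ω ∈ A)) := by
  classical
  have h0 : (0:ℝ) ≤ p := p.2.1
  have h1 : (p:ℝ) ≤ 1 := p.2.2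
  have hA : A.Finite := Set.toFinite A
  have e1 : (SimpleGraph.binomialRandom V p) A =
      ∑ G ∈ hA.toFinset, (SimpleGraph.binomialRandom V p) {G} := by
    have : A = ⋃ G ∈ hA.toFinset, {G} := by
      ext G
      rw [Set.mem_iUnion₂]
      constructor
      · exact fun h => ⟨G, hA.mem_toFinset.2 h, Set.mem_singleton G⟩
      · rintro ⟨H, hH, hG⟩
        rw [Set.mem_singleton_iff] at hG
        rw [hG]
        exact hA.mem_toFinset.1 hH
    conv_lhs => rw [this]
    rw [measure_biUnion_finset]
    · intro G _ G' _ hne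
      simpa using hne
    · intro G _
      have : MeasurableSet ({G} : Set (SimpleGraph V)) := by
        have h5 : ({G} : Set (SimpleGraph V)) = SimpleGraph.edgeSet ⁻¹' {G.edgeSet} := by
          ext H
          simp
        rw [h5]
        exact SimpleGraph.measurable_edgeSet (Set.toFinite _).measurableSet
      exact this
  have e2 : pr (p:ℝ) (fun ω => gr ω ∈ A) = ∑ G ∈ hA.toFinset, pr (p:ℝ) (fun ω => gr ω = G) := by
    unfold pr
    rw [← ex_sum]
    congr 1
    ext ω
    by_cases h : gr ω ∈ A
    · rw [if_pos h, Finset.sum_eq_single (gr ω)]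
      · simp
      · intro G _ hne
        rw [if_neg (fun h => hne h.symm)]
      · intro h'
        exact absurd (hA.mem_toFinset.2 h) h'
    · rw [if_neg h, Finset.sum_eq_zero]
      intro G hG
      rw [if_neg]
      rintro rfl
      exact h (hA.mem_toFinset.1 hG)
  rw [e1, e2, ENNReal.ofReal_sum_of_nonneg fun G _ => pr_nonneg h0 h1 _]
  refine Finset.sum_congr rfl fun G _ => ?_
  rw [SimpleGraph.binomialRandom_singleton, pr_gr_eq]
  have h5 : (0:ℝ) ≤ 1 - p := by linarith
  rw [ENNReal.ofReal_mul (by positivity), ENNReal.ofReal_pow h0, ENNReal.ofReal_pow h5]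
  have h6 : ∀ x : unitInterval, ((unitInterval.toNNReal x : NNReal) : ENNReal) =
      ENNReal.ofReal (x : ℝ) := by
    intro x
    rw [← unitInterval.coe_toNNReal x, ENNReal.ofReal_coe_nnreal]
  rw [h6, h6, unitInterval.coe_symm_eq]

end Pool.Agent.Helper96
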