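import Pool.Agent.Helper96.CliqueDefs
import Pool.Agent.Helper96.Chernoff

/-!
Random graph model on `Sym2 V → Bool`, basic facts on clique colourings.
-/

open Finset

set_option linter.unusedSectionVars false

namespace Pool.Agent.Helper96

section colouring

variable {V : Type*}

theorem cliqueChromaticNumber_le {G : SimpleGraph V} {k : ℕ} (c : V → Fin k)
    (hc : IsCliqueColouring G c) : cliqueChromaticNumber G ≤ k :=
  Nat.sInf_le ⟨c, hc⟩

theorem IsCliqueColouring.comp_injective {α β : Type*} {G : SimpleGraph V} {c : V → α}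
    (hc : IsCliqueColouring G c) {f : α → β} (hf : Function.Injective f) :
    IsCliqueColouring G (f ∘ c) := by
  rintro K hK hK2 ⟨b, hb⟩
  obtain ⟨x, hx, y, hy, hxy⟩ := hK2
  refine hc K hK ⟨x, hx, y, hy, hxy⟩ ⟨c x, fun v hv => hf ?_⟩
  have h1 := hb v hv
  have h2 := hb x hx
  simp only [Function.comp_apply] at h1 h2
  rw [h1, h2]

theorem isCliqueColouring_of_injective {α : Type*} {G : SimpleGraph V} {c : V → α}
    (hc : Function.Injective c) : IsCliqueColouring G c := by
  rintro K _ ⟨x, hx, y, hy, hxy⟩ ⟨a, ha⟩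
  exact hxy (hc ((ha x hx).trans (ha y hy).symm))

theorem exists_colouring_of_cliqueChromaticNumber_le [Finite V] {G : SimpleGraph V} {k : ℕ}
    (h : cliqueChromaticNumber G ≤ k) : ∃ c : V → Fin k, IsCliqueColouring G c := by
  have hne : {k : ℕ | ∃ c : V → Fin k, IsCliqueColouring G c}.Nonempty :=
    ⟨Nat.card V, Finite.equivFin V, isCliqueColouring_of_injective (Finite.equivFin V).injective⟩
  obtain ⟨c, hc⟩ := Nat.sInf_mem hne
  exact ⟨_, hc.comp_injective (Fin.castLE_injective h)⟩

/-- A colouring by a finite type of colours. -/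
theorem cliqueChromaticNumber_le_card {α : Type*} [Fintype α] {G : SimpleGraph V} (c : V → α)
    (hc : IsCliqueColouring G c) : cliqueChromaticNumber G ≤ Fintype.card α :=
  cliqueChromaticNumber_le _ (hc.comp_injective (Fintype.equivFin α).injective)

end colouring

variable {V : Type*} [Fintype V] [DecidableEq V]

/-- The graph of a configuration. -/
def gr (ω : Sym2 V → Bool) : SimpleGraph V where
  Adj u v := u ≠ v ∧ ω s(u, v) = true
  symm := ⟨fun u v h => ⟨h.1.symm, by rw [Sym2.eq_swap]; exact h.2⟩⟩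
  loopless := ⟨fun _ h => h.1 rfl⟩

theorem gr_adj (ω : Sym2 V → Bool) (u v : V) : (gr ω).Adj u v ↔ u ≠ v ∧ ω s(u, v) = true :=
  Iff.rfl

/-- The edges of the complete graph on `T`. -/
def cl (T : Finset V) : Finset (Sym2 V) := T.sym2.filter (fun e => ¬ e.IsDiag)

theorem mk_mem_cl {T : Finset V} {x y : V} : s(x, y) ∈ cl T ↔ x ∈ T ∧ y ∈ T ∧ x ≠ y := by
  simp [cl, and_assoc]

theorem mem_cl {T : Finset V} {e : Sym2 V} : e ∈ cl T ↔ (∀ x ∈ e, x ∈ T) ∧ ¬ e.IsDiag := by
  simp [cl]

/-- The edges from `v` to `S`. -/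
def star (v : V) (S : Finset V) : Finset (Sym2 V) := S.image (fun x => s(v, x))

theorem mem_star {v : V} {S : Finset V} {e : Sym2 V} : e ∈ star v S ↔ ∃ x ∈ S, s(v, x) = e := by
  simp [star]

theorem mk_mem_star {v x : V} {S : Finset V} (h : x ∈ S) : s(v, x) ∈ star v S :=
  mem_star.2 ⟨x, h, rfl⟩

theorem star_disjoint {v v' : V} {S : Finset V} (hv : v ∉ S) (h : v ≠ v') :
    Disjoint (star v S) (star v' S) := by
  rw [Finset.disjoint_left]
  intro e he he'
  obtain ⟨x, hx, rfl⟩ := mem_star.1 he
  obtain ⟨y, hy, hxy⟩ := mem_star.1 he'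
  rw [Sym2.eq_iff] at hxy
  rcases hxy with ⟨h1, h2⟩ | ⟨h1, h2⟩
  · exact h h1.symm
  · exact hv (h2 ▸ hy)

theorem star_disjoint_cl {v : V} (S : Finset V) (T : Finset V) (hT : v ∉ T) :
    Disjoint (star v S) (cl T) := by
  rw [Finset.disjoint_left]
  intro e he he'
  obtain ⟨x, hx, rfl⟩ := mem_star.1 he
  exact hT (mk_mem_cl.1 he').1

theorem isClique_iff_allOn (ω : Sym2 V → Bool) (T : Finset V) :
    (gr ω).IsClique (T : Set V) ↔ AllOn (cl T) ω := by
  constructor
  · intro h e
    induction e using Sym2.inductionOn with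
    | hf x y =>
      intro he
      obtain ⟨hx, hy, hxy⟩ := mk_mem_cl.1 he
      exact (h hx hy hxy).2
  · intro h x hx y hy hxy
    exact ⟨hxy, h _ (mk_mem_cl.2 ⟨hx, hy, hxy⟩)⟩

theorem card_cl (T : Finset V) : (cl T).card = T.card.choose 2 := by
  unfold cl
  have h1 : (T.sym2.filter (fun e => e.IsDiag)).card = T.card := by
    have : T.sym2.filter (fun e => e.IsDiag) = T.image (fun x => s(x, x)) := by
      ext e
      induction e using Sym2.inductionOn with
      | hf x y =>
        simp only [Finset.mem_filter, Finset.mk_mem_sym2_iff, Sym2.mk_isDiag_iff,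
          Finset.mem_image, Sym2.eq_iff]
        constructor
        · rintro ⟨⟨hx, hy⟩, rfl⟩
          exact ⟨x, hx, Or.inl ⟨rfl, rfl⟩⟩
        · rintro ⟨z, hz, (⟨rfl, rfl⟩ | ⟨rfl, rfl⟩)⟩ <;> exact ⟨⟨hz, hz⟩, rfl⟩
    rw [this, Finset.card_image_of_injective]
    intro x y h
    simpa using h
  have h2 := Finset.card_sym2 T
  have h3 := Finset.card_filter_add_card_filter_not (s := T.sym2) (fun e : Sym2 V => e.IsDiag)
  rw [h1, h2] at h3
  have h4 : (T.card + 1).choose 2 = T.card + T.card.choose 2 := by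
    rw [Nat.choose_succ_succ' T.card 1, Nat.choose_one_right]
  omega

theorem cl_inter (T T' : Finset V) : cl T ∩ cl T' = cl (T ∩ T') := by
  ext e
  simp only [Finset.mem_inter, mem_cl]
  constructor
  · rintro ⟨⟨h1, h2⟩, h3, h4⟩
    exact ⟨fun x hx => ⟨h1 x hx, h3 x hx⟩, h2⟩
  · rintro ⟨h1, h2⟩
    exact ⟨⟨fun x hx => (h1 x hx).1, h2⟩, fun x hx => (h1 x hx).2, h2⟩

theorem card_cl_union (T T' : Finset V) :
    (cl T ∪ cl T').card + (T ∩ T').card.choose 2 = T.card.choose 2 + T'.card.choose 2 := by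
  rw [← card_cl T, ← card_cl T', ← card_cl (T ∩ T'), ← cl_inter]
  exact Finset.card_union_add_card_inter _ _

theorem cl_disjoint_iff (T T' : Finset V) : Disjoint (cl T) (cl T') ↔ (T ∩ T').card < 2 := by
  rw [Finset.disjoint_iff_inter_eq_empty, cl_inter, ← Finset.card_eq_zero, card_cl]
  exact Nat.choose_eq_zero_iff

/-- Number of `r`-subsets of `C` meeting a given set of size `r` in exactly `j` elements. -/
theorem card_inter_eq_le (C T : Finset V) (r j : ℕ) :
    ((C.powersetCard r).filter (fun T' => (T ∩ T').card = j)).card ≤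
      T.card.choose j * C.card.choose (r - j) := by
  have h : ((C.powersetCard r).filter (fun T' => (T ∩ T').card = j)).card ≤
      ((T.powersetCard j) ×ˢ (C.powersetCard (r - j))).card := by
    refine Finset.card_le_card_of_injOn (fun T' => (T ∩ T', T' \ T)) ?_ ?_
    · intro T' hT'
      rw [Finset.mem_coe, Finset.mem_filter, Finset.mem_powersetCard] at hT'
      rw [Finset.mem_coe, Finset.mem_product, Finset.mem_powersetCard, Finset.mem_powersetCard]
      refine ⟨⟨Finset.inter_subset_left, hT'.2⟩, (Finset.sdiff_subset).trans hT'.1.1, ?_⟩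
      have := Finset.card_sdiff_add_card_inter T' T
      rw [Finset.inter_comm, hT'.2, hT'.1.2] at this
      simp only
      omega
    · intro T₁ _ T₂ _ h
      simp only [Prod.mk.injEq] at h
      rw [← Finset.sdiff_union_inter T₁ T, ← Finset.sdiff_union_inter T₂ T, h.2,
        Finset.inter_comm T₁, Finset.inter_comm T₂, h.1]
  rwa [Finset.card_product, Finset.card_powersetCard, Finset.card_powersetCard] at h

/-- Janson's inequality for cliques on a family of triples. -/
theorem janson_triples {p : ℝ} (h0 : 0 ≤ p) (h1 : p ≤ 1) (C : Finset V) (F : Finset (Finset V))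
    (hF : F ⊆ C.powersetCard 3) (hp : 3 * C.card * p ^ 2 ≤ 1) :
    pr p (fun ω => ∀ T ∈ F, ¬ AllOn (cl T) ω) ≤ Real.exp (-(F.card * p ^ 3 / 2)) := by
  refine (janson h0 h1 F (fun T => cl T)).trans ?_
  apply Real.exp_le_exp.2
  have hcard : ∀ T ∈ F, T.card = 3 := fun T hT => (Finset.mem_powersetCard.1 (hF hT)).2
  have e1 : ∑ T ∈ F, p ^ (cl T).card = F.card * p ^ 3 := by
    rw [Finset.sum_congr rfl (g := fun _ => p ^ 3)]
    · simp
    · intro T hT
      rw [card_cl, hcard T hT]
      rfl
  have e2 : ∀ T ∈ F, ∑ T' ∈ F with (T' ≠ T ∧ ¬ Disjoint (cl T) (cl T')),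
      p ^ (cl T ∪ cl T').card ≤ p ^ 3 := by
    intro T hT
    have hsub : ∀ T' ∈ F.filter (fun T' => T' ≠ T ∧ ¬ Disjoint (cl T) (cl T')),
        T' ∈ (C.powersetCard 3).filter (fun T' => (T ∩ T').card = 2) := by
      intro T' hT'
      obtain ⟨hT'F, hne, hd⟩ := Finset.mem_filter.1 hT'
      rw [cl_disjoint_iff, not_lt] at hd
      refine Finset.mem_filter.2 ⟨hF hT'F, ?_⟩
      have h3 : (T ∩ T').card ≤ 3 := (Finset.card_le_card Finset.inter_subset_left).trans
        (hcard T hT).le
      have hne3 : (T ∩ T').card ≠ 3 := by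
        intro h
        have hA := Finset.eq_of_subset_of_card_le (Finset.inter_subset_left (s₁ := T) (s₂ := T'))
          (by rw [h, hcard T hT])
        have hB := Finset.eq_of_subset_of_card_le (Finset.inter_subset_right (s₁ := T) (s₂ := T'))
          (by rw [h, hcard T' hT'F])
        exact hne (hB.symm.trans hA)
      omega
    have hterm : ∀ T' ∈ F.filter (fun T' => T' ≠ T ∧ ¬ Disjoint (cl T) (cl T')),
        p ^ (cl T ∪ cl T').card = p ^ 5 := by
      intro T' hT'
      have h := card_cl_union T T'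
      obtain ⟨hmem, h2⟩ := Finset.mem_filter.1 (hsub T' hT')
      rw [h2, hcard T hT, (Finset.mem_powersetCard.1 hmem).2] at h
      have : (cl T ∪ cl T').card = 5 := by
        simp [Nat.choose] at h
        omega
      rw [this]
    rw [Finset.sum_congr rfl hterm, Finset.sum_const, nsmul_eq_mul]
    have hc : ((F.filter (fun T' => T' ≠ T ∧ ¬ Disjoint (cl T) (cl T'))).card : ℝ) ≤
        3 * C.card := by
      have h := (Finset.card_le_card hsub).trans (card_inter_eq_le C T 3 2)
      rw [hcard T hT] at h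
      have h' : Nat.choose 3 2 * C.card.choose (3 - 2) = 3 * C.card := by
        simp [Nat.choose]
      rw [h'] at h
      exact_mod_cast h
    have hp5 : (0:ℝ) ≤ p ^ 5 := by positivity
    calc _ ≤ 3 * C.card * p ^ 5 := mul_le_mul_of_nonneg_right hc hp5
      _ = (3 * C.card * p ^ 2) * p ^ 3 := by ring
      _ ≤ 1 * p ^ 3 := mul_le_mul_of_nonneg_right hp (by positivity)
      _ = p ^ 3 := one_mul _
  have e3 := Finset.sum_le_sum e2
  rw [Finset.sum_const, nsmul_eq_mul] at e3
  rw [e1]
  linarith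

/-- Janson's inequality for cliques on a family of quadruples. -/
theorem janson_quadruples {p : ℝ} (h0 : 0 ≤ p) (h1 : p ≤ 1) (C : Finset V)
    (F : Finset (Finset V)) (hF : F ⊆ C.powersetCard 4)
    (hp : 6 * (C.card : ℝ) ^ 2 * p ^ 5 + 4 * C.card * p ^ 3 ≤ 1) :
    pr p (fun ω => ∀ T ∈ F, ¬ AllOn (cl T) ω) ≤ Real.exp (-(F.card * p ^ 6 / 2)) := by
  refine (janson h0 h1 F (fun T => cl T)).trans ?_
  apply Real.exp_le_exp.2
  have hcard : ∀ T ∈ F, T.card = 4 := fun T hT => (Finset.mem_powersetCard.1 (hF hT)).2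
  have e1 : ∑ T ∈ F, p ^ (cl T).card = F.card * p ^ 6 := by
    rw [Finset.sum_congr rfl (g := fun _ => p ^ 6)]
    · simp
    · intro T hT
      rw [card_cl, hcard T hT]
      rfl
  have e2 : ∀ T ∈ F, ∑ T' ∈ F with (T' ≠ T ∧ ¬ Disjoint (cl T) (cl T')),
      p ^ (cl T ∪ cl T').card ≤ p ^ 6 := by
    intro T hT
    have hsub : ∀ T' ∈ F.filter (fun T' => T' ≠ T ∧ ¬ Disjoint (cl T) (cl T')),
        T' ∈ (C.powersetCard 4).filter (fun T' => (T ∩ T').card = 2) ∪
          (C.powersetCard 4).filter (fun T' => (T ∩ T').card = 3) := by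
      intro T' hT'
      obtain ⟨hT'F, hne, hd⟩ := Finset.mem_filter.1 hT'
      rw [cl_disjoint_iff, not_lt] at hd
      have h3 : (T ∩ T').card ≤ 4 := (Finset.card_le_card Finset.inter_subset_left).trans
        (hcard T hT).le
      have hne3 : (T ∩ T').card ≠ 4 := by
        intro h
        have hA := Finset.eq_of_subset_of_card_le (Finset.inter_subset_left (s₁ := T) (s₂ := T'))
          (by rw [h, hcard T hT])
        have hB := Finset.eq_of_subset_of_card_le (Finset.inter_subset_right (s₁ := T) (s₂ := T'))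
          (by rw [h, hcard T' hT'F])
        exact hne (hB.symm.trans hA)
      rw [Finset.mem_union, Finset.mem_filter, Finset.mem_filter]
      have : (T ∩ T').card = 2 ∨ (T ∩ T').card = 3 := by omega
      rcases this with h | h
      · exact Or.inl ⟨hF hT'F, h⟩
      · exact Or.inr ⟨hF hT'F, h⟩
    have hle : ∑ T' ∈ F with (T' ≠ T ∧ ¬ Disjoint (cl T) (cl T')), p ^ (cl T ∪ cl T').card ≤
        ∑ T' ∈ (C.powersetCard 4).filter (fun T' => (T ∩ T').card = 2) ∪
          (C.powersetCard 4).filter (fun T' => (T ∩ T').card = 3), p ^ (cl T ∪ cl T').card :=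
      Finset.sum_le_sum_of_subset_of_nonneg hsub fun _ _ _ => by positivity
    have hdisj : Disjoint ((C.powersetCard 4).filter (fun T' => (T ∩ T').card = 2))
          ((C.powersetCard 4).filter (fun T' => (T ∩ T').card = 3)) := by
      rw [Finset.disjoint_left]
      intro T' h2 h3
      have := (Finset.mem_filter.1 h2).2
      have := (Finset.mem_filter.1 h3).2
      omega
    rw [Finset.sum_union hdisj] at hle
    have hs2 : ∑ T' ∈ (C.powersetCard 4).filter (fun T' => (T ∩ T').card = 2),
        p ^ (cl T ∪ cl T').card ≤ 6 * (C.card : ℝ) ^ 2 * p ^ 11 := by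
      have hterm : ∀ T' ∈ (C.powersetCard 4).filter (fun T' => (T ∩ T').card = 2),
          p ^ (cl T ∪ cl T').card = p ^ 11 := by
        intro T' hT'
        have h := card_cl_union T T'
        obtain ⟨hmem, h2⟩ := Finset.mem_filter.1 hT'
        rw [h2, hcard T hT, (Finset.mem_powersetCard.1 hmem).2] at h
        have : (cl T ∪ cl T').card = 11 := by
          simp [Nat.choose] at h
          omega
        rw [this]
      rw [Finset.sum_congr rfl hterm, Finset.sum_const, nsmul_eq_mul]
      refine mul_le_mul_of_nonneg_right ?_ (by positivity)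
      have h := card_inter_eq_le C T 4 2
      rw [hcard T hT] at h
      have h' : Nat.choose 4 2 = 6 := rfl
      rw [h'] at h
      have h5 : C.card.choose (4 - 2) ≤ C.card ^ 2 := Nat.choose_le_pow _ _
      have h6 := h.trans (Nat.mul_le_mul_left 6 h5)
      exact_mod_cast h6
    have hs3 : ∑ T' ∈ (C.powersetCard 4).filter (fun T' => (T ∩ T').card = 3),
        p ^ (cl T ∪ cl T').card ≤ 4 * C.card * p ^ 9 := by
      have hterm : ∀ T' ∈ (C.powersetCard 4).filter (fun T' => (T ∩ T').card = 3),
          p ^ (cl T ∪ cl T').card = p ^ 9 := by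
        intro T' hT'
        have h := card_cl_union T T'
        obtain ⟨hmem, h2⟩ := Finset.mem_filter.1 hT'
        rw [h2, hcard T hT, (Finset.mem_powersetCard.1 hmem).2] at h
        have : (cl T ∪ cl T').card = 9 := by
          simp [Nat.choose] at h
          omega
        rw [this]
      rw [Finset.sum_congr rfl hterm, Finset.sum_const, nsmul_eq_mul]
      refine mul_le_mul_of_nonneg_right ?_ (by positivity)
      have h := card_inter_eq_le C T 4 3
      rw [hcard T hT] at h
      have h' : Nat.choose 4 3 * C.card.choose (4 - 3) = 4 * C.card := by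
        simp [Nat.choose]
      rw [h'] at h
      exact_mod_cast h
    calc _ ≤ 6 * (C.card : ℝ) ^ 2 * p ^ 11 + 4 * C.card * p ^ 9 := hle.trans (add_le_add hs2 hs3)
      _ = (6 * (C.card : ℝ) ^ 2 * p ^ 5 + 4 * C.card * p ^ 3) * p ^ 6 := by ring
      _ ≤ 1 * p ^ 6 := mul_le_mul_of_nonneg_right hp (by positivity)
      _ = p ^ 6 := one_mul _
  have e3 := Finset.sum_le_sum e2
  rw [Finset.sum_const, nsmul_eq_mul] at e3
  rw [e1]
  linarith

end Pool.Agent.Helper96
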