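import Mathlib

/-!
Clique colourings and the clique chromatic number.
-/

namespace Pool.Agent.Helper96

/-- A (not necessarily proper) colouring `c` of the vertices of `G` is a clique colouring if no
inclusion-maximal clique with at least two vertices is monochromatic. -/
def IsCliqueColouring {V α : Type*} (G : SimpleGraph V) (c : V → α) : Prop :=
  ∀ K : Set V, Maximal G.IsClique K → K.Nontrivial → ¬ ∃ a : α, ∀ v ∈ K, c v = a

/-- The clique chromatic number: the least number of colours in a clique colouring. -/
noncomputable def cliqueChromaticNumber {V : Type*} (G : SimpleGraph V) : ℕ :=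
  sInf {k : ℕ | ∃ c : V → Fin k, IsCliqueColouring G c}

end Pool.Agent.Helper96
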