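import Pool.Agent.Helper96.Upper

/-!
Colourings without monochromatic sets from a family with few sets, by repeated halving.
-/

open Finset

set_option linter.unusedSectionVars false

namespace Pool.Agent.Helper96

variable {V : Type*} [Fintype V] [DecidableEq V]

/-- `T` is monochromatic under `c`. -/
def Mono {κ : Type*} (c : V → κ) (T : Finset V) : Prop := ∀ x ∈ T, ∀ y ∈ T, c x = c y

open Classical in
theorem sum_mono_eq {Q : ℕ} (hQ : 0 < Q) (T : Finset V) (hT : T.Nonempty) :
    ∑ c : V → Fin Q, (if Mono c T then (1:ℝ) else 0) =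
      (Q:ℝ) ^ (Fintype.card V) * (1 / (Q:ℝ)) ^ (T.card - 1) := by
  have hQ0 : (0:ℝ) < Q := by exact_mod_cast hQ
  have h1 : ∀ c : V → Fin Q, (if Mono c T then (1:ℝ) else 0) =
      ∑ i : Fin Q, ∏ x : V, (if x ∈ T then (if c x = i then (1:ℝ) else 0) else 1) := by
    intro c
    have h2 : ∀ i : Fin Q, ∏ x : V, (if x ∈ T then (if c x = i then (1:ℝ) else 0) else 1) =
        if ∀ x ∈ T, c x = i then 1 else 0 := by
      intro i
      rw [Finset.prod_ite_mem, Finset.univ_inter]
      split_ifs with h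
      · exact Finset.prod_eq_one fun x hx => by rw [if_pos (h x hx)]
      · push Not at h
        obtain ⟨x, hx, hxi⟩ := h
        exact Finset.prod_eq_zero hx (by rw [if_neg hxi])
    simp_rw [h2]
    obtain ⟨t, ht⟩ := hT
    by_cases h : Mono c T
    · rw [if_pos h, Finset.sum_eq_single (c t)]
      · rw [if_pos fun x hx => h x hx t ht]
      · intro i _ hi
        rw [if_neg]
        intro h3
        exact hi (h3 t ht).symm
      · intro h3
        exact absurd (Finset.mem_univ _) h3
    · rw [if_neg h]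
      symm
      refine Finset.sum_eq_zero fun i _ => ?_
      rw [if_neg]
      intro h3
      exact h fun x hx y hy => (h3 x hx).trans (h3 y hy).symm
  simp_rw [h1]
  rw [Finset.sum_comm]
  have h3 : ∀ i : Fin Q, ∑ c : V → Fin Q,
      ∏ x : V, (if x ∈ T then (if c x = i then (1:ℝ) else 0) else 1) =
      (Q:ℝ) ^ (Fintype.card V) * (1 / (Q:ℝ)) ^ T.card := by
    intro i
    have h4 := Finset.prod_univ_sum (fun _ : V => (univ : Finset (Fin Q)))
      (fun x j => if x ∈ T then (if j = i then (1:ℝ) else 0) else 1)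
    simp only [Fintype.piFinset_univ] at h4
    rw [← h4]
    have h5 : ∀ x : V, ∑ j : Fin Q, (if x ∈ T then (if j = i then (1:ℝ) else 0) else 1) =
        (Q:ℝ) * (if x ∈ T then 1 / (Q:ℝ) else 1) := by
      intro x
      split_ifs with hx
      · simp
        field_simp
      · simp
    simp_rw [h5]
    rw [Finset.prod_mul_distrib, Finset.prod_const, Finset.card_univ, Finset.prod_ite_mem,
      Finset.univ_inter, Finset.prod_const]
  simp_rw [h3]
  rw [Finset.sum_const, Finset.card_univ, Fintype.card_fin, nsmul_eq_mul]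
  have h6 : T.card = (T.card - 1) + 1 := by
    have := hT.card_pos
    omega
  nth_rewrite 1 [h6]
  rw [pow_succ]
  field_simp

open Classical in
theorem exists_few_mono {Q : ℕ} (hQ : 0 < Q) (F : Finset (Finset V)) (hF : ∀ T ∈ F, T.Nonempty) :
    ∃ c : V → Fin Q, ((F.filter (fun T => Mono c T)).card : ℝ) ≤
      ∑ T ∈ F, (1 / (Q:ℝ)) ^ (T.card - 1) := by
  have hQ0 : (0:ℝ) < Q := by exact_mod_cast hQ
  have : Nonempty (Fin Q) := ⟨⟨0, hQ⟩⟩
  have h1 : ∑ c : V → Fin Q, ((F.filter (fun T => Mono c T)).card : ℝ) ≤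
      ∑ _c : V → Fin Q, ∑ T ∈ F, (1 / (Q:ℝ)) ^ (T.card - 1) := by
    have h2 : ∀ c : V → Fin Q, ((F.filter (fun T => Mono c T)).card : ℝ) =
        ∑ T ∈ F, (if Mono c T then (1:ℝ) else 0) := by
      intro c
      simp
    simp_rw [h2]
    rw [Finset.sum_comm, Finset.sum_congr rfl fun T hT => sum_mono_eq hQ T (hF T hT),
      ← Finset.mul_sum, Finset.sum_const, Finset.card_univ, Fintype.card_fun, Fintype.card_fin,
      nsmul_eq_mul]
    push_cast
    exact le_rfl
  obtain ⟨c, _, hc⟩ := Finset.exists_le_of_sum_le Finset.univ_nonempty h1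
  exact ⟨c, hc⟩

theorem exists_no_mono {Q : ℕ} (hQ : 0 < Q) (F : Finset (Finset V)) (hF : ∀ T ∈ F, T.Nonempty)
    (m : ℕ) : ∀ L : Finset V, L.card < 2 ^ m →
    (∀ L' ⊆ L, ∑ T ∈ F.filter (fun T => T ⊆ L'), (1 / (Q:ℝ)) ^ (T.card - 1) ≤
      (L'.card : ℝ) / 2) →
    ∃ c : V → Fin (m + 1) × Fin Q, ∀ T ∈ F, T ⊆ L → ¬ Mono c T := by
  classical
  induction m with
  | zero =>
    intro L hL _
    have hL0 : L = ∅ := by
      rw [← Finset.card_eq_zero]
      simpa using hL
    subst hL0
    refine ⟨fun _ => (0, ⟨0, hQ⟩), fun T hT hTL => ?_⟩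
    exact absurd (hF T hT) (by rw [Finset.subset_empty.1 hTL]; simp)
  | succ m ih =>
    intro L hL hw
    obtain ⟨c₀, hc₀⟩ := exists_few_mono hQ (F.filter (fun T => T ⊆ L))
      (fun T hT => hF T (Finset.mem_filter.1 hT).1)
    set M := (F.filter (fun T => T ⊆ L)).filter (fun T => Mono c₀ T) with hM
    have hMF : ∀ T ∈ M, T ∈ F ∧ T ⊆ L ∧ Mono c₀ T := by
      intro T hT
      rw [hM, Finset.mem_filter, Finset.mem_filter] at hT
      exact ⟨hT.1.1, hT.1.2, hT.2⟩
    have hMc : (M.card : ℝ) ≤ L.card / 2 := hc₀.trans (hw L (Finset.Subset.refl _))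
    let R : Finset V := M.attach.image (fun T => (hF T.1 (hMF T.1 T.2).1).choose)
    have hRc : R.card ≤ M.card := by
      have := Finset.card_image_le (s := M.attach)
        (f := fun T => (hF T.1 (hMF T.1 T.2).1).choose)
      rwa [Finset.card_attach] at this
    have hRL : R ⊆ L := by
      intro x hx
      obtain ⟨T, _, rfl⟩ := Finset.mem_image.1 hx
      exact (hMF T.1 T.2).2.1 (hF T.1 (hMF T.1 T.2).1).choose_spec
    have hRm : R.card < 2 ^ m := by
      have h1 : (R.card : ℝ) ≤ L.card / 2 := le_trans (by exact_mod_cast hRc) hMc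
      have h2 : (L.card : ℝ) < 2 ^ (m + 1) := by exact_mod_cast hL
      have h3 : (R.card : ℝ) < 2 ^ m := by
        rw [pow_succ] at h2
        linarith
      exact_mod_cast h3
    obtain ⟨c', hc'⟩ := ih R hRm (fun L' hL' => hw L' (hL'.trans hRL))
    refine ⟨fun x => if x ∈ R then ((c' x).1.castSucc, (c' x).2) else (Fin.last (m + 1), c₀ x),
      fun T hT hTL hmono => ?_⟩
    by_cases hTR : ∃ x ∈ T, x ∈ R
    · obtain ⟨x, hx, hxR⟩ := hTR
      have hTR' : T ⊆ R := by
        intro y hy
        by_contra hyR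
        have h1 := hmono x hx y hy
        simp only [hxR, hyR, if_true, if_false, Prod.mk.injEq] at h1
        exact (Fin.castSucc_lt_last _).ne h1.1
      refine hc' T hT hTR' fun y hy z hz => ?_
      have h1 := hmono y hy z hz
      simp only [hTR' hy, hTR' hz, if_true, Prod.mk.injEq] at h1
      exact Prod.ext (Fin.castSucc_injective _ h1.1) h1.2
    · push Not at hTR
      have hTM : T ∈ M := by
        rw [hM, Finset.mem_filter, Finset.mem_filter]
        refine ⟨⟨hT, hTL⟩, fun y hy z hz => ?_⟩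
        have h1 := hmono y hy z hz
        simp only [hTR y hy, hTR z hz, if_false, Prod.mk.injEq, true_and] at h1
        exact h1
      refine hTR _ (hF T (hMF T hTM).1).choose_spec ?_
      exact Finset.mem_image.2 ⟨⟨T, hTM⟩, Finset.mem_attach _ _, rfl⟩

end Pool.Agent.Helper96
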