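import Pool.Agent.Helper96.LowerProb

/-!
Assembly of the lower bound (finite form).
-/

open Finset

set_option linter.unusedSectionVars false

namespace Pool.Agent.Helper96

variable {V : Type*} [Fintype V] [DecidableEq V]

/-- The bad event for a fixed set `C`: all codegrees are small, `C` is not concentrated on a
neighbourhood, and no clique of size `r` in `C` is without common neighbour outside `C`. -/
def BadSet (r s lam : ℕ) (C : Finset V) (ω : Sym2 V → Bool) : Prop :=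
  CodegLe ω lam ∧ (∀ v, (nb ω v C).card ≤ s + lam) ∧ ∀ T ∈ unc r ω C, ¬ AllOn (cl T) ω

theorem det_lower [Nonempty V] {ω : Sym2 V → Bool} {r s lam k : ℕ} (hr : 2 ≤ r)
    (hcod : CodegLe ω lam) (hbad : ∀ C : Finset V, C.card = 2 * s → ¬ BadSet r s lam C ω)
    (hna : ∀ W : Fin k → V, k * (2 * s) < (nonAdj ω (univ.image W)).card) :
    ¬ ∃ c : V → Fin k, IsCliqueColouring (gr ω) c := by
  classical
  rintro ⟨c, hc⟩
  have key : ∀ a : Fin k, ∃ v : V, ((univ.filter (fun x => c x = a)) \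
      nb ω v (univ.filter (fun x => c x = a))).card ≤ 2 * s := by
    intro a
    by_contra hcon
    push Not at hcon
    set C := univ.filter (fun x => c x = a) with hC
    have hCcard : 2 * s ≤ C.card := by
      obtain ⟨v⟩ := ‹Nonempty V›
      exact (hcon v).le.trans (Finset.card_le_card Finset.sdiff_subset)
    obtain ⟨C', hC'C, hC'card, hbal⟩ := exists_balanced (s := s) hcod hCcard (fun v => by
      have := hcon v
      omega)
    apply hbad C' hC'card
    refine ⟨hcod, hbal, fun T hT hcl => ?_⟩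
    exact no_unc_clique hc (C := C') (a := a)
      (fun v hv => (Finset.mem_filter.1 (hC'C hv)).2) hr hT hcl
  choose w hw using key
  have h1 := hna w
  have h2 : nonAdj ω (univ.image w) ⊆ (univ : Finset (Fin k)).biUnion (fun a =>
      (univ.filter (fun x => c x = a)) \ nb ω (w a) (univ.filter (fun x => c x = a))) := by
    intro u hu
    rw [Finset.mem_biUnion]
    refine ⟨c u, Finset.mem_univ _, ?_⟩
    rw [Finset.mem_sdiff]
    refine ⟨Finset.mem_filter.2 ⟨Finset.mem_univ _, rfl⟩, fun h => ?_⟩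
    rw [nonAdj, Finset.mem_filter] at hu
    have h3 := hu.2 (w (c u)) (Finset.mem_image_of_mem _ (Finset.mem_univ _))
    have h4 := (mem_nb.1 h).2.2
    rw [Sym2.eq_swap, h3] at h4
    exact Bool.false_ne_true h4
  have h3 := (Finset.card_le_card h2).trans
    (Finset.card_biUnion_le_card_mul _ _ (2 * s) fun a _ => hw a)
  rw [Finset.card_univ, Fintype.card_fin] at h3
  omega

/-- Finite form of the lower bound. -/
theorem lower_finite [Nonempty V] {p : ℝ} (h0 : 0 ≤ p) (h1 : p ≤ 1) {r s lam k : ℕ}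
    (hr : 2 ≤ r) (hlam : 4 * (Fintype.card V * p ^ 2) ≤ lam) (b : ℝ) (hb0 : 0 ≤ b)
    (hb : ∀ C : Finset V, C.card = 2 * s → pr p (BadSet r s lam C) ≤ b)
    (hk : (k : ℝ) * (2 * s) ≤ ((Fintype.card V : ℝ) - k) * (1 - p) ^ k / 2) :
    pr p (fun ω : Sym2 V → Bool => ∃ c : V → Fin k, IsCliqueColouring (gr ω) c) ≤
      (Fintype.card V : ℝ) ^ 2 * Real.exp (-(lam / 2)) +
      (Fintype.card V : ℝ) ^ (2 * s) * b +
      (Fintype.card V : ℝ) ^ k *
        Real.exp (-(((Fintype.card V : ℝ) - k) * (1 - p) ^ k / 8)) := by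
  classical
  have e1 := pr_codeg (V := V) h0 h1 lam hlam
  have e2 : pr p (fun ω : Sym2 V → Bool => ∃ C ∈ (univ : Finset V).powersetCard (2 * s),
      BadSet r s lam C ω) ≤ (Fintype.card V : ℝ) ^ (2 * s) * b := by
    refine (pr_exists_le_card h0 h1 _ _ b fun C hC =>
        hb C (Finset.mem_powersetCard.1 hC).2).trans ?_
    refine mul_le_mul_of_nonneg_right ?_ hb0
    rw [Finset.card_powersetCard, Finset.card_univ]
    exact_mod_cast Nat.choose_le_pow _ _
  have e3 : pr p (fun ω : Sym2 V → Bool => ∃ W ∈ (univ : Finset (Fin k → V)),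
      ((nonAdj ω (univ.image W)).card : ℝ) ≤ (k : ℝ) * (2 * s)) ≤
      (Fintype.card V : ℝ) ^ k *
        Real.exp (-(((Fintype.card V : ℝ) - k) * (1 - p) ^ k / 8)) := by
    refine (pr_exists_le_card h0 h1 _ _ _ fun W _ =>
      pr_nonAdj h0 h1 (univ.image W) k ?_ _ hk).trans ?_
    · exact Finset.card_image_le.trans (by simp)
    · rw [Finset.card_univ, Fintype.card_fun, Fintype.card_fin]
      push_cast
      exact le_rfl
  refine le_trans (pr_mono h0 h1 (B := fun ω => (¬ CodegLe ω lam ∨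
    ∃ C ∈ (univ : Finset V).powersetCard (2 * s), BadSet r s lam C ω) ∨
    ∃ W ∈ (univ : Finset (Fin k → V)),
      ((nonAdj ω (univ.image W)).card : ℝ) ≤ (k : ℝ) * (2 * s)) fun ω hω => ?_) ?_
  · by_contra hcon
    push Not at hcon
    obtain ⟨⟨hcod, hbad⟩, hna⟩ := hcon
    refine det_lower hr hcod (fun C hC => hbad C (Finset.mem_powersetCard.2
      ⟨Finset.subset_univ _, hC⟩)) (fun W => ?_) hω
    have := hna W (Finset.mem_univ _)
    exact_mod_cast this
  · refine (pr_or_le h0 h1 _ _).trans (add_le_add ((pr_or_le h0 h1 _ _).trans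
      (add_le_add e1 e2)) e3)

/-- Deterministic lower bound on the number of uncovered `r`-sets in a balanced set. -/
theorem unc_ge {ω : Sym2 V → Bool} {r s lam : ℕ} (hr : 3 ≤ r) {C : Finset V}
    (hC : C.card = 2 * s) (hcod : CodegLe ω lam) (hbal : ∀ v, (nb ω v C).card ≤ s + lam)
    {D B θ : ℝ} (hD : 0 ≤ D) (hθ : 0 < θ) (hrich : richWt D C ω ≤ B) :
    ((2 * s).choose r : ℝ) - (((s:ℝ) + lam) ^ (r - 3) *
      (((s:ℝ) + lam) ^ 2 * (2 * s + (B / θ) ^ 2 * lam) + θ ^ 2 * B) +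
      Fintype.card V * D ^ r) / (r.factorial : ℝ) ≤ (unc r ω C).card := by
  classical
  have h1 := card_unc_ge r ω C
  rw [hC] at h1
  refine le_trans (sub_le_sub_left ?_ _) h1
  have h2 : ∀ v ∈ Cᶜ, ((nb ω v C).card.choose r : ℝ) ≤
      ((nb ω v C).card : ℝ) ^ r / (r.factorial : ℝ) := fun v _ => Nat.choose_le_pow_div _ _
  refine (Finset.sum_le_sum h2).trans ?_
  rw [← Finset.sum_div]
  refine div_le_div_of_nonneg_right ?_ (by positivity)
  rw [← Finset.sum_filter_add_sum_filter_not Cᶜ (fun v => D ≤ ((nb ω v C).card : ℝ))]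
  refine add_le_add ?_ ?_
  · have h3 := sum_cube_le (Cᶜ.filter (fun v => D ≤ ((nb ω v C).card : ℝ)))
      (fun v => nb ω v C) C (fun v _ => nb_subset _ _ _) lam ((s:ℝ) + lam) B θ hθ
      (fun v _ => by exact_mod_cast hbal v)
      (fun u _ v _ huv => (Finset.card_le_card (Finset.inter_subset_inter
        (nb_mono (Finset.subset_univ _)) (nb_mono (Finset.subset_univ _)))).trans
        (hcod u v huv)) hrich
    rw [hC] at h3
    push_cast at h3
    calc ∑ v ∈ Cᶜ with D ≤ ((nb ω v C).card : ℝ), ((nb ω v C).card : ℝ) ^ r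
        ≤ ∑ v ∈ Cᶜ with D ≤ ((nb ω v C).card : ℝ),
            ((s:ℝ) + lam) ^ (r - 3) * ((nb ω v C).card : ℝ) ^ 3 := by
          refine Finset.sum_le_sum fun v _ => ?_
          have h4 : ((nb ω v C).card : ℝ) ≤ (s:ℝ) + lam := by exact_mod_cast hbal v
          have h5 : (0:ℝ) ≤ (nb ω v C).card := by positivity
          have h6 : ((nb ω v C).card : ℝ) ^ r =
              ((nb ω v C).card : ℝ) ^ (r - 3) * ((nb ω v C).card : ℝ) ^ 3 := by
            rw [← pow_add]
            congr 1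
            omega
          rw [h6]
          gcongr
      _ = ((s:ℝ) + lam) ^ (r - 3) * ∑ v ∈ Cᶜ with D ≤ ((nb ω v C).card : ℝ),
            ((nb ω v C).card : ℝ) ^ 3 := by rw [Finset.mul_sum]
      _ ≤ _ := mul_le_mul_of_nonneg_left h3 (by positivity)
  · calc ∑ v ∈ Cᶜ with ¬ (D ≤ ((nb ω v C).card : ℝ)), ((nb ω v C).card : ℝ) ^ r
        ≤ ∑ v ∈ Cᶜ with ¬ (D ≤ ((nb ω v C).card : ℝ)), D ^ r := by
          refine Finset.sum_le_sum fun v hv => ?_
          have h4 := (Finset.mem_filter.1 hv).2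
          push Not at h4
          have h5 : (0:ℝ) ≤ (nb ω v C).card := by positivity
          gcongr
      _ ≤ Fintype.card V * D ^ r := by
          rw [Finset.sum_const, nsmul_eq_mul]
          refine mul_le_mul_of_nonneg_right ?_ (by positivity)
          exact_mod_cast Finset.card_le_univ _

/-- Bound for the probability of a bad set, triangles. -/
theorem pr_badSet_three {p : ℝ} (h0 : 0 ≤ p) (h1 : p ≤ 1) {s lam : ℕ} {D B θ m : ℝ}
    (hD : 8 * (2 * s * p) ≤ D) (hθ : 0 < θ)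
    (hn : Fintype.card V * Real.exp (-(2 * s * p)) ≤ 1)
    (hp : 3 * (2 * s) * p ^ 2 ≤ 1)
    (hm : m ≤ ((2 * s).choose 3 : ℝ) - (
      (((s:ℝ) + lam) ^ 2 * (2 * s + (B / θ) ^ 2 * lam) + θ ^ 2 * B) +
      Fintype.card V * D ^ 3) / 6)
    {C : Finset V} (hC : C.card = 2 * s) :
    pr p (BadSet 3 s lam C) ≤ Real.exp (1 - B) + Real.exp (-(m * p ^ 3 / 2)) := by
  have hCr : (C.card : ℝ) = 2 * s := by rw [hC]; push_cast; ring
  have e1 := pr_richWt h0 h1 C D B (by rw [hCr]; exact hD) (by rw [hCr]; exact hn)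
  have e2 := pr_unc_triples h0 h1 C m (by rw [hCr]; exact hp)
  refine le_trans (pr_mono h0 h1 fun ω hω => ?_) ((pr_or_le h0 h1 _ _).trans (add_le_add e1 e2))
  by_contra hcon
  push Not at hcon
  obtain ⟨hr, hu⟩ := hcon
  obtain ⟨hcod, hbal, hcl⟩ := hω
  have hD0 : 0 ≤ D := le_trans (by positivity) hD
  have h3 := unc_ge (r := 3) le_rfl hC hcod hbal hD0 hθ hr.le
  have h4 := hu hcl
  have h5 : ((3:ℕ).factorial : ℝ) = 6 := by norm_num [Nat.factorial]
  rw [h5] at h3
  simp only [le_refl, Nat.sub_self, pow_zero, one_mul] at h3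
  linarith

/-- Bound for the probability of a bad set, `K₄`s. -/
theorem pr_badSet_four {p : ℝ} (h0 : 0 ≤ p) (h1 : p ≤ 1) {s lam : ℕ} {D B θ m : ℝ}
    (hD : 8 * (2 * s * p) ≤ D) (hθ : 0 < θ)
    (hn : Fintype.card V * Real.exp (-(2 * s * p)) ≤ 1)
    (hp : 6 * (2 * s : ℝ) ^ 2 * p ^ 5 + 4 * (2 * s) * p ^ 3 ≤ 1)
    (hm : m ≤ ((2 * s).choose 4 : ℝ) - (((s:ℝ) + lam) *
      (((s:ℝ) + lam) ^ 2 * (2 * s + (B / θ) ^ 2 * lam) + θ ^ 2 * B) +
      Fintype.card V * D ^ 4) / 24)
    {C : Finset V} (hC : C.card = 2 * s) :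
    pr p (BadSet 4 s lam C) ≤ Real.exp (1 - B) + Real.exp (-(m * p ^ 6 / 2)) := by
  have hCr : (C.card : ℝ) = 2 * s := by rw [hC]; push_cast; ring
  have e1 := pr_richWt h0 h1 C D B (by rw [hCr]; exact hD) (by rw [hCr]; exact hn)
  have e2 := pr_unc_quadruples h0 h1 C m (by rw [hCr]; exact hp)
  refine le_trans (pr_mono h0 h1 fun ω hω => ?_) ((pr_or_le h0 h1 _ _).trans (add_le_add e1 e2))
  by_contra hcon
  push Not at hcon
  obtain ⟨hr, hu⟩ := hcon
  obtain ⟨hcod, hbal, hcl⟩ := hω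
  have hD0 : 0 ≤ D := le_trans (by positivity) hD
  have h3 := unc_ge (r := 4) (by norm_num) hC hcod hbal hD0 hθ hr.le
  have h4 := hu hcl
  have h5 : ((4:ℕ).factorial : ℝ) = 24 := by norm_num [Nat.factorial]
  rw [h5] at h3
  have h6 : (4 - 3 : ℕ) = 1 := rfl
  rw [h6, pow_one] at h3
  linarith

end Pool.Agent.Helper96
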