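import Pool.Agent.Helper96.CliqueBasic

/-!
Deterministic part of the lower bound on the clique chromatic number.
-/

open Finset

set_option linter.unusedSectionVars false

namespace Pool.Agent.Helper96

variable {V : Type*} [Fintype V] [DecidableEq V]

/-- The neighbours of `v` in `S`. -/
def nb (ω : Sym2 V → Bool) (v : V) (S : Finset V) : Finset V :=
  S.filter (fun x => v ≠ x ∧ ω s(v, x) = true)

theorem mem_nb {ω : Sym2 V → Bool} {v x : V} {S : Finset V} :
    x ∈ nb ω v S ↔ x ∈ S ∧ v ≠ x ∧ ω s(v, x) = true := by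
  simp [nb]

theorem nb_subset (ω : Sym2 V → Bool) (v : V) (S : Finset V) : nb ω v S ⊆ S :=
  Finset.filter_subset _ _

theorem nb_mono {ω : Sym2 V → Bool} {v : V} {S T : Finset V} (h : S ⊆ T) :
    nb ω v S ⊆ nb ω v T := Finset.filter_subset_filter _ h

/-- The `r`-subsets of `C` which have no common neighbour outside `C`. -/
def unc (r : ℕ) (ω : Sym2 V → Bool) (C : Finset V) : Finset (Finset V) :=
  (C.powersetCard r).filter (fun T => ∀ v, v ∉ C → ¬ T ⊆ nb ω v C)

theorem mem_unc {r : ℕ} {ω : Sym2 V → Bool} {C T : Finset V} :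
    T ∈ unc r ω C ↔ T ⊆ C ∧ T.card = r ∧ ∀ v, v ∉ C → ¬ T ⊆ nb ω v C := by
  simp [unc, Finset.mem_powersetCard, and_assoc]

theorem unc_subset (r : ℕ) (ω : Sym2 V → Bool) (C : Finset V) :
    unc r ω C ⊆ C.powersetCard r := Finset.filter_subset _ _

/-- A clique without common neighbour outside `C` gives a maximal clique inside `C`. -/
theorem no_unc_clique {α : Type*} {ω : Sym2 V → Bool} {c : V → α}
    (hc : IsCliqueColouring (gr ω) c) {C : Finset V} {a : α} (hC : ∀ v ∈ C, c v = a)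
    {r : ℕ} (hr : 2 ≤ r) {T : Finset V} (hT : T ∈ unc r ω C) (hcl : AllOn (cl T) ω) : False := by
  classical
  obtain ⟨hTC, hTr, hTunc⟩ := mem_unc.1 hT
  -- choose a maximal clique between T and C
  have hfin : (C.powerset.filter (fun K => T ⊆ K ∧ AllOn (cl K) ω)).Nonempty :=
    ⟨T, Finset.mem_filter.2 ⟨Finset.mem_powerset.2 hTC, Finset.Subset.refl _, hcl⟩⟩
  obtain ⟨K, hK, hKmax⟩ := Finset.exists_max_image _ (fun K : Finset V => K.card) hfin
  obtain ⟨hKC, hTK, hKcl⟩ := Finset.mem_filter.1 hK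
  rw [Finset.mem_powerset] at hKC
  have hmax : Maximal (gr ω).IsClique (K : Set V) := by
    refine ⟨(isClique_iff_allOn ω K).2 hKcl, ?_⟩
    intro K' hK' hKK' v hv
    by_contra hvK
    have hvK' : v ∉ K := fun h => hvK (Finset.mem_coe.2 h)
    have hadj : ∀ x ∈ K, (gr ω).Adj v x := by
      intro x hx
      refine hK' hv (hKK' (Finset.mem_coe.2 hx)) ?_
      rintro rfl
      exact hvK' hx
    by_cases hvC : v ∈ C
    · have hins : AllOn (cl (insert v K)) ω := by
        rw [← isClique_iff_allOn]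
        rw [Finset.coe_insert]
        rw [SimpleGraph.isClique_insert]
        exact ⟨(isClique_iff_allOn ω K).2 hKcl, fun x hx _ => hadj x hx⟩
      have hmem : insert v K ∈ C.powerset.filter (fun K => T ⊆ K ∧ AllOn (cl K) ω) :=
        Finset.mem_filter.2 ⟨Finset.mem_powerset.2 (Finset.insert_subset hvC hKC),
          hTK.trans (Finset.subset_insert _ _), hins⟩
      have h1 := hKmax _ hmem
      rw [Finset.card_insert_of_notMem hvK'] at h1
      omega
    · refine hTunc v hvC fun x hx => ?_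
      have := hadj x (hTK hx)
      exact mem_nb.2 ⟨hTC hx, this.1, this.2⟩
  have hnt : (K : Set V).Nontrivial := by
    have h1 : 2 ≤ K.card := by
      rw [← hTr] at hr
      exact hr.trans (Finset.card_le_card hTK)
    obtain ⟨x, hx, y, hy, hxy⟩ := Finset.one_lt_card.1 h1
    exact ⟨x, hx, y, hy, hxy⟩
  exact hc K hmax hnt ⟨a, fun v hv => hC v (hKC (Finset.mem_coe.1 hv))⟩

/-- The number of common neighbours of two vertices is at most `lam`. -/
def CodegLe (ω : Sym2 V → Bool) (lam : ℕ) : Prop :=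
  ∀ u v : V, u ≠ v → (nb ω u univ ∩ nb ω v univ).card ≤ lam

/-- Extraction of a subset which is not concentrated on a neighbourhood. -/
theorem exists_balanced {ω : Sym2 V → Bool} {lam s : ℕ} (hcod : CodegLe ω lam) {C : Finset V}
    (hC : 2 * s ≤ C.card) (h : ∀ v, s ≤ (C \ nb ω v C).card) :
    ∃ C' ⊆ C, C'.card = 2 * s ∧ ∀ v, (nb ω v C').card ≤ s + lam := by
  by_cases hv : ∃ v, s ≤ (nb ω v C).card
  · obtain ⟨v₁, hv₁⟩ := hv
    obtain ⟨C₂, hC₂, hC₂c⟩ := Finset.exists_subset_card_eq hv₁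
    obtain ⟨C₁, hC₁, hC₁c⟩ := Finset.exists_subset_card_eq (h v₁)
    have hdisj : Disjoint C₁ C₂ :=
      Finset.disjoint_of_subset_left hC₁
        (Finset.disjoint_of_subset_right hC₂ Finset.sdiff_disjoint)
    refine ⟨C₁ ∪ C₂, Finset.union_subset (hC₁.trans Finset.sdiff_subset)
      (hC₂.trans (nb_subset _ _ _)), by rw [Finset.card_union_of_disjoint hdisj]; omega, ?_⟩
    intro v
    by_cases hvv : v = v₁
    · subst hvv
      have : nb ω v (C₁ ∪ C₂) ⊆ C₂ := by
        intro x hx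
        obtain ⟨hx1, hx2⟩ := mem_nb.1 hx
        rcases Finset.mem_union.1 hx1 with h1 | h1
        · exfalso
          have := Finset.mem_sdiff.1 (hC₁ h1)
          exact this.2 (mem_nb.2 ⟨this.1, hx2⟩)
        · exact h1
      exact (Finset.card_le_card this).trans (by omega)
    · have hsub : nb ω v (C₁ ∪ C₂) ⊆ C₁ ∪ (nb ω v univ ∩ nb ω v₁ univ) := by
        intro x hx
        obtain ⟨hx1, hx2⟩ := mem_nb.1 hx
        rcases Finset.mem_union.1 hx1 with h1 | h1
        · exact Finset.mem_union_left _ h1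
        · refine Finset.mem_union_right _ (Finset.mem_inter.2
            ⟨mem_nb.2 ⟨Finset.mem_univ _, hx2⟩, ?_⟩)
          exact nb_mono (Finset.subset_univ _) (hC₂ h1)
      refine (Finset.card_le_card hsub).trans ((Finset.card_union_le _ _).trans ?_)
      have := hcod v v₁ hvv
      omega
  · push Not at hv
    obtain ⟨C', hC', hC'c⟩ := Finset.exists_subset_card_eq hC
    refine ⟨C', hC', hC'c, fun v => ?_⟩
    have := (Finset.card_le_card (nb_mono (ω := ω) (v := v) hC')).trans (hv v).le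
    omega

/-- Bonferroni-type bound for sets with small pairwise intersections. -/
theorem sum_card_le_of_inter {ι : Type*} [DecidableEq ι] (H : Finset ι) (N : ι → Finset V)
    (lam : ℕ) (h : ∀ u ∈ H, ∀ v ∈ H, u ≠ v → (N u ∩ N v).card ≤ lam) :
    ∑ v ∈ H, (N v).card ≤ (H.biUnion N).card + H.card ^ 2 * lam := by
  induction H using Finset.induction_on with
  | empty => simp
  | insert a s ha ih =>
    rw [Finset.sum_insert ha, Finset.biUnion_insert, Finset.card_insert_of_notMem ha]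
    have h1 := ih fun u hu v hv => h u (Finset.mem_insert_of_mem hu) v (Finset.mem_insert_of_mem hv)
    have h2 := Finset.card_union_add_card_inter (N a) (s.biUnion N)
    have h3 : (N a ∩ s.biUnion N).card ≤ s.card * lam := by
      rw [Finset.inter_biUnion]
      refine Finset.card_biUnion_le_card_mul _ _ _ fun v hv => ?_
      exact h a (Finset.mem_insert_self _ _) v (Finset.mem_insert_of_mem hv)
        (fun h => ha (h ▸ hv))
    nlinarith

/-- Cubic sum bound. -/
theorem sum_cube_le {ι : Type*} [DecidableEq ι] (R : Finset ι) (N : ι → Finset V)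
    (C : Finset V) (hN : ∀ v ∈ R, N v ⊆ C) (lam : ℕ) (M B θ : ℝ) (hθ : 0 < θ)
    (hM : ∀ v ∈ R, ((N v).card : ℝ) ≤ M)
    (hlam : ∀ u ∈ R, ∀ v ∈ R, u ≠ v → (N u ∩ N v).card ≤ lam)
    (hB : ∑ v ∈ R, ((N v).card : ℝ) ≤ B) :
    ∑ v ∈ R, ((N v).card : ℝ) ^ 3 ≤ M ^ 2 * (C.card + (B / θ) ^ 2 * lam) + θ ^ 2 * B := by
  classical
  set H := R.filter (fun v => θ ≤ ((N v).card : ℝ)) with hH
  have hsplit := Finset.sum_filter_add_sum_filter_not R (fun v => θ ≤ ((N v).card : ℝ))
    (fun v => ((N v).card : ℝ) ^ 3)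
  rw [← hsplit]
  have hHB : (H.card : ℝ) * θ ≤ B := by
    calc (H.card : ℝ) * θ = ∑ _v ∈ H, θ := by simp
      _ ≤ ∑ v ∈ H, ((N v).card : ℝ) :=
        Finset.sum_le_sum fun v hv => (Finset.mem_filter.1 hv).2
      _ ≤ ∑ v ∈ R, ((N v).card : ℝ) :=
        Finset.sum_le_sum_of_subset_of_nonneg (Finset.filter_subset _ _) fun _ _ _ => by positivity
      _ ≤ B := hB
  have hHB' : (H.card : ℝ) ≤ B / θ := (le_div_iff₀ hθ).2 hHB
  have hsumH : ∑ v ∈ H, ((N v).card : ℝ) ≤ C.card + (B / θ) ^ 2 * lam := by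
    have h1 := sum_card_le_of_inter H N lam fun u hu v hv =>
      hlam u (Finset.mem_filter.1 hu).1 v (Finset.mem_filter.1 hv).1
    have h2 : (H.biUnion N).card ≤ C.card := by
      apply Finset.card_le_card
      intro x hx
      obtain ⟨v, hv, hx⟩ := Finset.mem_biUnion.1 hx
      exact hN v (Finset.mem_filter.1 hv).1 hx
    have h3 : ((∑ v ∈ H, (N v).card : ℕ) : ℝ) ≤ ((C.card + H.card ^ 2 * lam : ℕ) : ℝ) := by
      exact_mod_cast h1.trans (Nat.add_le_add_right h2 _)
    push_cast at h3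
    refine h3.trans ?_
    have h4 : (H.card : ℝ) ^ 2 ≤ (B / θ) ^ 2 := by gcongr
    have h5 : (0:ℝ) ≤ lam := by positivity
    nlinarith
  have h1 : ∑ v ∈ H, ((N v).card : ℝ) ^ 3 ≤ M ^ 2 * (C.card + (B / θ) ^ 2 * lam) := by
    calc ∑ v ∈ H, ((N v).card : ℝ) ^ 3 ≤ ∑ v ∈ H, M ^ 2 * ((N v).card : ℝ) := by
          refine Finset.sum_le_sum fun v hv => ?_
          have h2 := hM v (Finset.mem_filter.1 hv).1
          have h3 : (0:ℝ) ≤ (N v).card := by positivity
          have h4 : ((N v).card : ℝ) ^ 2 ≤ M ^ 2 := by gcongr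
          calc ((N v).card : ℝ) ^ 3 = ((N v).card : ℝ) ^ 2 * (N v).card := by ring
            _ ≤ M ^ 2 * (N v).card := mul_le_mul_of_nonneg_right h4 h3
      _ = M ^ 2 * ∑ v ∈ H, ((N v).card : ℝ) := by rw [Finset.mul_sum]
      _ ≤ _ := mul_le_mul_of_nonneg_left hsumH (sq_nonneg _)
  have h2 : ∑ v ∈ R with ¬ (θ ≤ ((N v).card : ℝ)), ((N v).card : ℝ) ^ 3 ≤ θ ^ 2 * B := by
    calc ∑ v ∈ R with ¬ (θ ≤ ((N v).card : ℝ)), ((N v).card : ℝ) ^ 3
        ≤ ∑ v ∈ R with ¬ (θ ≤ ((N v).card : ℝ)), θ ^ 2 * ((N v).card : ℝ) := by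
          refine Finset.sum_le_sum fun v hv => ?_
          have h2 := (Finset.mem_filter.1 hv).2
          push Not at h2
          have h3 : (0:ℝ) ≤ (N v).card := by positivity
          have h4 : ((N v).card : ℝ) ^ 2 ≤ θ ^ 2 := by gcongr
          calc ((N v).card : ℝ) ^ 3 = ((N v).card : ℝ) ^ 2 * (N v).card := by ring
            _ ≤ θ ^ 2 * (N v).card := mul_le_mul_of_nonneg_right h4 h3
      _ ≤ ∑ v ∈ R, θ ^ 2 * ((N v).card : ℝ) :=
        Finset.sum_le_sum_of_subset_of_nonneg (Finset.filter_subset _ _) fun _ _ _ => by positivity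
      _ = θ ^ 2 * ∑ v ∈ R, ((N v).card : ℝ) := by rw [Finset.mul_sum]
      _ ≤ θ ^ 2 * B := mul_le_mul_of_nonneg_left hB (sq_nonneg _)
  exact add_le_add h1 h2

/-- Lower bound for the number of uncovered `r`-sets. -/
theorem card_unc_ge (r : ℕ) (ω : Sym2 V → Bool) (C : Finset V) :
    (C.card.choose r : ℝ) - ∑ v ∈ Cᶜ, ((nb ω v C).card.choose r : ℝ) ≤ (unc r ω C).card := by
  classical
  have h1 : C.powersetCard r ⊆ unc r ω C ∪ (Cᶜ).biUnion (fun v => (nb ω v C).powersetCard r) := by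
    intro T hT
    by_cases h : T ∈ unc r ω C
    · exact Finset.mem_union_left _ h
    · refine Finset.mem_union_right _ ?_
      rw [Finset.mem_powersetCard] at hT
      rw [mem_unc] at h
      push Not at h
      obtain ⟨v, hv, hTv⟩ := h hT.1 hT.2
      exact Finset.mem_biUnion.2 ⟨v, Finset.mem_compl.2 hv, Finset.mem_powersetCard.2 ⟨hTv, hT.2⟩⟩
  have h2 := Finset.card_le_card h1
  rw [Finset.card_powersetCard] at h2
  have h3 := h2.trans ((Finset.card_union_le _ _).trans (Nat.add_le_add_left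
    Finset.card_biUnion_le _))
  simp only [Finset.card_powersetCard] at h3
  have h4 : (C.card.choose r : ℝ) ≤
      (unc r ω C).card + ∑ v ∈ Cᶜ, ((nb ω v C).card.choose r : ℝ) := by exact_mod_cast h3
  linarith

end Pool.Agent.Helper96
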