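import Pool.Agent.Helper96.LowerDet

/-!
Probability estimates for the lower bound on the clique chromatic number.
-/

open Finset

set_option linter.unusedSectionVars false

namespace Pool.Agent.Helper96

variable {V : Type*} [Fintype V] [DecidableEq V]

theorem pr_edge (p : ℝ) (e : Sym2 V) : pr p (fun ω => ω e = true) = p := by
  have h := pr_all_true p ({e} : Finset (Sym2 V))
  simpa using h

/-- Codegrees. -/
theorem pr_codeg {p : ℝ} (h0 : 0 ≤ p) (h1 : p ≤ 1) (lam : ℕ)
    (hlam : 4 * (Fintype.card V * p ^ 2) ≤ lam) :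
    pr p (fun ω : Sym2 V → Bool => ¬ CodegLe ω lam) ≤
      (Fintype.card V : ℝ) ^ 2 * Real.exp (-(lam / 2)) := by
  classical
  have h2 : ∀ q ∈ (univ : Finset (V × V)).filter (fun q => q.1 ≠ q.2),
      pr p (fun ω : Sym2 V → Bool => lam ≤ (nb ω q.1 univ ∩ nb ω q.2 univ).card) ≤
        Real.exp (-(lam / 2)) := by
    rintro ⟨u, v⟩ hq
    have huv : u ≠ v := (Finset.mem_filter.1 hq).2
    set I : Finset V := univ.filter (fun x => x ≠ u ∧ x ≠ v) with hI
    have hch := chernoff_upper' (E := Sym2 V) h0 h1 I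
      (A := fun x ω => ∀ e ∈ ({s(u, x), s(v, x)} : Finset (Sym2 V)), ω e = true)
      (U := fun x => {s(u, x), s(v, x)}) ?_ ?_ (p ^ 2) lam ?_ ?_
    · refine le_trans (pr_mono h0 h1 fun ω hω => ?_) hch
      have hle : (nb ω u univ ∩ nb ω v univ).card ≤
          cnt I (fun x ω => ∀ e ∈ ({s(u, x), s(v, x)} : Finset (Sym2 V)), ω e = true) ω := by
        apply card_le_cnt
        intro x hx
        obtain ⟨hx1, hx2⟩ := Finset.mem_inter.1 hx
        rw [mem_nb] at hx1 hx2
        refine ⟨Finset.mem_filter.2 ⟨Finset.mem_univ _, hx1.2.1.symm, hx2.2.1.symm⟩, ?_⟩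
        intro e he
        rw [Finset.mem_insert, Finset.mem_singleton] at he
        rcases he with rfl | rfl
        · exact hx1.2.2
        · exact hx2.2.2
      exact_mod_cast hω.trans hle
    · intro x hx y hy hxy
      rw [hI, Finset.mem_filter] at hx hy
      rw [Finset.disjoint_left]
      intro e he he'
      simp only [Finset.mem_insert, Finset.mem_singleton] at he he'
      rcases he with rfl | rfl <;> rcases he' with h | h <;> rw [Sym2.eq_iff] at h <;>
        rcases h with ⟨ha, hb⟩ | ⟨ha, hb⟩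
      · exact hxy hb
      · exact hy.2.1 ha.symm
      · exact huv ha
      · exact hx.2.2 hb
      · exact huv ha.symm
      · exact hx.2.1 hb
      · exact hxy hb
      · exact hy.2.2 ha.symm
    · intro x _ ω ω' hω
      apply propext
      exact forall₂_congr fun e he => by rw [hω e he]
    · intro x _
      rw [pr_all_true, Finset.card_pair]
      intro h
      rw [Sym2.eq_iff] at h
      rcases h with ⟨ha, _⟩ | ⟨ha, hb⟩
      · exact huv ha
      · exact huv (ha.trans hb)
    · refine le_trans ?_ hlam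
      have : (I.card : ℝ) ≤ Fintype.card V := by exact_mod_cast Finset.card_le_univ I
      have hp2 : 0 ≤ p ^ 2 := by positivity
      nlinarith
  have h3 := pr_exists_le_card h0 h1 _ _ _ h2
  refine le_trans (pr_mono h0 h1 fun ω hω => ?_) (h3.trans ?_)
  · unfold CodegLe at hω
    push Not at hω
    obtain ⟨u, v, huv, h⟩ := hω
    exact ⟨(u, v), Finset.mem_filter.2 ⟨Finset.mem_univ _, huv⟩, h.le⟩
  · refine mul_le_mul_of_nonneg_right ?_ (Real.exp_pos _).le
    have : ((univ : Finset (V × V)).filter (fun q => q.1 ≠ q.2)).card ≤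
        Fintype.card V ^ 2 := by
      refine (Finset.card_le_univ _).trans ?_
      rw [Fintype.card_prod, sq]
    exact_mod_cast this

/-- The weight of the vertices outside `C` with at least `D` neighbours in `C`. -/
noncomputable def richWt (D : ℝ) (C : Finset V) (ω : Sym2 V → Bool) : ℝ :=
  ∑ v ∈ Cᶜ with D ≤ ((nb ω v C).card : ℝ), ((nb ω v C).card : ℝ)

theorem nb_card_eq_cnt {ω : Sym2 V → Bool} {v : V} {C : Finset V} (hv : v ∉ C) :
    (nb ω v C).card = cnt C (fun x ω => ω s(v, x) = true) ω := by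
  apply card_eq_cnt
  intro x
  rw [mem_nb]
  constructor
  · exact fun h => ⟨h.1, h.2.2⟩
  · exact fun h => ⟨h.1, fun h' => hv (h' ▸ h.1), h.2⟩

theorem ex_exp_nb {p : ℝ} (h0 : 0 ≤ p) (h1 : p ≤ 1) {v : V} {C : Finset V} (hv : v ∉ C) (θ : ℝ) :
    ex p (fun ω => Real.exp (θ * (nb ω v C).card)) ≤
      Real.exp (C.card * p * (Real.exp θ - 1)) := by
  have h : ∀ ω : Sym2 V → Bool, Real.exp (θ * (nb ω v C).card) =
      Real.exp (θ * cnt C (fun x ω => ω s(v, x) = true) ω) := by
    intro ω
    rw [nb_card_eq_cnt hv]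
  simp_rw [h]
  refine ex_exp_cnt_le h0 h1 C (U := fun x => {s(v, x)}) ?_ ?_ θ p ?_
  · intro x _ y _ hxy
    rw [Finset.disjoint_singleton]
    intro h
    rw [Sym2.eq_iff] at h
    rcases h with ⟨_, h⟩ | ⟨h2, h3⟩
    · exact hxy h
    · exact hxy (h3.trans h2)
  · intro x _ ω ω' hω
    simp only
    rw [hω _ (Finset.mem_singleton_self _)]
  · intro x _
    rw [pr_edge]

theorem DepOn.nb {v : V} {C : Finset V} : DepOn (fun ω => nb ω v C) (star v C) := by
  intro ω ω' hω
  unfold Pool.Agent.Helper96.nb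
  apply Finset.filter_congr
  intro x hx
  rw [hω _ (mk_mem_star hx)]

/-- Rich vertices carry little weight. -/
theorem pr_richWt {p : ℝ} (h0 : 0 ≤ p) (h1 : p ≤ 1) (C : Finset V) (D B : ℝ)
    (hD : 8 * (C.card * p) ≤ D) (hn : Fintype.card V * Real.exp (-(C.card * p)) ≤ 1) :
    pr p (fun ω => B ≤ richWt D C ω) ≤ Real.exp (1 - B) := by
  classical
  set z : V → (Sym2 V → Bool) → ℝ := fun v ω =>
    if D ≤ ((nb ω v C).card : ℝ) then ((nb ω v C).card : ℝ) else 0 with hz
  have hrw : ∀ ω : Sym2 V → Bool, Real.exp (richWt D C ω) = ∏ v ∈ Cᶜ, Real.exp (z v ω) := by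
    intro ω
    rw [← Real.exp_sum]
    unfold richWt
    rw [Finset.sum_filter]
  have hex : ex p (fun ω => Real.exp (richWt D C ω)) ≤ Real.exp 1 := by
    simp_rw [hrw]
    rw [ex_prod_of_disjoint p (Cᶜ) (f := fun v ω => Real.exp (z v ω)) (U := fun v => star v C)]
    · have hstep : ∀ v ∈ Cᶜ, ex p (fun ω => Real.exp (z v ω)) ≤
          Real.exp (Real.exp (-(C.card * p))) := by
        intro v hv
        rw [Finset.mem_compl] at hv
        have h2 : ∀ ω : Sym2 V → Bool, Real.exp (z v ω) ≤
            1 + Real.exp (-D) * Real.exp (2 * (nb ω v C).card) := by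
          intro ω
          rw [← Real.exp_add]
          simp only [hz]
          split_ifs with h
          · have : Real.exp ((nb ω v C).card : ℝ) ≤ Real.exp (-D + 2 * (nb ω v C).card) :=
              Real.exp_le_exp.2 (by linarith)
            linarith
          · rw [Real.exp_zero]
            have := Real.exp_pos (-D + 2 * ((nb ω v C).card : ℝ))
            linarith
        have h3 := ex_mono h0 h1 h2
        rw [ex_add, ex_one, ex_smul] at h3
        have h4 := ex_exp_nb h0 h1 hv 2
        have he2 : Real.exp 2 ≤ 7.4 := by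
          have h5 : Real.exp 2 = Real.exp 1 * Real.exp 1 := by rw [← Real.exp_add]; norm_num
          have := Real.exp_one_lt_d9
          have := Real.exp_pos 1
          rw [h5]
          nlinarith
        have hCp : 0 ≤ (C.card : ℝ) * p := by positivity
        have h6 : Real.exp (-D) * ex p (fun ω : Sym2 V → Bool => Real.exp (2 * (nb ω v C).card)) ≤
            Real.exp (-(C.card * p)) := by
          calc _ ≤ Real.exp (-D) * Real.exp (C.card * p * (Real.exp 2 - 1)) :=
                mul_le_mul_of_nonneg_left h4 (Real.exp_pos _).le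
            _ = Real.exp (-D + C.card * p * (Real.exp 2 - 1)) := by rw [Real.exp_add]
            _ ≤ Real.exp (-(C.card * p)) := by
                apply Real.exp_le_exp.2
                nlinarith
        have h7 := Real.add_one_le_exp (Real.exp (-((C.card : ℝ) * p)))
        linarith
      refine (Finset.prod_le_prod (fun v _ => ex_nonneg h0 h1 fun ω => (Real.exp_pos _).le)
        hstep).trans ?_
      rw [Finset.prod_const, ← Real.exp_nat_mul]
      apply Real.exp_le_exp.2
      refine le_trans ?_ hn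
      refine mul_le_mul_of_nonneg_right ?_ (Real.exp_pos _).le
      exact_mod_cast Finset.card_le_univ _
    · intro v hv v' _ hvv'
      exact star_disjoint (Finset.mem_compl.1 hv) hvv'
    · intro v _ ω ω' hω
      have := DepOn.nb (v := v) (C := C) ω ω' hω
      simp only at this
      simp only [hz, this]
  have h2 : pr p (fun ω => B ≤ richWt D C ω) ≤
      ex p (fun ω => Real.exp (-B) * Real.exp (richWt D C ω)) := by
    refine pr_le_ex h0 h1 (fun ω => by positivity) fun ω hω => ?_
    rw [← Real.exp_add]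
    apply Real.one_le_exp
    linarith
  rw [ex_smul] at h2
  refine h2.trans ?_
  rw [sub_eq_neg_add, Real.exp_add]
  exact mul_le_mul_of_nonneg_left hex (Real.exp_pos _).le

/-- `unc` does not depend on the edges inside `C`. -/
theorem unc_ow (r : ℕ) (C : Finset V) (ω η : Sym2 V → Bool) :
    unc r (ow (cl C) ω η) C = unc r ω C := by
  unfold unc
  apply Finset.filter_congr
  intro T _
  refine forall₂_congr fun v hv => ?_
  have : nb (ow (cl C) ω η) v C = nb ω v C := by
    refine DepOn.ow_left DepOn.nb ?_ ω η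
    rw [disjoint_comm]
    exact star_disjoint_cl C C hv
  rw [this]

theorem allOn_ow {C T : Finset V} (hT : T ⊆ C) (ω η : Sym2 V → Bool) :
    AllOn (cl T) (ow (cl C) ω η) ↔ AllOn (cl T) η := by
  refine forall₂_congr fun e he => ?_
  have : e ∈ cl C := by
    rw [mem_cl] at he ⊢
    exact ⟨fun x hx => hT (he.1 x hx), he.2⟩
  simp [ow, this]

/-- Many uncovered triples contain a triangle. -/
theorem pr_unc_triples {p : ℝ} (h0 : 0 ≤ p) (h1 : p ≤ 1) (C : Finset V) (m : ℝ)
    (hp : 3 * C.card * p ^ 2 ≤ 1) :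
    pr p (fun ω => (∀ T ∈ unc 3 ω C, ¬ AllOn (cl T) ω) ∧ m ≤ ((unc 3 ω C).card : ℝ)) ≤
      Real.exp (-(m * p ^ 3 / 2)) := by
  refine pr_cond_le h0 h1 (cl C) (Real.exp_pos _).le ?_ ?_
  · intro ω η
    rw [unc_ow]
  · intro ω hω
    have h2 : pr p (fun η => ∀ T ∈ unc 3 (ow (cl C) ω η) C, ¬ AllOn (cl T) (ow (cl C) ω η)) =
        pr p (fun η => ∀ T ∈ unc 3 ω C, ¬ AllOn (cl T) η) := by
      refine pr_congr fun η => ?_
      rw [unc_ow]
      refine forall₂_congr fun T hT => ?_
      rw [allOn_ow (mem_unc.1 hT).1]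
    rw [h2]
    refine (janson_triples h0 h1 C _ (unc_subset 3 ω C) hp).trans ?_
    apply Real.exp_le_exp.2
    have : 0 ≤ p ^ 3 := by positivity
    nlinarith

/-- Many uncovered quadruples contain a `K₄`. -/
theorem pr_unc_quadruples {p : ℝ} (h0 : 0 ≤ p) (h1 : p ≤ 1) (C : Finset V) (m : ℝ)
    (hp : 6 * (C.card : ℝ) ^ 2 * p ^ 5 + 4 * C.card * p ^ 3 ≤ 1) :
    pr p (fun ω => (∀ T ∈ unc 4 ω C, ¬ AllOn (cl T) ω) ∧ m ≤ ((unc 4 ω C).card : ℝ)) ≤
      Real.exp (-(m * p ^ 6 / 2)) := by
  refine pr_cond_le h0 h1 (cl C) (Real.exp_pos _).le ?_ ?_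
  · intro ω η
    rw [unc_ow]
  · intro ω hω
    have h2 : pr p (fun η => ∀ T ∈ unc 4 (ow (cl C) ω η) C, ¬ AllOn (cl T) (ow (cl C) ω η)) =
        pr p (fun η => ∀ T ∈ unc 4 ω C, ¬ AllOn (cl T) η) := by
      refine pr_congr fun η => ?_
      rw [unc_ow]
      refine forall₂_congr fun T hT => ?_
      rw [allOn_ow (mem_unc.1 hT).1]
    rw [h2]
    refine (janson_quadruples h0 h1 C _ (unc_subset 4 ω C) hp).trans ?_
    apply Real.exp_le_exp.2
    have : 0 ≤ p ^ 6 := by positivity
    nlinarith

/-- The number of vertices outside `W` without neighbour in `W`. -/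
def nonAdj (ω : Sym2 V → Bool) (W : Finset V) : Finset V :=
  Wᶜ.filter (fun u => ∀ w ∈ W, ω s(u, w) = false)

theorem pr_nonAdj {p : ℝ} (h0 : 0 ≤ p) (h1 : p ≤ 1) (W : Finset V) (k : ℕ) (hW : W.card ≤ k)
    (m : ℝ) (hm : m ≤ ((Fintype.card V : ℝ) - k) * (1 - p) ^ k / 2) :
    pr p (fun ω => ((nonAdj ω W).card : ℝ) ≤ m) ≤
      Real.exp (-(((Fintype.card V : ℝ) - k) * (1 - p) ^ k / 8)) := by
  classical
  have hcnt : ∀ ω : Sym2 V → Bool, (nonAdj ω W).card =
      cnt Wᶜ (fun u ω => ∀ e ∈ star u W, ω e = false) ω := by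
    intro ω
    apply card_eq_cnt
    intro u
    rw [nonAdj, Finset.mem_filter]
    refine and_congr_right fun _ => ?_
    constructor
    · intro h e he
      obtain ⟨x, hx, rfl⟩ := mem_star.1 he
      exact h x hx
    · intro h w hw
      exact h _ (mk_mem_star hw)
  have hp1 : 0 ≤ 1 - p := by linarith
  have hq0 : 0 ≤ (1 - p) ^ k := by positivity
  have hcard : (Fintype.card V : ℝ) - k ≤ (Wᶜ.card : ℝ) := by
    have := Finset.card_add_card_compl W
    have h2 : (W.card : ℝ) + (Wᶜ.card : ℝ) = Fintype.card V := by exact_mod_cast this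
    have h3 : (W.card : ℝ) ≤ k := by exact_mod_cast hW
    linarith
  have hch := chernoff_lower' (E := Sym2 V) h0 h1 Wᶜ
    (A := fun u ω => ∀ e ∈ star u W, ω e = false) (U := fun u => star u W) ?_ ?_
    ((1 - p) ^ k) m hq0 ?_ ?_
  · refine le_trans (le_of_eq ?_) (hch.trans ?_)
    · exact pr_congr fun ω => by rw [hcnt]
    · apply Real.exp_le_exp.2
      nlinarith
  · intro v hv v' _ hvv'
    exact star_disjoint (Finset.mem_compl.1 hv) hvv'
  · intro x _ ω ω' hω
    apply propext
    exact forall₂_congr fun e he => by rw [hω e he]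
  · intro u _
    rw [pr_all_false]
    have hsc : (star u W).card ≤ k := Finset.card_image_le.trans hW
    exact pow_le_pow_of_le_one hp1 (by linarith) hsc
  · refine hm.trans ?_
    nlinarith

end Pool.Agent.Helper96
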