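import Pool.Agent.Helper96.LowerAsm

/-!
Lower bound for Q1: numerical part.
-/

open Finset

set_option linter.unusedSectionVars false

namespace Pool.Agent.Helper96

theorem log_one_add_le {y : ℝ} (hy : 0 ≤ y) : Real.log (1 + y) ≤ 2 * y / Real.sqrt (1 + y) := by
  set u := Real.sqrt (1 + y) with hu
  have hu2 : u ^ 2 = 1 + y := Real.sq_sqrt (by linarith)
  have hu1 : 1 ≤ u := by
    rw [hu, Real.one_le_sqrt]; linarith
  have hu0 : 0 < u := by linarith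
  have h1 : Real.log (1 + y) = 2 * Real.log u := by
    rw [← hu2, Real.log_pow]; norm_num
  have h2 : Real.log u ≤ u - 1 := Real.log_le_sub_one_of_pos hu0
  rw [h1, le_div_iff₀ hu0]
  have h3 : y = (u - 1) * (u + 1) := by nlinarith
  rw [h3]
  nlinarith

theorem one_sub_pow_ge {p : ℝ} (hp0 : 0 ≤ p) (hp1 : p ≤ 1 / 2) (k : ℕ) :
    Real.exp (-(2 * p * k)) ≤ (1 - p) ^ k := by
  have h1 : Real.exp (-(2 * p)) ≤ 1 - p := by
    have h2 : 0 < 1 - p := by linarith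
    rw [← Real.log_le_log_iff (Real.exp_pos _) h2, Real.log_exp]
    have h3 : 1 - (1 - p)⁻¹ ≤ Real.log (1 - p) := Real.one_sub_inv_le_log_of_pos h2
    have h4 : (1 - p)⁻¹ ≤ 1 + 2 * p := by
      rw [inv_le_comm₀ h2 (by linarith), ← one_div, div_le_iff₀ (by linarith)]
      nlinarith
    linarith
  calc Real.exp (-(2 * p * k)) = (Real.exp (-(2 * p))) ^ k := by
        rw [← Real.exp_nat_mul]; congr 1; ring
    _ ≤ (1 - p) ^ k := by
        gcongr

theorem choose_three_real (m : ℕ) :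
    ((m.choose 3 : ℕ) : ℝ) = (m : ℝ) * (m - 1) * (m - 2) / 6 := by
  induction m with
  | zero => simp
  | succ m ih =>
    rw [Nat.choose_succ_succ' m 2]
    push_cast
    rw [ih, Nat.cast_choose_two]
    ring

theorem choose_four_real (m : ℕ) :
    ((m.choose 4 : ℕ) : ℝ) = (m : ℝ) * (m - 1) * (m - 2) * (m - 3) / 24 := by
  induction m with
  | zero => simp
  | succ m ih =>
    rw [Nat.choose_succ_succ' m 3]
    push_cast
    rw [ih, choose_three_real]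
    ring

/-- The common final estimate for the number of non-neighbours: `k` colours with
`k ≤ (1/50) p⁻¹ log (1+y)`. -/
theorem nonadj_numeric {n L q y : ℝ} {k : ℕ} (hq0 : 0 < q) (hL0 : 1 ≤ L) (hn0 : 0 < n)
    (hqL : q * L ≤ 1 / 30) (hy : y = n * q ^ 5 / L)
    (hk : (k : ℝ) ≤ 1 / 50 * (1 / q ^ 2) * Real.log (1 + y)) :
    (k : ℝ) ≤ n / 10 ∧ (k : ℝ) * (10 * L / q ^ 3) ≤ 2 / 5 * n / Real.sqrt (1 + y) ∧
    1 / Real.sqrt (1 + y) ≤ (1 - q ^ 2) ^ k ∧ (k : ℝ) * L ^ 2 ≤ n / 100 / Real.sqrt (1 + y) := by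
  have hy0 : 0 ≤ y := by rw [hy]; positivity
  have hq1 : q ≤ 1 / 30 := by nlinarith
  have hu1 : 1 ≤ Real.sqrt (1 + y) := by rw [Real.one_le_sqrt]; linarith
  have hu0 : 0 < Real.sqrt (1 + y) := by linarith
  have hlog1 : Real.log (1 + y) ≤ y := by
    have := Real.log_le_sub_one_of_pos (x := 1 + y) (by linarith)
    linarith
  have hlog2 := log_one_add_le hy0
  have hlog0 : 0 ≤ Real.log (1 + y) := Real.log_nonneg (by linarith)
  have hk1 : (k : ℝ) ≤ n * q ^ 3 / (50 * L) := by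
    refine hk.trans ?_
    calc 1 / 50 * (1 / q ^ 2) * Real.log (1 + y) ≤ 1 / 50 * (1 / q ^ 2) * y :=
          mul_le_mul_of_nonneg_left hlog1 (by positivity)
      _ = n * q ^ 3 / (50 * L) := by rw [hy]; field_simp
  have hk2 : (k : ℝ) ≤ n * q ^ 3 / (25 * L) / Real.sqrt (1 + y) := by
    refine hk.trans ?_
    calc 1 / 50 * (1 / q ^ 2) * Real.log (1 + y) ≤ 1 / 50 * (1 / q ^ 2) * (2 * y / Real.sqrt (1 + y)) :=
          mul_le_mul_of_nonneg_left hlog2 (by positivity)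
      _ = n * q ^ 3 / (25 * L) / Real.sqrt (1 + y) := by rw [hy]; field_simp; norm_num
  refine ⟨?_, ?_, ?_, ?_⟩
  · refine hk1.trans ?_
    rw [div_le_div_iff₀ (by positivity) (by norm_num)]
    have : q ^ 3 ≤ 1 := pow_le_one₀ hq0.le (by linarith)
    nlinarith
  · calc (k : ℝ) * (10 * L / q ^ 3) ≤ (n * q ^ 3 / (25 * L) / Real.sqrt (1 + y)) * (10 * L / q ^ 3) :=
          mul_le_mul_of_nonneg_right hk2 (by positivity)
      _ = 2 / 5 * n / Real.sqrt (1 + y) := by field_simp; norm_num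
  · have h1 : q ^ 2 ≤ 1 / 2 := by nlinarith
    refine le_trans ?_ (one_sub_pow_ge (by positivity) h1 k)
    have h2 : 1 / Real.sqrt (1 + y) = Real.exp (-(1 / 2 * Real.log (1 + y))) := by
      rw [Real.exp_neg, one_div]
      congr 1
      rw [Real.sqrt_eq_rpow, Real.rpow_def_of_pos (by linarith)]
      congr 1; ring
    rw [h2]
    apply Real.exp_le_exp.2
    have h3 : 2 * q ^ 2 * (k : ℝ) ≤ 2 * q ^ 2 * (1 / 50 * (1 / q ^ 2) * Real.log (1 + y)) :=
      mul_le_mul_of_nonneg_left hk (by positivity)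
    have h4 : 2 * q ^ 2 * (1 / 50 * (1 / q ^ 2) * Real.log (1 + y)) =
        1 / 25 * Real.log (1 + y) := by field_simp; ring
    linarith
  · calc (k : ℝ) * L ^ 2 ≤ (n * q ^ 3 / (25 * L) / Real.sqrt (1 + y)) * L ^ 2 :=
          mul_le_mul_of_nonneg_right hk2 (by positivity)
      _ = (q ^ 3 * L / 25) * (n / Real.sqrt (1 + y)) := by field_simp
      _ ≤ (1 / 100) * (n / Real.sqrt (1 + y)) := by
          refine mul_le_mul_of_nonneg_right ?_ (by positivity)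
          have : q ^ 3 * L = q ^ 2 * (q * L) := by ring
          rw [this]
          have : q ^ 2 ≤ 1 := pow_le_one₀ hq0.le (by linarith)
          nlinarith
      _ = n / 100 / Real.sqrt (1 + y) := by ring

theorem numeric_m {n L q : ℝ} {s lam : ℕ} (hs100 : (160:ℝ) ≤ s) (hL : 10 ≤ L)
    (hlams : 200 * L ^ 8 * (lam : ℝ) ≤ s) (hlams' : 200 * (lam : ℝ) ≤ s)
    (h1 : n * q ^ 6 ≤ 1 / 20000) :
    3 / 4 * (s:ℝ) ^ 3 ≤ ((2 * s).choose 3 : ℝ) - (
      (((s:ℝ) + lam) ^ 2 * (2 * s + (4 * s * L ^ 2 / (2 * s / L ^ 2)) ^ 2 * lam) +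
        (2 * s / L ^ 2) ^ 2 * (4 * s * L ^ 2)) + n * (16 * s * q ^ 2) ^ 3) / 6 := by
  have hs0 : (0:ℝ) < s := by linarith
  have hL0 : 0 < L := by linarith
  rw [choose_three_real]
  have e1 : 4 * (s:ℝ) * L ^ 2 / (2 * s / L ^ 2) = 2 * L ^ 4 := by field_simp; norm_num
  rw [e1]
  have e2 : (2 * L ^ 4) ^ 2 * (lam : ℝ) = 4 * L ^ 8 * lam := by ring
  rw [e2]
  have e3 : (2 * (s:ℝ) / L ^ 2) ^ 2 * (4 * s * L ^ 2) = 16 * s ^ 3 / L ^ 2 := by
    field_simp; norm_num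
  rw [e3]
  have e4 : n * (16 * s * q ^ 2) ^ 3 = 4096 * (n * q ^ 6) * s ^ 3 := by ring
  rw [e4]
  have hs3 : (0:ℝ) ≤ (s:ℝ) ^ 3 := by positivity
  have e5 : 4096 * (n * q ^ 6) * (s:ℝ) ^ 3 ≤ 4096 * (1 / 20000) * s ^ 3 := by gcongr
  have e6 : 16 * (s:ℝ) ^ 3 / L ^ 2 ≤ 16 / 100 * s ^ 3 := by
    rw [div_le_iff₀ (by positivity)]
    have h7 : (100:ℝ) ≤ L ^ 2 := by nlinarith
    have h8 := mul_le_mul_of_nonneg_left h7 hs3
    linarith
  have e7 : ((s:ℝ) + lam) ^ 2 ≤ (1.01 * s) ^ 2 := by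
    have h9 : (s:ℝ) + lam ≤ 1.01 * s := by linarith
    have h10 : (0:ℝ) ≤ (s:ℝ) + lam := by positivity
    exact pow_le_pow_left₀ h10 h9 2
  have e8 : 2 * (s:ℝ) + 4 * L ^ 8 * lam ≤ 2.02 * s := by linarith
  have e80 : 0 ≤ 2 * (s:ℝ) + 4 * L ^ 8 * lam := by positivity
  have e9 : ((s:ℝ) + lam) ^ 2 * (2 * s + 4 * L ^ 8 * lam) ≤ (1.01 * s) ^ 2 * (2.02 * s) :=
    mul_le_mul e7 e8 e80 (by positivity)
  have e9' : (1.01 * (s:ℝ)) ^ 2 * (2.02 * s) = 1.01 ^ 2 * 2.02 * s ^ 3 := by ring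
  rw [e9'] at e9
  have e10 : (s:ℝ) ^ 2 * 160 ≤ s ^ 3 := by
    have h11 : (s:ℝ) ^ 3 = s ^ 2 * s := by ring
    rw [h11]
    exact mul_le_mul_of_nonneg_left hs100 (by positivity)
  push_cast
  have e12 : 2 * (s:ℝ) * (2 * s - 1) * (2 * s - 2) / 6 = 4 / 3 * s ^ 3 - 2 * s ^ 2 + 2 / 3 * s := by
    ring
  rw [e12]
  linarith

theorem numeric_t3 {n L q y : ℝ} {k : ℕ} (hn0 : 0 < n) (hL0 : 1 ≤ L)
    (hq0 : 0 < q) (hq1 : q ≤ 1) (hn1 : 1 ≤ n)
    (h4 : L ^ 2 ≤ Real.sqrt n / 20) (hy : y = n * q ^ 5 / L) (hy0 : 0 ≤ y)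
    (hu0 : 0 < Real.sqrt (1 + y))
    (h5 : 9 / 10 * (n / Real.sqrt (1 + y)) ≤ (n - k) * (1 - q ^ 2) ^ k)
    (hk4 : (k : ℝ) * L ^ 2 ≤ 1 / 100 * (n / Real.sqrt (1 + y))) :
    (k:ℝ) * L ^ 2 + -((n - k) * (1 - q ^ 2) ^ k / 8) ≤ -L ^ 2 := by
  have h8 : Real.sqrt n / 2 ≤ n / Real.sqrt (1 + y) := by
    rw [div_le_div_iff₀ (by norm_num) hu0]
    have h10 : y ≤ n := by
      rw [hy, div_le_iff₀ (by linarith)]
      have : q ^ 5 ≤ 1 := pow_le_one₀ hq0.le hq1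
      nlinarith
    have h11 : Real.sqrt (1 + y) ≤ 2 * Real.sqrt n := by
      rw [Real.sqrt_le_left (by positivity), mul_pow, Real.sq_sqrt hn0.le]
      linarith
    have h12 : Real.sqrt n * Real.sqrt n = n := Real.mul_self_sqrt hn0.le
    nlinarith [Real.sqrt_nonneg n]
  have h13 := sq_nonneg L
  linarith

/-- Lower bound for Q1 in finite form. -/
theorem lower_q1_finite {V : Type*} [Fintype V] [DecidableEq V] [Nonempty V]
    {n L q y : ℝ} {k : ℕ} (hnV : n = Fintype.card V) (hq0 : 0 < q)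
    (hL : 10 ≤ L) (hLn : L ^ 2 = Real.log n)
    (hqL : q * L ≤ 1 / 30) (hy : y = n * q ^ 5 / L)
    (h1 : n * q ^ 6 ≤ 1 / 20000) (h2 : n * q ^ 7 * L ^ 7 ≤ 1 / 1000)
    (h3 : 2 * L ^ 2 ≤ n * q ^ 4) (h4 : L ^ 2 ≤ Real.sqrt n / 20)
    (hk : (k : ℝ) ≤ 1 / 50 * (1 / q ^ 2) * Real.log (1 + y)) :
    pr (q ^ 2) (fun ω : Sym2 V → Bool => ∃ c : V → Fin k, IsCliqueColouring (gr ω) c) ≤
      4 / n := by
  have hn0 : 0 < n := by rw [hnV]; exact_mod_cast Fintype.card_pos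
  have hq1 : q ≤ 1 / 30 := by nlinarith
  have hq2 : q ^ 2 ≤ 1 := pow_le_one₀ hq0.le (by linarith)
  have hq20 : 0 ≤ q ^ 2 := by positivity
  obtain ⟨hk1, hk2, hk3, hk4⟩ := nonadj_numeric hq0 (by linarith) hn0 hqL hy hk
  have hy0 : 0 ≤ y := by rw [hy]; positivity
  have hu1 : 1 ≤ Real.sqrt (1 + y) := by rw [Real.one_le_sqrt]; linarith
  have hu0 : 0 < Real.sqrt (1 + y) := by linarith
  have hL0 : 0 < L := by linarith
  -- choice of s
  set s : ℕ := ⌈4 * L / q ^ 3⌉₊ with hs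
  have hs1 : 4 * L / q ^ 3 ≤ s := Nat.le_ceil _
  have hbig : 40 ≤ L / q ^ 3 := by
    rw [le_div_iff₀ (by positivity)]
    have : q ^ 3 ≤ (1/30) ^ 3 := by gcongr
    nlinarith
  have hs2 : (s : ℝ) ≤ 5 * L / q ^ 3 := by
    have := Nat.ceil_lt_add_one (a := 4 * L / q ^ 3) (by positivity)
    have h5 : 5 * L / q ^ 3 = 4 * L / q ^ 3 + L / q ^ 3 := by ring
    rw [h5]
    linarith
  have hs0 : (0:ℝ) < s := lt_of_lt_of_le (by positivity) hs1
  have hs100 : (160:ℝ) ≤ s := by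
    have : 4 * L / q ^ 3 = 4 * (L / q ^ 3) := by ring
    linarith
  -- choice of lam
  set lam : ℕ := ⌈4 * (n * (q ^ 2) ^ 2)⌉₊ with hlam
  have hlam1 : 4 * (n * (q ^ 2) ^ 2) ≤ lam := Nat.le_ceil _
  have hlam2 : (lam : ℝ) ≤ 5 * n * q ^ 4 := by
    have := Nat.ceil_lt_add_one (a := 4 * (n * (q ^ 2) ^ 2)) (by positivity)
    nlinarith
  have hlams : 200 * L ^ 8 * (lam : ℝ) ≤ s := by
    refine le_trans ?_ hs1
    rw [le_div_iff₀ (by positivity)]
    calc 200 * L ^ 8 * (lam : ℝ) * q ^ 3 ≤ 200 * L ^ 8 * (5 * n * q ^ 4) * q ^ 3 := by gcongr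
      _ = 1000 * L * (n * q ^ 7 * L ^ 7) := by ring
      _ ≤ 1000 * L * (1 / 1000) := by gcongr
      _ ≤ 4 * L := by linarith
  have hlams' : 200 * (lam : ℝ) ≤ s := by
    refine le_trans ?_ hlams
    have : 1 ≤ L ^ 8 := one_le_pow₀ (by linarith)
    have h5 : (0:ℝ) ≤ lam := by positivity
    nlinarith
  have hlogn : Real.exp (L ^ 2) = n := by rw [hLn, Real.exp_log hn0]
  -- the bad set estimate
  have hbad : ∀ C : Finset V, C.card = 2 * s → pr (q ^ 2) (BadSet 3 s lam C) ≤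
      Real.exp (1 - 4 * s * L ^ 2) + Real.exp (-(3 / 4 * s ^ 3 * (q ^ 2) ^ 3 / 2)) := by
    intro C hC
    refine pr_badSet_three hq20 hq2 (s := s) (lam := lam) (D := 16 * s * q ^ 2)
      (B := 4 * s * L ^ 2) (θ := 2 * s / L ^ 2) (m := 3 / 4 * s ^ 3) ?_ ?_ ?_ ?_ ?_ hC
    · apply le_of_eq; ring
    · positivity
    · rw [← hnV]
      have h5 : L ^ 2 ≤ 2 * s * q ^ 2 := by
        have h6 : 8 * L / q ≤ 2 * s * q ^ 2 := by
          calc 8 * L / q = 2 * (4 * L / q ^ 3) * q ^ 2 := by field_simp; norm_num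
            _ ≤ 2 * s * q ^ 2 := by gcongr
        refine le_trans ?_ h6
        rw [le_div_iff₀ hq0]
        nlinarith
      calc n * Real.exp (-(2 * s * q ^ 2)) ≤ n * Real.exp (-L ^ 2) := by
            gcongr
        _ = 1 := by rw [Real.exp_neg, hlogn]; field_simp
    · calc 3 * (2 * (s:ℝ)) * (q ^ 2) ^ 2 ≤ 3 * (2 * (5 * L / q ^ 3)) * (q ^ 2) ^ 2 := by gcongr
        _ = 30 * (q * L) := by field_simp; norm_num
        _ ≤ 1 := by linarith
    · rw [← hnV]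
      exact numeric_m hs100 hL hlams hlams' h1
  have hlow := lower_finite (V := V) (p := q ^ 2) hq20 hq2 (r := 3) (s := s) (lam := lam) (k := k)
    (by norm_num) (by rw [← hnV]; exact hlam1) _ (by positivity) hbad ?_
  · refine hlow.trans ?_
    rw [← hnV]
    -- three terms
    have t1 : n ^ 2 * Real.exp (-((lam:ℝ) / 2)) ≤ 1 / n := by
      have h5 : (lam : ℝ) / 2 ≥ 4 * L ^ 2 := by nlinarith
      calc n ^ 2 * Real.exp (-((lam:ℝ) / 2)) ≤ n ^ 2 * Real.exp (-(4 * L ^ 2)) := by gcongr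
        _ = n ^ 2 * (Real.exp (L ^ 2) ^ 4)⁻¹ := by
            rw [Real.exp_neg, ← Real.exp_nat_mul]; norm_num
        _ = 1 / n ^ 2 := by rw [hlogn]; field_simp
        _ ≤ 1 / n := by
            rw [div_le_div_iff₀ (by positivity) hn0]
            have : 1 ≤ n := by
              rw [← hlogn]; apply Real.one_le_exp; positivity
            nlinarith
    have hnpow : ∀ m : ℕ, n ^ m = Real.exp (m * L ^ 2) := by
      intro m
      rw [Real.exp_nat_mul, hlogn]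
    have hninv : 1 / n = Real.exp (-L ^ 2) := by rw [Real.exp_neg, hlogn, one_div]
    have t2 : n ^ (2 * s) * (Real.exp (1 - 4 * s * L ^ 2) +
        Real.exp (-(3 / 4 * s ^ 3 * (q ^ 2) ^ 3 / 2))) ≤ 2 / n := by
      rw [hnpow, mul_add, ← Real.exp_add, ← Real.exp_add]
      have h5 : Real.exp (((2 * s : ℕ) : ℝ) * L ^ 2 + (1 - 4 * s * L ^ 2)) ≤ 1 / n := by
        rw [hninv]
        apply Real.exp_le_exp.2
        push_cast
        nlinarith
      have h6 : Real.exp (((2 * s : ℕ) : ℝ) * L ^ 2 + -(3 / 4 * s ^ 3 * (q ^ 2) ^ 3 / 2)) ≤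
          1 / n := by
        rw [hninv]
        apply Real.exp_le_exp.2
        push_cast
        have h7 : 16 * L ^ 2 * s ≤ s ^ 3 * (q ^ 2) ^ 3 := by
          calc 16 * L ^ 2 * s = (4 * L / q ^ 3) ^ 2 * s * (q ^ 2) ^ 3 := by field_simp; norm_num
            _ ≤ s ^ 2 * s * (q ^ 2) ^ 3 := by gcongr
            _ = s ^ 3 * (q ^ 2) ^ 3 := by ring
        nlinarith
      have h7 : (2:ℝ) / n = 1 / n + 1 / n := by ring
      rw [h7]
      exact add_le_add h5 h6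
    have t3 : n ^ k * Real.exp (-((n - k) * (1 - q ^ 2) ^ k / 8)) ≤ 1 / n := by
      rw [hnpow, ← Real.exp_add, hninv]
      apply Real.exp_le_exp.2
      have h5 : 9 / 10 * n * (1 / Real.sqrt (1 + y)) ≤ (n - k) * (1 - q ^ 2) ^ k := by
        have : 9 / 10 * n ≤ n - k := by linarith
        gcongr
        linarith
      have h6 : 9 / 10 * n * (1 / Real.sqrt (1 + y)) = 9 / 10 * (n / Real.sqrt (1 + y)) := by ring
      have h7 : n / 100 / Real.sqrt (1 + y) = 1 / 100 * (n / Real.sqrt (1 + y)) := by ring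
      rw [h6] at h5
      rw [h7] at hk4
      have h9 : 1 ≤ n := by
        rw [← hlogn]; apply Real.one_le_exp; positivity
      exact numeric_t3 hn0 (by linarith) hq0 (by linarith) h9 h4 hy hy0 hu0 h5 hk4
    have h5 : (4:ℝ) / n = 1 / n + 2 / n + 1 / n := by ring
    rw [h5]
    exact add_le_add (add_le_add t1 t2) t3
  · rw [← hnV]
    calc (k:ℝ) * (2 * s) ≤ (k:ℝ) * (10 * L / q ^ 3) := by
          have : 2 * (s:ℝ) ≤ 10 * L / q ^ 3 := by
            have h6 : 10 * L / q ^ 3 = 2 * (5 * L / q ^ 3) := by ring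
            rw [h6]; linarith
          gcongr
      _ ≤ 2 / 5 * n / Real.sqrt (1 + y) := hk2
      _ ≤ (n - k) * (1 - q ^ 2) ^ k / 2 := by
          have h5 : 9 / 10 * n * (1 / Real.sqrt (1 + y)) ≤ (n - k) * (1 - q ^ 2) ^ k := by
            have : 9 / 10 * n ≤ n - k := by linarith
            gcongr
            linarith
          have h6 : 9 / 10 * n * (1 / Real.sqrt (1 + y)) = 9 / 10 * (n / Real.sqrt (1 + y)) := by ring
          have h7 : 2 / 5 * n / Real.sqrt (1 + y) = 2 / 5 * (n / Real.sqrt (1 + y)) := by ring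
          rw [h6] at h5
          rw [h7]
          have : 0 ≤ n / Real.sqrt (1 + y) := by positivity
          linarith

end Pool.Agent.Helper96
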