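import Pool.Agent.Helper96.BadSetThree
import Pool.Agent.Helper96.LowerQ1

/-!
Lower bounds for Q2: numerical part.
-/

open Finset

set_option linter.unusedSectionVars false

namespace Pool.Agent.Helper96

theorem numeric_m4 {n l p : ℝ} {s lam : ℕ} (hs100 : (100:ℝ) ≤ s) (hl : 100 ≤ l)
    (hlams : 200 * l ^ 4 * (lam : ℝ) ≤ s) (hlams' : 200 * (lam : ℝ) ≤ s)
    (h1 : n * p ^ 4 ≤ 1 / 1000000) :
    1 / 2 * (s:ℝ) ^ 4 ≤ ((2 * s).choose 4 : ℝ) - (((s:ℝ) + lam) *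
      (((s:ℝ) + lam) ^ 2 * (2 * s + (4 * s * l / (2 * s / l)) ^ 2 * lam) +
        (2 * s / l) ^ 2 * (4 * s * l)) + n * (16 * s * p) ^ 4) / 24 := by
  have hs0 : (0:ℝ) < s := by linarith
  have hl0 : 0 < l := by linarith
  rw [choose_four_real]
  have e1 : 4 * (s:ℝ) * l / (2 * s / l) = 2 * l ^ 2 := by field_simp; norm_num
  rw [e1]
  have e2 : (2 * l ^ 2) ^ 2 * (lam : ℝ) = 4 * l ^ 4 * lam := by ring
  rw [e2]
  have e3 : (2 * (s:ℝ) / l) ^ 2 * (4 * s * l) = 16 * s ^ 3 / l := by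
    field_simp; norm_num
  rw [e3]
  have e4 : n * (16 * s * p) ^ 4 = 65536 * (n * p ^ 4) * s ^ 4 := by ring
  rw [e4]
  have hs3 : (0:ℝ) ≤ (s:ℝ) ^ 3 := by positivity
  have hs4 : (0:ℝ) ≤ (s:ℝ) ^ 4 := by positivity
  have e5 : 65536 * (n * p ^ 4) * (s:ℝ) ^ 4 ≤ 65536 * (1 / 1000000) * s ^ 4 := by gcongr
  have e6 : 16 * (s:ℝ) ^ 3 / l ≤ 16 / 100 * s ^ 3 := by
    rw [div_le_iff₀ (by positivity)]
    have h8 := mul_le_mul_of_nonneg_left hl hs3
    linarith
  have h9 : (s:ℝ) + lam ≤ 1.01 * s := by linarith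
  have h10 : (0:ℝ) ≤ (s:ℝ) + lam := by positivity
  have e7 : ((s:ℝ) + lam) ^ 2 ≤ (1.01 * s) ^ 2 := pow_le_pow_left₀ h10 h9 2
  have e8 : 2 * (s:ℝ) + 4 * l ^ 4 * lam ≤ 2.02 * s := by linarith
  have e80 : 0 ≤ 2 * (s:ℝ) + 4 * l ^ 4 * lam := by positivity
  have e9 : ((s:ℝ) + lam) ^ 2 * (2 * s + 4 * l ^ 4 * lam) ≤ (1.01 * s) ^ 2 * (2.02 * s) :=
    mul_le_mul e7 e8 e80 (by positivity)
  have e11 : ((s:ℝ) + lam) ^ 2 * (2 * s + 4 * l ^ 4 * lam) + 16 * s ^ 3 / l ≤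
      (1.01 ^ 2 * 2.02 + 16 / 100) * s ^ 3 := by
    have : (1.01 * (s:ℝ)) ^ 2 * (2.02 * s) = 1.01 ^ 2 * 2.02 * s ^ 3 := by ring
    rw [this] at e9
    linarith
  have e12 : ((s:ℝ) + lam) * (((s:ℝ) + lam) ^ 2 * (2 * s + 4 * l ^ 4 * lam) + 16 * s ^ 3 / l) ≤
      (1.01 * s) * ((1.01 ^ 2 * 2.02 + 16 / 100) * s ^ 3) :=
    mul_le_mul h9 e11 (by positivity) (by positivity)
  have e13 : (1.01 * (s:ℝ)) * ((1.01 ^ 2 * 2.02 + 16 / 100) * s ^ 3) =
      (1.01 * (1.01 ^ 2 * 2.02 + 16 / 100)) * s ^ 4 := by ring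
  rw [e13] at e12
  have e10 : (s:ℝ) ^ 3 * 100 ≤ s ^ 4 := by
    have h11 : (s:ℝ) ^ 4 = s ^ 3 * s := by ring
    rw [h11]
    exact mul_le_mul_of_nonneg_left hs100 (by positivity)
  push_cast
  have e14 : 2 * (s:ℝ) * (2 * s - 1) * (2 * s - 2) * (2 * s - 3) / 24 =
      (16 * s ^ 4 - 48 * s ^ 3 + 44 * s ^ 2 - 12 * s) / 24 := by ring
  rw [e14]
  have e15 : 12 * (s:ℝ) ≤ 44 * s ^ 2 := by nlinarith
  linarith

/-- Lower bound for Q2 through `K₄`s, in finite form. -/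
theorem lower_q2a_finite {V : Type*} [Fintype V] [DecidableEq V] [Nonempty V]
    {n l p x lr : ℝ} {k : ℕ} (hnV : n = Fintype.card V) (hp0 : 0 < p)
    (hl : 100 ≤ l) (hln : l = Real.log n) (hlr : lr ^ 3 = l) (hlr1 : 1 ≤ lr)
    (hx : x ^ 3 = n * p ^ 3) (hx6 : 6 ≤ x) (hlrx : lr ≤ 1.6 * x)
    (h1 : 1000000 * (n * p ^ 4 * l ^ 4) ≤ 1) (h2 : 416 * (lr ^ 2 * p) ≤ 1)
    (h2' : p * l ≤ 1)
    (h3 : 2 * l ≤ n * p ^ 2) (h4 : 100 * (x / p * l * x) ≤ n)
    (hk : (k : ℝ) ≤ 1 / 50 * (1 / p) * Real.log (2 + x)) :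
    pr p (fun ω : Sym2 V → Bool => ∃ c : V → Fin k, IsCliqueColouring (gr ω) c) ≤ 4 / n := by
  have hn0 : 0 < n := by rw [hnV]; exact_mod_cast Fintype.card_pos
  have hl0 : 0 < l := by linarith
  have hlr0 : 0 < lr := by linarith
  have hx0 : 0 < x := by linarith
  have hp1 : p ≤ 1 / 100 := by
    have : p * 100 ≤ p * l := mul_le_mul_of_nonneg_left hl hp0.le
    linarith
  have hpow : Real.exp l = n := by rw [hln, Real.exp_log hn0]
  have hn1 : 1 ≤ n := by rw [← hpow]; apply Real.one_le_exp; positivity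
  have hl4 : (1:ℝ) ≤ l ^ 4 := one_le_pow₀ (by linarith)
  have hnp4 : n * p ^ 4 ≤ 1 / 1000000 := by
    have h5 : 0 ≤ n * p ^ 4 := by positivity
    nlinarith
  -- choice of s
  set s : ℕ := ⌈3 * lr / p ^ 2⌉₊ with hs
  have hs1 : 3 * lr / p ^ 2 ≤ s := Nat.le_ceil _
  have hbig : 10000 ≤ lr / p ^ 2 := by
    rw [le_div_iff₀ (by positivity)]
    have : p ^ 2 ≤ (1/100) ^ 2 := pow_le_pow_left₀ hp0.le hp1 2
    nlinarith
  have hs2 : (s : ℝ) ≤ 4 * lr / p ^ 2 := by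
    have := Nat.ceil_lt_add_one (a := 3 * lr / p ^ 2) (by positivity)
    have h5 : 4 * lr / p ^ 2 = 3 * lr / p ^ 2 + lr / p ^ 2 := by ring
    rw [h5]
    linarith
  have hs100 : (100:ℝ) ≤ s := by
    have : 3 * lr / p ^ 2 = 3 * (lr / p ^ 2) := by ring
    linarith
  have hs0 : (0:ℝ) < s := by linarith
  -- choice of lam
  set lam : ℕ := ⌈4 * (n * p ^ 2)⌉₊ with hlam
  have hlam1 : 4 * (n * p ^ 2) ≤ lam := Nat.le_ceil _
  have hlam2 : (lam : ℝ) ≤ 5 * (n * p ^ 2) := by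
    have := Nat.ceil_lt_add_one (a := 4 * (n * p ^ 2)) (by positivity)
    linarith
  have hlams : 200 * l ^ 4 * (lam : ℝ) ≤ s := by
    refine le_trans ?_ hs1
    rw [le_div_iff₀ (by positivity)]
    calc 200 * l ^ 4 * (lam : ℝ) * p ^ 2 ≤ 200 * l ^ 4 * (5 * (n * p ^ 2)) * p ^ 2 := by gcongr
      _ = 1000 * (n * p ^ 4 * l ^ 4) := by ring
      _ ≤ 3 * lr := by linarith
  have hlams' : 200 * (lam : ℝ) ≤ s := by
    refine le_trans ?_ hlams
    have h5 : (0:ℝ) ≤ lam := by positivity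
    nlinarith
  have hp1' : p ≤ 1 := by linarith
  -- the bad set estimate
  have hbad : ∀ C : Finset V, C.card = 2 * s → pr p (BadSet 4 s lam C) ≤
      Real.exp (1 - 4 * s * l) + Real.exp (-(1 / 2 * s ^ 4 * p ^ 6 / 2)) := by
    intro C hC
    refine pr_badSet_four hp0.le hp1' (s := s) (lam := lam) (D := 16 * s * p)
      (B := 4 * s * l) (θ := 2 * s / l) (m := 1 / 2 * s ^ 4) ?_ ?_ ?_ ?_ ?_ hC
    · apply le_of_eq; ring
    · positivity
    · rw [← hnV]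
      have h5 : l ≤ 2 * s * p := by
        have h6 : 6 * lr / p ≤ 2 * s * p := by
          calc 6 * lr / p = 2 * (3 * lr / p ^ 2) * p := by field_simp; norm_num
            _ ≤ 2 * s * p := by gcongr
        refine le_trans ?_ h6
        rw [le_div_iff₀ hp0]
        linarith
      calc n * Real.exp (-(2 * s * p)) ≤ n * Real.exp (-l) := by
            gcongr
        _ = 1 := by rw [Real.exp_neg, hpow]; field_simp
    · have h5 : 6 * (2 * (s:ℝ)) ^ 2 * p ^ 5 ≤ 6 * (2 * (4 * lr / p ^ 2)) ^ 2 * p ^ 5 := by gcongr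
      have h6 : 6 * (2 * (4 * lr / p ^ 2)) ^ 2 * p ^ 5 = 384 * (lr ^ 2 * p) := by
        field_simp; norm_num
      have h7 : 4 * (2 * (s:ℝ)) * p ^ 3 ≤ 4 * (2 * (4 * lr / p ^ 2)) * p ^ 3 := by gcongr
      have h8 : 4 * (2 * (4 * lr / p ^ 2)) * p ^ 3 = 32 * (lr * p) := by field_simp; norm_num
      have h9 : lr * p ≤ lr ^ 2 * p := by
        have : lr ≤ lr ^ 2 := by nlinarith
        gcongr
      linarith
    · rw [← hnV]
      exact numeric_m4 hs100 hl hlams hlams' hnp4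
  -- log estimates
  have hlog1 : Real.log (2 + x) ≤ 1 + x := by
    have := Real.log_le_sub_one_of_pos (x := 2 + x) (by linarith)
    linarith
  have hlog0 : 0 ≤ Real.log (2 + x) := Real.log_nonneg (by linarith)
  have hinvp3 : 1 / p ^ 3 = n / x ^ 3 := by rw [hx]; field_simp
  have hxp : x / p ≤ n / 60000 := by
    have h5 : 0 ≤ x / p := by positivity
    have h6 : (100:ℝ) * 6 ≤ l * x := by
      have := mul_le_mul hl hx6 (by norm_num) hl0.le
      linarith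
    nlinarith
  have hkxp : (k:ℝ) ≤ x / p := by
    refine hk.trans ?_
    calc 1 / 50 * (1 / p) * Real.log (2 + x) ≤ 1 / 50 * (1 / p) * (1 + x) := by gcongr
      _ ≤ 1 / 50 * (1 / p) * (50 * x) := by gcongr; linarith
      _ = x / p := by ring
  have hkn : (k:ℝ) ≤ n / 10 := by linarith
  have hpk : 1 / (2 + x) ≤ (1 - p) ^ k := by
    refine le_trans ?_ (one_sub_pow_ge hp0.le (by linarith) k)
    have h5 : 1 / (2 + x) = Real.exp (-Real.log (2 + x)) := by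
      rw [Real.exp_neg, Real.exp_log (by linarith), one_div]
    rw [h5]
    apply Real.exp_le_exp.2
    have h6 : 2 * p * (k:ℝ) ≤ 2 * p * (1 / 50 * (1 / p) * Real.log (2 + x)) := by gcongr
    have h7 : 2 * p * (1 / 50 * (1 / p) * Real.log (2 + x)) = 1 / 25 * Real.log (2 + x) := by
      field_simp; ring
    linarith
  have hnk : 9 / 10 * n * (1 / (2 + x)) ≤ (n - k) * (1 - p) ^ k := by
    have h5 : 9 / 10 * n ≤ n - k := by linarith
    exact mul_le_mul h5 hpk (by positivity) (by linarith)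
  have hlow := lower_finite (V := V) (p := p) hp0.le hp1' (r := 4) (s := s) (lam := lam) (k := k)
    (by norm_num) (by rw [← hnV]; exact hlam1) _ (by positivity) hbad ?_
  · refine hlow.trans ?_
    rw [← hnV]
    have hnpow : ∀ m : ℕ, n ^ m = Real.exp (m * l) := by
      intro m
      rw [Real.exp_nat_mul, hpow]
    have hninv : 1 / n = Real.exp (-l) := by rw [Real.exp_neg, hpow, one_div]
    have t1 : n ^ 2 * Real.exp (-((lam:ℝ) / 2)) ≤ 1 / n := by
      rw [hnpow, ← Real.exp_add, hninv]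
      apply Real.exp_le_exp.2
      push_cast
      linarith
    have t2 : n ^ (2 * s) * (Real.exp (1 - 4 * s * l) +
        Real.exp (-(1 / 2 * s ^ 4 * p ^ 6 / 2))) ≤ 2 / n := by
      rw [hnpow, mul_add, ← Real.exp_add, ← Real.exp_add]
      have hsl : 100 * l ≤ s * l := by gcongr
      have h5 : Real.exp (((2 * s : ℕ) : ℝ) * l + (1 - 4 * s * l)) ≤ 1 / n := by
        rw [hninv]
        apply Real.exp_le_exp.2
        push_cast
        linarith
      have h6 : Real.exp (((2 * s : ℕ) : ℝ) * l + -(1 / 2 * s ^ 4 * p ^ 6 / 2)) ≤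
          1 / n := by
        rw [hninv]
        apply Real.exp_le_exp.2
        push_cast
        have h7 : 27 * l * s ≤ s ^ 4 * p ^ 6 := by
          calc 27 * l * s = (3 * lr / p ^ 2) ^ 3 * s * p ^ 6 := by rw [← hlr]; field_simp; norm_num
            _ ≤ (s:ℝ) ^ 3 * s * p ^ 6 := by gcongr
            _ = s ^ 4 * p ^ 6 := by ring
        nlinarith
      have h7 : (2:ℝ) / n = 1 / n + 1 / n := by ring
      rw [h7]
      exact add_le_add h5 h6
    have t3 : n ^ k * Real.exp (-((n - k) * (1 - p) ^ k / 8)) ≤ 1 / n := by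
      rw [hnpow, ← Real.exp_add, hninv]
      apply Real.exp_le_exp.2
      have h5 : (k:ℝ) * l ≤ x / p * l := by gcongr
      have h6 : 1 ≤ x / p := by
        rw [le_div_iff₀ hp0]; linarith
      have h7 : l ≤ x / p * l := by nlinarith
      have h8 : 100 * (x / p * l) ≤ n / x := by
        rw [le_div_iff₀ hx0]
        linarith
      have h9 : 3 / 4 * (n / x) ≤ n * (1 / (2 + x)) := by
        rw [mul_one_div, ← mul_div_assoc, div_le_div_iff₀ hx0 (by linarith)]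
        nlinarith
      nlinarith
    have h5 : (4:ℝ) / n = 1 / n + 2 / n + 1 / n := by ring
    rw [h5]
    exact add_le_add (add_le_add t1 t2) t3
  · rw [← hnV]
    have h5 : (k:ℝ) * (2 * s) ≤ 0.256 * (n * ((1 + x) / x ^ 2)) := by
      calc (k:ℝ) * (2 * s) ≤ (1 / 50 * (1 / p) * Real.log (2 + x)) * (2 * (4 * lr / p ^ 2)) := by
            gcongr
        _ = 4 / 25 * lr * Real.log (2 + x) * (1 / p ^ 3) := by field_simp; ring
        _ = 4 / 25 * lr * Real.log (2 + x) * (n / x ^ 3) := by rw [hinvp3]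
        _ ≤ 4 / 25 * (1.6 * x) * (1 + x) * (n / x ^ 3) := by gcongr
        _ = 0.256 * (n * ((1 + x) / x ^ 2)) := by field_simp; ring
    refine h5.trans ?_
    have h6 : 0.256 * ((1 + x) / x ^ 2) ≤ 9 / 20 * (1 / (2 + x)) := by
      rw [mul_one_div, ← mul_div_assoc, div_le_div_iff₀ (by positivity) (by linarith)]
      nlinarith
    have h7 := mul_le_mul_of_nonneg_left h6 hn0.le
    have h8 : n * (9 / 20 * (1 / (2 + x))) = 9 / 10 * n * (1 / (2 + x)) / 2 := by ring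
    rw [h8] at h7
    have h9 : 0.256 * (n * ((1 + x) / x ^ 2)) = n * (0.256 * ((1 + x) / x ^ 2)) := by ring
    rw [h9]
    linarith

end Pool.Agent.Helper96
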