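import Pool.Agent.Helper96.BadSetThree
import Pool.Agent.Helper96.LowerQ1

/-!
Lower bounds for Q2 through triangles: numerical part.
-/

open Finset

set_option linter.unusedSectionVars false

namespace Pool.Agent.Helper96

theorem exp_two_le : Real.exp 2 ≤ 7.39 := by
  have h1 := Real.exp_one_lt_d9
  have h2 : Real.exp 2 = Real.exp 1 ^ 2 := by
    rw [← Real.exp_nat_mul]; norm_num
  rw [h2]
  have h3 : (0:ℝ) < Real.exp 1 := Real.exp_pos _
  nlinarith

/-- Numerical estimates used in `lower_q2b_finite`. -/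
theorem numeric_delta {s q E X u δ : ℝ} (hs0 : 0 < s) (hq0 : 0 < q)
    (hE : E = Real.exp (X / 2)) (hE1 : 1 ≤ E)
    (hu : u = Real.exp (-(2 + X)) * (3 / 4 * s ^ 3)) (hδ : δ = (16 * s * q ^ 2) ^ 3 / (6 * u)) :
    0 < δ ∧ δ ≤ 6800 * (q ^ 6 * E ^ 2) := by
  have hu1 : u = 3 / 4 * s ^ 3 / (Real.exp 2 * E ^ 2) := by
    rw [hu, hE, Real.exp_neg, Real.exp_add, ← Real.exp_nat_mul]
    have : ((2:ℕ):ℝ) * (X / 2) = X := by push_cast; ring
    rw [this]
    field_simp
  have hE0 : 0 < E := by linarith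
  have he0 := Real.exp_pos 2
  have hδ1 : δ = 8192 / 9 * Real.exp 2 * (q ^ 6 * E ^ 2) := by
    rw [hδ, hu1]
    field_simp
    norm_num
  constructor
  · rw [hδ1]; positivity
  · rw [hδ1]
    have h1 : 8192 / 9 * Real.exp 2 ≤ 6800 := by
      have := exp_two_le
      linarith
    gcongr

/-- Lower bound for Q2 through triangles, in finite form. -/
theorem lower_q2b_finite {V : Type*} [Fintype V] [DecidableEq V] [Nonempty V]
    {n l q X E A : ℝ} {k : ℕ} (hnV : n = Fintype.card V) (hq0 : 0 < q)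
    (hl : 100 ≤ l) (hln : l = Real.log n) (hX : X = n * q ^ 6) (hE : E = Real.exp (X / 2))
    (hA : A = l / 6 - X / 2) (hA0 : 0 ≤ A) (hAl : l ^ 3 ≤ Real.exp A)
    (c1 : 1000 * (n * q ^ 7 * l ^ 3) ≤ 1) (c2 : 12 * (l * E * q) ≤ 1)
    (c3 : 217600 * (q ^ 3 * E ^ 3 * l ^ 3) ≤ 1) (c4 : E ≤ 16 * (n * q ^ 5 * Real.exp (-A)))
    (c6 : l ^ 2 ≤ q ^ 2 * Real.sqrt n) (h3 : 2 * l ≤ n * q ^ 4)
    (hk : (k : ℝ) ≤ 1 / 50 * (1 / q ^ 2) * A) :
    pr (q ^ 2) (fun ω : Sym2 V → Bool => ∃ c : V → Fin k, IsCliqueColouring (gr ω) c) ≤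
      5 / n := by
  have hn0 : 0 < n := by rw [hnV]; exact_mod_cast Fintype.card_pos
  have hl0 : 0 < l := by linarith
  have hX0 : 0 ≤ X := by rw [hX]; positivity
  have hE1 : 1 ≤ E := by rw [hE]; apply Real.one_le_exp; positivity
  have hE0 : 0 < E := by linarith
  have hlE : 100 ≤ l * E := by nlinarith
  have hq1 : q ≤ 1 / 1200 := by nlinarith
  have hq2 : q ^ 2 ≤ 1 := pow_le_one₀ hq0.le (by linarith)
  have hq3 : q ^ 3 ≤ 1 := pow_le_one₀ hq0.le (by linarith)
  have hq20 : 0 ≤ q ^ 2 := by positivity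
  have hpow : Real.exp l = n := by rw [hln, Real.exp_log hn0]
  have hn1 : 1 ≤ n := by rw [← hpow]; apply Real.one_le_exp; positivity
  -- choice of s
  set s : ℕ := ⌈l * E / q ^ 3⌉₊ with hs
  have hs1 : l * E / q ^ 3 ≤ s := Nat.le_ceil _
  have hbig : 100 * 1 ≤ l * E / q ^ 3 := by
    rw [le_div_iff₀ (by positivity)]
    nlinarith
  have hbig2 : 1000000 ≤ l * E / q ^ 3 := by
    rw [le_div_iff₀ (by positivity)]
    have : q ^ 3 ≤ (1/1200) ^ 3 := pow_le_pow_left₀ hq0.le hq1 3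
    nlinarith
  have hs2 : (s : ℝ) ≤ 2 * (l * E / q ^ 3) := by
    have := Nat.ceil_lt_add_one (a := l * E / q ^ 3) (by positivity)
    linarith
  have hs0 : (0:ℝ) < s := by linarith
  -- choice of lam
  set lam : ℕ := ⌈4 * (n * (q ^ 2) ^ 2)⌉₊ with hlam
  have hlam1 : 4 * (n * (q ^ 2) ^ 2) ≤ lam := Nat.le_ceil _
  have hlam2 : (lam : ℝ) ≤ 5 * (n * q ^ 4) := by
    have h5 : (lam : ℝ) < 4 * (n * (q ^ 2) ^ 2) + 1 :=
      Nat.ceil_lt_add_one (a := 4 * (n * (q ^ 2) ^ 2)) (by positivity)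
    linarith
  have hlams : 200 * l ^ 4 * (lam : ℝ) ≤ s := by
    refine le_trans ?_ hs1
    rw [le_div_iff₀ (by positivity)]
    calc 200 * l ^ 4 * (lam : ℝ) * q ^ 3 ≤ 200 * l ^ 4 * (5 * (n * q ^ 4)) * q ^ 3 := by gcongr
      _ = l * (1000 * (n * q ^ 7 * l ^ 3)) := by ring
      _ ≤ l * 1 := by gcongr
      _ ≤ l * E := by gcongr
  have hl4 : (1:ℝ) ≤ l ^ 4 := one_le_pow₀ (by linarith)
  have hlams' : 200 * (lam : ℝ) ≤ s := by
    refine le_trans ?_ hlams
    have h5 : (0:ℝ) ≤ lam := by positivity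
    nlinarith
  -- choice of r₀
  set r₀ : ℕ := ⌈l / (4 * q ^ 2)⌉₊ with hr₀
  have hr1 : l / (4 * q ^ 2) ≤ r₀ := Nat.le_ceil _
  have hr2 : (r₀ : ℝ) + 1 ≤ s := by
    have := Nat.ceil_lt_add_one (a := l / (4 * q ^ 2)) (by positivity)
    have h5 : l / (4 * q ^ 2) ≤ 1 / 4 * (l * E / q ^ 3) := by
      rw [div_le_iff₀ (by positivity)]
      have h6 : 1 / 4 * (l * E / q ^ 3) * (4 * q ^ 2) = l * (E / q) := by
        field_simp
      rw [h6]
      have h7 : 1 ≤ E / q := by
        rw [le_div_iff₀ hq0]; linarith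
      nlinarith
    have h8 : (2:ℝ) ≤ 1 / 4 * (l * E / q ^ 3) := by linarith
    have h9 : (r₀ : ℝ) < l / (4 * q ^ 2) + 1 := this
    linarith
  -- delta
  obtain ⟨hδ0, hδ1⟩ := numeric_delta (s := s) (u := Real.exp (-(2 + X)) * (3 / 4 * (s:ℝ) ^ 3))
    hs0 hq0 hE hE1 rfl rfl
  set u := Real.exp (-(2 + X)) * (3 / 4 * (s:ℝ) ^ 3) with hu
  set δ := (16 * (s:ℝ) * q ^ 2) ^ 3 / (6 * u) with hδ
  have hXl : X ≤ l := by linarith
  have hδM : δ * l ≤ 1 / 8 := by
    have h5 : δ * l ≤ 6800 * (q ^ 6 * E ^ 2) * l := by gcongr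
    have h6 : q ^ 6 * E ^ 2 * l ≤ q ^ 3 * E ^ 3 * l ^ 3 := by
      have e1 : q ^ 3 * E ^ 3 * l ^ 3 = (q ^ 3 * E ^ 2 * l) * (E * l ^ 2) := by ring
      have e2 : q ^ 6 * E ^ 2 * l = (q ^ 3 * E ^ 2 * l) * q ^ 3 := by ring
      rw [e1, e2]
      have h7 : q ^ 3 ≤ E * l ^ 2 := by nlinarith
      gcongr
    nlinarith
  have hδs : 4 * s * l ≤ 1 / (4 * δ * l) := by
    rw [le_div_iff₀ (by positivity)]
    calc 4 * s * l * (4 * δ * l) ≤ 4 * (2 * (l * E / q ^ 3)) * l *
          (4 * (6800 * (q ^ 6 * E ^ 2)) * l) := by gcongr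
      _ = 217600 * (q ^ 3 * E ^ 3 * l ^ 3) := by field_simp; ring
      _ ≤ 1 := c3
  -- the bad set estimate
  have hbad : ∀ C : Finset V, C.card = 2 * s → pr (q ^ 2) (BadSet 3 s lam C) ≤
      Real.exp (1 - 4 * s * l) +
      (r₀ + 1) * n ^ r₀ * Real.exp (-(1 / (4 * δ * l))) + Real.exp (-(u * (q ^ 2) ^ 3 / 2)) := by
    intro C hC
    rw [hnV]
    refine pr_badSet_three' hq20 hq2 (s := s) (lam := lam) (D := 16 * s * q ^ 2)
      (B := 4 * s * l) (θ := 2 * s / l) (h₀ := 3 / 4 * s ^ 3) (X := X) ?_ ?_ ?_ ?_ ?_ ?_ ?_ ?_ ?_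
      ?_ ?_ rfl rfl hδM hC
    · apply le_of_eq; ring
    · positivity
    · positivity
    · rw [← hnV]
      have h5 : l ≤ 2 * s * q ^ 2 := by
        have h6 : 2 * l * E / q ≤ 2 * s * q ^ 2 := by
          calc 2 * l * E / q = 2 * (l * E / q ^ 3) * q ^ 2 := by field_simp
            _ ≤ 2 * s * q ^ 2 := by gcongr
        refine le_trans ?_ h6
        rw [le_div_iff₀ hq0]
        nlinarith
      calc n * Real.exp (-(2 * s * q ^ 2)) ≤ n * Real.exp (-l) := by
            gcongr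
        _ = 1 := by rw [Real.exp_neg, hpow]; field_simp
    · calc 3 * (2 * (s:ℝ)) * (q ^ 2) ^ 2 ≤ 3 * (2 * (2 * (l * E / q ^ 3))) * (q ^ 2) ^ 2 := by
            gcongr
        _ = 12 * (l * E * q) := by field_simp; norm_num
        _ ≤ 1 := c2
    · refine le_trans (le_of_eq ?_) hr1
      field_simp
      norm_num
    · have hsq : Real.sqrt l ^ 2 = l := Real.sq_sqrt hl0.le
      have hsq8 : Real.sqrt l ^ 8 = l ^ 4 := by
        have : Real.sqrt l ^ 8 = (Real.sqrt l ^ 2) ^ 4 := by ring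
        rw [this, hsq]
      have h5 := numeric_m (n := 0) (q := 0) (L := Real.sqrt l) (s := s) (lam := lam)
        (by linarith) (by rw [Real.le_sqrt' (by norm_num)]; linarith) (by rw [hsq8]; exact hlams) hlams'
        (by norm_num)
      rw [hsq] at h5
      simpa using h5
    · positivity
    · rw [← hnV, hX]
      apply le_of_eq; ring
    · linarith
    · exact hXl
  -- estimates for k
  have hXA : A ≤ l / 6 := by linarith
  have hexpA : l ^ 2 ≤ Real.exp (2 / 3 * A) := by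
    have h5 : (l ^ 2) ^ 3 ≤ (Real.exp (2 / 3 * A)) ^ 3 := by
      have e1 : (l ^ 2) ^ 3 = (l ^ 3) ^ 2 := by ring
      have e2 : (Real.exp (2 / 3 * A)) ^ 3 = (Real.exp A) ^ 2 := by
        rw [← Real.exp_nat_mul, ← Real.exp_nat_mul]
        congr 1; push_cast; ring
      rw [e1, e2]
      exact pow_le_pow_left₀ (by positivity) hAl 2
    exact le_of_pow_le_pow_left₀ (by norm_num) (Real.exp_pos _).le h5
  have hkn : (k:ℝ) ≤ n / 10 := by
    refine hk.trans ?_
    have h5 : 1 / 50 * (1 / q ^ 2) * A ≤ 1 / 50 * (1 / q ^ 2) * (l / 6) := by gcongr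
    refine h5.trans ?_
    have h6 : 1 / 50 * (1 / q ^ 2) * (l / 6) = l / 300 / q ^ 2 := by ring
    rw [h6, div_le_iff₀ (by positivity)]
    have h7 : n * q ^ 4 ≤ n * q ^ 2 := by
      have : q ^ 4 ≤ q ^ 2 := by
        have e1 : q ^ 4 = q ^ 2 * q ^ 2 := by ring
        rw [e1]; nlinarith
      gcongr
    linarith
  have hpk : Real.exp (-(A / 25)) ≤ (1 - q ^ 2) ^ k := by
    refine le_trans ?_ (one_sub_pow_ge hq20 (by nlinarith) k)
    apply Real.exp_le_exp.2
    have h6 : 2 * q ^ 2 * (k:ℝ) ≤ 2 * q ^ 2 * (1 / 50 * (1 / q ^ 2) * A) := by gcongr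
    have h7 : 2 * q ^ 2 * (1 / 50 * (1 / q ^ 2) * A) = A / 25 := by
      field_simp; ring
    linarith
  have hnk : 9 / 10 * n * Real.exp (-(A / 25)) ≤ (n - k) * (1 - q ^ 2) ^ k := by
    have h5 : 9 / 10 * n ≤ n - k := by linarith
    exact mul_le_mul h5 hpk (by positivity) (by linarith)
  have hlow := lower_finite (V := V) (p := q ^ 2) hq20 hq2 (r := 3) (s := s) (lam := lam) (k := k)
    (by norm_num) (by rw [← hnV]; exact hlam1) _ (by positivity) hbad ?_
  · refine hlow.trans ?_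
    rw [← hnV]
    have hnpow : ∀ m : ℕ, n ^ m = Real.exp (m * l) := by
      intro m
      rw [Real.exp_nat_mul, hpow]
    have hninv : 1 / n = Real.exp (-l) := by rw [Real.exp_neg, hpow, one_div]
    have hsl : 1000000 * l ≤ s * l := by
      have : 1000000 ≤ (s:ℝ) := by linarith
      gcongr
    have t1 : n ^ 2 * Real.exp (-((lam:ℝ) / 2)) ≤ 1 / n := by
      rw [hnpow, ← Real.exp_add, hninv]
      apply Real.exp_le_exp.2
      have e1 : (q ^ 2) ^ 2 = q ^ 4 := by ring
      rw [e1] at hlam1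
      push_cast
      linarith
    have t2 : n ^ (2 * s) * (Real.exp (1 - 4 * s * l) +
        (r₀ + 1) * n ^ r₀ * Real.exp (-(1 / (4 * δ * l))) +
        Real.exp (-(u * (q ^ 2) ^ 3 / 2))) ≤ 3 / n := by
      have h5 : n ^ (2 * s) * Real.exp (1 - 4 * s * l) ≤ 1 / n := by
        rw [hnpow, ← Real.exp_add, hninv]
        apply Real.exp_le_exp.2
        push_cast
        linarith
      have h6 : n ^ (2 * s) * ((r₀ + 1) * n ^ r₀ * Real.exp (-(1 / (4 * δ * l)))) ≤ 1 / n := by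
        have e1 : (r₀:ℝ) + 1 ≤ Real.exp (r₀ * l) := by
          have := Real.add_one_le_exp (r₀ * l : ℝ)
          have h7 : (r₀:ℝ) ≤ r₀ * l := by
            have h8 : (0:ℝ) ≤ r₀ := by positivity
            nlinarith
          linarith
        have e2 : Real.exp (-(1 / (4 * δ * l))) ≤ Real.exp (-(4 * s * l)) := by
          apply Real.exp_le_exp.2
          linarith
        calc n ^ (2 * s) * ((r₀ + 1) * n ^ r₀ * Real.exp (-(1 / (4 * δ * l))))
            ≤ n ^ (2 * s) * (Real.exp (r₀ * l) * n ^ r₀ * Real.exp (-(4 * s * l))) := by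
              gcongr
          _ = Real.exp ((2 * s : ℕ) * l + (r₀ * l + r₀ * l + -(4 * s * l))) := by
              rw [hnpow, hnpow, ← Real.exp_add, ← Real.exp_add, ← Real.exp_add]
          _ ≤ 1 / n := by
              rw [hninv]
              apply Real.exp_le_exp.2
              push_cast
              nlinarith
      have h7 : n ^ (2 * s) * Real.exp (-(u * (q ^ 2) ^ 3 / 2)) ≤ 1 / n := by
        rw [hnpow, ← Real.exp_add, hninv]
        apply Real.exp_le_exp.2
        have e1 : u = 3 / 4 * s ^ 3 / (Real.exp 2 * E ^ 2) := by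
          rw [hu, hE, Real.exp_neg, Real.exp_add, ← Real.exp_nat_mul]
          have : ((2:ℕ):ℝ) * (X / 2) = X := by push_cast; ring
          rw [this]
          field_simp
        have e2 : 1 / 20 * (s * l ^ 2) ≤ u * (q ^ 2) ^ 3 / 2 := by
          rw [e1]
          have e3 : 3 / 4 * (s:ℝ) ^ 3 / (Real.exp 2 * E ^ 2) * (q ^ 2) ^ 3 / 2 =
              3 / 8 / Real.exp 2 * (s * (s * q ^ 3 / E) ^ 2) := by
            field_simp
            norm_num
          rw [e3]
          have e4 : l ≤ s * q ^ 3 / E := by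
            rw [le_div_iff₀ hE0]
            rw [div_le_iff₀ (by positivity)] at hs1
            exact hs1
          have e5 : 1 / 20 ≤ 3 / 8 / Real.exp 2 := by
            rw [div_le_div_iff₀ (by norm_num) (Real.exp_pos 2)]
            have := exp_two_le
            linarith
          gcongr
        push_cast
        have e6 : 100 * (s * l) ≤ s * l ^ 2 := by
          have : (s:ℝ) * l ^ 2 = l * (s * l) := by ring
          rw [this]
          gcongr
        linarith
      have h8 : (3:ℝ) / n = 1 / n + 1 / n + 1 / n := by ring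
      rw [h8, mul_add, mul_add]
      exact add_le_add (add_le_add h5 h6) h7
    have t3 : n ^ k * Real.exp (-((n - k) * (1 - q ^ 2) ^ k / 8)) ≤ 1 / n := by
      rw [hnpow, ← Real.exp_add, hninv]
      apply Real.exp_le_exp.2
      have h5 : (k:ℝ) * l ≤ 1 / 300 * (l ^ 2 / q ^ 2) := by
        calc (k:ℝ) * l ≤ (1 / 50 * (1 / q ^ 2) * A) * l := by gcongr
          _ ≤ (1 / 50 * (1 / q ^ 2) * (l / 6)) * l := by gcongr
          _ = 1 / 300 * (l ^ 2 / q ^ 2) := by ring
      have h6 : l ^ 2 / q ^ 2 ≤ Real.sqrt n := by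
        rw [div_le_iff₀ (by positivity)]
        linarith
      have h7 : 100 * l ≤ l ^ 2 / q ^ 2 := by
        rw [le_div_iff₀ (by positivity)]
        nlinarith
      have h8 : Real.sqrt n ≤ n * Real.exp (-(A / 25)) := by
        have e1 : Real.sqrt n = Real.exp (l / 2) := by
          rw [Real.sqrt_eq_iff_mul_self_eq hn0.le (Real.exp_pos _).le, ← Real.exp_add, ← hpow]
          congr 1; ring
        rw [e1]
        nth_rewrite 1 [← hpow]
        rw [← Real.exp_add]
        apply Real.exp_le_exp.2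
        linarith
      linarith
    have h5 : (5:ℝ) / n = 1 / n + 3 / n + 1 / n := by ring
    rw [h5]
    exact add_le_add (add_le_add t1 t2) t3
  · rw [← hnV]
    have h5 : (k:ℝ) * (2 * s) ≤ 0.08 * (A * l) * (E / q ^ 5) := by
      calc (k:ℝ) * (2 * s) ≤ (1 / 50 * (1 / q ^ 2) * A) * (2 * (2 * (l * E / q ^ 3))) := by
            gcongr
        _ = 0.08 * (A * l) * (E / q ^ 5) := by field_simp; ring
    have h6 : E / q ^ 5 ≤ 16 * (n * Real.exp (-A)) := by
      rw [div_le_iff₀ (by positivity)]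
      linarith
    have h7 : A * l ≤ 1 / 6 * Real.exp (2 / 3 * A) := by
      have : A * l ≤ l / 6 * l := by gcongr
      nlinarith
    have h8 : (k:ℝ) * (2 * s) ≤ 0.22 * (n * Real.exp (-(A / 3))) := by
      calc (k:ℝ) * (2 * s) ≤ 0.08 * (A * l) * (E / q ^ 5) := h5
        _ ≤ 0.08 * (1 / 6 * Real.exp (2 / 3 * A)) * (16 * (n * Real.exp (-A))) := by gcongr
        _ = (0.08 * 16 / 6) * (n * (Real.exp (2 / 3 * A) * Real.exp (-A))) := by ring
        _ = (0.08 * 16 / 6) * (n * Real.exp (-(A / 3))) := by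
            rw [← Real.exp_add]; congr 3; ring
        _ ≤ 0.22 * (n * Real.exp (-(A / 3))) := by
            gcongr
            norm_num
    have h9 : n * Real.exp (-(A / 3)) ≤ n * Real.exp (-(A / 25)) := by
      have : Real.exp (-(A / 3)) ≤ Real.exp (-(A / 25)) := by
        apply Real.exp_le_exp.2
        linarith
      gcongr
    have h10 : 0 ≤ n * Real.exp (-(A / 25)) := by positivity
    linarith

end Pool.Agent.Helper96
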