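import Pool.Agent.Helper96.HalvingColour

/-!
Deterministic part of the upper bound for Q2.
-/

open Finset

set_option linter.unusedSectionVars false

namespace Pool.Agent.Helper96

variable {V : Type*} [Fintype V] [DecidableEq V]

/-- Common neighbours of `S` in `L`. -/
def cn (ω : Sym2 V → Bool) (L S : Finset V) : Finset V :=
  (L \ S).filter (fun d => ∀ e ∈ star d S, ω e = true)

/-- Common neighbours of `a`, `b` in `Z`. -/
def zab (ω : Sym2 V → Bool) (Z : Finset V) (a b : V) : Finset V :=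
  Z.filter (fun z => ∀ e ∈ star z {a, b}, ω e = true)

/-- Vertices `c` of `L` adjacent to `a` and `b`, but to no common neighbour of them in `Z`. -/
def bt (ω : Sym2 V → Bool) (L Z : Finset V) (a b : V) : Finset V :=
  (L \ {a, b}).filter (fun c => (∀ e ∈ star c {a, b}, ω e = true) ∧
    ∀ e ∈ star c (zab ω Z a b), ω e = false)

theorem mem_cn {ω : Sym2 V → Bool} {L S : Finset V} {d : V} :
    d ∈ cn ω L S ↔ d ∈ L ∧ d ∉ S ∧ ∀ x ∈ S, ω s(d, x) = true := by
  unfold cn
  rw [Finset.mem_filter, Finset.mem_sdiff, and_assoc]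
  refine and_congr_right fun _ => and_congr_right fun _ => ?_
  constructor
  · intro h x hx
    exact h _ (mk_mem_star hx)
  · intro h e he
    obtain ⟨x, hx, rfl⟩ := mem_star.1 he
    exact h x hx

/-- The degree conditions. -/
structure Nice (ω : Sym2 V → Bool) (L Z : Finset V) (Δ κ₂ κ₃ κ : ℕ) : Prop where
  deg : ∀ a ∈ L, (cn ω L {a}).card ≤ Δ
  codeg : ∀ a ∈ L, ∀ b ∈ L, a ≠ b → (cn ω L {a, b}).card ≤ κ₂
  tri : ∀ a ∈ L, ∀ b ∈ L, ∀ c ∈ L, a ≠ b → a ≠ c → b ≠ c → (cn ω L {a, b, c}).card ≤ κ₃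
  bad : ∀ a ∈ L, ∀ b ∈ L, a ≠ b → (bt ω L Z a b).card ≤ κ

/-- Triangles of `L` without common neighbour in `Z`. -/
def badT (ω : Sym2 V → Bool) (L Z : Finset V) : Finset (Finset V) :=
  (L.powersetCard 3).filter (fun T => (∀ e ∈ cl T, ω e = true) ∧
    ∀ z ∈ Z, ¬ ∀ e ∈ star z T, ω e = true)

/-- `K₄`s of `L`. -/
def fourT (ω : Sym2 V → Bool) (L : Finset V) : Finset (Finset V) :=
  (L.powersetCard 4).filter (fun T => ∀ e ∈ cl T, ω e = true)

theorem Nice.card_badT {ω : Sym2 V → Bool} {L Z : Finset V} {Δ κ₂ κ₃ κ : ℕ}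
    (h : Nice ω L Z Δ κ₂ κ₃ κ) {L' : Finset V} (hL' : L' ⊆ L) :
    ((badT ω L Z).filter (fun T => T ⊆ L')).card ≤ L'.card * (Δ * κ) := by
  have hsub : (badT ω L Z).filter (fun T => T ⊆ L') ⊆
      L'.biUnion (fun a => (cn ω L {a}).biUnion (fun b =>
        (bt ω L Z a b).image (fun c => ({a, b, c} : Finset V)))) := by
    intro T hT
    rw [Finset.mem_filter, badT, Finset.mem_filter, Finset.mem_powersetCard] at hT
    obtain ⟨⟨⟨hTL, hT3⟩, hcl, hz⟩, hTL'⟩ := hT
    obtain ⟨a, b, c, hab, hac, hbc, rfl⟩ := Finset.card_eq_three.1 hT3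
    have ha : a ∈ ({a, b, c} : Finset V) := by simp
    have hb : b ∈ ({a, b, c} : Finset V) := by simp
    have hc : c ∈ ({a, b, c} : Finset V) := by simp
    rw [Finset.mem_biUnion]
    refine ⟨a, hTL' ha, ?_⟩
    rw [Finset.mem_biUnion]
    refine ⟨b, ?_, ?_⟩
    · rw [mem_cn]
      refine ⟨hTL hb, by simpa using hab.symm, fun x hx => ?_⟩
      rw [Finset.mem_singleton] at hx
      subst hx
      exact hcl _ (mk_mem_cl.2 ⟨hb, ha, hab.symm⟩)
    · rw [Finset.mem_image]
      refine ⟨c, ?_, rfl⟩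
      rw [bt, Finset.mem_filter, Finset.mem_sdiff]
      refine ⟨⟨hTL hc, by simp [hac.symm, hbc.symm]⟩, ?_, ?_⟩
      · intro e he
        obtain ⟨x, hx, rfl⟩ := mem_star.1 he
        rw [Finset.mem_insert, Finset.mem_singleton] at hx
        rcases hx with rfl | rfl
        · exact hcl _ (mk_mem_cl.2 ⟨hc, ha, hac.symm⟩)
        · exact hcl _ (mk_mem_cl.2 ⟨hc, hb, hbc.symm⟩)
      · intro e he
        obtain ⟨z, hz', rfl⟩ := mem_star.1 he
        rw [zab, Finset.mem_filter] at hz'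
        by_contra hcon
        apply hz z hz'.1
        intro e he
        obtain ⟨x, hx, rfl⟩ := mem_star.1 he
        rw [Finset.mem_insert, Finset.mem_insert, Finset.mem_singleton] at hx
        rcases hx with rfl | rfl | rfl
        · exact hz'.2 _ (mk_mem_star (by simp))
        · exact hz'.2 _ (mk_mem_star (by simp))
        · rw [Sym2.eq_swap]
          simpa using hcon
  refine (Finset.card_le_card hsub).trans ?_
  refine Finset.card_biUnion_le_card_mul _ _ _ fun a ha => ?_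
  have haL := hL' ha
  refine (Finset.card_biUnion_le_card_mul _ _ κ fun b hb => ?_).trans ?_
  · rw [mem_cn] at hb
    refine Finset.card_image_le.trans (h.bad a haL b hb.1 ?_)
    rintro rfl
    simp at hb
  · exact Nat.mul_le_mul_right _ (h.deg a haL)

theorem Nice.card_fourT {ω : Sym2 V → Bool} {L Z : Finset V} {Δ κ₂ κ₃ κ : ℕ}
    (h : Nice ω L Z Δ κ₂ κ₃ κ) {L' : Finset V} (hL' : L' ⊆ L) :
    ((fourT ω L).filter (fun T => T ⊆ L')).card ≤ L'.card * (Δ * (κ₂ * κ₃)) := by
  have hsub : (fourT ω L).filter (fun T => T ⊆ L') ⊆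
      L'.biUnion (fun a => (cn ω L {a}).biUnion (fun b => (cn ω L {a, b}).biUnion (fun c =>
        (cn ω L {a, b, c}).image (fun d => ({a, b, c, d} : Finset V))))) := by
    intro T hT
    rw [Finset.mem_filter, fourT, Finset.mem_filter, Finset.mem_powersetCard] at hT
    obtain ⟨⟨⟨hTL, hT4⟩, hcl⟩, hTL'⟩ := hT
    obtain ⟨a, T', haT', hT', hT3⟩ := Finset.card_eq_succ.1 hT4
    obtain ⟨b, c, d, hbc, hbd, hcd, rfl⟩ := Finset.card_eq_three.1 hT3
    subst hT'
    have hab : a ≠ b := by rintro rfl; simp at haT'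
    have hac : a ≠ c := by rintro rfl; simp at haT'
    have had : a ≠ d := by rintro rfl; simp at haT'
    have ha : a ∈ (insert a {b, c, d} : Finset V) := by simp
    have hb : b ∈ (insert a {b, c, d} : Finset V) := by simp
    have hc : c ∈ (insert a {b, c, d} : Finset V) := by simp
    have hd : d ∈ (insert a {b, c, d} : Finset V) := by simp
    rw [Finset.mem_biUnion]
    refine ⟨a, hTL' ha, ?_⟩
    rw [Finset.mem_biUnion]
    refine ⟨b, ?_, ?_⟩
    · rw [mem_cn]
      refine ⟨hTL hb, by simpa using hab.symm, fun x hx => ?_⟩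
      rw [Finset.mem_singleton] at hx
      subst hx
      exact hcl _ (mk_mem_cl.2 ⟨hb, ha, hab.symm⟩)
    · rw [Finset.mem_biUnion]
      refine ⟨c, ?_, ?_⟩
      · rw [mem_cn]
        refine ⟨hTL hc, by simp [hac.symm, hbc.symm], fun x hx => ?_⟩
        rw [Finset.mem_insert, Finset.mem_singleton] at hx
        rcases hx with rfl | rfl
        · exact hcl _ (mk_mem_cl.2 ⟨hc, ha, hac.symm⟩)
        · exact hcl _ (mk_mem_cl.2 ⟨hc, hb, hbc.symm⟩)
      · rw [Finset.mem_image]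
        refine ⟨d, ?_, rfl⟩
        rw [mem_cn]
        refine ⟨hTL hd, by simp [had.symm, hbd.symm, hcd.symm], fun x hx => ?_⟩
        rw [Finset.mem_insert, Finset.mem_insert, Finset.mem_singleton] at hx
        rcases hx with rfl | rfl | rfl
        · exact hcl _ (mk_mem_cl.2 ⟨hd, ha, had.symm⟩)
        · exact hcl _ (mk_mem_cl.2 ⟨hd, hb, hbd.symm⟩)
        · exact hcl _ (mk_mem_cl.2 ⟨hd, hc, hcd.symm⟩)
  refine (Finset.card_le_card hsub).trans ?_
  refine Finset.card_biUnion_le_card_mul _ _ _ fun a ha => ?_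
  have haL := hL' ha
  refine (Finset.card_biUnion_le_card_mul _ _ (κ₂ * κ₃) fun b hb => ?_).trans ?_
  · rw [mem_cn] at hb
    have hab : a ≠ b := by rintro rfl; simp at hb
    refine (Finset.card_biUnion_le_card_mul _ _ κ₃ fun c hc => ?_).trans ?_
    · rw [mem_cn] at hc
      have hc2 := hc.2.1
      rw [Finset.mem_insert, Finset.mem_singleton, not_or] at hc2
      exact Finset.card_image_le.trans (h.tri a haL b hb.1 c hc.1 hab (Ne.symm hc2.1)
        (Ne.symm hc2.2))
    · exact Nat.mul_le_mul_right _ (h.codeg a haL b hb.1 hab)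
  · exact Nat.mul_le_mul_right _ (h.deg a haL)

theorem chi_le_of_nice {ω : Sym2 V → Bool} {W : Finset V} {Q m Δ κ₂ κ₃ κ : ℕ} (hQ : 0 < Q)
    (hcn : CommonNb ω)
    (hn : Nice ω (nonAdj ω W) (Wᶜ \ nonAdj ω W) Δ κ₂ κ₃ κ) (hm : (nonAdj ω W).card < 2 ^ m)
    (hnum : (Δ : ℝ) * κ / Q ^ 2 + Δ * κ₂ * κ₃ / Q ^ 3 ≤ 1 / 2) :
    cliqueChromaticNumber (gr ω) ≤ 2 * W.card + (m + 1) * Q := by
  classical
  have hQ0 : (0:ℝ) < Q := by exact_mod_cast hQ
  set L := nonAdj ω W with hL
  set Z := Wᶜ \ L with hZ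
  set F := badT ω L Z ∪ fourT ω L with hF
  have hF3 : ∀ T ∈ badT ω L Z, T.card = 3 := fun T hT =>
    (Finset.mem_powersetCard.1 (Finset.mem_filter.1 hT).1).2
  have hF4 : ∀ T ∈ fourT ω L, T.card = 4 := fun T hT =>
    (Finset.mem_powersetCard.1 (Finset.mem_filter.1 hT).1).2
  obtain ⟨c, hc⟩ := exists_no_mono hQ F (fun T hT => by
      rw [← Finset.card_pos]
      rcases Finset.mem_union.1 hT with h | h
      · rw [hF3 T h]; norm_num
      · rw [hF4 T h]; norm_num) m L hm (fun L' hL' => by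
    have h3 := hn.card_badT hL'
    have h4 := hn.card_fourT hL'
    have h5 : ∑ T ∈ F.filter (fun T => T ⊆ L'), (1 / (Q:ℝ)) ^ (T.card - 1) ≤
        ∑ T ∈ (badT ω L Z).filter (fun T => T ⊆ L'), (1 / (Q:ℝ)) ^ (T.card - 1) +
        ∑ T ∈ (fourT ω L).filter (fun T => T ⊆ L'), (1 / (Q:ℝ)) ^ (T.card - 1) := by
      rw [hF, Finset.filter_union, ← Finset.sum_union_inter]
      have : 0 ≤ ∑ T ∈ (badT ω L Z).filter (fun T => T ⊆ L') ∩
          (fourT ω L).filter (fun T => T ⊆ L'), (1 / (Q:ℝ)) ^ (T.card - 1) :=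
        Finset.sum_nonneg fun T _ => by positivity
      linarith
    refine h5.trans ?_
    rw [Finset.sum_congr rfl (g := fun _ => (1 / (Q:ℝ)) ^ 2) (fun T hT => by
        rw [hF3 T (Finset.mem_filter.1 hT).1]),
      Finset.sum_congr (s₁ := (fourT ω L).filter (fun T => T ⊆ L')) rfl
        (g := fun _ => (1 / (Q:ℝ)) ^ 3) (fun T hT => by
        rw [hF4 T (Finset.mem_filter.1 hT).1]),
      Finset.sum_const, Finset.sum_const, nsmul_eq_mul, nsmul_eq_mul]
    have h6 : (((badT ω L Z).filter (fun T => T ⊆ L')).card : ℝ) ≤ L'.card * (Δ * κ) := by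
      exact_mod_cast h3
    have h7 : (((fourT ω L).filter (fun T => T ⊆ L')).card : ℝ) ≤ L'.card * (Δ * (κ₂ * κ₃)) := by
      exact_mod_cast h4
    calc _ ≤ L'.card * (Δ * κ) * (1 / (Q:ℝ)) ^ 2 + L'.card * (Δ * (κ₂ * κ₃)) * (1 / (Q:ℝ)) ^ 3 := by
          gcongr
      _ = L'.card * ((Δ : ℝ) * κ / Q ^ 2 + Δ * κ₂ * κ₃ / Q ^ 3) := by
          field_simp
      _ ≤ L'.card * (1 / 2) := by gcongr
      _ = _ := by ring)
  refine chi_le_of_colouring (fun x => finProdFinEquiv (c x)) ?_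
  rintro K hK hK2 hKL ⟨i, hi⟩
  have hmono : ∀ x ∈ K, ∀ y ∈ K, c x = c y := fun x hx y hy =>
    finProdFinEquiv.injective ((hi x hx).trans (hi y hy).symm)
  set K' := K.toFinset with hK'
  have hKK : (K' : Set V) = K := by rw [hK']; simp
  have hmem : ∀ x, x ∈ K' ↔ x ∈ K := fun x => by rw [hK']; simp
  have hKL' : K' ⊆ L := fun x hx => hKL x ((hmem x).1 hx)
  have hclq : ∀ T ⊆ K', ∀ e ∈ cl T, ω e = true := by
    intro T hT
    refine (isClique_iff_allOn ω T).1 ?_
    intro u hu v hv huv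
    exact hK.prop ((hmem u).1 (hT hu)) ((hmem v).1 (hT hv)) huv
  have hmono' : ∀ T ⊆ K', Mono c T := fun T hT x hx y hy =>
    hmono x ((hmem x).1 (hT hx)) y ((hmem y).1 (hT hy))
  have hext : ∀ z, z ∉ K → ¬ ∀ x ∈ K, ω s(z, x) = true := by
    intro z hz hzx
    have hcl : (gr ω).IsClique (insert z K) := by
      rw [SimpleGraph.isClique_insert]
      exact ⟨hK.prop, fun x hx hzx' => ⟨hzx', hzx x hx⟩⟩
    exact hz (hK.le_of_ge hcl (Set.subset_insert _ _) (Set.mem_insert _ _))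
  have hcard2 : 2 ≤ K'.card := by
    obtain ⟨x, hx, y, hy, hxy⟩ := hK2
    have : ({x, y} : Finset V) ⊆ K' := by
      intro z hz
      rw [Finset.mem_insert, Finset.mem_singleton] at hz
      rcases hz with rfl | rfl
      · exact (hmem _).2 hx
      · exact (hmem _).2 hy
    have h2 := Finset.card_le_card this
    rwa [Finset.card_pair hxy] at h2
  rcases lt_trichotomy K'.card 3 with h3 | h3 | h3
  · -- an edge
    have h2 : K'.card = 2 := by omega
    obtain ⟨x, y, hxy, hKe⟩ := Finset.card_eq_two.1 h2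
    obtain ⟨w, hwx, hwy, hw1, hw2⟩ := hcn x y hxy
    have hw : w ∉ K := by
      rw [← hmem, hKe, Finset.mem_insert, Finset.mem_singleton]
      rintro (h | h)
      · exact hwx h
      · exact hwy h
    apply hext w hw
    intro z hz
    rw [← hmem, hKe, Finset.mem_insert, Finset.mem_singleton] at hz
    rw [Sym2.eq_swap]
    rcases hz with rfl | rfl
    · exact hw1
    · exact hw2
  · -- a triangle
    refine hc K' ?_ hKL' (hmono' K' (Finset.Subset.refl _))
    rw [hF, Finset.mem_union]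
    left
    rw [badT, Finset.mem_filter, Finset.mem_powersetCard]
    refine ⟨⟨hKL', h3⟩, hclq K' (Finset.Subset.refl _), fun z hz hzT => ?_⟩
    have hzK : z ∉ K := by
      intro h
      exact (Finset.mem_sdiff.1 hz).2 (hKL z h)
    apply hext z hzK
    intro x hx
    exact hzT _ (mk_mem_star ((hmem x).2 hx))
  · -- at least four vertices
    obtain ⟨T, hTK, hT4⟩ := Finset.exists_subset_card_eq (s := K') (n := 4) (by omega)
    refine hc T ?_ (hTK.trans hKL') (hmono' T hTK)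
    rw [hF, Finset.mem_union]
    right
    rw [fourT, Finset.mem_filter, Finset.mem_powersetCard]
    exact ⟨⟨hTK.trans hKL', hT4⟩, hclq T hTK⟩

end Pool.Agent.Helper96
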