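import Pool.Agent.Helper96.NiceDet

/-!
Probabilistic part of the upper bound for Q2.
-/

open Finset

set_option linter.unusedSectionVars false

namespace Pool.Agent.Helper96

variable {V : Type*} [Fintype V] [DecidableEq V]

theorem pr_cn {p : ℝ} (h0 : 0 ≤ p) (h1 : p ≤ 1) (L S : Finset V) {ℓ : ℝ} (hL : (L.card : ℝ) ≤ ℓ)
    {m : ℕ} (hm : 4 * (ℓ * p ^ S.card) ≤ m) :
    pr p (fun ω => ¬ (cn ω L S).card ≤ m) ≤ Real.exp (-(m / 2)) := by
  classical
  have hch := chernoff_upper' (E := Sym2 V) h0 h1 (L \ S)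
    (A := fun d ω => ∀ e ∈ star d S, ω e = true) (U := fun d => star d S) ?_ ?_
    (p ^ S.card) m ?_ ?_
  · refine (pr_mono h0 h1 fun ω hω => ?_).trans hch
    have h2 : (cn ω L S).card = cnt (L \ S) (fun d ω => ∀ e ∈ star d S, ω e = true) ω := by
      apply card_eq_cnt
      intro d
      rw [cn, Finset.mem_filter]
    rw [← h2]
    push Not at hω
    exact_mod_cast hω.le
  · intro v hv v' _ hvv'
    exact star_disjoint (Finset.mem_sdiff.1 hv).2 hvv'
  · intro x _ ω ω' hω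
    apply propext
    exact forall₂_congr fun e he => by rw [hω e he]
  · intro u _
    rw [pr_all_true, card_star]
  · refine le_trans ?_ hm
    have h5 : ((L \ S).card : ℝ) ≤ ℓ :=
      le_trans (by exact_mod_cast Finset.card_le_card Finset.sdiff_subset) hL
    gcongr

theorem pr_zab {p : ℝ} (h0 : 0 ≤ p) (h1 : p ≤ 1) (Z : Finset V) {a b : V} (ha : a ∉ Z)
    (hb : b ∉ Z) (hab : a ≠ b) {μ θ : ℝ} (hθ : 0 ≤ θ) :
    pr p (fun ω => ((zab ω Z a b).card : ℝ) ≤ μ) ≤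
      Real.exp (θ * μ - Z.card * p ^ 2 * (1 - Real.exp (-θ))) := by
  classical
  have hch := chernoff_lower (E := Sym2 V) h0 h1 Z
    (A := fun z ω => ∀ e ∈ star z {a, b}, ω e = true) (U := fun z => star z {a, b}) ?_ ?_
    hθ (p ^ 2) μ ?_
  · refine (pr_mono h0 h1 fun ω hω => ?_).trans hch
    have h2 : (zab ω Z a b).card = cnt Z (fun z ω => ∀ e ∈ star z {a, b}, ω e = true) ω := by
      apply card_eq_cnt
      intro d
      rw [zab, Finset.mem_filter]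
    rw [← h2]
    exact hω
  · intro v hv v' _ hvv'
    refine star_disjoint ?_ hvv'
    rw [Finset.mem_insert, Finset.mem_singleton]
    rintro (rfl | rfl)
    · exact ha hv
    · exact hb hv
  · intro x _ ω ω' hω
    apply propext
    exact forall₂_congr fun e he => by rw [hω e he]
  · intro u _
    rw [pr_all_true, card_star, Finset.card_pair hab]

theorem zab_congr {ω ω' : Sym2 V → Bool} {Z : Finset V} {a b : V}
    (h : ∀ z ∈ Z, ∀ e ∈ star z {a, b}, ω e = ω' e) : zab ω Z a b = zab ω' Z a b := by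
  unfold zab
  apply Finset.filter_congr
  intro z hz
  exact forall₂_congr fun e he => by rw [h z hz e he]

theorem one_sub_pow_le_exp {p : ℝ} (h1 : p ≤ 1) (h0 : 0 ≤ p) {k : ℕ} {μ : ℝ} (hk : μ ≤ k) :
    (1 - p) ^ k ≤ Real.exp (-(p * μ)) := by
  have h2 : 1 - p ≤ Real.exp (-p) := by
    have := Real.add_one_le_exp (-p)
    linarith
  calc (1 - p) ^ k ≤ (Real.exp (-p)) ^ k := pow_le_pow_left₀ (by linarith) h2 k
    _ = Real.exp (-(p * k)) := by
        rw [← Real.exp_nat_mul]; congr 1; ring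
    _ ≤ Real.exp (-(p * μ)) := by
        apply Real.exp_le_exp.2
        have := mul_le_mul_of_nonneg_left hk h0
        linarith

theorem pr_bt {p : ℝ} (h0 : 0 ≤ p) (h1 : p ≤ 1) {L Z : Finset V} (hLZ : Disjoint L Z)
    {a b : V} (ha : a ∈ L) (hb : b ∈ L) (hab : a ≠ b) {ℓ μ : ℝ} (hL : (L.card : ℝ) ≤ ℓ)
    {m : ℕ} (hm : 4 * (ℓ * (p ^ 2 * Real.exp (-(p * μ)))) ≤ m) :
    pr p (fun ω => (¬ (bt ω L Z a b).card ≤ m) ∧ μ < ((zab ω Z a b).card : ℝ)) ≤
      Real.exp (-(m / 2)) := by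
  classical
  have hZL : ∀ z ∈ Z, z ∉ L := fun z hz hz' => (Finset.disjoint_left.1 hLZ hz') hz
  set U : Finset (Sym2 V) := cl L ∪ (L \ {a, b}).biUnion (fun c => star c Z) with hU
  have hzU : ∀ z ∈ Z, ∀ e ∈ star z ({a, b} : Finset V), e ∉ U := by
    intro z hz e he heU
    obtain ⟨x, hx, rfl⟩ := mem_star.1 he
    have hxL : x ∈ L := by
      rw [Finset.mem_insert, Finset.mem_singleton] at hx
      rcases hx with rfl | rfl <;> assumption
    rw [hU, Finset.mem_union, mk_mem_cl, Finset.mem_biUnion] at heU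
    rcases heU with h | ⟨c, hc, hce⟩
    · exact hZL z hz h.1
    · obtain ⟨z', hz', h⟩ := mem_star.1 hce
      rw [Finset.mem_sdiff] at hc
      rw [Sym2.eq_iff] at h
      rcases h with ⟨h2, _⟩ | ⟨h2, _⟩
      · exact hZL z hz (h2 ▸ hc.1)
      · exact hc.2 (h2 ▸ hx)
  have hzow : ∀ ω η : Sym2 V → Bool, zab (ow U ω η) Z a b = zab ω Z a b := by
    intro ω η
    apply zab_congr
    intro z hz e he
    have := hzU z hz e he
    simp [ow, this]
  refine pr_cond_le h0 h1 U (Real.exp_pos _).le ?_ ?_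
  · intro ω η
    rw [hzow]
  · intro ω hω
    set Zω := zab ω Z a b with hZω
    have hZsub : Zω ⊆ Z := Finset.filter_subset _ _
    have hch := chernoff_upper' (E := Sym2 V) h0 h1 (L \ {a, b})
      (A := fun c η => (∀ e ∈ star c {a, b}, η e = true) ∧ ∀ e ∈ star c Zω, η e = false)
      (U := fun c => star c {a, b} ∪ star c Zω) ?_ ?_
      (p ^ 2 * Real.exp (-(p * μ))) m ?_ ?_
    · refine (pr_mono h0 h1 fun η hη => ?_).trans hch
      have h2 : (bt (ow U ω η) L Z a b).card = cnt (L \ {a, b})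
          (fun c η => (∀ e ∈ star c {a, b}, η e = true) ∧ ∀ e ∈ star c Zω, η e = false) η := by
        apply card_eq_cnt
        intro c
        rw [bt, Finset.mem_filter, hzow, ← hZω]
        refine and_congr_right fun hc => ?_
        have e1 : ∀ e ∈ star c ({a, b} : Finset V), ow U ω η e = η e := by
          intro e he
          have : e ∈ U := by
            rw [hU, Finset.mem_union]
            left
            obtain ⟨x, hx, rfl⟩ := mem_star.1 he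
            rw [Finset.mem_sdiff] at hc
            rw [mk_mem_cl]
            refine ⟨hc.1, ?_, fun h => hc.2 (h ▸ hx)⟩
            rw [Finset.mem_insert, Finset.mem_singleton] at hx
            rcases hx with rfl | rfl <;> assumption
          simp [ow, this]
        have e2 : ∀ e ∈ star c Zω, ow U ω η e = η e := by
          intro e he
          have : e ∈ U := by
            rw [hU, Finset.mem_union]
            right
            exact Finset.mem_biUnion.2 ⟨c, hc, star_mono hZsub he⟩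
          simp [ow, this]
        refine and_congr (forall₂_congr fun e he => ?_) (forall₂_congr fun e he => ?_)
        · rw [e1 e he]
        · rw [e2 e he]
      rw [← h2]
      push Not at hη
      exact_mod_cast hη.le
    · intro v hv v' _ hvv'
      have e1 : star v ({a, b} : Finset V) ∪ star v Zω = star v ({a, b} ∪ Zω) := by
        unfold star; rw [Finset.image_union]
      have e2 : star v' ({a, b} : Finset V) ∪ star v' Zω = star v' ({a, b} ∪ Zω) := by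
        unfold star; rw [Finset.image_union]
      rw [e1, e2]
      refine star_disjoint ?_ hvv'
      rw [Finset.mem_sdiff] at hv
      rw [Finset.mem_union, not_or]
      exact ⟨hv.2, fun h => hZL v (hZsub h) hv.1⟩
    · intro x _ η η' hη
      apply propext
      refine and_congr (forall₂_congr fun e he => ?_) (forall₂_congr fun e he => ?_)
      · rw [hη e (Finset.mem_union_left _ he)]
      · rw [hη e (Finset.mem_union_right _ he)]
    · intro c hc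
      rw [Finset.mem_sdiff] at hc
      rw [pr_and_of_disjoint p (U := star c {a, b}) (U' := star c Zω), pr_all_true, pr_all_false,
        card_star, card_star, Finset.card_pair hab]
      · exact mul_le_mul_of_nonneg_left (one_sub_pow_le_exp h1 h0 hω.le) (by positivity)
      · rw [Finset.disjoint_left]
        intro e he he'
        obtain ⟨x, hx, rfl⟩ := mem_star.1 he
        obtain ⟨z, hz, h⟩ := mem_star.1 he'
        have hxL : x ∈ L := by
          rw [Finset.mem_insert, Finset.mem_singleton] at hx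
          rcases hx with rfl | rfl <;> assumption
        rw [Sym2.eq_iff] at h
        rcases h with ⟨_, h2⟩ | ⟨h2, _⟩
        · exact hZL z (hZsub hz) (h2 ▸ hxL)
        · exact hc.2 (h2 ▸ hx)
      · intro η η' hη
        apply propext
        exact forall₂_congr fun e he => by rw [hη e he]
      · intro η η' hη
        apply propext
        exact forall₂_congr fun e he => by rw [hη e he]
    · refine le_trans ?_ hm
      have h5 : ((L \ {a, b}).card : ℝ) ≤ ℓ :=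
        le_trans (by exact_mod_cast Finset.card_le_card Finset.sdiff_subset) hL
      gcongr

theorem pr_not_nice {p : ℝ} (h0 : 0 ≤ p) (h1 : p ≤ 1) {L Z : Finset V} (hLZ : Disjoint L Z)
    {ℓ μ θ : ℝ} (hL : (L.card : ℝ) ≤ ℓ) (hθ : 0 ≤ θ) {Δ κ₂ κ₃ κ : ℕ}
    (hΔ : 4 * (ℓ * p) ≤ Δ) (hκ₂ : 4 * (ℓ * p ^ 2) ≤ κ₂) (hκ₃ : 4 * (ℓ * p ^ 3) ≤ κ₃)
    (hκ : 4 * (ℓ * (p ^ 2 * Real.exp (-(p * μ)))) ≤ κ) :
    pr p (fun ω => ¬ Nice ω L Z Δ κ₂ κ₃ κ) ≤
      (Fintype.card V : ℝ) * Real.exp (-((Δ:ℝ) / 2)) +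
      (Fintype.card V : ℝ) ^ 2 * Real.exp (-((κ₂:ℝ) / 2)) +
      (Fintype.card V : ℝ) ^ 3 * Real.exp (-((κ₃:ℝ) / 2)) +
      (Fintype.card V : ℝ) ^ 2 * Real.exp (-((κ:ℝ) / 2)) +
      (Fintype.card V : ℝ) ^ 2 * Real.exp (θ * μ - Z.card * p ^ 2 * (1 - Real.exp (-θ))) := by
  classical
  have hZL : ∀ z ∈ L, z ∉ Z := fun z hz hz' => (Finset.disjoint_left.1 hLZ hz) hz'
  have e1 := pr_exists_le_card h0 h1 L (fun a ω => ¬ (cn ω L {a}).card ≤ Δ)
    (Real.exp (-((Δ:ℝ) / 2))) (fun a _ => pr_cn h0 h1 L {a} hL (by simpa using hΔ))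
  have e2 := pr_exists_le_card h0 h1 ((univ : Finset (V × V)).filter (fun q => q.1 ≠ q.2))
    (fun q ω => ¬ (cn ω L {q.1, q.2}).card ≤ κ₂)
    (Real.exp (-((κ₂:ℝ) / 2))) (fun q hq => by
      refine pr_cn h0 h1 L {q.1, q.2} hL ?_
      rw [Finset.card_pair (Finset.mem_filter.1 hq).2]
      exact hκ₂)
  have e3 := pr_exists_le_card h0 h1 ((univ : Finset (V × V × V)).filter
      (fun q => q.1 ≠ q.2.1 ∧ q.1 ≠ q.2.2 ∧ q.2.1 ≠ q.2.2))
    (fun q ω => ¬ (cn ω L {q.1, q.2.1, q.2.2}).card ≤ κ₃)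
    (Real.exp (-((κ₃:ℝ) / 2))) (fun q hq => by
      refine pr_cn h0 h1 L {q.1, q.2.1, q.2.2} hL ?_
      obtain ⟨_, h2, h3, h4⟩ := Finset.mem_filter.1 hq
      have : ({q.1, q.2.1, q.2.2} : Finset V).card = 3 :=
        Finset.card_eq_three.2 ⟨_, _, _, h2, h3, h4, rfl⟩
      rw [this]
      exact hκ₃)
  have e4 := pr_exists_le_card h0 h1 ((L ×ˢ L).filter (fun q => q.1 ≠ q.2))
    (fun q ω => (¬ (bt ω L Z q.1 q.2).card ≤ κ) ∧ μ < ((zab ω Z q.1 q.2).card : ℝ))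
    (Real.exp (-((κ:ℝ) / 2))) (fun q hq => by
      obtain ⟨hq1, hq2⟩ := Finset.mem_filter.1 hq
      rw [Finset.mem_product] at hq1
      exact pr_bt h0 h1 hLZ hq1.1 hq1.2 hq2 hL hκ)
  have e5 := pr_exists_le_card h0 h1 ((L ×ˢ L).filter (fun q => q.1 ≠ q.2))
    (fun q ω => ((zab ω Z q.1 q.2).card : ℝ) ≤ μ)
    (Real.exp (θ * μ - Z.card * p ^ 2 * (1 - Real.exp (-θ)))) (fun q hq => by
      obtain ⟨hq1, hq2⟩ := Finset.mem_filter.1 hq
      rw [Finset.mem_product] at hq1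
      exact pr_zab h0 h1 Z (hZL _ hq1.1) (hZL _ hq1.2) hq2 hθ)
  have c1 : (L.card : ℝ) ≤ Fintype.card V := by exact_mod_cast Finset.card_le_univ _
  have c2 : (((univ : Finset (V × V)).filter (fun q => q.1 ≠ q.2)).card : ℝ) ≤
      (Fintype.card V : ℝ) ^ 2 := by
    have : ((univ : Finset (V × V)).filter (fun q => q.1 ≠ q.2)).card ≤ Fintype.card V ^ 2 := by
      refine (Finset.card_le_univ _).trans ?_
      rw [Fintype.card_prod, sq]
    exact_mod_cast this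
  have c3 : (((univ : Finset (V × V × V)).filter
      (fun q => q.1 ≠ q.2.1 ∧ q.1 ≠ q.2.2 ∧ q.2.1 ≠ q.2.2)).card : ℝ) ≤
      (Fintype.card V : ℝ) ^ 3 := by
    have : ((univ : Finset (V × V × V)).filter
        (fun q => q.1 ≠ q.2.1 ∧ q.1 ≠ q.2.2 ∧ q.2.1 ≠ q.2.2)).card ≤ Fintype.card V ^ 3 := by
      refine (Finset.card_le_univ _).trans (le_of_eq ?_)
      rw [Fintype.card_prod, Fintype.card_prod]
      ring
    exact_mod_cast this
  have c4 : (((L ×ˢ L).filter (fun q => q.1 ≠ q.2)).card : ℝ) ≤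
      (Fintype.card V : ℝ) ^ 2 := by
    have : ((L ×ˢ L).filter (fun q => q.1 ≠ q.2)).card ≤ Fintype.card V ^ 2 := by
      refine (Finset.card_le_univ _).trans ?_
      rw [Fintype.card_prod, sq]
    exact_mod_cast this
  have hsplit : ∀ ω : Sym2 V → Bool, ¬ Nice ω L Z Δ κ₂ κ₃ κ →
      ((∃ a ∈ L, ¬ (cn ω L {a}).card ≤ Δ) ∨
      (∃ q ∈ (univ : Finset (V × V)).filter (fun q => q.1 ≠ q.2),
        ¬ (cn ω L {q.1, q.2}).card ≤ κ₂)) ∨
      ((∃ q ∈ (univ : Finset (V × V × V)).filter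
        (fun q => q.1 ≠ q.2.1 ∧ q.1 ≠ q.2.2 ∧ q.2.1 ≠ q.2.2),
        ¬ (cn ω L {q.1, q.2.1, q.2.2}).card ≤ κ₃) ∨
      ((∃ q ∈ (L ×ˢ L).filter (fun q => q.1 ≠ q.2),
        (¬ (bt ω L Z q.1 q.2).card ≤ κ) ∧ μ < ((zab ω Z q.1 q.2).card : ℝ)) ∨
      (∃ q ∈ (L ×ˢ L).filter (fun q => q.1 ≠ q.2),
        ((zab ω Z q.1 q.2).card : ℝ) ≤ μ))) := by
    intro ω hω
    by_contra hcon
    push Not at hcon
    obtain ⟨⟨g1, g2⟩, g3, g4, g5⟩ := hcon
    apply hω
    refine ⟨g1, ?_, ?_, ?_⟩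
    · intro a _ b _ hab
      exact g2 (a, b) (Finset.mem_filter.2 ⟨Finset.mem_univ _, hab⟩)
    · intro a _ b _ c _ hab hac hbc
      exact g3 (a, b, c) (Finset.mem_filter.2 ⟨Finset.mem_univ _, hab, hac, hbc⟩)
    · intro a ha b hb hab
      have hmem : (a, b) ∈ (L ×ˢ L).filter (fun q => q.1 ≠ q.2) :=
        Finset.mem_filter.2 ⟨Finset.mem_product.2 ⟨ha, hb⟩, hab⟩
      by_contra hcard
      have h6 := g4 (a, b) hmem (not_le.1 hcard)
      have h7 := g5 (a, b) hmem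
      exact absurd h7 (not_lt.2 h6)
  refine (pr_mono h0 h1 hsplit).trans ?_
  have f1 := pr_or_le h0 h1 (fun ω => ∃ a ∈ L, ¬ (cn ω L {a}).card ≤ Δ)
    (fun ω => ∃ q ∈ (univ : Finset (V × V)).filter (fun q => q.1 ≠ q.2),
        ¬ (cn ω L {q.1, q.2}).card ≤ κ₂)
  have f2 := pr_or_le h0 h1 (fun ω => ∃ q ∈ (L ×ˢ L).filter (fun q => q.1 ≠ q.2),
        (¬ (bt ω L Z q.1 q.2).card ≤ κ) ∧ μ < ((zab ω Z q.1 q.2).card : ℝ))
    (fun ω => ∃ q ∈ (L ×ˢ L).filter (fun q => q.1 ≠ q.2), ((zab ω Z q.1 q.2).card : ℝ) ≤ μ)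
  refine (pr_or_le h0 h1 _ _).trans ?_
  have f3 := (pr_or_le h0 h1 (fun ω => ∃ q ∈ (univ : Finset (V × V × V)).filter
        (fun q => q.1 ≠ q.2.1 ∧ q.1 ≠ q.2.2 ∧ q.2.1 ≠ q.2.2),
        ¬ (cn ω L {q.1, q.2.1, q.2.2}).card ≤ κ₃)
      (fun ω => (∃ q ∈ (L ×ˢ L).filter (fun q => q.1 ≠ q.2),
        (¬ (bt ω L Z q.1 q.2).card ≤ κ) ∧ μ < ((zab ω Z q.1 q.2).card : ℝ)) ∨
      (∃ q ∈ (L ×ˢ L).filter (fun q => q.1 ≠ q.2),
        ((zab ω Z q.1 q.2).card : ℝ) ≤ μ)))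
  have g1 := mul_le_mul_of_nonneg_right c1 (Real.exp_pos (-((Δ:ℝ) / 2))).le
  have g2 := mul_le_mul_of_nonneg_right c2 (Real.exp_pos (-((κ₂:ℝ) / 2))).le
  have g3 := mul_le_mul_of_nonneg_right c3 (Real.exp_pos (-((κ₃:ℝ) / 2))).le
  have g4 := mul_le_mul_of_nonneg_right c4 (Real.exp_pos (-((κ:ℝ) / 2))).le
  have g5 := mul_le_mul_of_nonneg_right c4
    (Real.exp_pos (θ * μ - Z.card * p ^ 2 * (1 - Real.exp (-θ)))).le
  linarith

theorem cn_congr {ω ω' : Sym2 V → Bool} {L S : Finset V} (hS : S ⊆ L)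
    (h : ∀ e ∈ cl L, ω e = ω' e) : cn ω L S = cn ω' L S := by
  unfold cn
  apply Finset.filter_congr
  intro d hd
  rw [Finset.mem_sdiff] at hd
  refine forall₂_congr fun e he => ?_
  obtain ⟨x, hx, rfl⟩ := mem_star.1 he
  rw [h _ (mk_mem_cl.2 ⟨hd.1, hS hx, fun h => hd.2 (h ▸ hx)⟩)]

theorem bt_congr {ω ω' : Sym2 V → Bool} {L Z : Finset V} (hLZ : Disjoint L Z) {a b : V}
    (ha : a ∈ L) (hb : b ∈ L) (h : ∀ e ∈ cl (L ∪ Z), ω e = ω' e) :
    bt ω L Z a b = bt ω' L Z a b := by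
  have hZL : ∀ z ∈ Z, z ∉ L := fun z hz hz' => (Finset.disjoint_left.1 hLZ hz') hz
  have hab : ∀ x ∈ ({a, b} : Finset V), x ∈ L := by
    intro x hx
    rw [Finset.mem_insert, Finset.mem_singleton] at hx
    rcases hx with rfl | rfl <;> assumption
  have hz : zab ω Z a b = zab ω' Z a b := by
    apply zab_congr
    intro z hz e he
    obtain ⟨x, hx, rfl⟩ := mem_star.1 he
    exact h _ (mk_mem_cl.2 ⟨Finset.mem_union_right _ hz, Finset.mem_union_left _ (hab x hx),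
      fun h2 => hZL z hz (h2 ▸ hab x hx)⟩)
  unfold bt
  rw [hz]
  apply Finset.filter_congr
  intro c hc
  rw [Finset.mem_sdiff] at hc
  refine and_congr (forall₂_congr fun e he => ?_) (forall₂_congr fun e he => ?_)
  · obtain ⟨x, hx, rfl⟩ := mem_star.1 he
    rw [h _ (mk_mem_cl.2 ⟨Finset.mem_union_left _ hc.1, Finset.mem_union_left _ (hab x hx),
      fun h2 => hc.2 (h2 ▸ hx)⟩)]
  · obtain ⟨z, hz', rfl⟩ := mem_star.1 he
    have hzZ : z ∈ Z := (Finset.mem_filter.1 hz').1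
    rw [h _ (mk_mem_cl.2 ⟨Finset.mem_union_left _ hc.1, Finset.mem_union_right _ hzZ,
      fun h2 => hZL z hzZ (h2 ▸ hc.1)⟩)]

theorem nice_congr {ω ω' : Sym2 V → Bool} {L Z : Finset V} (hLZ : Disjoint L Z)
    {Δ κ₂ κ₃ κ : ℕ} (h : ∀ e ∈ cl (L ∪ Z), ω e = ω' e) (hn : Nice ω L Z Δ κ₂ κ₃ κ) :
    Nice ω' L Z Δ κ₂ κ₃ κ := by
  have h' : ∀ e ∈ cl L, ω e = ω' e := fun e he => h e (cl_mono Finset.subset_union_left he)
  refine ⟨fun a ha => ?_, fun a ha b hb hab => ?_, fun a ha b hb c hc hab hac hbc => ?_,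
    fun a ha b hb hab => ?_⟩
  · rw [← cn_congr (by intro x hx; rw [Finset.mem_singleton] at hx; rwa [hx]) h']
    exact hn.deg a ha
  · rw [← cn_congr (by
      intro x hx
      simp only [Finset.mem_insert, Finset.mem_singleton] at hx
      rcases hx with rfl | rfl <;> assumption) h']
    exact hn.codeg a ha b hb hab
  · rw [← cn_congr (by
      intro x hx
      simp only [Finset.mem_insert, Finset.mem_singleton] at hx
      rcases hx with rfl | rfl | rfl <;> assumption) h']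
    exact hn.tri a ha b hb c hc hab hac hbc
  · rw [← bt_congr hLZ ha hb h]
    exact hn.bad a ha b hb hab

/-- The random set `nonAdj ω W` is nice. -/
theorem pr_not_nice_nonAdj {p : ℝ} (h0 : 0 ≤ p) (h1 : p ≤ 1) (W : Finset V)
    {ℓ μ θ : ℝ} (hθ : 0 ≤ θ) {Δ κ₂ κ₃ κ : ℕ}
    (hΔ : 4 * (ℓ * p) ≤ Δ) (hκ₂ : 4 * (ℓ * p ^ 2) ≤ κ₂) (hκ₃ : 4 * (ℓ * p ^ 3) ≤ κ₃)
    (hκ : 4 * (ℓ * (p ^ 2 * Real.exp (-(p * μ)))) ≤ κ) :
    pr p (fun ω => (¬ Nice ω (nonAdj ω W) (Wᶜ \ nonAdj ω W) Δ κ₂ κ₃ κ) ∧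
      ((nonAdj ω W).card : ℝ) ≤ ℓ) ≤
      (Fintype.card V : ℝ) * Real.exp (-((Δ:ℝ) / 2)) +
      (Fintype.card V : ℝ) ^ 2 * Real.exp (-((κ₂:ℝ) / 2)) +
      (Fintype.card V : ℝ) ^ 3 * Real.exp (-((κ₃:ℝ) / 2)) +
      (Fintype.card V : ℝ) ^ 2 * Real.exp (-((κ:ℝ) / 2)) +
      (Fintype.card V : ℝ) ^ 2 * Real.exp (θ * μ -
        ((Fintype.card V : ℝ) - W.card - ℓ) * p ^ 2 * (1 - Real.exp (-θ))) := by
  classical
  refine pr_cond_le h0 h1 (cl Wᶜ) (by positivity) ?_ ?_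
  · intro ω η
    rw [nonAdj_ow]
  · intro ω hω
    set L := nonAdj ω W with hL
    set Z := Wᶜ \ L with hZ
    have hLW : L ⊆ Wᶜ := nonAdj_subset ω W
    have hLZ : Disjoint L Z := Finset.disjoint_sdiff
    have hU : L ∪ Z = Wᶜ := by rw [hZ]; exact Finset.union_sdiff_of_subset hLW
    have h2 := pr_not_nice h0 h1 hLZ hω hθ hΔ hκ₂ hκ₃ hκ
    refine le_trans (le_of_eq ?_) (h2.trans ?_)
    · refine pr_congr fun η => not_congr ?_
      rw [nonAdj_ow, ← hL, ← hZ]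
      have hold : ∀ e ∈ cl (L ∪ Z), ow (cl Wᶜ) ω η e = η e := by
        intro e he
        rw [hU] at he
        simp [ow, he]
      exact ⟨nice_congr hLZ hold, nice_congr hLZ fun e he => (hold e he).symm⟩
    · have hZc : (Fintype.card V : ℝ) - W.card - ℓ ≤ Z.card := by
        have h3 := Finset.card_sdiff_add_card_eq_card hLW
        have h4 := Finset.card_add_card_compl W
        rw [← hZ] at h3
        have h5 : (Z.card : ℝ) + L.card = Wᶜ.card := by exact_mod_cast h3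
        have h6 : (W.card : ℝ) + Wᶜ.card = Fintype.card V := by exact_mod_cast h4
        linarith
      have hexp : 0 ≤ 1 - Real.exp (-θ) := by
        have : Real.exp (-θ) ≤ 1 := Real.exp_le_one_iff.2 (by linarith)
        linarith
      have h7 : Real.exp (θ * μ - Z.card * p ^ 2 * (1 - Real.exp (-θ))) ≤
          Real.exp (θ * μ -
            ((Fintype.card V : ℝ) - W.card - ℓ) * p ^ 2 * (1 - Real.exp (-θ))) := by
        apply Real.exp_le_exp.2
        have h8 : ((Fintype.card V : ℝ) - W.card - ℓ) * p ^ 2 * (1 - Real.exp (-θ)) ≤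
            Z.card * p ^ 2 * (1 - Real.exp (-θ)) := by gcongr
        linarith
      gcongr

/-- The number of vertices not dominated by `W`. -/
theorem pr_nonAdj_card {p : ℝ} (h0 : 0 ≤ p) (h1 : p ≤ 1) (ℓ : ℝ) (W : Finset V)
    (hℓ : 4 * ((Fintype.card V : ℝ) * (1 - p) ^ W.card) ≤ ℓ) :
    pr p (fun ω : Sym2 V → Bool => ℓ ≤ ((nonAdj ω W).card : ℝ)) ≤ Real.exp (-(ℓ / 2)) := by
  classical
  have hcnt : ∀ ω : Sym2 V → Bool, (nonAdj ω W).card =
      cnt Wᶜ (fun u ω => ∀ e ∈ star u W, ω e = false) ω := by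
    intro ω
    apply card_eq_cnt
    intro u
    rw [nonAdj, Finset.mem_filter]
    refine and_congr_right fun _ => ?_
    constructor
    · intro h e he
      obtain ⟨x, hx, rfl⟩ := mem_star.1 he
      exact h x hx
    · intro h w hw
      exact h _ (mk_mem_star hw)
  have hch := chernoff_upper' (E := Sym2 V) h0 h1 Wᶜ
    (A := fun u ω => ∀ e ∈ star u W, ω e = false) (U := fun u => star u W) ?_ ?_
    ((1 - p) ^ W.card) ℓ ?_ ?_
  · refine le_trans (le_of_eq ?_) hch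
    exact pr_congr fun ω => by rw [hcnt]
  · intro v hv v' _ hvv'
    exact star_disjoint (Finset.mem_compl.1 hv) hvv'
  · intro x _ ω ω' hω
    apply propext
    exact forall₂_congr fun e he => by rw [hω e he]
  · intro u _
    rw [pr_all_false, card_star]
  · refine le_trans ?_ hℓ
    have h5 : (Wᶜ.card : ℝ) ≤ Fintype.card V := by exact_mod_cast Finset.card_le_univ _
    have h6 : 0 ≤ (1 - p) ^ W.card := pow_nonneg (by linarith) _
    nlinarith

/-- Finite form of the upper bound, Q2. -/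
theorem upper_finite_nice {p : ℝ} (h0 : 0 ≤ p) (h1 : p ≤ 1) {Q m Δ κ₂ κ₃ κ : ℕ}
    (hQ : 0 < Q) {ℓ μ θ : ℝ} (W : Finset V) (hθ : 0 ≤ θ)
    (hℓ : 4 * ((Fintype.card V : ℝ) * (1 - p) ^ W.card) ≤ ℓ) (hm : ℓ < 2 ^ m)
    (hΔ : 4 * (ℓ * p) ≤ Δ) (hκ₂ : 4 * (ℓ * p ^ 2) ≤ κ₂) (hκ₃ : 4 * (ℓ * p ^ 3) ≤ κ₃)
    (hκ : 4 * (ℓ * (p ^ 2 * Real.exp (-(p * μ)))) ≤ κ)
    (hnum : (Δ : ℝ) * κ / Q ^ 2 + Δ * κ₂ * κ₃ / Q ^ 3 ≤ 1 / 2) :
    pr p (fun ω : Sym2 V → Bool => ¬ cliqueChromaticNumber (gr ω) ≤ 2 * W.card + (m + 1) * Q) ≤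
      (Fintype.card V : ℝ) ^ 2 * Real.exp (-(((Fintype.card V : ℝ) - 2) * p ^ 2)) +
      Real.exp (-(ℓ / 2)) +
      ((Fintype.card V : ℝ) * Real.exp (-((Δ:ℝ) / 2)) +
      (Fintype.card V : ℝ) ^ 2 * Real.exp (-((κ₂:ℝ) / 2)) +
      (Fintype.card V : ℝ) ^ 3 * Real.exp (-((κ₃:ℝ) / 2)) +
      (Fintype.card V : ℝ) ^ 2 * Real.exp (-((κ:ℝ) / 2)) +
      (Fintype.card V : ℝ) ^ 2 * Real.exp (θ * μ -
        ((Fintype.card V : ℝ) - W.card - ℓ) * p ^ 2 * (1 - Real.exp (-θ)))) := by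
  classical
  have e1 := pr_commonNb (V := V) h0 h1
  have e2 := pr_nonAdj_card (V := V) h0 h1 ℓ W hℓ
  have e3 := pr_not_nice_nonAdj (V := V) h0 h1 W hθ hΔ hκ₂ hκ₃ hκ
  refine le_trans (pr_mono h0 h1 (B := fun ω => ((¬ CommonNb ω) ∨ ℓ ≤ ((nonAdj ω W).card : ℝ)) ∨
    ((¬ Nice ω (nonAdj ω W) (Wᶜ \ nonAdj ω W) Δ κ₂ κ₃ κ) ∧ ((nonAdj ω W).card : ℝ) ≤ ℓ))
    fun ω hω => ?_) ?_
  · by_contra hcon
    rw [not_or, not_or, not_not, not_le] at hcon
    obtain ⟨⟨hcn, hlt⟩, hg⟩ := hcon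
    have hg' : Nice ω (nonAdj ω W) (Wᶜ \ nonAdj ω W) Δ κ₂ κ₃ κ := by
      by_contra h
      exact hg ⟨h, hlt.le⟩
    refine hω (chi_le_of_nice hQ hcn hg' ?_ hnum)
    have : ((nonAdj ω W).card : ℝ) < 2 ^ m := lt_trans hlt hm
    exact_mod_cast this
  · exact (pr_or_le h0 h1 _ _).trans (add_le_add ((pr_or_le h0 h1 _ _).trans
      (add_le_add e1 e2)) e3)

end Pool.Agent.Helper96
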