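import Pool.Agent.Helper96.Upper
import Pool.Agent.Helper96.LowerQ1

/-!
Upper bound for Q1: numerical part.
-/

open Finset

set_option linter.unusedSectionVars false

namespace Pool.Agent.Helper96

theorem div_one_add_le_log {y : ℝ} (hy : 0 ≤ y) : y / (1 + y) ≤ Real.log (1 + y) := by
  have h := Real.one_sub_inv_le_log_of_pos (x := 1 + y) (by linarith)
  have : y / (1 + y) = 1 - (1 + y)⁻¹ := by
    have h2 : (1 + y) ≠ 0 := by linarith
    field_simp; ring
  rw [this]; exact h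

theorem one_sub_pow_le {p : ℝ} (hp1 : p ≤ 1) (k : ℕ) :
    (1 - p) ^ k ≤ Real.exp (-(p * k)) := by
  have h1 : 1 - p ≤ Real.exp (-p) := by
    have := Real.add_one_le_exp (-p)
    linarith
  calc (1 - p) ^ k ≤ (Real.exp (-p)) ^ k := pow_le_pow_left₀ (by linarith) h1 k
    _ = Real.exp (-(p * k)) := by rw [← Real.exp_nat_mul]; congr 1; ring

/-- Upper bound for Q1 in finite form. -/
theorem upper_q1_finite {V : Type*} [Fintype V] [DecidableEq V] [Nonempty V]
    {n L q y : ℝ} (hnV : n = Fintype.card V) (hq0 : 0 < q)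
    (hL : 10 ≤ L) (hLn : L ^ 2 = Real.log n)
    (hqL : q * L ≤ 1 / 30) (hy : y = n * q ^ 5 / L)
    (h3 : 4 * L ^ 2 ≤ n * q ^ 4)
    (h5 : Real.exp (L ^ 2 / 5) ≤ y / (1 + y) / q ^ 2) :
    pr (q ^ 2) (fun ω : Sym2 V → Bool =>
      ¬ (cliqueChromaticNumber (gr ω) : ℝ) ≤ 131 * (1 / q ^ 2 * Real.log (1 + y))) ≤
      10 / n := by
  have hn0 : 0 < n := by rw [hnV]; exact_mod_cast Fintype.card_pos
  have hq1 : q ≤ 1 / 30 := by nlinarith
  have hq2 : q ^ 2 ≤ 1 := pow_le_one₀ hq0.le (by linarith)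
  have hq2' : q ^ 2 ≤ 1 / 900 := by
    have : q ^ 2 ≤ (1 / 30) ^ 2 := pow_le_pow_left₀ hq0.le hq1 2
    linarith
  have hq20 : 0 ≤ q ^ 2 := by positivity
  have hL0 : 0 < L := by linarith
  have hy0 : 0 < y := by rw [hy]; positivity
  have hlogn : Real.exp (L ^ 2) = n := by rw [hLn, Real.exp_log hn0]
  have hn1 : 1 ≤ n := by rw [← hlogn]; apply Real.one_le_exp; positivity
  set F : ℝ := 1 / q ^ 2 * Real.log (1 + y) with hF
  have hlogy : Real.log (1 + y) ≤ y := by
    have := Real.log_le_sub_one_of_pos (x := 1 + y) (by linarith)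
    linarith
  have hlogy' := div_one_add_le_log hy0.le
  -- k₁ and W
  set k₁ : ℕ := ⌊F⌋₊ with hk₁
  have hF0 : 0 ≤ F := by
    rw [hF]
    have := Real.log_nonneg (x := 1 + y) (by linarith)
    positivity
  have hk1 : (k₁ : ℝ) ≤ F := Nat.floor_le hF0
  have hk1' : F - 1 ≤ k₁ := by
    have := Nat.lt_floor_add_one F
    linarith
  have hkn : (k₁ : ℝ) ≤ n := by
    refine hk1.trans ?_
    calc F ≤ 1 / q ^ 2 * y := mul_le_mul_of_nonneg_left hlogy (by positivity)
      _ = n * (q ^ 3 / L) := by rw [hy]; field_simp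
      _ ≤ n * 1 := by
          refine mul_le_mul_of_nonneg_left ?_ hn0.le
          rw [div_le_one hL0]
          have : q ^ 3 ≤ 1 := pow_le_one₀ hq0.le (by linarith)
          linarith
      _ = n := mul_one _
  have hkV : k₁ ≤ (univ : Finset V).card := by
    rw [Finset.card_univ]
    rw [hnV] at hkn
    exact_mod_cast hkn
  obtain ⟨W, -, hW⟩ := Finset.exists_subset_card_eq hkV
  -- ℓ
  set ℓ : ℝ := 8 * n / (1 + y) with hℓ
  have hℓ0 : 0 < ℓ := by positivity
  have hℓ1 : 4 * (n * (1 - q ^ 2) ^ k₁) ≤ ℓ := by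
    have h6 : (1 - q ^ 2) ^ k₁ ≤ 2 / (1 + y) := by
      refine (one_sub_pow_le hq2 k₁).trans ?_
      have h7 : -(q ^ 2 * (k₁ : ℝ)) ≤ q ^ 2 - Real.log (1 + y) := by
        have h8 : q ^ 2 * (F - 1) ≤ q ^ 2 * k₁ := mul_le_mul_of_nonneg_left hk1' hq20
        have h9 : q ^ 2 * F = Real.log (1 + y) := by rw [hF]; field_simp
        nlinarith
      calc Real.exp (-(q ^ 2 * (k₁ : ℝ))) ≤ Real.exp (q ^ 2 - Real.log (1 + y)) :=
            Real.exp_le_exp.2 h7
        _ = Real.exp (q ^ 2) / (1 + y) := by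
            rw [Real.exp_sub, Real.exp_log (by linarith)]
        _ ≤ 2 / (1 + y) := by
            refine div_le_div_of_nonneg_right ?_ (by linarith)
            have h10 : Real.exp (q ^ 2) ≤ Real.exp (1 / 900) := Real.exp_le_exp.2 hq2'
            have h11 : Real.exp (1 / 900 : ℝ) ≤ 2 := by
              have h12 := Real.exp_bound_div_one_sub_of_interval (x := 1 / 900) (by norm_num)
                (by norm_num)
              refine h12.trans ?_
              norm_num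
            linarith
    calc 4 * (n * (1 - q ^ 2) ^ k₁) ≤ 4 * (n * (2 / (1 + y))) := by gcongr
      _ = ℓ := by rw [hℓ]; ring
  -- a
  set a : ℕ := ⌈L / (8 * q ^ 3)⌉₊ with ha
  have ha1 : L / (8 * q ^ 3) ≤ a := Nat.le_ceil _
  have hbig : 1000 ≤ L / (8 * q ^ 3) := by
    rw [le_div_iff₀ (by positivity)]
    have : q ^ 3 ≤ (1/30) ^ 3 := pow_le_pow_left₀ hq0.le hq1 3
    nlinarith
  have ha2 : (a : ℝ) ≤ 1.001 * (L / (8 * q ^ 3)) := by
    have := Nat.ceil_lt_add_one (a := L / (8 * q ^ 3)) (by positivity)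
    linarith
  have ha0 : (0:ℝ) < a := by linarith
  have ha0' : 0 < a := by exact_mod_cast ha0
  -- b
  set b : ℕ := ⌈2 * (a * q ^ 2)⌉₊ with hb
  have hb1 : 2 * (a * q ^ 2) ≤ b := Nat.le_ceil _
  have hap : 10 ≤ a * q ^ 2 := by
    have h6 : L / (8 * q ^ 3) * q ^ 2 ≤ a * q ^ 2 := mul_le_mul_of_nonneg_right ha1 hq20
    have h7 : L / (8 * q ^ 3) * q ^ 2 = L / (8 * q) := by field_simp
    rw [h7] at h6
    refine le_trans ?_ h6
    rw [le_div_iff₀ (by positivity)]
    nlinarith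
  have hb2 : (b : ℝ) ≤ 2.1 * (a * q ^ 2) := by
    have := Nat.ceil_lt_add_one (a := 2 * (a * q ^ 2)) (by positivity)
    linarith
  -- Q
  set Q : ℕ := ⌈2 * (ℓ / a)⌉₊ with hQ
  have hQ1 : 2 * (ℓ / a) ≤ Q := Nat.le_ceil _
  have hQ2 : (Q : ℝ) ≤ 2 * (ℓ / a) + 1 :=
    (Nat.ceil_lt_add_one (a := 2 * (ℓ / a)) (by positivity)).le
  have hQ0 : 0 < Q := by
    have : (0:ℝ) < Q := lt_of_lt_of_le (by positivity) hQ1
    exact_mod_cast this
  -- ℓ / a
  have hyq : n * q ^ 3 / L = y / q ^ 2 := by rw [hy]; field_simp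
  have hla1 : ℓ / a ≤ 64 * (y / (1 + y) / q ^ 2) := by
    calc ℓ / a ≤ ℓ / (L / (8 * q ^ 3)) := by gcongr
      _ = 64 * (n * q ^ 3 / L) / (1 + y) := by rw [hℓ]; field_simp; norm_num
      _ = 64 * (y / (1 + y) / q ^ 2) := by rw [hyq]; ring
  have hla2 : 60 * (y / (1 + y) / q ^ 2) ≤ ℓ / a := by
    calc 60 * (y / (1 + y) / q ^ 2) = 60 * (n * q ^ 3 / L) / (1 + y) := by rw [hyq]; ring
      _ ≤ 64 / 1.001 * (n * q ^ 3 / L) / (1 + y) := by
          have : (60:ℝ) ≤ 64 / 1.001 := by norm_num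
          gcongr
      _ = ℓ / (1.001 * (L / (8 * q ^ 3))) := by rw [hℓ]; field_simp; norm_num
      _ ≤ ℓ / a := by gcongr
  have hla3 : 60 * Real.exp (L ^ 2 / 5) ≤ ℓ / a := by linarith
  -- final number of colours
  have htotal : (2 * k₁ + Q : ℝ) ≤ 131 * F := by
    have h6 : y / (1 + y) / q ^ 2 ≤ F := by
      rw [hF]
      calc y / (1 + y) / q ^ 2 = 1 / q ^ 2 * (y / (1 + y)) := by ring
        _ ≤ 1 / q ^ 2 * Real.log (1 + y) := mul_le_mul_of_nonneg_left hlogy' (by positivity)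
    have h7 : 1 ≤ F := by
      have h8 : 1 ≤ Real.exp (L ^ 2 / 5) := Real.one_le_exp (by positivity)
      linarith
    linarith
  have hup := upper_finite (V := V) (p := q ^ 2) hq20 hq2 (Q := Q) (a := a) (b := b) ha0' hQ0
    (by linarith) ℓ W hℓ0.le (by rw [← hnV, hW]; exact hℓ1)
  rw [hW] at hup
  refine le_trans (pr_mono hq20 hq2 fun ω hω => ?_) (hup.trans ?_)
  · intro h
    apply hω
    have h6 : (cliqueChromaticNumber (gr ω) : ℝ) ≤ 2 * k₁ + Q := by exact_mod_cast h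
    linarith
  · rw [← hnV]
    have hninv : 1 / n = Real.exp (-L ^ 2) := by rw [Real.exp_neg, hlogn, one_div]
    have hL2 : 100 ≤ L ^ 2 := by nlinarith
    have t1 : n ^ 2 * Real.exp (-((n - 2) * (q ^ 2) ^ 2)) ≤ 1 / n := by
      have h6 : n ^ 2 = Real.exp (2 * L ^ 2) := by
        rw [← hlogn, ← Real.exp_nat_mul]; norm_num
      rw [h6, ← Real.exp_add, hninv]
      apply Real.exp_le_exp.2
      have h7 : (q ^ 2) ^ 2 ≤ 1 := by nlinarith
      nlinarith
    have t2 : Real.exp (-(ℓ / 2)) ≤ 1 / n := by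
      rw [hninv]
      apply Real.exp_le_exp.2
      have h6 : L ^ 2 ≤ ℓ / 2 := by
        rw [hℓ]
        have h7 : L ^ 2 * (1 + y) ≤ 4 * n := by
          have h8 : L ^ 2 * y ≤ n := by
            rw [hy]
            have h9 : L ^ 2 * (n * q ^ 5 / L) = n * (q ^ 5 * L) := by field_simp
            rw [h9]
            have h10 : q ^ 5 * L = q ^ 4 * (q * L) := by ring
            rw [h10]
            have h11 : q ^ 4 ≤ 1 := pow_le_one₀ hq0.le (by linarith)
            have h12 : q ^ 4 * (q * L) ≤ 1 * (1 / 30) := by gcongr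
            nlinarith
          have h13 : L ^ 2 ≤ n := by
            rw [← hlogn]
            have := Real.add_one_le_exp (L ^ 2)
            linarith
          nlinarith
        have h14 : 8 * n / (1 + y) / 2 = 4 * n / (1 + y) := by ring
        rw [h14, le_div_iff₀ (by linarith)]
        exact h7
      linarith
    have t3 : ℓ * Real.exp (-(1 / 2 * (1 - (q ^ 2) ^ 2) ^ (a * b) * ((Q : ℝ) - ℓ / a))) ≤
        8 / n := by
      have h6 : Real.exp (-(L ^ 2 / 8)) ≤ (1 - (q ^ 2) ^ 2) ^ (a * b) := by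
        have h7 : (q ^ 2) ^ 2 ≤ 1 / 2 := by nlinarith
        refine le_trans ?_ (one_sub_pow_ge (by positivity) h7 (a * b))
        apply Real.exp_le_exp.2
        push_cast
        have h8 : 2 * (q ^ 2) ^ 2 * (a * (b:ℝ)) ≤ 2 * (q ^ 2) ^ 2 * (a * (2.1 * (a * q ^ 2))) := by
          gcongr
        have h9 : 2 * (q ^ 2) ^ 2 * (a * (2.1 * (a * q ^ 2))) = 4.2 * (a * q ^ 3) ^ 2 := by ring
        have h10 : (a:ℝ) * q ^ 3 ≤ 1.001 * (L / 8) := by
          calc (a:ℝ) * q ^ 3 ≤ 1.001 * (L / (8 * q ^ 3)) * q ^ 3 := by gcongr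
            _ = 1.001 * (L / 8) := by field_simp
        have h11 : ((a:ℝ) * q ^ 3) ^ 2 ≤ (1.001 * (L / 8)) ^ 2 :=
          pow_le_pow_left₀ (by positivity) h10 2
        have h12 : 4.2 * (1.001 * (L / 8)) ^ 2 ≤ L ^ 2 / 8 := by
          have : 4.2 * (1.001 * (L / 8)) ^ 2 = 4.2 * 1.001 ^ 2 / 64 * L ^ 2 := by ring
          rw [this]
          nlinarith
        linarith
      have h7 : 2 * L ^ 2 ≤ 1 / 2 * (1 - (q ^ 2) ^ 2) ^ (a * b) * ((Q : ℝ) - ℓ / a) := by
        have h8 : 60 * Real.exp (L ^ 2 / 5) ≤ (Q : ℝ) - ℓ / a := by linarith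
        have h9 : 1 / 2 * Real.exp (-(L ^ 2 / 8)) * (60 * Real.exp (L ^ 2 / 5)) ≤
            1 / 2 * (1 - (q ^ 2) ^ 2) ^ (a * b) * ((Q : ℝ) - ℓ / a) :=
          mul_le_mul (mul_le_mul_of_nonneg_left h6 (by norm_num)) h8 (by positivity)
            (mul_nonneg (by norm_num) (le_trans (Real.exp_pos _).le h6))
        refine le_trans ?_ h9
        have h10 : 1 / 2 * Real.exp (-(L ^ 2 / 8)) * (60 * Real.exp (L ^ 2 / 5)) =
            30 * Real.exp (3 / 40 * L ^ 2) := by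
          have : Real.exp (3 / 40 * L ^ 2) = Real.exp (-(L ^ 2 / 8)) * Real.exp (L ^ 2 / 5) := by
            rw [← Real.exp_add]; congr 1; ring
          rw [this]; ring
        rw [h10]
        have h11 := Real.add_one_le_exp (3 / 40 * L ^ 2)
        nlinarith
      have h8 : ℓ ≤ 8 * n := by
        rw [hℓ, div_le_iff₀ (by linarith)]
        nlinarith
      calc ℓ * Real.exp (-(1 / 2 * (1 - (q ^ 2) ^ 2) ^ (a * b) * ((Q : ℝ) - ℓ / a)))
          ≤ (8 * n) * Real.exp (-(2 * L ^ 2)) := by gcongr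
        _ = 8 / n := by
            have : Real.exp (-(2 * L ^ 2)) = (1 / n) ^ 2 := by
              rw [hninv, ← Real.exp_nat_mul]; congr 1; push_cast; ring
            rw [this]; field_simp
    have h6 : (10:ℝ) / n = 1 / n + 1 / n + 8 / n := by ring
    rw [h6]
    exact add_le_add (add_le_add t1 t2) t3

end Pool.Agent.Helper96
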