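import Pool.Agent.Helper96.NiceProb
import Pool.Agent.Helper96.UpperQ1

/-!
Upper bound for Q2: numerical part.
-/

open Finset

set_option linter.unusedSectionVars false

namespace Pool.Agent.Helper96

/-- The numerical condition in `upper_finite_nice`. -/
theorem numeric_nice {l p q E ℓ Δ κ₂ κ₃ κ Q : ℝ} (hp0 : 0 < p) (hq0 : 0 < q) (hq : q ^ 2 = p)
    (hl : 100 ≤ l) (hE1 : 1 ≤ E) (hℓ0 : 0 ≤ ℓ)
    (hℓ1 : ℓ * (p ^ 3 * l ^ 5) ≤ 1) (hℓ2 : ℓ * (q ^ 5 * l ^ 5) ≤ E)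
    (c1 : 100 * (p * l ^ 6) ≤ 1) (hΔ0 : 0 ≤ Δ) (hκ₂0 : 0 ≤ κ₂) (hκ0 : 0 ≤ κ)
    (hΔ : Δ ≤ 4 * (ℓ * p) + 9 * l) (hκ₂ : κ₂ ≤ 4 * (ℓ * p ^ 2) + 9 * l)
    (hκ₃ : κ₃ ≤ 4 * (ℓ * p ^ 3) + 9 * l)
    (hκ : κ ≤ 12 * (ℓ * (p ^ 2 / E ^ 2)) + 9 * l)
    (hQ : 1 / (4 * p * l) ≤ Q) :
    Δ * κ / Q ^ 2 + Δ * κ₂ * κ₃ / Q ^ 3 ≤ 1 / 2 := by
  have hl0 : 0 < l := by linarith
  have hl6 : (100:ℝ) ^ 6 ≤ l ^ 6 := pow_le_pow_left₀ (by norm_num) hl 6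
  have hl5 : (100:ℝ) ^ 5 ≤ l ^ 5 := pow_le_pow_left₀ (by norm_num) hl 5
  have hl2 : (100:ℝ) ^ 2 ≤ l ^ 2 := pow_le_pow_left₀ (by norm_num) hl 2
  have hE0 : 0 < E := by linarith
  have hE2 : 1 ≤ E ^ 2 := one_le_pow₀ hE1
  have hp1 : p ≤ 1 / 100 := by
    have h6 : p * 1 ≤ p * l ^ 6 := by
      have : (1:ℝ) ≤ l ^ 6 := by linarith
      gcongr
    linarith
  have hp2l : p ^ 2 * l ^ 6 ≤ 1 / 10000 := by
    have e1 : p ^ 2 * l ^ 6 = p * (p * l ^ 6) := by ring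
    rw [e1]
    have : p * l ^ 6 ≤ 1 / 100 := by linarith
    calc p * (p * l ^ 6) ≤ (1 / 100) * (1 / 100) := by gcongr
      _ = 1 / 10000 := by norm_num
  have hQ0 : 0 < Q := lt_of_lt_of_le (by positivity) hQ
  have hQ2 : 1 / Q ^ 2 ≤ 16 * (p ^ 2 * l ^ 2) := by
    rw [div_le_iff₀ (by positivity)]
    have h1 : 1 ≤ 4 * p * l * Q := by
      rw [div_le_iff₀ (by positivity)] at hQ
      linarith
    calc (1:ℝ) = 1 ^ 2 := by norm_num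
      _ ≤ (4 * p * l * Q) ^ 2 := pow_le_pow_left₀ (by norm_num) h1 2
      _ = 16 * (p ^ 2 * l ^ 2) * Q ^ 2 := by ring
  have hQ3 : 1 / Q ^ 3 ≤ 64 * (p ^ 3 * l ^ 3) := by
    rw [div_le_iff₀ (by positivity)]
    have h1 : 1 ≤ 4 * p * l * Q := by
      rw [div_le_iff₀ (by positivity)] at hQ
      linarith
    calc (1:ℝ) = 1 ^ 3 := by norm_num
      _ ≤ (4 * p * l * Q) ^ 3 := pow_le_pow_left₀ (by norm_num) h1 3
      _ = 64 * (p ^ 3 * l ^ 3) * Q ^ 3 := by ring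
  -- first term
  have hΔκ : Δ * κ * (p ^ 2 * l ^ 4) ≤ 40 := by
    have h1 : Δ * κ ≤ (4 * (ℓ * p) + 9 * l) * (12 * (ℓ * (p ^ 2 / E ^ 2)) + 9 * l) :=
      mul_le_mul hΔ hκ hκ0 (by positivity)
    have h2 : (4 * (ℓ * p) + 9 * l) * (12 * (ℓ * (p ^ 2 / E ^ 2)) + 9 * l) * (p ^ 2 * l ^ 4) =
        48 * ((ℓ * (q ^ 5 * l ^ 5) / E) ^ 2 / l ^ 6) + 108 * ((ℓ * (p ^ 3 * l ^ 5)) * (p / E ^ 2))
        + 36 * (ℓ * (p ^ 3 * l ^ 5)) + 81 * (p ^ 2 * l ^ 6) := by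
      rw [← hq]
      field_simp
      ring
    have h3 : (ℓ * (q ^ 5 * l ^ 5) / E) ^ 2 / l ^ 6 ≤ 1 / 100 := by
      have h4 : ℓ * (q ^ 5 * l ^ 5) / E ≤ 1 := by
        rw [div_le_one hE0]; exact hℓ2
      have h5 : (ℓ * (q ^ 5 * l ^ 5) / E) ^ 2 ≤ 1 := pow_le_one₀ (by positivity) h4
      rw [div_le_div_iff₀ (by positivity) (by norm_num)]
      linarith
    have h6 : (ℓ * (p ^ 3 * l ^ 5)) * (p / E ^ 2) ≤ 1 / 100 := by
      have h7 : p / E ^ 2 ≤ 1 / 100 := by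
        rw [div_le_iff₀ (by positivity)]
        nlinarith
      have h8 : 0 ≤ p / E ^ 2 := by positivity
      calc (ℓ * (p ^ 3 * l ^ 5)) * (p / E ^ 2) ≤ 1 * (p / E ^ 2) := by gcongr
        _ ≤ 1 / 100 := by linarith
    have h9 : Δ * κ * (p ^ 2 * l ^ 4) ≤
        (4 * (ℓ * p) + 9 * l) * (12 * (ℓ * (p ^ 2 / E ^ 2)) + 9 * l) * (p ^ 2 * l ^ 4) := by
      gcongr
    linarith
  have t1 : Δ * κ / Q ^ 2 ≤ 1 / 4 := by
    calc Δ * κ / Q ^ 2 = Δ * κ * (1 / Q ^ 2) := by ring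
      _ ≤ Δ * κ * (16 * (p ^ 2 * l ^ 2)) := by gcongr
      _ = 16 * (Δ * κ * (p ^ 2 * l ^ 4)) / l ^ 2 := by field_simp
      _ ≤ 16 * 40 / l ^ 2 := by gcongr
      _ ≤ 1 / 4 := by
          rw [div_le_div_iff₀ (by positivity) (by norm_num)]
          linarith
  -- second term
  have hΔ' : Δ * (p ^ 2 * l ^ 5) ≤ 5 := by
    have h1 : Δ * (p ^ 2 * l ^ 5) ≤ (4 * (ℓ * p) + 9 * l) * (p ^ 2 * l ^ 5) := by gcongr
    have h2 : (4 * (ℓ * p) + 9 * l) * (p ^ 2 * l ^ 5) =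
        4 * (ℓ * (p ^ 3 * l ^ 5)) + 9 * (p ^ 2 * l ^ 6) := by ring
    linarith
  have hκ₂' : κ₂ * (p * l ^ 5) ≤ 5 := by
    have h1 : κ₂ * (p * l ^ 5) ≤ (4 * (ℓ * p ^ 2) + 9 * l) * (p * l ^ 5) := by gcongr
    have h2 : (4 * (ℓ * p ^ 2) + 9 * l) * (p * l ^ 5) =
        4 * (ℓ * (p ^ 3 * l ^ 5)) + 9 * (p * l ^ 6) := by ring
    linarith
  have hκ₃' : κ₃ ≤ 10 * l := by
    have h1 : ℓ * p ^ 3 ≤ 1 := by
      have : ℓ * p ^ 3 ≤ ℓ * (p ^ 3 * l ^ 5) := by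
        have h2 : p ^ 3 * 1 ≤ p ^ 3 * l ^ 5 := by
          have : (1:ℝ) ≤ l ^ 5 := by linarith
          gcongr
        rw [mul_one] at h2
        gcongr
      linarith
    linarith
  have t2 : Δ * κ₂ * κ₃ / Q ^ 3 ≤ 1 / 4 := by
    calc Δ * κ₂ * κ₃ / Q ^ 3 = Δ * κ₂ * κ₃ * (1 / Q ^ 3) := by ring
      _ ≤ Δ * κ₂ * (10 * l) * (64 * (p ^ 3 * l ^ 3)) := by gcongr
      _ = 640 * ((Δ * (p ^ 2 * l ^ 5)) * (κ₂ * (p * l ^ 5))) / l ^ 6 := by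
          field_simp
          ring
      _ ≤ 640 * (5 * 5) / l ^ 6 := by gcongr
      _ ≤ 1 / 4 := by
          rw [div_le_div_iff₀ (by positivity) (by norm_num)]
          linarith
  linarith

/-- Upper bound for Q2 in finite form. -/
theorem upper_q2_finite {V : Type*} [Fintype V] [DecidableEq V] [Nonempty V]
    {n l p q X E ℓ : ℝ} {k₁ : ℕ} (hnV : n = Fintype.card V) (hp0 : 0 < p) (hq0 : 0 < q)
    (hq : q ^ 2 = p) (hl : 100 ≤ l) (hln : l = Real.log n) (hX : X = n * p ^ 3)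
    (hX1 : 1 / 100 ≤ X)
    (hE : E = Real.exp (X / 2)) (hℓn : ℓ ≤ n) (hℓ3 : 2 * l ≤ ℓ)
    (hℓ1 : ℓ * (p ^ 3 * l ^ 5) ≤ 1) (hℓ2 : ℓ * (q ^ 5 * l ^ 5) ≤ E)
    (hk1 : 4 * (n * Real.exp (-(p * k₁))) ≤ ℓ) (hk2 : 200 * (k₁ * p ^ 3) ≤ 1)
    (hk3 : (k₁ : ℝ) ≤ n)
    (c1 : 100 * (p * l ^ 6) ≤ 1) (c2 : 9 * (n * p ^ 4 * l) ≤ 1) (c3 : 4 * l ≤ n * p ^ 2) :
    pr p (fun ω : Sym2 V → Bool =>
      ¬ ((cliqueChromaticNumber (gr ω) : ℕ) : ℝ) ≤ 2 * k₁ + 1 / p) ≤ 7 / n := by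
  have hn0 : 0 < n := by rw [hnV]; exact_mod_cast Fintype.card_pos
  have hl0 : 0 < l := by linarith
  have hX0 : 0 < X := by linarith
  have hE1 : 1 ≤ E := by rw [hE]; apply Real.one_le_exp; positivity
  have hE0 : 0 < E := by linarith
  have hpow : Real.exp l = n := by rw [hln, Real.exp_log hn0]
  have hn1 : 1 ≤ n := by rw [← hpow]; apply Real.one_le_exp; positivity
  have hℓ0 : 0 ≤ ℓ := by linarith
  have hl6 : (100:ℝ) ^ 5 * l ≤ l ^ 6 := by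
    have : (100:ℝ) ^ 5 ≤ l ^ 5 := pow_le_pow_left₀ (by norm_num) hl 5
    have e1 : l ^ 6 = l ^ 5 * l := by ring
    rw [e1]
    gcongr
  have hpl : p * l * 100 ≤ 1 / 100 := by
    have h1 : p * ((100:ℝ) ^ 5 * l) ≤ p * l ^ 6 := by gcongr
    have h2 : p * l * 100 ≤ 1 / 100 * (100 * (p * ((100:ℝ) ^ 5 * l))) := by
      have : 0 ≤ p * l := by positivity
      linarith
    linarith
  have hp1 : p ≤ 1 / 1000000 := by
    have : p * 100 ≤ p * l := by gcongr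
    linarith
  have h0 : 0 ≤ p := hp0.le
  have h1 : p ≤ 1 := by linarith
  -- the set W
  obtain ⟨W, -, hW⟩ := Finset.exists_subset_card_eq (s := (univ : Finset V)) (n := k₁) (by
    rw [Finset.card_univ]
    have : (k₁ : ℝ) ≤ (Fintype.card V : ℝ) := by rw [← hnV]; exact hk3
    exact_mod_cast this)
  -- parameters
  set μ : ℝ := n * p ^ 2 - 1 / p with hμ
  set θ : ℝ := 1 / (2 * X) with hθ
  have hθ0 : 0 ≤ θ := by rw [hθ]; positivity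
  have hpμ : Real.exp (-(p * μ)) = Real.exp 1 / E ^ 2 := by
    have e1 : -(p * μ) = 1 + -X := by
      rw [hμ, hX]
      field_simp
      ring
    have e2 : E ^ 2 = Real.exp X := by
      rw [hE, ← Real.exp_nat_mul]
      congr 1
      push_cast
      ring
    rw [e1, e2, Real.exp_add, Real.exp_neg]
    field_simp
  have he1 : Real.exp 1 ≤ 3 := by have := Real.exp_one_lt_d9; linarith
  set Δ : ℕ := ⌈4 * (ℓ * p) + 8 * l⌉₊ with hΔ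
  set κ₂ : ℕ := ⌈4 * (ℓ * p ^ 2) + 8 * l⌉₊ with hκ₂
  set κ₃ : ℕ := ⌈4 * (ℓ * p ^ 3) + 8 * l⌉₊ with hκ₃
  set κ : ℕ := ⌈12 * (ℓ * (p ^ 2 / E ^ 2)) + 8 * l⌉₊ with hκ
  have hΔ1 : 4 * (ℓ * p) + 8 * l ≤ Δ := Nat.le_ceil _
  have hκ₂1 : 4 * (ℓ * p ^ 2) + 8 * l ≤ κ₂ := Nat.le_ceil _
  have hκ₃1 : 4 * (ℓ * p ^ 3) + 8 * l ≤ κ₃ := Nat.le_ceil _
  have hκ1 : 12 * (ℓ * (p ^ 2 / E ^ 2)) + 8 * l ≤ κ := Nat.le_ceil _
  have hΔ2 : (Δ : ℝ) < 4 * (ℓ * p) + 8 * l + 1 := Nat.ceil_lt_add_one (by positivity)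
  have hκ₂2 : (κ₂ : ℝ) < 4 * (ℓ * p ^ 2) + 8 * l + 1 := Nat.ceil_lt_add_one (by positivity)
  have hκ₃2 : (κ₃ : ℝ) < 4 * (ℓ * p ^ 3) + 8 * l + 1 := Nat.ceil_lt_add_one (by positivity)
  have hκ2 : (κ : ℝ) < 12 * (ℓ * (p ^ 2 / E ^ 2)) + 8 * l + 1 :=
    Nat.ceil_lt_add_one (by positivity)
  set Q : ℕ := ⌈1 / (4 * p * l)⌉₊ with hQ
  have hQ1 : 1 / (4 * p * l) ≤ Q := Nat.le_ceil _
  have hQ2 : (Q : ℝ) < 1 / (4 * p * l) + 1 := Nat.ceil_lt_add_one (by positivity)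
  have hQ0 : 0 < Q := by
    have : (0:ℝ) < Q := lt_of_lt_of_le (by positivity) hQ1
    exact_mod_cast this
  set m : ℕ := ⌈2 * l⌉₊ + 1 with hm
  have hm1 : 2 * l ≤ (⌈2 * l⌉₊ : ℕ) := Nat.le_ceil _
  have hm2 : ((⌈2 * l⌉₊ : ℕ) : ℝ) < 2 * l + 1 := Nat.ceil_lt_add_one (by positivity)
  have hm3 : ℓ < 2 ^ m := by
    have e1 : Real.exp (1 / 2) ≤ 2 := by
      have e2 : Real.exp (1 / 2) ^ 2 ≤ 2 ^ 2 := by
        rw [← Real.exp_nat_mul]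
        have : ((2:ℕ) : ℝ) * (1 / 2) = 1 := by norm_num
        rw [this]
        linarith
      exact le_of_sq_le_sq e2 (by norm_num)
    have e3 : n ≤ 2 ^ (⌈2 * l⌉₊) := by
      calc n = Real.exp l := hpow.symm
        _ ≤ Real.exp ((⌈2 * l⌉₊ : ℕ) * (1 / 2)) := by
            apply Real.exp_le_exp.2
            linarith
        _ = (Real.exp (1 / 2)) ^ (⌈2 * l⌉₊) := by rw [Real.exp_nat_mul]
        _ ≤ 2 ^ (⌈2 * l⌉₊) := pow_le_pow_left₀ (Real.exp_pos _).le e1 _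
    rw [hm, pow_succ]
    linarith
  have hup := upper_finite_nice (V := V) h0 h1 (Q := Q) (m := m) (Δ := Δ) (κ₂ := κ₂) (κ₃ := κ₃)
    (κ := κ) (ℓ := ℓ) (μ := μ) (θ := θ) hQ0 W hθ0 (by
      rw [hW, ← hnV]
      refine le_trans ?_ hk1
      have := one_sub_pow_le_exp (p := p) h1 h0 (k := k₁) (μ := (k₁ : ℝ)) le_rfl
      gcongr) hm3 (by linarith) (by linarith) (by linarith) (by
      rw [hpμ]
      refine le_trans ?_ hκ1
      have e1 : 4 * (ℓ * (p ^ 2 * (Real.exp 1 / E ^ 2))) =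
          4 * Real.exp 1 * (ℓ * (p ^ 2 / E ^ 2)) := by ring
      rw [e1]
      have e2 : 0 ≤ ℓ * (p ^ 2 / E ^ 2) := by positivity
      have e3 : 4 * Real.exp 1 * (ℓ * (p ^ 2 / E ^ 2)) ≤ 4 * 3 * (ℓ * (p ^ 2 / E ^ 2)) := by
        gcongr
      linarith) (by
      exact numeric_nice hp0 hq0 hq hl hE1 hℓ0 hℓ1 hℓ2 c1 (by positivity) (by positivity)
        (by positivity) (by linarith) (by linarith) (by linarith) (by linarith) hQ1)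
  rw [← hnV, hW] at hup
  have hnpow : ∀ m : ℕ, n ^ m = Real.exp (m * l) := by
    intro m
    rw [Real.exp_nat_mul, hpow]
  have hninv : 1 / n = Real.exp (-l) := by rw [Real.exp_neg, hpow, one_div]
  -- colours
  have hcol : ((2 * k₁ + (m + 1) * Q : ℕ) : ℝ) ≤ 2 * k₁ + 1 / p := by
    push_cast
    have e1 : ((m:ℝ) + 1) * Q ≤ 1 / p := by
      have e2 : (m:ℝ) + 1 ≤ 2 * l + 3 := by
        rw [hm]; push_cast; linarith
      calc ((m:ℝ) + 1) * Q ≤ (2 * l + 3) * (1 / (4 * p * l) + 1) := by gcongr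
        _ = 1 / p * (1 / 2 + 3 / (4 * l) + 2 * (p * l) + 3 * p) := by field_simp; ring
        _ ≤ 1 / p * 1 := by
            have e3 : 3 / (4 * l) ≤ 1 / 100 := by
              rw [div_le_div_iff₀ (by positivity) (by norm_num)]
              linarith
            have e4 : 1 / 2 + 3 / (4 * l) + 2 * (p * l) + 3 * p ≤ 1 := by linarith
            gcongr
        _ = 1 / p := by ring
    linarith
  refine (pr_mono h0 h1 fun ω hω => ?_).trans (hup.trans ?_)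
  · intro hle
    apply hω
    refine le_trans ?_ hcol
    exact_mod_cast hle
  -- the seven terms
  have t1 : n ^ 2 * Real.exp (-((n - 2) * p ^ 2)) ≤ 1 / n := by
    rw [hnpow, ← Real.exp_add, hninv]
    apply Real.exp_le_exp.2
    push_cast
    have : p ^ 2 ≤ 1 := pow_le_one₀ h0 h1
    linarith
  have t2 : Real.exp (-(ℓ / 2)) ≤ 1 / n := by
    rw [hninv]
    apply Real.exp_le_exp.2
    linarith
  have t3 : n * Real.exp (-((Δ:ℝ) / 2)) ≤ 1 / n := by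
    have e1 : n = Real.exp ((1:ℕ) * l) := by
      rw [← hnpow, pow_one]
    nth_rewrite 1 [e1]
    rw [← Real.exp_add, hninv]
    apply Real.exp_le_exp.2
    push_cast
    have e2 : 0 ≤ ℓ * p := by positivity
    linarith
  have t4 : n ^ 2 * Real.exp (-((κ₂:ℝ) / 2)) ≤ 1 / n := by
    rw [hnpow, ← Real.exp_add, hninv]
    apply Real.exp_le_exp.2
    push_cast
    have e2 : 0 ≤ ℓ * p ^ 2 := by positivity
    linarith
  have t5 : n ^ 3 * Real.exp (-((κ₃:ℝ) / 2)) ≤ 1 / n := by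
    rw [hnpow, ← Real.exp_add, hninv]
    apply Real.exp_le_exp.2
    push_cast
    have e2 : 0 ≤ ℓ * p ^ 3 := by positivity
    linarith
  have t6 : n ^ 2 * Real.exp (-((κ:ℝ) / 2)) ≤ 1 / n := by
    rw [hnpow, ← Real.exp_add, hninv]
    apply Real.exp_le_exp.2
    push_cast
    have e2 : 0 ≤ ℓ * (p ^ 2 / E ^ 2) := by positivity
    linarith
  have t7 : n ^ 2 * Real.exp (θ * μ - (n - k₁ - ℓ) * p ^ 2 * (1 - Real.exp (-θ))) ≤ 1 / n := by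
    rw [hnpow, ← Real.exp_add, hninv]
    apply Real.exp_le_exp.2
    push_cast
    have hℓp : ℓ * p ^ 3 ≤ 1 / 200 := by
      have e1 : ℓ * p ^ 3 * 200 ≤ ℓ * (p ^ 3 * l ^ 5) := by
        have e2 : (200:ℝ) ≤ l ^ 5 := by
          have : (100:ℝ) ^ 5 ≤ l ^ 5 := pow_le_pow_left₀ (by norm_num) hl 5
          linarith
        have e3 : ℓ * (p ^ 3 * l ^ 5) = ℓ * p ^ 3 * l ^ 5 := by ring
        rw [e3]
        gcongr
      linarith
    set N' : ℝ := (n - k₁ - ℓ) * p ^ 2 with hN'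
    have hN'p : N' * p = X - k₁ * p ^ 3 - ℓ * p ^ 3 := by rw [hN', hX]; ring
    have hN'0 : 0 ≤ N' := by
      by_contra hneg
      have : N' * p < 0 := mul_neg_of_neg_of_pos (not_le.1 hneg) hp0
      linarith
    have hN'1 : N' ≤ n * p ^ 2 := by
      rw [hN']
      have : n - k₁ - ℓ ≤ n := by
        have : (0:ℝ) ≤ k₁ := by positivity
        linarith
      gcongr
    have hexp : θ - θ ^ 2 / 2 ≤ 1 - Real.exp (-θ) := by
      have e1 : Real.exp (-θ) = (Real.exp θ)⁻¹ := Real.exp_neg _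
      have e2 : 1 + θ + θ ^ 2 / 2 ≤ Real.exp θ := Real.quadratic_le_exp_of_nonneg hθ0
      have e3 : (Real.exp θ)⁻¹ ≤ (1 + θ + θ ^ 2 / 2)⁻¹ := inv_anti₀ (by positivity) e2
      have e4 : (1 + θ + θ ^ 2 / 2)⁻¹ ≤ 1 - θ + θ ^ 2 / 2 := by
        rw [inv_le_iff_one_le_mul₀ (by positivity)]
        nlinarith [sq_nonneg θ, sq_nonneg (θ ^ 2)]
      linarith
    have e5 : N' * (θ - θ ^ 2 / 2) ≤ N' * (1 - Real.exp (-θ)) := by gcongr
    -- μ - N' ≤ -0.99/p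
    have e6 : (μ - N') * p ≤ -(99 / 100) := by
      have : μ * p = X - 1 := by rw [hμ, hX]; field_simp
      have : (μ - N') * p = μ * p - N' * p := by ring
      linarith
    have e7 : μ - N' ≤ -(99 / 100) / p := by
      rw [le_div_iff₀ hp0]
      exact e6
    have e8 : θ * (μ - N') ≤ θ * (-(99 / 100) / p) := by gcongr
    have e9 : N' * (θ ^ 2 / 2) ≤ n * p ^ 2 * (θ ^ 2 / 2) := by gcongr
    have e10 : θ * (-(99 / 100) / p) + n * p ^ 2 * (θ ^ 2 / 2) = -(37 / 100) / (n * p ^ 4) := by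
      rw [hθ, hX]
      field_simp
      ring
    have e11 : 3 * l ≤ 37 / 100 / (n * p ^ 4) := by
      rw [le_div_iff₀ (by positivity)]
      linarith
    have e12 : -(37 / 100) / (n * p ^ 4) = -(37 / 100 / (n * p ^ 4)) := by ring
    linarith
  have h7 : (7:ℝ) / n = 1 / n + 1 / n + (1 / n + 1 / n + 1 / n + 1 / n + 1 / n) := by ring
  rw [h7]
  exact add_le_add (add_le_add t1 t2) (add_le_add (add_le_add (add_le_add (add_le_add t3 t4) t5)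
    t6) t7)

end Pool.Agent.Helper96
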