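import Pool.Agent.Helper96.LowerQ2
import Pool.Agent.Helper96.LowerQ2b
import Pool.Agent.Helper96.UpperQ2

/-!
Q2: putting the bounds together.
-/

open Finset

set_option linter.unusedSectionVars false

namespace Pool.Agent.Helper96

theorem log_le_div {l : ℝ} (hl : 30000 ≤ l) : Real.log l ≤ l / 72 := by
  have hl0 : 0 < l := by linarith
  have hs0 : 0 < Real.sqrt l := Real.sqrt_pos.2 hl0
  have hs : Real.sqrt l ^ 2 = l := Real.sq_sqrt hl0.le
  have h1 : Real.log l = 2 * Real.log (Real.sqrt l) := by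
    nth_rewrite 1 [← hs]
    rw [Real.log_pow]
    norm_num
  have h2 : Real.log (Real.sqrt l) ≤ Real.sqrt l - 1 := Real.log_le_sub_one_of_pos hs0
  have h3 : 144 ≤ Real.sqrt l := by
    rw [Real.le_sqrt' (by norm_num)]
    linarith
  nlinarith

theorem log_l_le {l x : ℝ} (hl : 30000 ≤ l) (hx0 : 0 < x) (hX : l / 4 ≤ x ^ 3) :
    Real.log l ≤ 5 * Real.log (2 + x) := by
  have hl0 : 0 < l := by linarith
  have h1 : Real.log x ≤ Real.log (2 + x) := Real.log_le_log hx0 (by linarith)
  have h2 : Real.log (l / 4) ≤ 3 * Real.log x := by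
    have h3 : Real.log (l / 4) ≤ Real.log (x ^ 3) := Real.log_le_log (by positivity) hX
    rw [Real.log_pow] at h3
    exact_mod_cast h3
  rw [Real.log_div hl0.ne' (by norm_num)] at h2
  have h4 : Real.log 4 = 2 * Real.log 2 := by
    have : (4:ℝ) = 2 ^ 2 := by norm_num
    rw [this, Real.log_pow]; norm_num
  have h5 : 5 * Real.log 2 ≤ Real.log l := by
    have h6 : Real.log ((2:ℝ) ^ 5) ≤ Real.log l := Real.log_le_log (by norm_num) (by linarith)
    rw [Real.log_pow] at h6
    exact_mod_cast h6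
  linarith

/-- The lower bound of Q2, in finite form. -/
theorem lower_q2 {V : Type*} [Fintype V] [DecidableEq V] [Nonempty V]
    {n l w p x M : ℝ} {k : ℕ} (hnV : n = Fintype.card V) (hp0 : 0 < p) (hl : 30000 ≤ l)
    (hln : l = Real.log n) (hw : w = Real.exp (l / 6)) (hwl : 3 * l ^ 2 ≤ w)
    (hx : x = w ^ 2 * p) (hx3 : 1 / 3 ≤ x)
    (c1 : 1000000 * (n * p ^ 4 * l ^ 4) ≤ 1) (c2 : 1000000 * (p * l ^ 8) ≤ 1)
    (hM : M = max (1 / 6 * l - 1 / 2 * (n * p ^ 3)) (Real.log (2 + x)))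
    (hk : (k : ℝ) ≤ 1 / 750 * (1 / p * M)) :
    pr p (fun ω : Sym2 V → Bool => ∃ c : V → Fin k, IsCliqueColouring (gr ω) c) ≤ 5 / n := by
  have hn0 : 0 < n := by rw [hnV]; exact_mod_cast Fintype.card_pos
  have hl0 : 0 < l := by linarith
  have hx0 : 0 < x := by linarith
  have hw0 : 0 < w := by rw [hw]; exact Real.exp_pos _
  have hpow : Real.exp l = n := by rw [hln, Real.exp_log hn0]
  have hw6 : w ^ 6 = n := by
    rw [hw, ← Real.exp_nat_mul, ← hpow]
    congr 1; push_cast; ring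
  have hX : x ^ 3 = n * p ^ 3 := by rw [hx, ← hw6]; ring
  have hX0 : 0 < n * p ^ 3 := by positivity
  have hl8 : (30000:ℝ) ^ 7 * l ≤ l ^ 8 := by
    have : (30000:ℝ) ^ 7 ≤ l ^ 7 := pow_le_pow_left₀ (by norm_num) hl 7
    have e1 : l ^ 8 = l ^ 7 * l := by ring
    rw [e1]; gcongr
  have hpl : 416 * (l * p) ≤ 1 := by
    have h1 : p * ((30000:ℝ) ^ 7 * l) ≤ p * l ^ 8 := by gcongr
    have h2 : 0 ≤ p * l := by positivity
    linarith
  have hnp2 : n * p ^ 2 = (w * x) ^ 2 := by rw [hx, ← hw6]; ring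
  have hwx : l ^ 2 ≤ w * x := by
    have : l ^ 2 * 3 * (1 / 3) ≤ w * x := by
      have h1 : l ^ 2 * 3 ≤ w := by linarith
      gcongr
    linarith
  have hll : l ≤ l ^ 2 := by nlinarith
  have hnp : 30000 * l ≤ n * p ^ 2 := by
    rw [hnp2]
    have h1 : l ≤ w * x := hll.trans hwx
    have h2 : l * l ≤ (w * x) * (w * x) := mul_le_mul h1 h1 hl0.le (by positivity)
    have h3 : 30000 * l ≤ l * l := by gcongr
    have h4 : (w * x) ^ 2 = (w * x) * (w * x) := by ring
    rw [h4]
    linarith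
  by_cases hA : 3 * Real.log l ≤ 1 / 6 * l - 1 / 2 * (n * p ^ 3)
  · -- Case I
    set A : ℝ := l / 6 - n * p ^ 3 / 2 with hAdef
    have hA' : 3 * Real.log l ≤ A := by rw [hAdef]; linarith
    have hlogl0 : 0 ≤ Real.log l := Real.log_nonneg (by linarith)
    have hA0 : 0 ≤ A := by linarith
    have hX3 : x ^ 3 ≤ l / 3 := by rw [hX]; linarith
    have hxl : x ≤ l / 2 := by
      by_contra hcon
      have h1 : l / 2 < x := not_le.1 hcon
      have h2 : (l / 2) ^ 3 < x ^ 3 := pow_lt_pow_left₀ h1 (by positivity) (by norm_num)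
      have h3 : l / 3 ≤ (l / 2) ^ 3 := by
        have : (l / 2) ^ 3 = l * l ^ 2 / 8 := by ring
        rw [this]
        nlinarith
      linarith
    have hMA : M = A := by
      have h1 : Real.log (2 + x) ≤ A := by
        have h2 : Real.log (2 + x) ≤ Real.log l := Real.log_le_log (by linarith) (by linarith)
        linarith
      rw [hM, max_eq_left]
      · rw [hAdef]; ring
      · have : 1 / 6 * l - 1 / 2 * (n * p ^ 3) = A := by rw [hAdef]; ring
        rw [this]; exact h1
    set q : ℝ := Real.sqrt p with hq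
    have hq0 : 0 < q := Real.sqrt_pos.2 hp0
    have hq2 : q ^ 2 = p := Real.sq_sqrt hp0.le
    set y : ℝ := w * q with hy
    have hy0 : 0 < y := by positivity
    have hy2 : y ^ 2 = x := by rw [hy, hx, mul_pow, hq2]
    have hX' : n * p ^ 3 = y ^ 6 := by
      rw [← hX, ← hy2]; ring
    set E : ℝ := Real.exp (n * q ^ 6 / 2) with hE
    have hnq6 : n * q ^ 6 = n * p ^ 3 := by rw [← hq2]; ring
    have hexpA : Real.exp (-A) = E / w := by
      rw [hE, hw, ← Real.exp_sub, hnq6]
      congr 1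
      rw [hAdef]; ring
    have hAl : l ^ 3 ≤ Real.exp A := by
      have h1 : l ^ 3 = Real.exp (3 * Real.log l) := by
        have h2 : Real.exp (Real.log l) = l := Real.exp_log hl0
        nth_rewrite 1 [← h2]
        rw [← Real.exp_nat_mul]
        norm_num
      rw [h1]
      exact Real.exp_le_exp.2 hA'
    have hE0 : 0 < E := Real.exp_pos _
    have hEq : E * q * l ^ 3 ≤ y := by
      have h1 : E = w * Real.exp (-A) := by rw [hexpA]; field_simp
      have h2 : Real.exp (-A) * l ^ 3 ≤ 1 := by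
        rw [Real.exp_neg, inv_mul_le_iff₀ (Real.exp_pos _)]
        linarith
      calc E * q * l ^ 3 = y * (Real.exp (-A) * l ^ 3) := by rw [h1, hy]; ring
        _ ≤ y * 1 := by gcongr
        _ = y := mul_one y
    have hyl : y ≤ l := by
      have h1 : y ^ 2 ≤ l ^ 2 := by
        rw [hy2]; nlinarith
      exact le_of_sq_le_sq h1 hl0.le
    have hEq2 : E * q * l ^ 2 ≤ 1 := by
      have h1 : E * q * l ^ 2 * l ≤ 1 * l := by
        have : E * q * l ^ 2 * l = E * q * l ^ 3 := by ring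
        rw [this]; linarith
      exact le_of_mul_le_mul_right h1 hl0
    have hql4 : 1000 * (q * l ^ 4) ≤ 1 := by
      have h1 : (1000 * (q * l ^ 4)) ^ 2 ≤ 1 ^ 2 := by
        have : (1000 * (q * l ^ 4)) ^ 2 = 1000000 * (p * l ^ 8) := by rw [← hq2]; ring
        rw [this]; linarith
      exact le_of_sq_le_sq h1 (by norm_num)
    have h := lower_q2b_finite (V := V) (n := n) (l := l) (q := q) (X := n * q ^ 6) (E := E)
      (A := A) (k := k) hnV hq0 (by linarith) hln rfl rfl (by rw [hnq6]) hA0 hAl ?_ ?_ ?_ ?_ ?_ ?_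
      ?_
    · rwa [hq2] at h
    · -- 1000 n q^7 l^3 ≤ 1
      have h1 : 1000 * (n * q ^ 7 * l ^ 3) = 1000 * (n * q ^ 6) * (q * l ^ 3) := by ring
      rw [h1, hnq6, ← hX]
      calc 1000 * x ^ 3 * (q * l ^ 3) ≤ 1000 * (l / 3) * (q * l ^ 3) := by gcongr
        _ = 1000 * (q * l ^ 4) / 3 := by ring
        _ ≤ 1 := by
          have : 0 ≤ q * l ^ 4 := by positivity
          linarith
    · -- 12 l E q ≤ 1
      have h1 : 12 * (l * E * q) * l ≤ 12 * 1 := by
        have : 12 * (l * E * q) * l = 12 * (E * q * l ^ 2) := by ring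
        rw [this]; linarith
      have h2 : 12 * (l * E * q) * 12 ≤ 12 * (l * E * q) * l := by
        have : (12:ℝ) ≤ l := by linarith
        gcongr
      linarith
    · -- 217600 q^3 E^3 l^3 ≤ 1
      have h1 : q ^ 3 * E ^ 3 * l ^ 3 * l ^ 3 = (E * q * l ^ 2) ^ 3 := by ring
      have h2 : (E * q * l ^ 2) ^ 3 ≤ 1 := pow_le_one₀ (by positivity) hEq2
      have h3 : (217600:ℝ) ≤ l ^ 3 := by
        have : (30000:ℝ) ^ 3 ≤ l ^ 3 := pow_le_pow_left₀ (by norm_num) hl 3
        linarith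
      calc 217600 * (q ^ 3 * E ^ 3 * l ^ 3) ≤ l ^ 3 * (q ^ 3 * E ^ 3 * l ^ 3) := by gcongr
        _ = q ^ 3 * E ^ 3 * l ^ 3 * l ^ 3 := by ring
        _ ≤ 1 := by rw [h1]; exact h2
    · -- E ≤ 16 n q^5 e^{-A}
      rw [hexpA]
      have h1 : 16 * (n * q ^ 5 * (E / w)) = E * (16 * y ^ 5) := by
        rw [hy, ← hw6]; field_simp
      rw [h1]
      have h2 : 1 ≤ 16 * y ^ 5 := by
        have h3 : (1:ℝ) ^ 2 ≤ (16 * y ^ 5) ^ 2 := by
          have h4 : (16 * y ^ 5) ^ 2 = 256 * (y ^ 2) ^ 5 := by ring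
          rw [h4, hy2]
          have h5 : (1/3:ℝ) ^ 5 ≤ x ^ 5 := pow_le_pow_left₀ (by norm_num) hx3 5
          norm_num at h5 ⊢
          linarith
        exact le_of_sq_le_sq h3 (by positivity)
      nlinarith
    · -- l^2 ≤ q^2 √n
      have h1 : Real.sqrt n = w ^ 3 := by
        rw [← hw6, Real.sqrt_eq_iff_mul_self_eq (by positivity) (by positivity)]
        ring
      rw [h1, hq2]
      have h2 : p * w ^ 3 = w * x := by rw [hx]; ring
      rw [h2]
      exact hwx
    · have : n * q ^ 4 = n * p ^ 2 := by rw [← hq2]; ring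
      rw [this]
      linarith
    · rw [hq2]
      refine hk.trans ?_
      rw [hMA]
      have h1 : 0 ≤ 1 / p * A := by positivity
      linarith
  · -- Case II
    push Not at hA
    have hlog := log_le_div hl
    have hX4 : l / 4 ≤ x ^ 3 := by rw [hX]; linarith
    have hB := log_l_le hl hx0 hX4
    have hB0 : 0 ≤ Real.log (2 + x) := Real.log_nonneg (by linarith)
    have hMB : M ≤ 15 * Real.log (2 + x) := by
      rw [hM]
      apply max_le <;> linarith
    set lr : ℝ := l ^ (1 / 3 : ℝ) with hlr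
    have hlr3 : lr ^ 3 = l := by
      rw [hlr, ← Real.rpow_natCast, ← Real.rpow_mul hl0.le]
      norm_num
    have hlr0 : 0 < lr := by rw [hlr]; positivity
    have hlr1 : 1 ≤ lr := by
      rw [hlr]
      apply Real.one_le_rpow (by linarith) (by norm_num)
    have hx6 : 6 ≤ x := by
      by_contra hcon
      have h1 : x < 6 := not_le.1 hcon
      have h2 : x ^ 3 < 6 ^ 3 := pow_lt_pow_left₀ h1 hx0.le (by norm_num)
      linarith
    have h := lower_q2a_finite (V := V) (n := n) (l := l) (p := p) (x := x) (lr := lr) (k := k)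
      hnV hp0 (by linarith) hln hlr3 hlr1 hX hx6 ?_ c1 ?_ ?_ ?_ ?_ ?_
    · refine h.trans ?_
      gcongr
      norm_num
    · by_contra hcon
      have h1 : 1.6 * x < lr := not_le.1 hcon
      have h2 : (1.6 * x) ^ 3 < lr ^ 3 := pow_lt_pow_left₀ h1 (by positivity) (by norm_num)
      rw [hlr3, mul_pow] at h2
      norm_num at h2
      linarith
    · have h1 : lr ^ 2 ≤ l := by
        have e1 : l = lr ^ 2 * lr := by rw [← hlr3]; ring
        rw [e1]
        nlinarith
      have h2 : lr ^ 2 * p ≤ l * p := by gcongr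
      linarith
    · have : 0 ≤ l * p := by positivity
      linarith
    · linarith
    · have e1 : 100 * (x / p * l * x) = 100 * (l * p) * w ^ 4 := by
        rw [hx]; field_simp
      rw [e1]
      have h1 : 100 * (l * p) ≤ 1 := by
        have : 0 ≤ l * p := by positivity
        linarith
      have h2 : w ^ 4 ≤ n := by
        rw [← hw6]
        have h3 : 1 ≤ w := by
          rw [hw]; apply Real.one_le_exp; positivity
        exact pow_le_pow_right₀ h3 (by norm_num)
      calc 100 * (l * p) * w ^ 4 ≤ 1 * w ^ 4 := by gcongr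
        _ ≤ n := by linarith
    · refine hk.trans ?_
      calc 1 / 750 * (1 / p * M) ≤ 1 / 750 * (1 / p * (15 * Real.log (2 + x))) := by gcongr
        _ = 1 / 50 * (1 / p) * Real.log (2 + x) := by ring

/-- The upper bound of Q2, in finite form. -/
theorem upper_q2 {V : Type*} [Fintype V] [DecidableEq V] [Nonempty V]
    {n l w p x M : ℝ} (hnV : n = Fintype.card V) (hp0 : 0 < p) (hl : 30000 ≤ l)
    (hln : l = Real.log n) (hw : w = Real.exp (l / 6)) (hwl : 3 * l ^ 2 ≤ w)
    (hx : x = w ^ 2 * p) (hx3 : 1 / 3 ≤ x)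
    (c1 : 1000000 * (n * p ^ 4 * l ^ 4) ≤ 1) (c2 : 1000000 * (p * l ^ 8) ≤ 1)
    (hM : M = max (1 / 6 * l - 1 / 2 * (n * p ^ 3)) (Real.log (2 + x))) :
    pr p (fun ω : Sym2 V → Bool =>
      ¬ ((cliqueChromaticNumber (gr ω) : ℕ) : ℝ) ≤ 67 * (1 / p * M)) ≤ 7 / n := by
  have hn0 : 0 < n := by rw [hnV]; exact_mod_cast Fintype.card_pos
  have hl0 : 0 < l := by linarith
  have hx0 : 0 < x := by linarith
  have hw0 : 0 < w := by rw [hw]; exact Real.exp_pos _
  have hpow : Real.exp l = n := by rw [hln, Real.exp_log hn0]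
  have hw6 : w ^ 6 = n := by
    rw [hw, ← Real.exp_nat_mul, ← hpow]
    congr 1; push_cast; ring
  have hX : x ^ 3 = n * p ^ 3 := by rw [hx, ← hw6]; ring
  have hX0 : 0 < n * p ^ 3 := by positivity
  have hX27 : 1 / 27 ≤ n * p ^ 3 := by
    rw [← hX]
    have h5 : (1/3:ℝ) ^ 3 ≤ x ^ 3 := pow_le_pow_left₀ (by norm_num) hx3 3
    norm_num at h5 ⊢
    linarith
  have hl6 : (1:ℝ) ≤ l ^ 2 := one_le_pow₀ (by linarith)
  have c2' : 1000000 * (p * l ^ 6) ≤ 1 := by
    have h1 : p * l ^ 6 * 1 ≤ p * l ^ 6 * l ^ 2 := by gcongr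
    have h2 : p * l ^ 6 * l ^ 2 = p * l ^ 8 := by ring
    rw [h2] at h1
    linarith
  have hl6' : (30000:ℝ) ^ 5 * l ≤ l ^ 6 := by
    have : (30000:ℝ) ^ 5 ≤ l ^ 5 := pow_le_pow_left₀ (by norm_num) hl 5
    have e1 : l ^ 6 = l ^ 5 * l := by ring
    rw [e1]; gcongr
  have hpl : 1000 * (p * l) ≤ 1 := by
    have h1 : p * ((30000:ℝ) ^ 5 * l) ≤ p * l ^ 6 := by gcongr
    have h2 : 0 ≤ p * l := by positivity
    linarith
  have hp1 : p ≤ 1 / 1000 := by nlinarith
  have hnp2 : n * p ^ 2 = (w * x) ^ 2 := by rw [hx, ← hw6]; ring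
  have hwx : l ^ 2 ≤ w * x := by
    have : l ^ 2 * 3 * (1 / 3) ≤ w * x := by
      have h1 : l ^ 2 * 3 ≤ w := by linarith
      gcongr
    linarith
  have hll : l ≤ l ^ 2 := by nlinarith
  have hnp : 30000 * l ≤ n * p ^ 2 := by
    rw [hnp2]
    have h1 : l ≤ w * x := hll.trans hwx
    have h2 : l * l ≤ (w * x) * (w * x) := mul_le_mul h1 h1 hl0.le (by positivity)
    have h3 : 30000 * l ≤ l * l := by gcongr
    have h4 : (w * x) ^ 2 = (w * x) * (w * x) := by ring
    rw [h4]
    linarith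
  set q : ℝ := Real.sqrt p with hq
  have hq0 : 0 < q := Real.sqrt_pos.2 hp0
  have hq2 : q ^ 2 = p := Real.sq_sqrt hp0.le
  have hq1 : q ≤ 1 := by
    rw [hq, Real.sqrt_le_one]; linarith
  set X : ℝ := n * p ^ 3 with hXdef
  set E : ℝ := Real.exp (X / 2) with hE
  have hE0 : 0 < E := Real.exp_pos _
  have hE1 : 1 ≤ E := by rw [hE]; apply Real.one_le_exp; positivity
  set A : ℝ := 1 / 6 * l - 1 / 2 * X with hA
  set B : ℝ := Real.log (2 + x) with hB
  have hB0 : Real.log 2 ≤ B := Real.log_le_log (by norm_num) (by linarith)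
  have hlog2 : 0.69 < Real.log 2 := by have := Real.log_two_gt_d9; linarith
  have hMA : A ≤ M := by rw [hM]; exact le_max_left _ _
  have hMB : B ≤ M := by rw [hM]; exact le_max_right _ _
  have hxB : Real.log x ≤ B := Real.log_le_log hx0 (by linarith)
  have hlM : Real.log l ≤ 5 * M := by
    by_cases hcase : 3 * Real.log l ≤ A
    · have hlogl0 : 0 ≤ Real.log l := Real.log_nonneg (by linarith)
      linarith
    · push Not at hcase
      have hlog := log_le_div hl
      have hX4 : l / 4 ≤ x ^ 3 := by rw [hX]; linarith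
      have := log_l_le hl hx0 hX4
      linarith
  -- choice of ℓ
  set ℓ : ℝ := min (1 / (p ^ 3 * l ^ 5)) (E / (q ^ 5 * l ^ 5)) with hℓ
  have hℓpos : 0 < ℓ := by
    rw [hℓ]
    apply lt_min <;> positivity
  have hℓ1 : ℓ * (p ^ 3 * l ^ 5) ≤ 1 := by
    have h1 : ℓ ≤ 1 / (p ^ 3 * l ^ 5) := min_le_left _ _
    rwa [le_div_iff₀ (by positivity)] at h1
  have hℓ2 : ℓ * (q ^ 5 * l ^ 5) ≤ E := by
    have h1 : ℓ ≤ E / (q ^ 5 * l ^ 5) := min_le_right _ _
    rwa [le_div_iff₀ (by positivity)] at h1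
  have hp3 : p ^ 2 * l ^ 6 * 2 ≤ 1 := by
    have h1 : p ^ 2 * l ^ 6 = p * (p * l ^ 6) := by ring
    rw [h1]
    have h2 : p * (p * l ^ 6) ≤ 1 * (p * l ^ 6) := by gcongr; linarith
    have h3 : 0 ≤ p * l ^ 6 := by positivity
    linarith
  have hℓ3 : 2 * l ≤ ℓ := by
    rw [hℓ]
    apply le_min
    · rw [le_div_iff₀ (by positivity)]
      calc 2 * l * (p ^ 3 * l ^ 5) = p * (p ^ 2 * l ^ 6 * 2) := by ring
        _ ≤ 1 * 1 := by gcongr; linarith
        _ = 1 := by norm_num
    · rw [le_div_iff₀ (by positivity)]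
      calc 2 * l * (q ^ 5 * l ^ 5) = q * (p ^ 2 * l ^ 6 * 2) := by rw [← hq2]; ring
        _ ≤ 1 * 1 := by gcongr
        _ ≤ E := by linarith
  have hℓn : ℓ ≤ n := by
    refine (min_le_left _ _).trans ?_
    rw [div_le_iff₀ (by positivity)]
    have h1 : (27:ℝ) ≤ l ^ 5 := by
      have : (30000:ℝ) ^ 5 ≤ l ^ 5 := pow_le_pow_left₀ (by norm_num) hl 5
      linarith
    calc (1:ℝ) = 1 / 27 * 27 := by norm_num
      _ ≤ n * p ^ 3 * l ^ 5 := by gcongr
      _ = n * (p ^ 3 * l ^ 5) := by ring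
  -- Λ
  set Λ : ℝ := Real.log (4 * n / ℓ) with hΛ
  have hΛ0 : 0 ≤ Λ := by
    apply Real.log_nonneg
    rw [le_div_iff₀ hℓpos]
    linarith
  have hΛl : Λ ≤ l := by
    rw [hΛ, hln]
    apply Real.log_le_log (by positivity)
    rw [div_le_iff₀ hℓpos]
    have : (4:ℝ) ≤ ℓ := by linarith
    nlinarith
  have hlogp : Real.log p = Real.log x - l / 3 := by
    have h1 : Real.log x = Real.log (w ^ 2) + Real.log p := by
      rw [hx, Real.log_mul (by positivity) hp0.ne']
    rw [Real.log_pow, hw, Real.log_exp] at h1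
    push_cast at h1
    linarith
  have hlog4 : Real.log 4 = 2 * Real.log 2 := by
    have : (4:ℝ) = 2 ^ 2 := by norm_num
    rw [this, Real.log_pow]; norm_num
  have hΛM : Λ ≤ 31 * M := by
    rcases min_choice (1 / (p ^ 3 * l ^ 5)) (E / (q ^ 5 * l ^ 5)) with h | h
    · rw [← hℓ] at h
      have h1 : Λ = Real.log 4 + l + (3 * Real.log p + 5 * Real.log l) := by
        rw [hΛ, h]
        have e1 : 4 * n / (1 / (p ^ 3 * l ^ 5)) = 4 * n * (p ^ 3 * l ^ 5) := by
          field_simp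
        rw [e1, Real.log_mul (by positivity) (by positivity),
          Real.log_mul (by norm_num) hn0.ne', Real.log_mul (by positivity) (by positivity),
          Real.log_pow, Real.log_pow, ← hln]
        push_cast
        ring
      rw [h1, hlogp, hlog4]
      linarith
    · rw [← hℓ] at h
      have hlogq : Real.log q = Real.log p / 2 := by
        have h3 : Real.log p = Real.log (q ^ 2) := by rw [hq2]
        rw [Real.log_pow] at h3
        push_cast at h3
        linarith
      have h1 : Λ = Real.log 4 + l + (5 * Real.log q + 5 * Real.log l) - X / 2 := by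
        rw [hΛ, h]
        have e1 : 4 * n / (E / (q ^ 5 * l ^ 5)) = 4 * n * (q ^ 5 * l ^ 5) / E := by
          field_simp
        rw [e1, Real.log_div (by positivity) hE0.ne', Real.log_mul (by positivity) (by positivity),
          Real.log_mul (by norm_num) hn0.ne', Real.log_mul (by positivity) (by positivity),
          Real.log_pow, Real.log_pow, ← hln, hE, Real.log_exp]
        push_cast
        ring
      rw [h1, hlogq, hlogp, hlog4]
      linarith
  -- k₁
  set k₁ : ℕ := ⌈1 / p * Λ⌉₊ with hk₁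
  have hk1 : 1 / p * Λ ≤ k₁ := Nat.le_ceil _
  have hk2 : (k₁ : ℝ) < 1 / p * Λ + 1 := Nat.ceil_lt_add_one (by positivity)
  have hk3 : (k₁ : ℝ) ≤ 2 * (l / p) := by
    have h1 : 1 / p * Λ ≤ l / p := by
      rw [one_div, inv_mul_eq_div]
      gcongr
    have h2 : 1 ≤ l / p := by
      rw [le_div_iff₀ hp0]; linarith
    linarith
  have h := upper_q2_finite (V := V) (n := n) (l := l) (p := p) (q := q) (X := X) (E := E)
    (ℓ := ℓ) (k₁ := k₁) hnV hp0 hq0 hq2 (by linarith) hln rfl (by linarith) rfl hℓn hℓ3 hℓ1 hℓ2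
    ?_ ?_ ?_ ?_ ?_ ?_
  · refine (pr_mono hp0.le (by linarith) fun ω hω => ?_).trans h
    intro hle
    apply hω
    refine hle.trans ?_
    have h1 : 2 * (k₁:ℝ) + 1 / p ≤ 1 / p * (2 * Λ + 3) := by
      have h2 : 1 ≤ 1 / p := by
        rw [le_div_iff₀ hp0]; linarith
      have h3 : 1 / p * (2 * Λ + 3) = 2 * (1 / p * Λ) + 3 * (1 / p) := by ring
      linarith
    refine h1.trans ?_
    have h4 : 67 * (1 / p * M) = 1 / p * (67 * M) := by ring
    rw [h4]
    have h5 : 2 * Λ + 3 ≤ 67 * M := by linarith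
    gcongr
  · have h1 : Λ ≤ p * k₁ := by
      rw [one_div, inv_mul_eq_div, div_le_iff₀ hp0] at hk1
      linarith
    have h2 : Real.exp (-(p * k₁)) ≤ ℓ / (4 * n) := by
      have h3 : ℓ / (4 * n) = Real.exp (-Λ) := by
        rw [hΛ, Real.exp_neg, Real.exp_log (by positivity), inv_div]
      rw [h3]
      exact Real.exp_le_exp.2 (by linarith)
    calc 4 * (n * Real.exp (-(p * k₁))) ≤ 4 * (n * (ℓ / (4 * n))) := by gcongr
      _ = ℓ := by field_simp
  · calc 200 * (k₁ * p ^ 3) ≤ 200 * (2 * (l / p) * p ^ 3) := by gcongr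
      _ = p * (400 * (p * l)) := by field_simp; norm_num
      _ ≤ 1 * 1 := by
          gcongr
          · linarith
          · linarith
      _ = 1 := by norm_num
  · refine hk3.trans ?_
    have h1 : 2 * (l / p) = 2 * l / p := by ring
    rw [h1, div_le_iff₀ hp0]
    have h2 : n * p ^ 2 ≤ n * p := by
      have : p ^ 2 ≤ p := by nlinarith
      gcongr
    linarith
  · have : 0 ≤ p * l ^ 6 := by positivity
    linarith
  · have h1 : n * p ^ 4 * l ≤ n * p ^ 4 * l ^ 4 := by
      have : l ≤ l ^ 4 := by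
        have h2 : (1:ℝ) ≤ l ^ 3 := one_le_pow₀ (by linarith)
        have h3 : l ^ 4 = l * l ^ 3 := by ring
        rw [h3]; nlinarith
      gcongr
    have h4 : 0 ≤ n * p ^ 4 * l ^ 4 := by positivity
    linarith
  · linarith

end Pool.Agent.Helper96
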