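import Pool.Agent.Helper96.LowerAsm

/-!
Concentration (lower tail) of the number of triples in a set `C` which are not covered by the
neighbourhood of a vertex with few neighbours in `C`.
-/

open Finset

set_option linter.unusedSectionVars false

namespace Pool.Agent.Helper96

variable {V : Type*} [Fintype V] [DecidableEq V]

open Classical in
/-- The sets of `H` which are not contained in the neighbourhood of a vertex `v ∈ V'` with fewer
than `D` neighbours in `C`. -/
noncomputable def survive (D : ℝ) (C : Finset V) (H : Finset (Finset V)) (V' : Finset V)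
    (ω : Sym2 V → Bool) : Finset (Finset V) :=
  H.filter (fun T => ∀ v ∈ V', ((nb ω v C).card : ℝ) < D → ¬ T ⊆ nb ω v C)

theorem mem_survive {D : ℝ} {C : Finset V} {H : Finset (Finset V)} {V' : Finset V}
    {ω : Sym2 V → Bool} {T : Finset V} : T ∈ survive D C H V' ω ↔
      T ∈ H ∧ ∀ v ∈ V', ((nb ω v C).card : ℝ) < D → ¬ T ⊆ nb ω v C := by
  classical
  unfold survive
  rw [Finset.mem_filter]

theorem survive_subset {D : ℝ} {C : Finset V} {H : Finset (Finset V)} {V' : Finset V}
    {ω : Sym2 V → Bool} : survive D C H V' ω ⊆ H := fun _ hT => (mem_survive.1 hT).1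

theorem survive_insert {D : ℝ} {C : Finset V} {H : Finset (Finset V)} {V' : Finset V} {v : V}
    {ω : Sym2 V → Bool} : survive D C H (insert v V') ω =
      survive D C (survive D C H V' ω) {v} ω := by
  ext T
  rw [mem_survive, mem_survive, mem_survive]
  constructor
  · rintro ⟨h1, h2⟩
    refine ⟨⟨h1, fun w hw => h2 w (Finset.mem_insert_of_mem hw)⟩, ?_⟩
    intro w hw
    rw [Finset.mem_singleton] at hw
    subst hw
    exact h2 w (Finset.mem_insert_self _ _)
  · rintro ⟨⟨h1, h2⟩, h3⟩
    refine ⟨h1, fun w hw => ?_⟩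
    rcases Finset.mem_insert.1 hw with rfl | hw
    · exact h3 w (Finset.mem_singleton_self _)
    · exact h2 w hw

theorem survive_congr {D : ℝ} {C : Finset V} {H : Finset (Finset V)} {V' : Finset V}
    {ω ω' : Sym2 V → Bool} (h : ∀ v ∈ V', nb ω v C = nb ω' v C) :
    survive D C H V' ω = survive D C H V' ω' := by
  ext T
  rw [mem_survive, mem_survive]
  refine and_congr_right fun _ => forall₂_congr fun v hv => ?_
  rw [h v hv]

/-- One exposure step. -/
theorem survive_step {p : ℝ} (h0 : 0 ≤ p) (h1 : p ≤ 1) {D : ℝ} (hD : 0 ≤ D) {C : Finset V}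
    {H : Finset (Finset V)} (hH : H ⊆ C.powersetCard 3) {v : V} (hv : v ∉ C)
    {u β δ : ℝ} (hu : 0 < u) (hβ : 0 ≤ β) (hδ : δ = D ^ 3 / (6 * u)) (hδ1 : δ < 1)
    (hw : β * δ / (1 - δ) ≤ 1) :
    ex p (fun η => (max ((survive D C H {v} η).card : ℝ) u) ^ (-β)) ≤
      (max (H.card : ℝ) u) ^ (-β) *
        Real.exp (β * p ^ 3 * (1 + β * δ / (1 - δ)) / (1 - δ)) := by
  classical
  set Φ : ℝ := max (H.card : ℝ) u with hΦ
  have hΦ0 : 0 < Φ := lt_of_lt_of_le hu (le_max_right _ _)
  have hδ0 : 0 ≤ δ := by rw [hδ]; positivity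
  have h1δ : 0 < 1 - δ := by linarith
  set w₀ : ℝ := β * δ / (1 - δ) with hw₀
  have hw₀0 : 0 ≤ w₀ := by positivity
  -- number of covered triples
  set X : (Sym2 V → Bool) → ℝ := fun η =>
    ∑ T ∈ H, (if ((nb η v C).card : ℝ) < D ∧ T ⊆ nb η v C then (1:ℝ) else 0) with hX
  have hX0 : ∀ η, 0 ≤ X η := fun η => Finset.sum_nonneg fun T _ => by positivity
  have hcard : ∀ η, ((survive D C H {v} η).card : ℝ) + X η = H.card := by
    intro η
    have e1 : (survive D C H {v} η) =
        H.filter (fun T => ¬ (((nb η v C).card : ℝ) < D ∧ T ⊆ nb η v C)) := by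
      ext T
      rw [mem_survive, Finset.mem_filter]
      refine and_congr_right fun _ => ?_
      simp only [Finset.mem_singleton, forall_eq, not_and]
    have e2 : X η = ((H.filter (fun T => ((nb η v C).card : ℝ) < D ∧ T ⊆ nb η v C)).card : ℝ) := by
      simp only [hX]
      rw [Finset.sum_boole]
    rw [e1, e2, add_comm]
    exact_mod_cast Finset.card_filter_add_card_filter_not (s := H)
      (fun T => ((nb η v C).card : ℝ) < D ∧ T ⊆ nb η v C)
  have hXle : ∀ η, X η ≤ δ * Φ := by
    intro η
    have e1 : X η ≤ D ^ 3 / 6 := by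
      have e2 : X η = ((H.filter (fun T => ((nb η v C).card : ℝ) < D ∧ T ⊆ nb η v C)).card : ℝ) := by
        simp only [hX]
        rw [Finset.sum_boole]
      rw [e2]
      by_cases hlt : ((nb η v C).card : ℝ) < D
      · have e3 : (H.filter (fun T => ((nb η v C).card : ℝ) < D ∧ T ⊆ nb η v C)).card ≤
            (nb η v C).card.choose 3 := by
          rw [← Finset.card_powersetCard]
          apply Finset.card_le_card
          intro T hT
          rw [Finset.mem_filter] at hT
          rw [Finset.mem_powersetCard]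
          exact ⟨hT.2.2, (Finset.mem_powersetCard.1 (hH hT.1)).2⟩
        have e4 : (((nb η v C).card.choose 3 : ℕ) : ℝ) ≤ ((nb η v C).card : ℝ) ^ 3 / 6 := by
          have := Nat.choose_le_pow_div (α := ℝ) 3 (nb η v C).card
          have e5 : ((3:ℕ).factorial : ℝ) = 6 := by norm_num [Nat.factorial]
          rwa [e5] at this
        have e6 : ((nb η v C).card : ℝ) ^ 3 ≤ D ^ 3 := by
          have : (0:ℝ) ≤ (nb η v C).card := by positivity
          gcongr
        have e7 : ((H.filter (fun T => ((nb η v C).card : ℝ) < D ∧ T ⊆ nb η v C)).card : ℝ) ≤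
            (((nb η v C).card.choose 3 : ℕ) : ℝ) := by exact_mod_cast e3
        linarith
      · have e3 : H.filter (fun T => ((nb η v C).card : ℝ) < D ∧ T ⊆ nb η v C) = ∅ := by
          rw [Finset.filter_eq_empty_iff]
          exact fun T _ h => hlt h.1
        rw [e3, Finset.card_empty]
        push_cast
        positivity
    refine e1.trans ?_
    have e2 : D ^ 3 / 6 = δ * u := by rw [hδ]; field_simp
    rw [e2]
    exact mul_le_mul_of_nonneg_left (le_max_right _ _) hδ0
  have hEX : ex p X ≤ H.card * p ^ 3 := by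
    simp only [hX]
    rw [ex_sum]
    have e1 : ∀ T ∈ H, ex p (fun η => if ((nb η v C).card : ℝ) < D ∧ T ⊆ nb η v C
        then (1:ℝ) else 0) ≤ p ^ 3 := by
      intro T hT
      have hTC := (Finset.mem_powersetCard.1 (hH hT))
      have e2 : pr p (AllOn (star v T)) = p ^ 3 := by
        have : pr p (AllOn (star v T)) = p ^ (star v T).card := pr_all_true p _
        rw [this]
        congr 1
        unfold star
        rw [Finset.card_image_of_injective, hTC.2]
        intro x y h
        simp only [Sym2.eq_iff, true_and] at h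
        rcases h with h | ⟨h1, h2⟩
        · exact h
        · exact h2.trans h1
      rw [← e2]
      unfold pr
      refine ex_mono h0 h1 fun η => ?_
      by_cases h : ((nb η v C).card : ℝ) < D ∧ T ⊆ nb η v C
      · rw [if_pos h, if_pos]
        intro e he
        obtain ⟨x, hx, rfl⟩ := mem_star.1 he
        exact (mem_nb.1 (h.2 hx)).2.2
      · rw [if_neg h]
        positivity
    refine (Finset.sum_le_sum e1).trans ?_
    simp
  -- pointwise bound
  have hpt : ∀ η, (max ((survive D C H {v} η).card : ℝ) u) ^ (-β) ≤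
      Φ ^ (-β) * (1 + (1 + w₀) * (β / (1 - δ)) / Φ * X η) := by
    intro η
    set z : ℝ := X η / Φ with hz
    have hz0 : 0 ≤ z := by have := hX0 η; positivity
    have hzδ : z ≤ δ := by rw [hz, div_le_iff₀ hΦ0]; exact hXle η
    have hXz : X η = z * Φ := by rw [hz]; field_simp
    have e1 : Φ * (1 - z) ≤ max ((survive D C H {v} η).card : ℝ) u := by
      have e2 : Φ * (1 - z) = Φ - X η := by rw [hXz]; ring
      rw [e2, hΦ]
      have e3 := hcard η
      have e4 := hX0 η
      rcases le_total (H.card : ℝ) u with h | h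
      · rw [max_eq_right h]
        exact le_trans (by linarith) (le_max_right _ _)
      · rw [max_eq_left h]
        exact le_trans (by linarith) (le_max_left _ _)
    have hpos : 0 < Φ * (1 - z) := mul_pos hΦ0 (by linarith)
    have e2 : (max ((survive D C H {v} η).card : ℝ) u) ^ (-β) ≤ (Φ * (1 - z)) ^ (-β) :=
      Real.rpow_le_rpow_of_nonpos hpos e1 (by linarith)
    refine e2.trans ?_
    rw [Real.mul_rpow hΦ0.le (by linarith)]
    refine mul_le_mul_of_nonneg_left ?_ (Real.rpow_nonneg hΦ0.le _)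
    have e3 : (1 - z) ^ (-β) ≤ Real.exp (β * z / (1 - δ)) := by
      rw [Real.rpow_def_of_pos (by linarith)]
      apply Real.exp_le_exp.2
      have e4 := Real.one_sub_inv_le_log_of_pos (x := 1 - z) (by linarith)
      have e5 : 1 - (1 - z)⁻¹ = -(z / (1 - z)) := by
        have : 1 - z ≠ 0 := by linarith
        field_simp
        ring
      rw [e5] at e4
      have e6 : z / (1 - z) ≤ z / (1 - δ) :=
        div_le_div_of_nonneg_left hz0 h1δ (by linarith)
      have e7 : Real.log (1 - z) * -β = β * (-Real.log (1 - z)) := by ring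
      rw [e7, mul_div_assoc]
      exact mul_le_mul_of_nonneg_left (by linarith) hβ
    refine e3.trans ?_
    set w : ℝ := β * z / (1 - δ) with hw'
    have hw0 : 0 ≤ w := div_nonneg (mul_nonneg hβ hz0) h1δ.le
    have hww : w ≤ w₀ := by
      rw [hw', hw₀]
      exact div_le_div_of_nonneg_right (mul_le_mul_of_nonneg_left hzδ hβ) h1δ.le
    have hw1 : |w| ≤ 1 := by rw [abs_of_nonneg hw0]; linarith
    have e4 := Real.abs_exp_sub_one_sub_id_le hw1
    have e5 := (abs_le.1 e4).2
    have e6 : w ^ 2 ≤ w * w₀ := by nlinarith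
    have e7 : (1 + w₀) * (β / (1 - δ)) / Φ * X η = (1 + w₀) * w := by
      rw [hXz, hw']; field_simp
    rw [e7]
    nlinarith
  refine (ex_mono h0 h1 hpt).trans ?_
  rw [ex_smul, ex_add, ex_one, ex_smul]
  refine mul_le_mul_of_nonneg_left ?_ (by positivity)
  have e1 : (1 + w₀) * (β / (1 - δ)) / Φ * ex p X ≤ (1 + w₀) * (β / (1 - δ)) / Φ * (Φ * p ^ 3) := by
    refine mul_le_mul_of_nonneg_left (hEX.trans ?_) (by positivity)
    refine mul_le_mul_of_nonneg_right (le_max_left _ _) (by positivity)
  have e2 : (1 + w₀) * (β / (1 - δ)) / Φ * (Φ * p ^ 3) = β * p ^ 3 * (1 + w₀) / (1 - δ) := by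
    field_simp
  rw [e2] at e1
  have e3 := Real.add_one_le_exp (β * p ^ 3 * (1 + w₀) / (1 - δ))
  linarith

/-- Iteration of the exposure step. -/
theorem survive_ex {p : ℝ} (h0 : 0 ≤ p) (h1 : p ≤ 1) {D : ℝ} (hD : 0 ≤ D) {C : Finset V}
    {H : Finset (Finset V)} (hH : H ⊆ C.powersetCard 3) (V' : Finset V)
    (hV' : ∀ v ∈ V', v ∉ C)
    {u β δ : ℝ} (hu : 0 < u) (hβ : 0 ≤ β) (hδ : δ = D ^ 3 / (6 * u)) (hδ1 : δ < 1)
    (hw : β * δ / (1 - δ) ≤ 1) :
    ex p (fun ω => (max ((survive D C H V' ω).card : ℝ) u) ^ (-β)) ≤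
      (max (H.card : ℝ) u) ^ (-β) *
        Real.exp (V'.card * (β * p ^ 3 * (1 + β * δ / (1 - δ)) / (1 - δ))) := by
  classical
  induction V' using Finset.induction_on with
  | empty =>
    have : ∀ ω : Sym2 V → Bool, survive D C H ∅ ω = H := by
      intro ω; ext T; rw [mem_survive]; simp
    simp only [this]
    rw [ex_const]
    simp
  | insert v s hv ih =>
    have ih' := ih fun w hw => hV' w (Finset.mem_insert_of_mem hw)
    have hvC := hV' v (Finset.mem_insert_self _ _)
    rw [← tower p (star v C)]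
    have hstep : ∀ ω : Sym2 V → Bool,
        ex p (fun η => (max ((survive D C H (insert v s) (ow (star v C) ω η)).card : ℝ) u) ^ (-β)) ≤
        Real.exp (β * p ^ 3 * (1 + β * δ / (1 - δ)) / (1 - δ)) *
          (max ((survive D C H s ω).card : ℝ) u) ^ (-β) := by
      intro ω
      have e1 : ∀ η, survive D C H (insert v s) (ow (star v C) ω η) =
          survive D C (survive D C H s ω) {v} η := by
        intro η
        rw [survive_insert]
        have e2 : survive D C H s (ow (star v C) ω η) = survive D C H s ω := by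
          refine survive_congr fun w hw => ?_
          refine DepOn.ow_left DepOn.nb ?_ ω η
          exact star_disjoint hvC (fun h => hv (h ▸ hw))
        rw [e2]
        refine survive_congr fun w hw => ?_
        rw [Finset.mem_singleton] at hw
        subst hw
        exact DepOn.ow_right DepOn.nb ω η
      simp_rw [e1]
      have e3 := survive_step h0 h1 hD (H := survive D C H s ω) (survive_subset.trans hH) hvC hu hβ
        hδ hδ1 hw
      rw [mul_comm]
      exact e3
    refine (ex_mono h0 h1 hstep).trans ?_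
    rw [ex_smul, Finset.card_insert_of_notMem hv]
    push_cast
    refine (mul_le_mul_of_nonneg_left ih' (Real.exp_pos _).le).trans (le_of_eq ?_)
    rw [add_mul, one_mul, Real.exp_add]
    ring

/-- Lower tail for the number of surviving triples. -/
theorem pr_survive {p : ℝ} (h0 : 0 ≤ p) (h1 : p ≤ 1) {D : ℝ} (hD : 0 < D) {C : Finset V}
    {H : Finset (Finset V)} (hH : H ⊆ C.powersetCard 3) (V' : Finset V)
    (hV' : ∀ v ∈ V', v ∉ C) {h₀ X M u δ : ℝ} (hh0 : 0 < h₀) (hHh : h₀ ≤ H.card)
    (hX : V'.card * p ^ 3 ≤ X) (hM1 : 1 ≤ M) (hMX : X ≤ M)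
    (hu : u = Real.exp (-(2 + X)) * h₀) (hδ : δ = D ^ 3 / (6 * u)) (hδM : δ * M ≤ 1 / 8) :
    pr p (fun ω => ((survive D C H V' ω).card : ℝ) ≤ u) ≤ Real.exp (-(1 / (4 * δ * M))) := by
  have hu0 : 0 < u := by rw [hu]; positivity
  have hδ0 : 0 < δ := by rw [hδ]; positivity
  have hδ8 : δ ≤ 1 / 8 := by nlinarith
  have hX0 : 0 ≤ X := le_trans (by positivity) hX
  set β : ℝ := 1 / (4 * δ * M) with hβ
  have hβ0 : 0 < β := by positivity
  have hβδ : β * δ = 1 / (4 * M) := by rw [hβ]; field_simp
  have h1δ : 7 / 8 ≤ 1 - δ := by linarith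
  have h1δ0 : 0 < 1 - δ := by linarith
  have hw₀ : β * δ / (1 - δ) ≤ 2 / (7 * M) := by
    rw [hβδ, div_div, div_le_div_iff₀ (by positivity) (by positivity)]
    nlinarith
  have hw1 : β * δ / (1 - δ) ≤ 1 := by
    refine hw₀.trans ?_
    rw [div_le_one (by positivity)]
    linarith
  have hex := survive_ex h0 h1 hD.le hH V' hV' hu0 hβ0.le hδ (by linarith) hw1
  have hule : u ≤ h₀ := by
    rw [hu]
    have : Real.exp (-(2 + X)) ≤ 1 := Real.exp_le_one_iff.2 (by linarith)
    nlinarith
  have hmax : max (H.card : ℝ) u = H.card := max_eq_left (hule.trans hHh)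
  rw [hmax] at hex
  -- Markov
  have hM : pr p (fun ω => ((survive D C H V' ω).card : ℝ) ≤ u) ≤
      ex p (fun ω => u ^ β * (max ((survive D C H V' ω).card : ℝ) u) ^ (-β)) := by
    refine pr_le_ex h0 h1 (fun ω => by positivity) fun ω hω => ?_
    rw [max_eq_right hω, ← Real.rpow_add hu0]
    simp
  rw [ex_smul] at hM
  refine hM.trans ((mul_le_mul_of_nonneg_left hex (by positivity)).trans ?_)
  have hH0 : (0:ℝ) < H.card := lt_of_lt_of_le hh0 hHh
  have e1 : u ^ β * ((H.card : ℝ) ^ (-β)) ≤ Real.exp (-(β * (2 + X))) := by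
    have e2 : u ^ β * ((H.card : ℝ) ^ (-β)) = (u / H.card) ^ β := by
      rw [Real.div_rpow hu0.le hH0.le, Real.rpow_neg hH0.le]
      rfl
    rw [e2]
    have e3 : u / H.card ≤ Real.exp (-(2 + X)) := by
      rw [div_le_iff₀ hH0, hu]
      exact mul_le_mul_of_nonneg_left hHh (Real.exp_pos _).le
    calc (u / H.card) ^ β ≤ (Real.exp (-(2 + X))) ^ β :=
          Real.rpow_le_rpow (by positivity) e3 hβ0.le
      _ = Real.exp (-(β * (2 + X))) := by
          rw [← Real.exp_mul]; congr 1; ring
  have e2 : V'.card * (β * p ^ 3 * (1 + β * δ / (1 - δ)) / (1 - δ)) ≤ β * (X + 1) := by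
    have e3 : V'.card * (β * p ^ 3 * (1 + β * δ / (1 - δ)) / (1 - δ)) =
        β * ((V'.card * p ^ 3) * ((1 + β * δ / (1 - δ)) / (1 - δ))) := by ring
    rw [e3]
    refine mul_le_mul_of_nonneg_left ?_ hβ0.le
    have e4 : (1 + β * δ / (1 - δ)) / (1 - δ) ≤ 1 + 1 / M := by
      rw [div_le_iff₀ h1δ0]
      have e5 : (1 + 1 / M) * (1 - δ) = 1 - δ + (1 - δ) / M := by field_simp
      have e6 : δ ≤ 1 / (8 * M) := by
        rw [le_div_iff₀ (by positivity)]
        linarith
      have e7 : 7 / 8 / M ≤ (1 - δ) / M := by gcongr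
      have e8 : 2 / (7 * M) = 2 / 7 * (1 / M) := by field_simp
      have e9 : 1 / (8 * M) = 1 / 8 * (1 / M) := by field_simp
      have e10 : 7 / 8 / M = 7 / 8 * (1 / M) := by field_simp
      have e11 : 0 < 1 / M := by positivity
      rw [e5]
      linarith
    have e12 : 0 ≤ (V'.card : ℝ) * p ^ 3 := by positivity
    calc (V'.card * p ^ 3) * ((1 + β * δ / (1 - δ)) / (1 - δ)) ≤ X * (1 + 1 / M) := by
          refine mul_le_mul hX e4 (by positivity) hX0
      _ ≤ X + 1 := by
          rw [mul_add, mul_one, mul_one_div]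
          have : X / M ≤ 1 := by rw [div_le_one (by linarith)]; exact hMX
          linarith
  calc u ^ β * ((H.card : ℝ) ^ (-β) *
        Real.exp (V'.card * (β * p ^ 3 * (1 + β * δ / (1 - δ)) / (1 - δ))))
      = (u ^ β * (H.card : ℝ) ^ (-β)) *
        Real.exp (V'.card * (β * p ^ 3 * (1 + β * δ / (1 - δ)) / (1 - δ))) := by ring
    _ ≤ Real.exp (-(β * (2 + X))) * Real.exp (β * (X + 1)) := by
        refine mul_le_mul e1 (Real.exp_le_exp.2 e2) (Real.exp_pos _).le (Real.exp_pos _).le
    _ = Real.exp (-β) := by rw [← Real.exp_add]; congr 1; ring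

end Pool.Agent.Helper96
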