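import Pool.Agent.Helper96.LowerProb

/-!
Upper bound: online greedy triangle-free colouring.
-/

open Finset

set_option linter.unusedSectionVars false

namespace Pool.Agent.Helper96

variable {V : Type*} [Fintype V] [DecidableEq V]

/-- The edges of the graph inside `C`. -/
def edgesIn (ω : Sym2 V → Bool) (C : Finset V) : Finset (Sym2 V) :=
  (cl C).filter (fun e => ω e = true)

/-- `c` is a good colouring of `L`: classes of size at most `a`, with at most `b` times their
size edges, and without triangles. -/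
def GoodCol (ω : Sym2 V → Bool) (L : Finset V) {Q : ℕ} (a b : ℕ) (c : V → Fin Q) : Prop :=
  ∀ i : Fin Q, (L.filter (fun x => c x = i)).card ≤ a ∧
    (edgesIn ω (L.filter (fun x => c x = i))).card ≤ b * (L.filter (fun x => c x = i)).card ∧
    ∀ T ⊆ L.filter (fun x => c x = i), T.card = 3 → ¬ AllOn (cl T) ω

theorem cl_mono {S T : Finset V} (h : S ⊆ T) : cl S ⊆ cl T := by
  intro e he
  rw [mem_cl] at he ⊢
  exact ⟨fun x hx => h (he.1 x hx), he.2⟩

theorem edgesIn_congr {ω ω' : Sym2 V → Bool} {C : Finset V} (h : ∀ e ∈ cl C, ω e = ω' e) :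
    edgesIn ω C = edgesIn ω' C := by
  unfold edgesIn
  apply Finset.filter_congr
  intro e he
  rw [h e he]

theorem allOn_congr {ω ω' : Sym2 V → Bool} {T : Finset (Sym2 V)} (h : ∀ e ∈ T, ω e = ω' e) :
    AllOn T ω ↔ AllOn T ω' :=
  forall₂_congr fun e he => by rw [h e he]

theorem goodCol_congr {ω ω' : Sym2 V → Bool} {L : Finset V} {Q a b : ℕ} {c : V → Fin Q}
    (h : ∀ e ∈ cl L, ω e = ω' e) (hg : GoodCol ω L a b c) : GoodCol ω' L a b c := by
  intro i
  obtain ⟨h1, h2, h3⟩ := hg i
  have hsub : L.filter (fun x => c x = i) ⊆ L := Finset.filter_subset _ _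
  refine ⟨h1, ?_, ?_⟩
  · rw [← edgesIn_congr (fun e he => h e (cl_mono hsub he))]
    exact h2
  · intro T hT hT3
    rw [← allOn_congr (fun e he => h e (cl_mono (hT.trans hsub) he))]
    exact h3 T hT hT3

/-- The colour `i` is available for `v`. -/
def Avail (ω : Sym2 V → Bool) (C : Finset V) (b : ℕ) (v : V) (η : Sym2 V → Bool) : Prop :=
  (nb η v C).card ≤ b ∧ ∀ e ∈ edgesIn ω C, ¬ AllOn (star v e.toFinset) η

theorem cl_insert {v : V} {C : Finset V} (hv : v ∉ C) : cl (insert v C) = cl C ∪ star v C := by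
  ext e
  induction e using Sym2.inductionOn with
  | hf x y =>
    rw [Finset.mem_union, mk_mem_cl, mk_mem_cl, mem_star]
    simp only [Finset.mem_insert]
    constructor
    · rintro ⟨hx | hx, hy | hy, hxy⟩
      · exact absurd (hx.trans hy.symm) hxy
      · right; exact ⟨y, hy, by rw [hx]⟩
      · right; exact ⟨x, hx, by rw [hy, Sym2.eq_swap]⟩
      · left; exact ⟨hx, hy, hxy⟩
    · rintro (⟨hx, hy, hxy⟩ | ⟨z, hz, h⟩)
      · exact ⟨Or.inr hx, Or.inr hy, hxy⟩
      · rw [Sym2.eq_iff] at h
        rcases h with ⟨rfl, rfl⟩ | ⟨rfl, rfl⟩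
        · exact ⟨Or.inl rfl, Or.inr hz, fun h => hv (h ▸ hz)⟩
        · exact ⟨Or.inr hz, Or.inl rfl, fun h => hv (h ▸ hz)⟩

theorem star_mono {v : V} {S T : Finset V} (h : S ⊆ T) : star v S ⊆ star v T :=
  Finset.image_subset_image h

/-- The deterministic greedy step. -/
theorem goodCol_insert {ω η : Sym2 V → Bool} {L : Finset V} {Q a b : ℕ} {c : V → Fin Q} {v : V}
    (hv : v ∉ L) (hg : GoodCol ω L a b c) {i : Fin Q}
    (hopen : (L.filter (fun x => c x = i)).card < a)
    (hav : Avail ω (L.filter (fun x => c x = i)) b v η) :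
    GoodCol (ow (star v L) ω η) (insert v L) a b (Function.update c v i) := by
  have hdisj : Disjoint (star v L) (cl L) := star_disjoint_cl L L hv
  have hold : ∀ e ∈ cl L, ω e = ow (star v L) ω η e := by
    intro e he
    have : e ∉ star v L := fun h => (Finset.disjoint_left.1 hdisj h) he
    simp [ow, this]
  have hnew : ∀ e ∈ star v L, ow (star v L) ω η e = η e := by
    intro e he
    simp [ow, he]
  have hclass : ∀ j, L.filter (fun x => Function.update c v i x = j) =
      L.filter (fun x => c x = j) := by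
    intro j
    apply Finset.filter_congr
    intro x hx
    have : x ≠ v := fun h => hv (h ▸ hx)
    rw [Function.update_of_ne this]
  have hg' := goodCol_congr hold hg
  intro j
  rw [Finset.filter_insert, hclass, Function.update_self]
  by_cases hij : i = j
  · subst hij
    rw [if_pos rfl]
    set C := L.filter (fun x => c x = i) with hC
    have hCL : C ⊆ L := Finset.filter_subset _ _
    have hvC : v ∉ C := fun h => hv (hCL h)
    obtain ⟨g1, g2, g3⟩ := hg' i
    rw [← hC] at g1 g2 g3
    rw [Finset.card_insert_of_notMem hvC]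
    refine ⟨hopen, ?_, ?_⟩
    · have hsub : edgesIn (ow (star v L) ω η) (insert v C) ⊆
          edgesIn (ow (star v L) ω η) C ∪ star v (nb η v C) := by
        intro e he
        rw [edgesIn, Finset.mem_filter, cl_insert hvC, Finset.mem_union] at he
        obtain ⟨he1 | he1, he2⟩ := he
        · exact Finset.mem_union_left _ (Finset.mem_filter.2 ⟨he1, he2⟩)
        · apply Finset.mem_union_right
          obtain ⟨x, hx, rfl⟩ := mem_star.1 he1
          refine mk_mem_star (mem_nb.2 ⟨hx, fun h => hvC (h ▸ hx), ?_⟩)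
          rw [← hnew _ (star_mono hCL he1)]
          exact he2
      calc (edgesIn (ow (star v L) ω η) (insert v C)).card
          ≤ (edgesIn (ow (star v L) ω η) C).card + (star v (nb η v C)).card :=
            (Finset.card_le_card hsub).trans (Finset.card_union_le _ _)
        _ ≤ b * C.card + b := add_le_add g2 (Finset.card_image_le.trans hav.1)
        _ = b * (C.card + 1) := by ring
    · intro T hT hT3 hTon
      by_cases hvT : v ∈ T
      · have hT' : T.erase v ⊆ C := by
          intro x hx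
          rcases Finset.mem_insert.1 (hT (Finset.mem_of_mem_erase hx)) with h | h
          · exact absurd h (Finset.ne_of_mem_erase hx)
          · exact h
        have hc2 : (T.erase v).card = 2 := by
          rw [Finset.card_erase_of_mem hvT, hT3]
        obtain ⟨x, y, hxy, hTe⟩ := Finset.card_eq_two.1 hc2
        have hx : x ∈ T.erase v := by rw [hTe]; simp
        have hy : y ∈ T.erase v := by rw [hTe]; simp
        have hxC := hT' hx
        have hyC := hT' hy
        have he : s(x, y) ∈ edgesIn ω C := by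
          refine Finset.mem_filter.2 ⟨mk_mem_cl.2 ⟨hxC, hyC, hxy⟩, ?_⟩
          rw [hold _ (mk_mem_cl.2 ⟨hCL hxC, hCL hyC, hxy⟩)]
          exact hTon _ (mk_mem_cl.2 ⟨Finset.mem_of_mem_erase hx, Finset.mem_of_mem_erase hy, hxy⟩)
        apply hav.2 _ he
        intro e he'
        obtain ⟨z, hz, rfl⟩ := mem_star.1 he'
        have hz' : z = x ∨ z = y := by
          simpa [Sym2.mem_toFinset] using hz
        have hzT : z ∈ T.erase v := by rcases hz' with rfl | rfl <;> assumption
        rw [← hnew _ (mk_mem_star (hCL (hT' hzT)))]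
        exact hTon _ (mk_mem_cl.2 ⟨hvT, Finset.mem_of_mem_erase hzT,
          (Finset.ne_of_mem_erase hzT).symm⟩)
      · refine g3 T ?_ hT3 hTon
        intro x hx
        rcases Finset.mem_insert.1 (hT hx) with h | h
        · exact absurd (h ▸ hx) hvT
        · exact h
  · rw [if_neg hij]
    exact hg' j

theorem card_star {v : V} {S : Finset V} : (star v S).card = S.card := by
  unfold star
  apply Finset.card_image_of_injective
  intro x y h
  simp only [Sym2.eq_iff, true_and] at h
  rcases h with h | ⟨h1, h2⟩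
  · exact h
  · exact h2.trans h1

theorem decr_nb_le {v : V} {C : Finset V} (b : ℕ) : DecrEv (fun η => (nb η v C).card ≤ b) := by
  intro η η' h h'
  refine le_trans (Finset.card_le_card ?_) h'
  intro x hx
  rw [mem_nb] at hx ⊢
  refine ⟨hx.1, hx.2.1, ?_⟩
  have := h s(v, x)
  rw [hx.2.2] at this
  exact Bool.eq_true_of_true_le this

theorem pr_nb_le {p : ℝ} (h0 : 0 ≤ p) (h1 : p ≤ 1) {v : V} {C : Finset V} (hv : v ∉ C) (b : ℕ)
    (hb : 2 * (C.card * p) ≤ b + 1) : 1 / 2 ≤ pr p (fun η => (nb η v C).card ≤ b) := by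
  classical
  have h2 : pr p (fun η => ¬ (nb η v C).card ≤ b) ≤ 1 / 2 := by
    have h3 : pr p (fun η => ¬ (nb η v C).card ≤ b) ≤
        ex p (fun η => ∑ x ∈ C, (1 / ((b:ℝ) + 1)) * (if η s(v, x) = true then (1:ℝ) else 0)) := by
      refine pr_le_ex h0 h1 (fun η => by positivity) fun η hη => ?_
      push Not at hη
      rw [nb_card_eq_cnt hv] at hη
      rw [← Finset.mul_sum]
      have h4 : ((cnt C (fun x ω => ω s(v, x) = true) η : ℕ) : ℝ) =
          ∑ x ∈ C, (if η s(v, x) = true then (1:ℝ) else 0) := by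
        rw [cnt_cast]
        refine Finset.sum_congr rfl fun x _ => ?_
        split_ifs <;> rfl
      rw [← h4, one_div, inv_mul_eq_div, one_le_div (by positivity)]
      exact_mod_cast hη
    rw [ex_sum] at h3
    refine h3.trans ?_
    have h5 : ∀ x ∈ C, ex p (fun η => (1 / ((b:ℝ) + 1)) * (if η s(v, x) = true then (1:ℝ) else 0))
        = p / (b + 1) := by
      intro x _
      rw [ex_smul]
      have h6 := pr_edge p s(v, x)
      unfold pr at h6
      have h7 : ex p (fun η => (if η s(v, x) = true then (1:ℝ) else 0)) = p := by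
        rw [← h6]
        congr 1
        ext η
        split_ifs <;> rfl
      rw [h7]; ring
    rw [Finset.sum_congr rfl h5, Finset.sum_const, nsmul_eq_mul, mul_div_assoc',
      div_le_div_iff₀ (by positivity) (by norm_num)]
    linarith
  rw [pr_not] at h2
  linarith

theorem pr_avail {p : ℝ} (h0 : 0 ≤ p) (h1 : p ≤ 1) {ω : Sym2 V → Bool} {v : V} {C : Finset V}
    (hv : v ∉ C) (b N : ℕ) (hb : 2 * (C.card * p) ≤ b + 1) (hN : (edgesIn ω C).card ≤ N) :
    1 / 2 * (1 - p ^ 2) ^ N ≤ pr p (Avail ω C b v) := by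
  have e1 := pr_nb_le h0 h1 hv b hb
  have hdec : ∀ e ∈ edgesIn ω C, DecrEv (fun η => ¬ AllOn (star v e.toFinset) η) :=
    fun e _ => (AllOn.incr _).not
  have e2 := prod_pr_le_of_decr h0 h1 (edgesIn ω C) hdec
  have hp2 : 0 ≤ 1 - p ^ 2 := by nlinarith
  have e3 : (1 - p ^ 2) ^ N ≤ ∏ e ∈ edgesIn ω C, pr p (fun η => ¬ AllOn (star v e.toFinset) η) := by
    calc (1 - p ^ 2) ^ N ≤ (1 - p ^ 2) ^ (edgesIn ω C).card :=
          pow_le_pow_of_le_one hp2 (by nlinarith) hN
      _ = ∏ _e ∈ edgesIn ω C, (1 - p ^ 2) := by rw [Finset.prod_const]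
      _ ≤ _ := by
          refine Finset.prod_le_prod (fun _ _ => hp2) fun e he => ?_
          rw [pr_not]
          have h2 : pr p (AllOn (star v e.toFinset)) = p ^ (star v e.toFinset).card :=
            pr_all_true p _
          have h3 : (star v e.toFinset).card = 2 := by
            rw [card_star]
            have h4 := (mem_cl.1 (Finset.mem_filter.1 he).1).2
            exact Sym2.card_toFinset_of_not_isDiag e h4
          rw [h2, h3]
  have e4 := pr_mul_le_of_decr h0 h1 (decr_nb_le (v := v) (C := C) b)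
    (B := fun η => ∀ e ∈ edgesIn ω C, ¬ AllOn (star v e.toFinset) η)
    (fun η η' h h' e he => hdec e he η η' h (h' e he))
  refine le_trans ?_ e4
  exact mul_le_mul e1 (e3.trans e2) (by positivity) (pr_nonneg h0 h1 _)

theorem depOn_avail {ω : Sym2 V → Bool} {v : V} {C : Finset V} (b : ℕ) :
    DepOn (Avail ω C b v) (star v C) := by
  intro η η' h
  apply propext
  unfold Avail
  have h1 : nb η v C = nb η' v C := DepOn.nb η η' h
  rw [h1]
  refine and_congr_right fun _ => forall₂_congr fun e he => not_congr ?_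
  apply allOn_congr
  intro f hf
  apply h
  obtain ⟨x, hx, rfl⟩ := mem_star.1 hf
  apply mk_mem_star
  have := (mem_cl.1 (Finset.mem_filter.1 he).1).1
  exact this x (by simpa [Sym2.mem_toFinset] using hx)

/-- The probabilistic greedy step. -/
theorem pr_greedy_step {p : ℝ} (h0 : 0 ≤ p) (h1 : p ≤ 1) {ω : Sym2 V → Bool} {L : Finset V}
    {Q a b : ℕ} {c : V → Fin Q} {v : V} (hv : v ∉ L) (hg : GoodCol ω L a b c)
    (ha : 0 < a) (hb : 2 * (a * p) ≤ b + 1) :
    pr p (fun η => ¬ ∃ c' : V → Fin Q, GoodCol (ow (star v L) ω η) (insert v L) a b c') ≤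
      Real.exp (-(1 / 2 * (1 - p ^ 2) ^ (a * b) * ((Q : ℝ) - L.card / a))) := by
  classical
  set O : Finset (Fin Q) := univ.filter (fun i => (L.filter (fun x => c x = i)).card < a) with hO
  set π : ℝ := 1 / 2 * (1 - p ^ 2) ^ (a * b) with hπ
  have hp2 : 0 ≤ 1 - p ^ 2 := by nlinarith
  have hπ0 : 0 ≤ π := by positivity
  -- number of open classes
  have hclosed : ((univ.filter (fun i : Fin Q => ¬ (L.filter (fun x => c x = i)).card < a)).card)
      * a ≤ L.card := by
    have h2 : ∑ i : Fin Q, (L.filter (fun x => c x = i)).card = L.card :=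
      (Finset.card_eq_sum_card_fiberwise (fun x _ => Finset.mem_univ (c x))).symm
    calc _ = ∑ _i ∈ univ.filter (fun i : Fin Q => ¬ (L.filter (fun x => c x = i)).card < a), a := by
          simp
      _ ≤ ∑ i ∈ univ.filter (fun i : Fin Q => ¬ (L.filter (fun x => c x = i)).card < a),
            (L.filter (fun x => c x = i)).card := by
          refine Finset.sum_le_sum fun i hi => ?_
          exact not_lt.1 (Finset.mem_filter.1 hi).2
      _ ≤ ∑ i : Fin Q, (L.filter (fun x => c x = i)).card :=
          Finset.sum_le_sum_of_subset (Finset.filter_subset _ _)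
      _ = L.card := h2
  have hOcard : (Q : ℝ) - L.card / a ≤ O.card := by
    have h2 := Finset.card_filter_add_card_filter_not (s := (univ : Finset (Fin Q)))
      (fun i => (L.filter (fun x => c x = i)).card < a)
    rw [Finset.card_univ, Fintype.card_fin] at h2
    have h3 : ((univ.filter (fun i : Fin Q => ¬ (L.filter (fun x => c x = i)).card < a)).card : ℝ)
        ≤ L.card / a := by
      rw [le_div_iff₀ (by exact_mod_cast ha)]
      exact_mod_cast hclosed
    have h4 : (O.card : ℝ) +
      ((univ.filter (fun i : Fin Q => ¬ (L.filter (fun x => c x = i)).card < a)).card : ℝ) = Q := by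
      exact_mod_cast h2
    linarith
  have hle : pr p (fun η => ¬ ∃ c' : V → Fin Q,
      GoodCol (ow (star v L) ω η) (insert v L) a b c') ≤
      pr p (fun η => ∀ i ∈ O, ¬ Avail ω (L.filter (fun x => c x = i)) b v η) := by
    refine pr_mono h0 h1 fun η hη i hi hav => hη ?_
    exact ⟨_, goodCol_insert hv hg (Finset.mem_filter.1 hi).2 hav⟩
  refine hle.trans ?_
  rw [pr_forall_of_disjoint p O (U := fun i => star v (L.filter (fun x => c x = i)))]
  · calc ∏ i ∈ O, pr p (fun η => ¬ Avail ω (L.filter (fun x => c x = i)) b v η)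
        ≤ ∏ _i ∈ O, Real.exp (-π) := by
          refine Finset.prod_le_prod (fun i _ => pr_nonneg h0 h1 _) fun i hi => ?_
          rw [pr_not]
          have hvC : v ∉ L.filter (fun x => c x = i) := fun h => hv (Finset.mem_filter.1 h).1
          obtain ⟨g1, g2, -⟩ := hg i
          have h2 := pr_avail h0 h1 (ω := ω) hvC b (a * b) ?_ ?_
          · have := Real.add_one_le_exp (-π)
            linarith
          · refine le_trans ?_ hb
            gcongr
          · refine g2.trans ?_
            rw [mul_comm]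
            exact Nat.mul_le_mul_right b g1
      _ = Real.exp (-(π * O.card)) := by
          rw [Finset.prod_const, ← Real.exp_nat_mul]; congr 1; ring
      _ ≤ _ := by
          apply Real.exp_le_exp.2
          have := mul_le_mul_of_nonneg_left hOcard hπ0
          linarith
  · intro i _ j _ hij
    rw [Finset.disjoint_left]
    intro e he he'
    obtain ⟨x, hx, rfl⟩ := mem_star.1 he
    obtain ⟨y, hy, hxy⟩ := mem_star.1 he'
    rw [Finset.mem_filter] at hx hy
    rw [Sym2.eq_iff] at hxy
    rcases hxy with ⟨_, h3⟩ | ⟨h3, h4⟩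
    · exact hij (by rw [← hx.2, ← hy.2, h3])
    · exact hv (h4 ▸ hy.1)
  · intro i _ η η' h
    have := depOn_avail (ω := ω) (v := v) (C := L.filter (fun x => c x = i)) b η η' h
    simp only [this]

/-- A fixed set `L` has a good colouring with high probability. -/
theorem pr_goodCol {p : ℝ} (h0 : 0 ≤ p) (h1 : p ≤ 1) {Q a b : ℕ} (ha : 0 < a) (hQ : 0 < Q)
    (hb : 2 * (a * p) ≤ b + 1) (ℓ : ℝ) (L : Finset V) (hL : (L.card : ℝ) ≤ ℓ) :
    pr p (fun ω => ¬ ∃ c : V → Fin Q, GoodCol ω L a b c) ≤
      L.card * Real.exp (-(1 / 2 * (1 - p ^ 2) ^ (a * b) * ((Q : ℝ) - ℓ / a))) := by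
  classical
  induction L using Finset.induction_on with
  | empty =>
    have : pr p (fun ω : Sym2 V → Bool => ¬ ∃ c : V → Fin Q, GoodCol ω ∅ a b c) = 0 := by
      rw [← pr_false (E := Sym2 V) p]
      refine pr_congr fun ω => ?_
      simp only [iff_false, not_not]
      refine ⟨fun _ => ⟨0, hQ⟩, fun i => ?_⟩
      simp [edgesIn, cl]
    rw [this]
    simp
  | insert v s hv ih =>
    rw [Finset.card_insert_of_notMem hv] at hL ⊢
    push_cast at hL ⊢
    have ih' := ih (by linarith)
    have hp2 : 0 ≤ 1 - p ^ 2 := by nlinarith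
    have hstep : pr p (fun ω => (¬ ∃ c : V → Fin Q, GoodCol ω (insert v s) a b c) ∧
        ∃ c : V → Fin Q, GoodCol ω s a b c) ≤
        Real.exp (-(1 / 2 * (1 - p ^ 2) ^ (a * b) * ((Q : ℝ) - ℓ / a))) := by
      refine pr_cond_le h0 h1 (star v s) (Real.exp_pos _).le ?_ ?_
      · intro ω η
        have hdisj : Disjoint (star v s) (cl s) := star_disjoint_cl s s hv
        have hold : ∀ e ∈ cl s, ω e = ow (star v s) ω η e := by
          intro e he
          have : e ∉ star v s := fun h => (Finset.disjoint_left.1 hdisj h) he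
          simp [ow, this]
        exact ⟨fun ⟨c, hc⟩ => ⟨c, goodCol_congr (fun e he => (hold e he).symm) hc⟩,
          fun ⟨c, hc⟩ => ⟨c, goodCol_congr hold hc⟩⟩
      · rintro ω ⟨c, hc⟩
        refine (pr_greedy_step h0 h1 hv hc ha hb).trans ?_
        apply Real.exp_le_exp.2
        have h3 : (s.card : ℝ) / a ≤ ℓ / a := by
          gcongr
          linarith
        have h4 : 0 ≤ 1 / 2 * (1 - p ^ 2) ^ (a * b) := by positivity
        nlinarith
    have hor : pr p (fun ω => ¬ ∃ c : V → Fin Q, GoodCol ω (insert v s) a b c) ≤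
        pr p (fun ω => (¬ ∃ c : V → Fin Q, GoodCol ω s a b c) ∨
          ((¬ ∃ c : V → Fin Q, GoodCol ω (insert v s) a b c) ∧
            ∃ c : V → Fin Q, GoodCol ω s a b c)) := by
      refine pr_mono h0 h1 fun ω hω => ?_
      by_cases h : ∃ c : V → Fin Q, GoodCol ω s a b c
      · exact Or.inr ⟨hω, h⟩
      · exact Or.inl h
    refine hor.trans ((pr_or_le h0 h1 _ _).trans ?_)
    linarith

theorem nonAdj_subset (ω : Sym2 V → Bool) (W : Finset V) : nonAdj ω W ⊆ Wᶜ :=
  Finset.filter_subset _ _

theorem nonAdj_ow (W : Finset V) (ω η : Sym2 V → Bool) :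
    nonAdj (ow (cl Wᶜ) ω η) W = nonAdj ω W := by
  unfold nonAdj
  apply Finset.filter_congr
  intro u hu
  refine forall₂_congr fun w hw => ?_
  have : s(u, w) ∉ cl Wᶜ := by
    rw [mk_mem_cl]
    rintro ⟨_, h, _⟩
    exact (Finset.mem_compl.1 h) hw
  simp [ow, this]

/-- The random set `nonAdj ω W` has a good colouring. -/
theorem pr_goodCol_nonAdj {p : ℝ} (h0 : 0 ≤ p) (h1 : p ≤ 1) {Q a b : ℕ} (ha : 0 < a)
    (hQ : 0 < Q) (hb : 2 * (a * p) ≤ b + 1) (ℓ : ℝ) (W : Finset V) (hℓ0 : 0 ≤ ℓ) :
    pr p (fun ω => (¬ ∃ c : V → Fin Q, GoodCol ω (nonAdj ω W) a b c) ∧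
      ((nonAdj ω W).card : ℝ) ≤ ℓ) ≤
      ℓ * Real.exp (-(1 / 2 * (1 - p ^ 2) ^ (a * b) * ((Q : ℝ) - ℓ / a))) := by
  classical
  refine pr_cond_le h0 h1 (cl Wᶜ) (by positivity) ?_ ?_
  · intro ω η
    rw [nonAdj_ow]
  · intro ω hω
    have h2 := pr_goodCol h0 h1 ha hQ hb ℓ (nonAdj ω W) hω
    refine le_trans (le_of_eq ?_) (h2.trans ?_)
    · refine pr_congr fun η => not_congr ?_
      rw [nonAdj_ow]
      have hold : ∀ e ∈ cl (nonAdj ω W), ow (cl Wᶜ) ω η e = η e := by
        intro e he
        have : e ∈ cl Wᶜ := cl_mono (nonAdj_subset ω W) he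
        simp [ow, this]
      exact ⟨fun ⟨c, hc⟩ => ⟨c, goodCol_congr hold hc⟩,
        fun ⟨c, hc⟩ => ⟨c, goodCol_congr (fun e he => (hold e he).symm) hc⟩⟩
    · gcongr

/-- Every two vertices have a common neighbour. -/
def CommonNb (ω : Sym2 V → Bool) : Prop :=
  ∀ u v : V, u ≠ v → ∃ w, w ≠ u ∧ w ≠ v ∧ ω s(u, w) = true ∧ ω s(v, w) = true

theorem pr_commonNb {p : ℝ} (h0 : 0 ≤ p) (h1 : p ≤ 1) :
    pr p (fun ω : Sym2 V → Bool => ¬ CommonNb ω) ≤
      (Fintype.card V : ℝ) ^ 2 * Real.exp (-(((Fintype.card V : ℝ) - 2) * p ^ 2)) := by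
  classical
  have h2 : ∀ q ∈ (univ : Finset (V × V)).filter (fun q => q.1 ≠ q.2),
      pr p (fun ω : Sym2 V → Bool => ∀ w ∈ ({q.1, q.2} : Finset V)ᶜ,
        ¬ AllOn (star w {q.1, q.2}) ω) ≤
        Real.exp (-(((Fintype.card V : ℝ) - 2) * p ^ 2)) := by
    rintro ⟨u, v⟩ hq
    have huv : u ≠ v := (Finset.mem_filter.1 hq).2
    rw [pr_forall_of_disjoint p _ (U := fun w => star w {u, v})]
    · calc ∏ w ∈ ({u, v} : Finset V)ᶜ, pr p (fun ω => ¬ AllOn (star w {u, v}) ω)
          ≤ ∏ _w ∈ ({u, v} : Finset V)ᶜ, Real.exp (-p ^ 2) := by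
            refine Finset.prod_le_prod (fun i _ => pr_nonneg h0 h1 _) fun w _ => ?_
            rw [pr_not]
            have h3 : pr p (AllOn (star w {u, v})) = p ^ (star w {u, v}).card := pr_all_true p _
            rw [h3, card_star, Finset.card_pair huv]
            have := Real.add_one_le_exp (-p ^ 2)
            linarith
        _ = Real.exp (-(((({u, v} : Finset V)ᶜ).card : ℝ) * p ^ 2)) := by
            rw [Finset.prod_const, ← Real.exp_nat_mul]; congr 1; ring
        _ ≤ _ := by
            apply Real.exp_le_exp.2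
            have h4 := Finset.card_add_card_compl ({u, v} : Finset V)
            rw [Finset.card_pair huv] at h4
            have h5 : (2:ℝ) + ((({u, v} : Finset V)ᶜ).card : ℝ) = Fintype.card V := by
              exact_mod_cast h4
            have h6 : (0:ℝ) ≤ p ^ 2 := by positivity
            have h7 : ((({u, v} : Finset V)ᶜ).card : ℝ) = Fintype.card V - 2 := by linarith
            rw [h7]
    · intro w hw w' _ hww'
      exact star_disjoint (Finset.mem_compl.1 hw) hww'
    · intro w _ ω ω' hω
      apply propext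
      exact not_congr (allOn_congr hω)
  refine le_trans (pr_mono h0 h1 fun ω hω => ?_) ((pr_exists_le_card h0 h1 _ _ _ h2).trans ?_)
  · unfold CommonNb at hω
    push Not at hω
    obtain ⟨u, v, huv, h⟩ := hω
    refine ⟨(u, v), Finset.mem_filter.2 ⟨Finset.mem_univ _, huv⟩, ?_⟩
    intro w hw hon
    rw [Finset.mem_compl, Finset.mem_insert, Finset.mem_singleton, not_or] at hw
    have h3 : ω s(w, u) = true := hon _ (mk_mem_star (by simp))
    have h4 : ω s(w, v) = true := hon _ (mk_mem_star (by simp))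
    rw [Sym2.eq_swap] at h3 h4
    exact h w hw.1 hw.2 h3 h4
  · refine mul_le_mul_of_nonneg_right ?_ (Real.exp_pos _).le
    have : ((univ : Finset (V × V)).filter (fun q => q.1 ≠ q.2)).card ≤
        Fintype.card V ^ 2 := by
      refine (Finset.card_le_univ _).trans ?_
      rw [Fintype.card_prod, sq]
    exact_mod_cast this

/-- Deterministic upper bound from a colouring of the vertices not dominated by `W`, all of
whose colour classes contain no maximal clique. -/
theorem chi_le_of_colouring {ω : Sym2 V → Bool} {W : Finset V} {Q : ℕ} (c : V → Fin Q)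
    (hc : ∀ K : Set V, Maximal (gr ω).IsClique K → K.Nontrivial → (∀ x ∈ K, x ∈ nonAdj ω W) →
      ¬ ∃ i, ∀ x ∈ K, c x = i) :
    cliqueChromaticNumber (gr ω) ≤ 2 * W.card + Q := by
  classical
  let f : V → (W × Bool) ⊕ Fin Q := fun x =>
    if hx : x ∈ W then Sum.inl (⟨x, hx⟩, true)
    else if h : ∃ w ∈ W, ω s(x, w) = true then Sum.inl (⟨h.choose, h.choose_spec.1⟩, false)
    else Sum.inr (c x)
  have hf : IsCliqueColouring (gr ω) f := by
    rintro K hK hK2 ⟨t, ht⟩
    rcases t with ⟨⟨w, hw⟩, b⟩ | i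
    · cases b with
      | true =>
        -- all vertices of K equal w
        obtain ⟨x, hx, y, hy, hxy⟩ := hK2
        have key : ∀ z ∈ K, z = w := by
          intro z hz
          have h1 := ht z hz
          simp only [f] at h1
          split_ifs at h1 with h2 h3
          · simpa using h1
          · simp at h1
        exact hxy ((key x hx).trans (key y hy).symm)
      | false =>
        have key : ∀ z ∈ K, z ∉ W ∧ ω s(z, w) = true := by
          intro z hz
          have h1 := ht z hz
          simp only [f] at h1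
          split_ifs at h1 with h2 h3
          · simp at h1
          · refine ⟨h2, ?_⟩
            have h4 := h3.choose_spec.2
            simp only [Sum.inl.injEq, Prod.mk.injEq, Subtype.mk.injEq, and_true] at h1
            rwa [h1] at h4
        have hwK : w ∉ K := fun h => (key w h).1 hw
        have hcl : (gr ω).IsClique (insert w K) := by
          rw [SimpleGraph.isClique_insert]
          refine ⟨hK.prop, fun z hz _ => ?_⟩
          have h5 := key z hz
          refine ⟨fun h => h5.1 (h ▸ hw), ?_⟩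
          rw [Sym2.eq_swap]
          exact h5.2
        have := hK.le_of_ge hcl (Set.subset_insert _ _)
        exact hwK (this (Set.mem_insert _ _))
    · have key : ∀ z ∈ K, z ∈ nonAdj ω W ∧ c z = i := by
        intro z hz
        have h1 := ht z hz
        simp only [f] at h1
        split_ifs at h1 with h2 h3
        refine ⟨?_, by simpa using h1⟩
        rw [nonAdj, Finset.mem_filter]
        refine ⟨Finset.mem_compl.2 h2, fun w hw => ?_⟩
        by_contra h4
        exact h3 ⟨w, hw, by simpa using h4⟩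
      exact hc K hK hK2 (fun x hx => (key x hx).1) ⟨i, fun x hx => (key x hx).2⟩
  have := cliqueChromaticNumber_le_card f hf
  refine this.trans (le_of_eq ?_)
  rw [Fintype.card_sum, Fintype.card_prod, Fintype.card_coe, Fintype.card_bool, Fintype.card_fin]
  ring

/-- Deterministic upper bound from a good (triangle-free) colouring. -/
theorem chi_le_of_goodCol {ω : Sym2 V → Bool} {W : Finset V} {Q a b : ℕ}
    (hcn : CommonNb ω) (hg : ∃ c : V → Fin Q, GoodCol ω (nonAdj ω W) a b c) :
    cliqueChromaticNumber (gr ω) ≤ 2 * W.card + Q := by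
  classical
  obtain ⟨c, hc⟩ := hg
  refine chi_le_of_colouring c ?_
  rintro K hK ⟨x, hx, y, hy, hxy⟩ hKL ⟨i, hi⟩
  obtain ⟨w, hwx, hwy, hw1, hw2⟩ := hcn x y hxy
  -- K has exactly the two elements x, y
  have hsub : ∀ z ∈ K, z = x ∨ z = y := by
    intro z hz
    by_contra hcon
    rw [not_or] at hcon
    have hT : ({x, y, z} : Finset V).card = 3 := by
      rw [Finset.card_eq_three]
      exact ⟨x, y, z, hxy, fun h => hcon.1 h.symm, fun h => hcon.2 h.symm, rfl⟩
    have hTK : ∀ u ∈ ({x, y, z} : Finset V), u ∈ K := by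
      intro u hu
      simp only [Finset.mem_insert, Finset.mem_singleton] at hu
      rcases hu with rfl | rfl | rfl <;> assumption
    refine (hc i).2.2 {x, y, z} ?_ hT ?_
    · intro u hu
      exact Finset.mem_filter.2 ⟨hKL u (hTK u hu), hi u (hTK u hu)⟩
    · rw [← isClique_iff_allOn]
      intro u hu v hv huv
      exact hK.prop (hTK u (Finset.mem_coe.1 hu)) (hTK v (Finset.mem_coe.1 hv)) huv
  have hcl : (gr ω).IsClique (insert w K) := by
    rw [SimpleGraph.isClique_insert]
    refine ⟨hK.prop, fun z hz hzw => ?_⟩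
    rcases hsub z hz with rfl | rfl
    · exact ⟨hwx, by rw [Sym2.eq_swap]; exact hw1⟩
    · exact ⟨hwy, by rw [Sym2.eq_swap]; exact hw2⟩
  have hwK : w ∈ K := hK.le_of_ge hcl (Set.subset_insert _ _) (Set.mem_insert _ _)
  rcases hsub w hwK with h | h
  · exact hwx h
  · exact hwy h

/-- Finite form of the upper bound. -/
theorem upper_finite {p : ℝ} (h0 : 0 ≤ p) (h1 : p ≤ 1) {Q a b : ℕ} (ha : 0 < a)
    (hQ : 0 < Q) (hb : 2 * (a * p) ≤ b + 1) (ℓ : ℝ) (W : Finset V) (hℓ0 : 0 ≤ ℓ)
    (hℓ : 4 * ((Fintype.card V : ℝ) * (1 - p) ^ W.card) ≤ ℓ) :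
    pr p (fun ω : Sym2 V → Bool => ¬ cliqueChromaticNumber (gr ω) ≤ 2 * W.card + Q) ≤
      (Fintype.card V : ℝ) ^ 2 * Real.exp (-(((Fintype.card V : ℝ) - 2) * p ^ 2)) +
      Real.exp (-(ℓ / 2)) +
      ℓ * Real.exp (-(1 / 2 * (1 - p ^ 2) ^ (a * b) * ((Q : ℝ) - ℓ / a))) := by
  classical
  have e1 := pr_commonNb (V := V) h0 h1
  have e3 := pr_goodCol_nonAdj (V := V) h0 h1 ha hQ hb ℓ W hℓ0
  have e2 : pr p (fun ω : Sym2 V → Bool => ℓ ≤ ((nonAdj ω W).card : ℝ)) ≤
      Real.exp (-(ℓ / 2)) := by
    have hcnt : ∀ ω : Sym2 V → Bool, (nonAdj ω W).card =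
        cnt Wᶜ (fun u ω => ∀ e ∈ star u W, ω e = false) ω := by
      intro ω
      apply card_eq_cnt
      intro u
      rw [nonAdj, Finset.mem_filter]
      refine and_congr_right fun _ => ?_
      constructor
      · intro h e he
        obtain ⟨x, hx, rfl⟩ := mem_star.1 he
        exact h x hx
      · intro h w hw
        exact h _ (mk_mem_star hw)
    have hch := chernoff_upper' (E := Sym2 V) h0 h1 Wᶜ
      (A := fun u ω => ∀ e ∈ star u W, ω e = false) (U := fun u => star u W) ?_ ?_
      ((1 - p) ^ W.card) ℓ ?_ ?_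
    · refine le_trans (le_of_eq ?_) hch
      exact pr_congr fun ω => by rw [hcnt]
    · intro v hv v' _ hvv'
      exact star_disjoint (Finset.mem_compl.1 hv) hvv'
    · intro x _ ω ω' hω
      apply propext
      exact forall₂_congr fun e he => by rw [hω e he]
    · intro u _
      rw [pr_all_false, card_star]
    · refine le_trans ?_ hℓ
      have h5 : (Wᶜ.card : ℝ) ≤ Fintype.card V := by exact_mod_cast Finset.card_le_univ _
      have h6 : 0 ≤ (1 - p) ^ W.card := pow_nonneg (by linarith) _
      nlinarith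
  refine le_trans (pr_mono h0 h1 (B := fun ω => ((¬ CommonNb ω) ∨ ℓ ≤ ((nonAdj ω W).card : ℝ)) ∨
    ((¬ ∃ c : V → Fin Q, GoodCol ω (nonAdj ω W) a b c) ∧ ((nonAdj ω W).card : ℝ) ≤ ℓ))
    fun ω hω => ?_) ?_
  · by_contra hcon
    rw [not_or, not_or, not_not, not_le] at hcon
    obtain ⟨⟨hcn, hlt⟩, hg⟩ := hcon
    have hg' : ∃ c : V → Fin Q, GoodCol ω (nonAdj ω W) a b c := by
      by_contra h
      exact hg ⟨h, hlt.le⟩
    exact hω (chi_le_of_goodCol hcn hg')
  · refine (pr_or_le h0 h1 _ _).trans (add_le_add ((pr_or_le h0 h1 _ _).trans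
      (add_le_add e1 e2)) e3)

end Pool.Agent.Helper96
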